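import Mathlib
import Pool.Agent.Lib.MP_dcc566_gt_R.FvD0

/-!
# Certificates for complete vertex lists: the checker

All functions are structurally recursive on lists, for evaluation by the kernel.
-/

set_option autoImplicit false

namespace Pool.Agent.RFV

open Pool.Agent.RFN

/-- Scalar product of two lists. -/
def dotL : List ℤ → List ℤ → ℤ
  | a :: x, b :: y => a * b + dotL x y
  | _, _ => 0

/-- Entrywise sum of two lists. -/
def addL : List ℤ → List ℤ → List ℤ
  | a :: x, b :: y => (a + b) :: addL x y
  | _, _ => []

/-- Membership. -/
def memL : List ℕ → ℕ → Bool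
  | [], _ => false
  | a :: l, i => Nat.beq a i || memL l i

/-- No repetitions. -/
def nodupL : List ℕ → Bool
  | [] => true
  | a :: l => !(memL l a) && nodupL l

/-- The bit `i` of `m`. -/
def tb (m i : ℕ) : Bool := Nat.beq ((m >>> i) % 2) 1

/-- The image of `i` under a packed permutation (6 bits for every value). -/
def pa (s i : ℕ) : ℕ := (s >>> (6 * i)) % 64

/-- A representative of the rays: coordinates, components (pairs facet, weight), packed edges (16 bits
for every choice of one facet in every component). -/
structure VRep where
  v : List ℤ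
  comps : List (List (ℕ × ℕ))
  edges : ℕ

/-- The facets of the components. -/
def VRep.cs (r : VRep) : List (List ℕ) := r.comps.map (fun C => C.map Prod.fst)

/-- The facets through the ray. -/
def VRep.I (r : VRep) : List ℕ := r.cs.flatten

/-- The edge `t` ends at the image of the representative `c / 128` under the permutation
`c % 128`: `ml` are the sets of facets through the representatives, `pl` the permutations. -/
def edgeOK (K P : ℕ) (ml pl I t : List ℕ) (c : ℕ) : Bool :=
  Nat.blt (c / 128) K && Nat.blt (c % 128) P &&
    I.all (fun i => tb (ml.getD (c / 128) 0) (pa (pl.getD (c % 128) 0) i) == !(memL t i))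

/-- `g i a` for the elements `i` of a list and their positions `a`. -/
def chkC (g : ℕ → ℕ → Bool) : List ℕ → ℕ → Bool
  | [], _ => true
  | i :: C, a => g i a && chkC g C (a + 1)

/-- `f t off` for all choices `t` of one element in every list. -/
def chkT (f : List ℕ → ℕ → Bool) : List (List ℕ) → List ℕ → ℕ → Bool
  | [], t, off => f t off
  | C :: Cs, t, off => chkC (fun i a => chkT f Cs (i :: t) (off * C.length + a)) C 0

/-- The products with the facets are `≥ 0` and vanish exactly on `I`; `i` is the running index. -/
def zeroPat (I : List ℕ) : List ℤ → ℕ → Bool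
  | [], _ => true
  | p :: ps, i => decide (0 ≤ p) && (decide (p = 0) == memL I i) && zeroPat I ps (i + 1)

/-- The bits `i, ..., i + M - 1` of `m` describe `I`. -/
def maskPat (m : ℕ) (I : List ℕ) : ℕ → ℕ → Bool
  | 0, _ => true
  | M + 1, i => (tb m i == memL I i) && maskPat m I M (i + 1)

/-- Weighted sum of roots. -/
def wsum (roots : List (List ℤ)) : List (ℕ × ℕ) → List ℤ
  | [] => List.replicate 19 0
  | x :: l => addL ((roots.getD x.1 []).map (fun a => (x.2 : ℤ) * a)) (wsum roots l)

/-- The check of one representative: `gm` is the Gram matrix, `lf` the functionals of the roots. -/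
def repOK (gm roots lf : List (List ℤ)) (K P M : ℕ) (ml pl : List ℕ) (k : ℕ) (r : VRep) : Bool :=
  decide (r.v.length = 19) && decide (1 ≤ r.comps.length) &&
    decide (r.I.length = 17 + r.comps.length) && nodupL r.I &&
    r.I.all (fun i => Nat.blt i M) &&
    r.comps.all (fun C => decide (1 ≤ C.length) && C.all (fun x => Nat.blt 0 x.2)) &&
    zeroPat r.I (lf.map (fun l => dotL l r.v)) 0 &&
    maskPat (ml.getD k 0) r.I M 0 &&
    r.v.any (fun a => !(decide (a = 0))) &&
    decide (dotL r.v (gm.map (fun l => dotL l r.v)) ≤ 0) &&
    r.comps.all (fun C => decide (wsum roots C = wsum roots (r.comps.getD 0 []))) &&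
    chkT (fun t off => edgeOK K P ml pl r.I t ((r.edges >>> (16 * off)) % 65536)) r.cs [] 0

/-- The check of a list of representatives, numbered from `k`. -/
def repsOK (gm roots lf : List (List ℤ)) (K P M : ℕ) (ml pl : List ℕ) : ℕ → List VRep → Bool
  | _, [] => true
  | k, r :: rs => repOK gm roots lf K P M ml pl k r && repsOK gm roots lf K P M ml pl (k + 1) rs

/-- The check of the roots: `lf` are the functionals, `gr` is the Gram matrix of the roots. -/
def rootsOK (gm roots lf gr : List (List ℤ)) (M : ℕ) : Bool :=
  decide (roots.length = M) && roots.all (fun e => decide (e.length = 19)) &&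
    decide (gm.length = 19) && gm.all (fun e => decide (e.length = 19)) &&
    decide (lf = roots.map (fun e => gm.map (fun l => dotL l e))) &&
    decide (gr = lf.map (fun l => roots.map (fun e => dotL l e)))

/-- The root `i` has positive norm dividing twice its products, the other products are `≤ 0`. -/
def rowOK (lf gr : List (List ℤ)) (M : ℕ) : ℕ → Bool
  | 0 => true
  | i + 1 => decide (0 < (gr.getD i []).getD i 0) &&
      (lf.getD i []).all (fun c => decide ((2 * c) % ((gr.getD i []).getD i 0) = 0)) &&
      ((List.range M).all fun j => Nat.beq j i || decide ((gr.getD i []).getD j 0 ≤ 0)) &&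
      rowOK lf gr M i

/-- Signed sums of roots. -/
def zsum (roots : List (List ℤ)) : List (ℕ × ℤ) → List ℤ
  | [] => List.replicate 19 0
  | x :: l => addL ((roots.getD x.1 []).map (fun a => x.2 * a)) (zsum roots l)

/-- The standard basis vectors are integral combinations of the roots. -/
def combOK (roots : List (List ℤ)) (M : ℕ) : ℕ → List (List (ℕ × ℤ)) → Bool
  | _, [] => true
  | c, x :: xs => x.all (fun y => Nat.blt y.1 M) &&
      decide (zsum roots x = (List.range 19).map (fun j => if Nat.beq j c then (1 : ℤ) else 0)) &&
      combOK roots M (c + 1) xs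

/-- The generator `g` preserves the Gram matrix. -/
def genOK (gr : List (List ℤ)) (M g : ℕ) : Bool :=
  (List.range M).all fun i => Nat.blt (pa g i) M &&
    (List.range M).all fun j =>
      decide ((gr.getD (pa g i) []).getD (pa g j) 0 = (gr.getD i []).getD j 0)

/-- The permutation number `s` is `gens[b] ∘ pl[a]`, `a < s`, where `(a, b)` is its entry in the list. -/
def permOK (gens pl : List ℕ) (M : ℕ) : ℕ → List (ℕ × ℕ) → Bool
  | _, [] => true
  | s, x :: xs => Nat.blt x.1 s && Nat.blt x.2 gens.length &&
      ((List.range M).all fun i =>
        Nat.beq (pa (pl.getD s 0) i) (pa (gens.getD x.2 0) (pa (pl.getD x.1 0) i))) &&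
      permOK gens pl M (s + 1) xs

/-- The first permutation is the identity. -/
def idOK (pl : List ℕ) (M : ℕ) : Bool := (List.range M).all fun i => Nat.beq (pa (pl.getD 0 0) i) i

end Pool.Agent.RFV
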