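import Mathlib
import Pool.Agent.Lib.MP_dcc566_gt_E.Hv0

/-!
# Certificate data, lattice C
-/

set_option autoImplicit false

namespace Pool.Agent.RFV

def gmC_0 : List ℤ := [0, 1, 0, 0, 0, 0, 0, 0, 0, 0, 0, 0, 0, 0, 0, 0, 0, 0, 0]
def gmC_1 : List ℤ := [1, 0, 0, 0, 0, 0, 0, 0, 0, 0, 0, 0, 0, 0, 0, 0, 0, 0, 0]
def gmC_2 : List ℤ := [0, 0, 2, 0, -1, 0, 0, 0, 0, 0, 0, 0, 0, 0, 0, 0, 0, 0, 0]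
def gmC_3 : List ℤ := [0, 0, 0, 2, 0, -1, 0, 0, 0, 0, 0, 0, 0, 0, 0, 0, 0, 0, 0]
def gmC_4 : List ℤ := [0, 0, -1, 0, 2, -1, 0, 0, 0, 0, 0, 0, 0, 0, 0, 0, 0, 0, 0]
def gmC_5 : List ℤ := [0, 0, 0, -1, -1, 2, -1, 0, 0, 0, 0, 0, 0, 0, 0, 0, 0, 0, 0]
def gmC_6 : List ℤ := [0, 0, 0, 0, 0, -1, 2, -1, 0, 0, 0, 0, 0, 0, 0, 0, 0, 0, 0]
def gmC_7 : List ℤ := [0, 0, 0, 0, 0, 0, -1, 2, -1, 0, 0, 0, 0, 0, 0, 0, 0, 0, 0]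
def gmC_8 : List ℤ := [0, 0, 0, 0, 0, 0, 0, -1, 2, -1, 0, 0, 0, 0, 0, 0, 0, 0, 0]
def gmC_9 : List ℤ := [0, 0, 0, 0, 0, 0, 0, 0, -1, 2, 0, 0, 0, 0, 0, 0, 0, 0, 0]
def gmC_10 : List ℤ := [0, 0, 0, 0, 0, 0, 0, 0, 0, 0, 2, 0, -1, 0, 0, 0, 0, 0, 0]
def gmC_11 : List ℤ := [0, 0, 0, 0, 0, 0, 0, 0, 0, 0, 0, 2, 0, -1, 0, 0, 0, 0, 0]
def gmC_12 : List ℤ := [0, 0, 0, 0, 0, 0, 0, 0, 0, 0, -1, 0, 2, -1, 0, 0, 0, 0, 0]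
def gmC_13 : List ℤ := [0, 0, 0, 0, 0, 0, 0, 0, 0, 0, 0, -1, -1, 2, -1, 0, 0, 0, 0]
def gmC_14 : List ℤ := [0, 0, 0, 0, 0, 0, 0, 0, 0, 0, 0, 0, 0, -1, 2, -1, 0, 0, 0]
def gmC_15 : List ℤ := [0, 0, 0, 0, 0, 0, 0, 0, 0, 0, 0, 0, 0, 0, -1, 2, -1, 0, 0]
def gmC_16 : List ℤ := [0, 0, 0, 0, 0, 0, 0, 0, 0, 0, 0, 0, 0, 0, 0, -1, 2, -1, 0]
def gmC_17 : List ℤ := [0, 0, 0, 0, 0, 0, 0, 0, 0, 0, 0, 0, 0, 0, 0, 0, -1, 2, 0]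
def gmC_18 : List ℤ := [0, 0, 0, 0, 0, 0, 0, 0, 0, 0, 0, 0, 0, 0, 0, 0, 0, 0, 2]

/-- The Gram matrix. -/
def gmC : List (List ℤ) :=
  [gmC_0, gmC_1, gmC_2, gmC_3, gmC_4, gmC_5, gmC_6, gmC_7, gmC_8, gmC_9, gmC_10, gmC_11, gmC_12, gmC_13, gmC_14, gmC_15, gmC_16, gmC_17, gmC_18]

def roC_0 : List ℤ := [0, 0, 1, 0, 0, 0, 0, 0, 0, 0, 0, 0, 0, 0, 0, 0, 0, 0, 0]
def roC_1 : List ℤ := [0, 0, 0, 1, 0, 0, 0, 0, 0, 0, 0, 0, 0, 0, 0, 0, 0, 0, 0]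
def roC_2 : List ℤ := [0, 0, 0, 0, 1, 0, 0, 0, 0, 0, 0, 0, 0, 0, 0, 0, 0, 0, 0]
def roC_3 : List ℤ := [0, 0, 0, 0, 0, 1, 0, 0, 0, 0, 0, 0, 0, 0, 0, 0, 0, 0, 0]
def roC_4 : List ℤ := [0, 0, 0, 0, 0, 0, 1, 0, 0, 0, 0, 0, 0, 0, 0, 0, 0, 0, 0]
def roC_5 : List ℤ := [0, 0, 0, 0, 0, 0, 0, 1, 0, 0, 0, 0, 0, 0, 0, 0, 0, 0, 0]
def roC_6 : List ℤ := [0, 0, 0, 0, 0, 0, 0, 0, 1, 0, 0, 0, 0, 0, 0, 0, 0, 0, 0]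
def roC_7 : List ℤ := [0, 0, 0, 0, 0, 0, 0, 0, 0, 1, 0, 0, 0, 0, 0, 0, 0, 0, 0]
def roC_8 : List ℤ := [0, 0, 0, 0, 0, 0, 0, 0, 0, 0, 1, 0, 0, 0, 0, 0, 0, 0, 0]
def roC_9 : List ℤ := [0, 0, 0, 0, 0, 0, 0, 0, 0, 0, 0, 1, 0, 0, 0, 0, 0, 0, 0]
def roC_10 : List ℤ := [0, 0, 0, 0, 0, 0, 0, 0, 0, 0, 0, 0, 1, 0, 0, 0, 0, 0, 0]
def roC_11 : List ℤ := [0, 0, 0, 0, 0, 0, 0, 0, 0, 0, 0, 0, 0, 1, 0, 0, 0, 0, 0]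
def roC_12 : List ℤ := [0, 0, 0, 0, 0, 0, 0, 0, 0, 0, 0, 0, 0, 0, 1, 0, 0, 0, 0]
def roC_13 : List ℤ := [0, 0, 0, 0, 0, 0, 0, 0, 0, 0, 0, 0, 0, 0, 0, 1, 0, 0, 0]
def roC_14 : List ℤ := [0, 0, 0, 0, 0, 0, 0, 0, 0, 0, 0, 0, 0, 0, 0, 0, 1, 0, 0]
def roC_15 : List ℤ := [0, 0, 0, 0, 0, 0, 0, 0, 0, 0, 0, 0, 0, 0, 0, 0, 0, 1, 0]
def roC_16 : List ℤ := [-1, 0, -2, -3, -4, -6, -5, -4, -3, -2, 0, 0, 0, 0, 0, 0, 0, 0, 0]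
def roC_17 : List ℤ := [-1, 0, 0, 0, 0, 0, 0, 0, 0, 0, -2, -3, -4, -6, -5, -4, -3, -2, 0]
def roC_18 : List ℤ := [0, 0, 0, 0, 0, 0, 0, 0, 0, 0, 0, 0, 0, 0, 0, 0, 0, 0, 1]
def roC_19 : List ℤ := [-1, 0, 0, 0, 0, 0, 0, 0, 0, 0, 0, 0, 0, 0, 0, 0, 0, 0, -1]
def roC_20 : List ℤ := [1, 1, 0, 0, 0, 0, 0, 0, 0, 0, 0, 0, 0, 0, 0, 0, 0, 0, 0]
def roC_21 : List ℤ := [-2, 2, -4, -5, -7, -10, -8, -6, -4, -2, -4, -5, -7, -10, -8, -6, -4, -2, -1]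
def roC_22 : List ℤ := [-6, 6, -8, -12, -16, -24, -20, -16, -12, -6, -10, -16, -20, -30, -24, -18, -12, -6, -3]
def roC_23 : List ℤ := [-6, 6, -10, -16, -20, -30, -24, -18, -12, -6, -8, -12, -16, -24, -20, -16, -12, -6, -3]

/-- The roots. -/
def roC : List (List ℤ) :=
  [roC_0, roC_1, roC_2, roC_3, roC_4, roC_5, roC_6, roC_7, roC_8, roC_9, roC_10, roC_11, roC_12, roC_13, roC_14, roC_15, roC_16, roC_17, roC_18, roC_19, roC_20, roC_21, roC_22, roC_23]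

def lfC_0 : List ℤ := [0, 0, 2, 0, -1, 0, 0, 0, 0, 0, 0, 0, 0, 0, 0, 0, 0, 0, 0]
def lfC_1 : List ℤ := [0, 0, 0, 2, 0, -1, 0, 0, 0, 0, 0, 0, 0, 0, 0, 0, 0, 0, 0]
def lfC_2 : List ℤ := [0, 0, -1, 0, 2, -1, 0, 0, 0, 0, 0, 0, 0, 0, 0, 0, 0, 0, 0]
def lfC_3 : List ℤ := [0, 0, 0, -1, -1, 2, -1, 0, 0, 0, 0, 0, 0, 0, 0, 0, 0, 0, 0]
def lfC_4 : List ℤ := [0, 0, 0, 0, 0, -1, 2, -1, 0, 0, 0, 0, 0, 0, 0, 0, 0, 0, 0]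
def lfC_5 : List ℤ := [0, 0, 0, 0, 0, 0, -1, 2, -1, 0, 0, 0, 0, 0, 0, 0, 0, 0, 0]
def lfC_6 : List ℤ := [0, 0, 0, 0, 0, 0, 0, -1, 2, -1, 0, 0, 0, 0, 0, 0, 0, 0, 0]
def lfC_7 : List ℤ := [0, 0, 0, 0, 0, 0, 0, 0, -1, 2, 0, 0, 0, 0, 0, 0, 0, 0, 0]
def lfC_8 : List ℤ := [0, 0, 0, 0, 0, 0, 0, 0, 0, 0, 2, 0, -1, 0, 0, 0, 0, 0, 0]
def lfC_9 : List ℤ := [0, 0, 0, 0, 0, 0, 0, 0, 0, 0, 0, 2, 0, -1, 0, 0, 0, 0, 0]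
def lfC_10 : List ℤ := [0, 0, 0, 0, 0, 0, 0, 0, 0, 0, -1, 0, 2, -1, 0, 0, 0, 0, 0]
def lfC_11 : List ℤ := [0, 0, 0, 0, 0, 0, 0, 0, 0, 0, 0, -1, -1, 2, -1, 0, 0, 0, 0]
def lfC_12 : List ℤ := [0, 0, 0, 0, 0, 0, 0, 0, 0, 0, 0, 0, 0, -1, 2, -1, 0, 0, 0]
def lfC_13 : List ℤ := [0, 0, 0, 0, 0, 0, 0, 0, 0, 0, 0, 0, 0, 0, -1, 2, -1, 0, 0]
def lfC_14 : List ℤ := [0, 0, 0, 0, 0, 0, 0, 0, 0, 0, 0, 0, 0, 0, 0, -1, 2, -1, 0]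
def lfC_15 : List ℤ := [0, 0, 0, 0, 0, 0, 0, 0, 0, 0, 0, 0, 0, 0, 0, 0, -1, 2, 0]
def lfC_16 : List ℤ := [0, -1, 0, 0, 0, 0, 0, 0, 0, -1, 0, 0, 0, 0, 0, 0, 0, 0, 0]
def lfC_17 : List ℤ := [0, -1, 0, 0, 0, 0, 0, 0, 0, 0, 0, 0, 0, 0, 0, 0, 0, -1, 0]
def lfC_18 : List ℤ := [0, 0, 0, 0, 0, 0, 0, 0, 0, 0, 0, 0, 0, 0, 0, 0, 0, 0, 2]
def lfC_19 : List ℤ := [0, -1, 0, 0, 0, 0, 0, 0, 0, 0, 0, 0, 0, 0, 0, 0, 0, 0, -2]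
def lfC_20 : List ℤ := [1, 1, 0, 0, 0, 0, 0, 0, 0, 0, 0, 0, 0, 0, 0, 0, 0, 0, 0]
def lfC_21 : List ℤ := [2, -2, -1, 0, 0, 0, 0, 0, 0, 0, -1, 0, 0, 0, 0, 0, 0, 0, -2]
def lfC_22 : List ℤ := [6, -6, 0, 0, 0, 0, 0, 0, -2, 0, 0, -2, 0, 0, 0, 0, 0, 0, -6]
def lfC_23 : List ℤ := [6, -6, 0, -2, 0, 0, 0, 0, 0, 0, 0, 0, 0, 0, 0, 0, -2, 0, -6]

/-- The functionals of the roots. -/
def lfC : List (List ℤ) :=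
  [lfC_0, lfC_1, lfC_2, lfC_3, lfC_4, lfC_5, lfC_6, lfC_7, lfC_8, lfC_9, lfC_10, lfC_11, lfC_12, lfC_13, lfC_14, lfC_15, lfC_16, lfC_17, lfC_18, lfC_19, lfC_20, lfC_21, lfC_22, lfC_23]

def grC_0 : List ℤ := [2, 0, -1, 0, 0, 0, 0, 0, 0, 0, 0, 0, 0, 0, 0, 0, 0, 0, 0, 0, 0, -1, 0, 0]
def grC_1 : List ℤ := [0, 2, 0, -1, 0, 0, 0, 0, 0, 0, 0, 0, 0, 0, 0, 0, 0, 0, 0, 0, 0, 0, 0, -2]
def grC_2 : List ℤ := [-1, 0, 2, -1, 0, 0, 0, 0, 0, 0, 0, 0, 0, 0, 0, 0, 0, 0, 0, 0, 0, 0, 0, 0]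
def grC_3 : List ℤ := [0, -1, -1, 2, -1, 0, 0, 0, 0, 0, 0, 0, 0, 0, 0, 0, 0, 0, 0, 0, 0, 0, 0, 0]
def grC_4 : List ℤ := [0, 0, 0, -1, 2, -1, 0, 0, 0, 0, 0, 0, 0, 0, 0, 0, 0, 0, 0, 0, 0, 0, 0, 0]
def grC_5 : List ℤ := [0, 0, 0, 0, -1, 2, -1, 0, 0, 0, 0, 0, 0, 0, 0, 0, 0, 0, 0, 0, 0, 0, 0, 0]
def grC_6 : List ℤ := [0, 0, 0, 0, 0, -1, 2, -1, 0, 0, 0, 0, 0, 0, 0, 0, 0, 0, 0, 0, 0, 0, -2, 0]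
def grC_7 : List ℤ := [0, 0, 0, 0, 0, 0, -1, 2, 0, 0, 0, 0, 0, 0, 0, 0, -1, 0, 0, 0, 0, 0, 0, 0]
def grC_8 : List ℤ := [0, 0, 0, 0, 0, 0, 0, 0, 2, 0, -1, 0, 0, 0, 0, 0, 0, 0, 0, 0, 0, -1, 0, 0]
def grC_9 : List ℤ := [0, 0, 0, 0, 0, 0, 0, 0, 0, 2, 0, -1, 0, 0, 0, 0, 0, 0, 0, 0, 0, 0, -2, 0]
def grC_10 : List ℤ := [0, 0, 0, 0, 0, 0, 0, 0, -1, 0, 2, -1, 0, 0, 0, 0, 0, 0, 0, 0, 0, 0, 0, 0]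
def grC_11 : List ℤ := [0, 0, 0, 0, 0, 0, 0, 0, 0, -1, -1, 2, -1, 0, 0, 0, 0, 0, 0, 0, 0, 0, 0, 0]
def grC_12 : List ℤ := [0, 0, 0, 0, 0, 0, 0, 0, 0, 0, 0, -1, 2, -1, 0, 0, 0, 0, 0, 0, 0, 0, 0, 0]
def grC_13 : List ℤ := [0, 0, 0, 0, 0, 0, 0, 0, 0, 0, 0, 0, -1, 2, -1, 0, 0, 0, 0, 0, 0, 0, 0, 0]
def grC_14 : List ℤ := [0, 0, 0, 0, 0, 0, 0, 0, 0, 0, 0, 0, 0, -1, 2, -1, 0, 0, 0, 0, 0, 0, 0, -2]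
def grC_15 : List ℤ := [0, 0, 0, 0, 0, 0, 0, 0, 0, 0, 0, 0, 0, 0, -1, 2, 0, -1, 0, 0, 0, 0, 0, 0]
def grC_16 : List ℤ := [0, 0, 0, 0, 0, 0, 0, -1, 0, 0, 0, 0, 0, 0, 0, 0, 2, 0, 0, 0, -1, 0, 0, 0]
def grC_17 : List ℤ := [0, 0, 0, 0, 0, 0, 0, 0, 0, 0, 0, 0, 0, 0, 0, -1, 0, 2, 0, 0, -1, 0, 0, 0]
def grC_18 : List ℤ := [0, 0, 0, 0, 0, 0, 0, 0, 0, 0, 0, 0, 0, 0, 0, 0, 0, 0, 2, -2, 0, -2, -6, -6]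
def grC_19 : List ℤ := [0, 0, 0, 0, 0, 0, 0, 0, 0, 0, 0, 0, 0, 0, 0, 0, 0, 0, -2, 2, -1, 0, 0, 0]
def grC_20 : List ℤ := [0, 0, 0, 0, 0, 0, 0, 0, 0, 0, 0, 0, 0, 0, 0, 0, -1, -1, 0, -1, 2, 0, 0, 0]
def grC_21 : List ℤ := [-1, 0, 0, 0, 0, 0, 0, 0, -1, 0, 0, 0, 0, 0, 0, 0, 0, 0, -2, 0, 0, 2, 0, 0]
def grC_22 : List ℤ := [0, 0, 0, 0, 0, 0, -2, 0, 0, -2, 0, 0, 0, 0, 0, 0, 0, 0, -6, 0, 0, 0, 2, -6]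
def grC_23 : List ℤ := [0, -2, 0, 0, 0, 0, 0, 0, 0, 0, 0, 0, 0, 0, -2, 0, 0, 0, -6, 0, 0, 0, -6, 2]

/-- The Gram matrix of the roots. -/
def grC : List (List ℤ) :=
  [grC_0, grC_1, grC_2, grC_3, grC_4, grC_5, grC_6, grC_7, grC_8, grC_9, grC_10, grC_11, grC_12, grC_13, grC_14, grC_15, grC_16, grC_17, grC_18, grC_19, grC_20, grC_21, grC_22, grC_23]

/-- Generators of the symmetry group. -/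
def geC : List ℕ := [8112856866577258977547068803871889098031173, 6397833737285740314308782986562514665407687]

/-- The symmetry group, packed permutations. -/
def plC : List ℕ :=
  [8135923166407745605679949624286930577137728,
   8112856866577258977547068803871889098031173,
   6397833737285740314308782986562514665407687,
   6393058984454691431465753623424275332535503,
   7792918540546438199551419936406725288829512,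
   7765077487889903963911649838590037599240781]

/-- The permutation number `s + 1` is `ge[b] ∘ pl[a]` for the entry `(a, b)`. -/
def pdC : List (ℕ × ℕ) :=
  [(0, 0), (0, 1), (1, 1), (2, 0), (2, 1)]

/-- The sets of facets through the representatives. -/
def mlC : List ℕ :=
  [1048575, 3929951, 8125791, 3405791, 7601567, 3864543, 8060319, 2881503, 7077279, 3799007, 7994783, 3897311, 1572575, 1832831, 1572543, 3931775, 1572479, 1769215, 1507071, 3407351, 1572349, 3405807, 7601583, 3405815, 1572343, 2883055, 1572335, 2883039, 1572319, 1570751, 1572287, 1834367, 1572223, 1768959, 1506815, 3864559, 8060335, 2881519, 7077295, 3799023, 1571823, 2882527, 1571807, 1767423, 1571775, 1833855, 1571711, 1768447, 1506303, 2881527, 1570807, 1570799, 1570783, 1570687, 1505279,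 2879471, 1568751, 2879455, 1568735, 1753087, 1568703, 1830783, 1568639, 1765375, 1503231, 1564639, 1818495, 1564607, 1826687, 1564543, 1761279, 1499135, 1818559, 1556415, 1556351, 1490943, 1802111, 1539967, 1736703, 1474559, 1638399, 1376255, 3927903, 3898847, 3407327, 3800543, 3866079, 3406815, 3403743, 3895263, 3865567, 3862495, 3898335, 3800031, 3796959, 3899103, 3407357, 3407343, 3406831, 3403759, 3866095, 3796975, 3800047]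

/-- The standard basis vectors as combinations of the roots. -/
def cbC : List (List (ℕ × ℤ)) :=
  [[(16, -1), (0, -2), (1, -3), (2, -4), (3, -6), (4, -5), (5, -4), (6, -3), (7, -2)],
   [(20, 1), (16, 1), (0, 2), (1, 3), (2, 4), (3, 6), (4, 5), (5, 4), (6, 3), (7, 2)],
   [(0, 1)],
   [(1, 1)],
   [(2, 1)],
   [(3, 1)],
   [(4, 1)],
   [(5, 1)],
   [(6, 1)],
   [(7, 1)],
   [(8, 1)],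
   [(9, 1)],
   [(10, 1)],
   [(11, 1)],
   [(12, 1)],
   [(13, 1)],
   [(14, 1)],
   [(15, 1)],
   [(18, 1)]]

/-- Weights. -/
def cwC : List ℤ := [6, 78, 1, 6, 1, 6, 79, 6, 6, 78, 1, 6, 1, 6, 79, 6, 1, 1, 491, 78, 6, 79, 491, 491]

end Pool.Agent.RFV
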