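import Mathlib
import Pool.Agent.Lib.MP_dcc566_gt_E.DtC

/-!
# Certificate check, lattice C, roots and symmetries
-/

set_option autoImplicit false

namespace Pool.Agent.RFV

theorem rootsOK_C : rootsOK gmC roC lfC grC 24 = true := by
  decide +kernel

theorem rowOK_C : rowOK lfC grC 24 24 = true := by
  decide +kernel

theorem combOK_C : combOK roC 24 0 cbC = true := by
  decide +kernel

theorem genOK_C : geC.all (genOK grC 24) = true := by
  decide +kernel

theorem permOK_C : permOK geC plC 24 1 pdC = true := by
  decide +kernel

theorem idOK_C : idOK plC 24 = true := by
  decide +kernel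

end Pool.Agent.RFV
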