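import Mathlib
import Pool.Agent.Lib.MP_dcc566_gt_E.Hv0

/-!
# Certificate data, lattice D
-/

set_option autoImplicit false

namespace Pool.Agent.RFV

def gmD_0 : List ℤ := [0, 1, 0, 0, 0, 0, 0, 0, 0, 0, 0, 0, 0, 0, 0, 0, 0, 0, 0]
def gmD_1 : List ℤ := [1, 0, 0, 0, 0, 0, 0, 0, 0, 0, 0, 0, 0, 0, 0, 0, 0, 0, 0]
def gmD_2 : List ℤ := [0, 0, 2, 0, -1, 0, 0, 0, 0, 0, 0, 0, 0, 0, 0, 0, 0, 0, 0]
def gmD_3 : List ℤ := [0, 0, 0, 2, 0, -1, 0, 0, 0, 0, 0, 0, 0, 0, 0, 0, 0, 0, 0]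
def gmD_4 : List ℤ := [0, 0, -1, 0, 2, -1, 0, 0, 0, 0, 0, 0, 0, 0, 0, 0, 0, 0, 0]
def gmD_5 : List ℤ := [0, 0, 0, -1, -1, 2, -1, 0, 0, 0, 0, 0, 0, 0, 0, 0, 0, 0, 0]
def gmD_6 : List ℤ := [0, 0, 0, 0, 0, -1, 2, -1, 0, 0, 0, 0, 0, 0, 0, 0, 0, 0, 0]
def gmD_7 : List ℤ := [0, 0, 0, 0, 0, 0, -1, 2, -1, 0, 0, 0, 0, 0, 0, 0, 0, 0, 0]
def gmD_8 : List ℤ := [0, 0, 0, 0, 0, 0, 0, -1, 2, -1, 0, 0, 0, 0, 0, 0, 0, 0, 0]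
def gmD_9 : List ℤ := [0, 0, 0, 0, 0, 0, 0, 0, -1, 2, 0, 0, 0, 0, 0, 0, 0, 0, 0]
def gmD_10 : List ℤ := [0, 0, 0, 0, 0, 0, 0, 0, 0, 0, 2, 0, -1, 0, 0, 0, 0, 0, 0]
def gmD_11 : List ℤ := [0, 0, 0, 0, 0, 0, 0, 0, 0, 0, 0, 2, 0, -1, 0, 0, 0, 0, 0]
def gmD_12 : List ℤ := [0, 0, 0, 0, 0, 0, 0, 0, 0, 0, -1, 0, 2, -1, 0, 0, 0, 0, 0]
def gmD_13 : List ℤ := [0, 0, 0, 0, 0, 0, 0, 0, 0, 0, 0, -1, -1, 2, -1, 0, 0, 0, 0]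
def gmD_14 : List ℤ := [0, 0, 0, 0, 0, 0, 0, 0, 0, 0, 0, 0, 0, -1, 2, -1, 0, 0, 0]
def gmD_15 : List ℤ := [0, 0, 0, 0, 0, 0, 0, 0, 0, 0, 0, 0, 0, 0, -1, 2, -1, 0, 0]
def gmD_16 : List ℤ := [0, 0, 0, 0, 0, 0, 0, 0, 0, 0, 0, 0, 0, 0, 0, -1, 2, -1, 0]
def gmD_17 : List ℤ := [0, 0, 0, 0, 0, 0, 0, 0, 0, 0, 0, 0, 0, 0, 0, 0, -1, 2, 0]
def gmD_18 : List ℤ := [0, 0, 0, 0, 0, 0, 0, 0, 0, 0, 0, 0, 0, 0, 0, 0, 0, 0, 4]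

/-- The Gram matrix. -/
def gmD : List (List ℤ) :=
  [gmD_0, gmD_1, gmD_2, gmD_3, gmD_4, gmD_5, gmD_6, gmD_7, gmD_8, gmD_9, gmD_10, gmD_11, gmD_12, gmD_13, gmD_14, gmD_15, gmD_16, gmD_17, gmD_18]

def roD_0 : List ℤ := [0, 0, 1, 0, 0, 0, 0, 0, 0, 0, 0, 0, 0, 0, 0, 0, 0, 0, 0]
def roD_1 : List ℤ := [0, 0, 0, 1, 0, 0, 0, 0, 0, 0, 0, 0, 0, 0, 0, 0, 0, 0, 0]
def roD_2 : List ℤ := [0, 0, 0, 0, 1, 0, 0, 0, 0, 0, 0, 0, 0, 0, 0, 0, 0, 0, 0]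
def roD_3 : List ℤ := [0, 0, 0, 0, 0, 1, 0, 0, 0, 0, 0, 0, 0, 0, 0, 0, 0, 0, 0]
def roD_4 : List ℤ := [0, 0, 0, 0, 0, 0, 1, 0, 0, 0, 0, 0, 0, 0, 0, 0, 0, 0, 0]
def roD_5 : List ℤ := [0, 0, 0, 0, 0, 0, 0, 1, 0, 0, 0, 0, 0, 0, 0, 0, 0, 0, 0]
def roD_6 : List ℤ := [0, 0, 0, 0, 0, 0, 0, 0, 1, 0, 0, 0, 0, 0, 0, 0, 0, 0, 0]
def roD_7 : List ℤ := [0, 0, 0, 0, 0, 0, 0, 0, 0, 1, 0, 0, 0, 0, 0, 0, 0, 0, 0]
def roD_8 : List ℤ := [0, 0, 0, 0, 0, 0, 0, 0, 0, 0, 1, 0, 0, 0, 0, 0, 0, 0, 0]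
def roD_9 : List ℤ := [0, 0, 0, 0, 0, 0, 0, 0, 0, 0, 0, 1, 0, 0, 0, 0, 0, 0, 0]
def roD_10 : List ℤ := [0, 0, 0, 0, 0, 0, 0, 0, 0, 0, 0, 0, 1, 0, 0, 0, 0, 0, 0]
def roD_11 : List ℤ := [0, 0, 0, 0, 0, 0, 0, 0, 0, 0, 0, 0, 0, 1, 0, 0, 0, 0, 0]
def roD_12 : List ℤ := [0, 0, 0, 0, 0, 0, 0, 0, 0, 0, 0, 0, 0, 0, 1, 0, 0, 0, 0]
def roD_13 : List ℤ := [0, 0, 0, 0, 0, 0, 0, 0, 0, 0, 0, 0, 0, 0, 0, 1, 0, 0, 0]
def roD_14 : List ℤ := [0, 0, 0, 0, 0, 0, 0, 0, 0, 0, 0, 0, 0, 0, 0, 0, 1, 0, 0]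
def roD_15 : List ℤ := [0, 0, 0, 0, 0, 0, 0, 0, 0, 0, 0, 0, 0, 0, 0, 0, 0, 1, 0]
def roD_16 : List ℤ := [-1, 0, -2, -3, -4, -6, -5, -4, -3, -2, 0, 0, 0, 0, 0, 0, 0, 0, 0]
def roD_17 : List ℤ := [-1, 0, 0, 0, 0, 0, 0, 0, 0, 0, -2, -3, -4, -6, -5, -4, -3, -2, 0]
def roD_18 : List ℤ := [0, 0, 0, 0, 0, 0, 0, 0, 0, 0, 0, 0, 0, 0, 0, 0, 0, 0, 1]
def roD_19 : List ℤ := [-2, 0, 0, 0, 0, 0, 0, 0, 0, 0, 0, 0, 0, 0, 0, 0, 0, 0, -1]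
def roD_20 : List ℤ := [1, 1, 0, 0, 0, 0, 0, 0, 0, 0, 0, 0, 0, 0, 0, 0, 0, 0, 0]
def roD_21 : List ℤ := [-2, 2, -2, -3, -4, -6, -5, -4, -3, -2, -4, -5, -7, -10, -8, -6, -4, -2, -1]
def roD_22 : List ℤ := [-2, 2, -4, -5, -7, -10, -8, -6, -4, -2, -2, -3, -4, -6, -5, -4, -3, -2, -1]
def roD_23 : List ℤ := [-4, 4, -8, -10, -14, -20, -16, -12, -8, -4, -8, -10, -14, -20, -16, -12, -8, -4, -1]
def roD_24 : List ℤ := [-3, 3, -5, -8, -10, -15, -12, -9, -6, -3, -5, -8, -10, -15, -12, -9, -6, -3, -1]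
def roD_25 : List ℤ := [-8, 8, -12, -18, -24, -36, -30, -24, -16, -8, -12, -18, -24, -36, -30, -24, -16, -8, -3]
def roD_26 : List ℤ := [-12, 12, -16, -24, -32, -48, -40, -32, -24, -12, -16, -24, -32, -48, -40, -32, -24, -12, -5]
def roD_27 : List ℤ := [-12, 12, -20, -32, -40, -60, -48, -36, -24, -12, -16, -20, -28, -40, -32, -24, -16, -8, -5]
def roD_28 : List ℤ := [-12, 12, -16, -20, -28, -40, -32, -24, -16, -8, -20, -32, -40, -60, -48, -36, -24, -12, -5]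
def roD_29 : List ℤ := [-16, 16, -24, -36, -48, -72, -60, -48, -32, -16, -28, -40, -56, -80, -64, -48, -32, -16, -5]
def roD_30 : List ℤ := [-16, 16, -28, -40, -56, -80, -64, -48, -32, -16, -24, -36, -48, -72, -60, -48, -32, -16, -5]
def roD_31 : List ℤ := [-16, 16, -24, -36, -48, -72, -60, -48, -32, -16, -20, -32, -40, -60, -48, -36, -24, -12, -7]
def roD_32 : List ℤ := [-20, 16, -28, -40, -56, -80, -64, -48, -32, -16, -28, -40, -56, -80, -64, -48, -32, -16, -7]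
def roD_33 : List ℤ := [-16, 16, -20, -32, -40, -60, -48, -36, -24, -12, -24, -36, -48, -72, -60, -48, -32, -16, -7]
def roD_34 : List ℤ := [-20, 20, -32, -48, -64, -96, -80, -60, -40, -20, -32, -44, -60, -88, -72, -56, -40, -20, -7]
def roD_35 : List ℤ := [-20, 20, -32, -44, -60, -88, -72, -56, -40, -20, -32, -48, -64, -96, -80, -60, -40, -20, -7]
def roD_36 : List ℤ := [-24, 20, -32, -48, -64, -96, -80, -60, -40, -20, -32, -48, -64, -96, -80, -60, -40, -20, -9]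

/-- The roots. -/
def roD : List (List ℤ) :=
  [roD_0, roD_1, roD_2, roD_3, roD_4, roD_5, roD_6, roD_7, roD_8, roD_9, roD_10, roD_11, roD_12, roD_13, roD_14, roD_15, roD_16, roD_17, roD_18, roD_19, roD_20, roD_21, roD_22, roD_23, roD_24, roD_25, roD_26, roD_27, roD_28, roD_29, roD_30, roD_31, roD_32, roD_33, roD_34, roD_35, roD_36]

def lfD_0 : List ℤ := [0, 0, 2, 0, -1, 0, 0, 0, 0, 0, 0, 0, 0, 0, 0, 0, 0, 0, 0]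
def lfD_1 : List ℤ := [0, 0, 0, 2, 0, -1, 0, 0, 0, 0, 0, 0, 0, 0, 0, 0, 0, 0, 0]
def lfD_2 : List ℤ := [0, 0, -1, 0, 2, -1, 0, 0, 0, 0, 0, 0, 0, 0, 0, 0, 0, 0, 0]
def lfD_3 : List ℤ := [0, 0, 0, -1, -1, 2, -1, 0, 0, 0, 0, 0, 0, 0, 0, 0, 0, 0, 0]
def lfD_4 : List ℤ := [0, 0, 0, 0, 0, -1, 2, -1, 0, 0, 0, 0, 0, 0, 0, 0, 0, 0, 0]
def lfD_5 : List ℤ := [0, 0, 0, 0, 0, 0, -1, 2, -1, 0, 0, 0, 0, 0, 0, 0, 0, 0, 0]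
def lfD_6 : List ℤ := [0, 0, 0, 0, 0, 0, 0, -1, 2, -1, 0, 0, 0, 0, 0, 0, 0, 0, 0]
def lfD_7 : List ℤ := [0, 0, 0, 0, 0, 0, 0, 0, -1, 2, 0, 0, 0, 0, 0, 0, 0, 0, 0]
def lfD_8 : List ℤ := [0, 0, 0, 0, 0, 0, 0, 0, 0, 0, 2, 0, -1, 0, 0, 0, 0, 0, 0]
def lfD_9 : List ℤ := [0, 0, 0, 0, 0, 0, 0, 0, 0, 0, 0, 2, 0, -1, 0, 0, 0, 0, 0]
def lfD_10 : List ℤ := [0, 0, 0, 0, 0, 0, 0, 0, 0, 0, -1, 0, 2, -1, 0, 0, 0, 0, 0]
def lfD_11 : List ℤ := [0, 0, 0, 0, 0, 0, 0, 0, 0, 0, 0, -1, -1, 2, -1, 0, 0, 0, 0]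
def lfD_12 : List ℤ := [0, 0, 0, 0, 0, 0, 0, 0, 0, 0, 0, 0, 0, -1, 2, -1, 0, 0, 0]
def lfD_13 : List ℤ := [0, 0, 0, 0, 0, 0, 0, 0, 0, 0, 0, 0, 0, 0, -1, 2, -1, 0, 0]
def lfD_14 : List ℤ := [0, 0, 0, 0, 0, 0, 0, 0, 0, 0, 0, 0, 0, 0, 0, -1, 2, -1, 0]
def lfD_15 : List ℤ := [0, 0, 0, 0, 0, 0, 0, 0, 0, 0, 0, 0, 0, 0, 0, 0, -1, 2, 0]
def lfD_16 : List ℤ := [0, -1, 0, 0, 0, 0, 0, 0, 0, -1, 0, 0, 0, 0, 0, 0, 0, 0, 0]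
def lfD_17 : List ℤ := [0, -1, 0, 0, 0, 0, 0, 0, 0, 0, 0, 0, 0, 0, 0, 0, 0, -1, 0]
def lfD_18 : List ℤ := [0, 0, 0, 0, 0, 0, 0, 0, 0, 0, 0, 0, 0, 0, 0, 0, 0, 0, 4]
def lfD_19 : List ℤ := [0, -2, 0, 0, 0, 0, 0, 0, 0, 0, 0, 0, 0, 0, 0, 0, 0, 0, -4]
def lfD_20 : List ℤ := [1, 1, 0, 0, 0, 0, 0, 0, 0, 0, 0, 0, 0, 0, 0, 0, 0, 0, 0]
def lfD_21 : List ℤ := [2, -2, 0, 0, 0, 0, 0, 0, 0, -1, -1, 0, 0, 0, 0, 0, 0, 0, -4]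
def lfD_22 : List ℤ := [2, -2, -1, 0, 0, 0, 0, 0, 0, 0, 0, 0, 0, 0, 0, 0, 0, -1, -4]
def lfD_23 : List ℤ := [4, -4, -2, 0, 0, 0, 0, 0, 0, 0, -2, 0, 0, 0, 0, 0, 0, 0, -4]
def lfD_24 : List ℤ := [3, -3, 0, -1, 0, 0, 0, 0, 0, 0, 0, -1, 0, 0, 0, 0, 0, 0, -4]
def lfD_25 : List ℤ := [8, -8, 0, 0, 0, 0, 0, -2, 0, 0, 0, 0, 0, 0, 0, -2, 0, 0, -12]
def lfD_26 : List ℤ := [12, -12, 0, 0, 0, 0, 0, 0, -4, 0, 0, 0, 0, 0, 0, 0, -4, 0, -20]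
def lfD_27 : List ℤ := [12, -12, 0, -4, 0, 0, 0, 0, 0, 0, -4, 0, 0, 0, 0, 0, 0, 0, -20]
def lfD_28 : List ℤ := [12, -12, -4, 0, 0, 0, 0, 0, 0, 0, 0, -4, 0, 0, 0, 0, 0, 0, -20]
def lfD_29 : List ℤ := [16, -16, 0, 0, 0, 0, 0, -4, 0, 0, 0, 0, -4, 0, 0, 0, 0, 0, -20]
def lfD_30 : List ℤ := [16, -16, 0, 0, -4, 0, 0, 0, 0, 0, 0, 0, 0, 0, 0, -4, 0, 0, -20]
def lfD_31 : List ℤ := [16, -16, 0, 0, 0, 0, 0, -4, 0, 0, 0, -4, 0, 0, 0, 0, 0, 0, -28]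
def lfD_32 : List ℤ := [16, -20, 0, 0, -4, 0, 0, 0, 0, 0, 0, 0, -4, 0, 0, 0, 0, 0, -28]
def lfD_33 : List ℤ := [16, -16, 0, -4, 0, 0, 0, 0, 0, 0, 0, 0, 0, 0, 0, -4, 0, 0, -28]
def lfD_34 : List ℤ := [20, -20, 0, 0, 0, 0, -4, 0, 0, 0, -4, 0, 0, 0, 0, 0, -4, 0, -28]
def lfD_35 : List ℤ := [20, -20, -4, 0, 0, 0, 0, 0, -4, 0, 0, 0, 0, 0, -4, 0, 0, 0, -28]
def lfD_36 : List ℤ := [20, -24, 0, 0, 0, 0, -4, 0, 0, 0, 0, 0, 0, 0, -4, 0, 0, 0, -36]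

/-- The functionals of the roots. -/
def lfD : List (List ℤ) :=
  [lfD_0, lfD_1, lfD_2, lfD_3, lfD_4, lfD_5, lfD_6, lfD_7, lfD_8, lfD_9, lfD_10, lfD_11, lfD_12, lfD_13, lfD_14, lfD_15, lfD_16, lfD_17, lfD_18, lfD_19, lfD_20, lfD_21, lfD_22, lfD_23, lfD_24, lfD_25, lfD_26, lfD_27, lfD_28, lfD_29, lfD_30, lfD_31, lfD_32, lfD_33, lfD_34, lfD_35, lfD_36]

def grD_0 : List ℤ := [2, 0, -1, 0, 0, 0, 0, 0, 0, 0, 0, 0, 0, 0, 0, 0, 0, 0, 0, 0, 0, 0, -1, -2, 0, 0, 0, 0, -4, 0, 0, 0, 0, 0, 0, -4, 0]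
def grD_1 : List ℤ := [0, 2, 0, -1, 0, 0, 0, 0, 0, 0, 0, 0, 0, 0, 0, 0, 0, 0, 0, 0, 0, 0, 0, 0, -1, 0, 0, -4, 0, 0, 0, 0, 0, -4, 0, 0, 0]
def grD_2 : List ℤ := [-1, 0, 2, -1, 0, 0, 0, 0, 0, 0, 0, 0, 0, 0, 0, 0, 0, 0, 0, 0, 0, 0, 0, 0, 0, 0, 0, 0, 0, 0, -4, 0, -4, 0, 0, 0, 0]
def grD_3 : List ℤ := [0, -1, -1, 2, -1, 0, 0, 0, 0, 0, 0, 0, 0, 0, 0, 0, 0, 0, 0, 0, 0, 0, 0, 0, 0, 0, 0, 0, 0, 0, 0, 0, 0, 0, 0, 0, 0]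
def grD_4 : List ℤ := [0, 0, 0, -1, 2, -1, 0, 0, 0, 0, 0, 0, 0, 0, 0, 0, 0, 0, 0, 0, 0, 0, 0, 0, 0, 0, 0, 0, 0, 0, 0, 0, 0, 0, -4, 0, -4]
def grD_5 : List ℤ := [0, 0, 0, 0, -1, 2, -1, 0, 0, 0, 0, 0, 0, 0, 0, 0, 0, 0, 0, 0, 0, 0, 0, 0, 0, -2, 0, 0, 0, -4, 0, -4, 0, 0, 0, 0, 0]
def grD_6 : List ℤ := [0, 0, 0, 0, 0, -1, 2, -1, 0, 0, 0, 0, 0, 0, 0, 0, 0, 0, 0, 0, 0, 0, 0, 0, 0, 0, -4, 0, 0, 0, 0, 0, 0, 0, 0, -4, 0]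
def grD_7 : List ℤ := [0, 0, 0, 0, 0, 0, -1, 2, 0, 0, 0, 0, 0, 0, 0, 0, -1, 0, 0, 0, 0, -1, 0, 0, 0, 0, 0, 0, 0, 0, 0, 0, 0, 0, 0, 0, 0]
def grD_8 : List ℤ := [0, 0, 0, 0, 0, 0, 0, 0, 2, 0, -1, 0, 0, 0, 0, 0, 0, 0, 0, 0, 0, -1, 0, -2, 0, 0, 0, -4, 0, 0, 0, 0, 0, 0, -4, 0, 0]
def grD_9 : List ℤ := [0, 0, 0, 0, 0, 0, 0, 0, 0, 2, 0, -1, 0, 0, 0, 0, 0, 0, 0, 0, 0, 0, 0, 0, -1, 0, 0, 0, -4, 0, 0, -4, 0, 0, 0, 0, 0]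
def grD_10 : List ℤ := [0, 0, 0, 0, 0, 0, 0, 0, -1, 0, 2, -1, 0, 0, 0, 0, 0, 0, 0, 0, 0, 0, 0, 0, 0, 0, 0, 0, 0, -4, 0, 0, -4, 0, 0, 0, 0]
def grD_11 : List ℤ := [0, 0, 0, 0, 0, 0, 0, 0, 0, -1, -1, 2, -1, 0, 0, 0, 0, 0, 0, 0, 0, 0, 0, 0, 0, 0, 0, 0, 0, 0, 0, 0, 0, 0, 0, 0, 0]
def grD_12 : List ℤ := [0, 0, 0, 0, 0, 0, 0, 0, 0, 0, 0, -1, 2, -1, 0, 0, 0, 0, 0, 0, 0, 0, 0, 0, 0, 0, 0, 0, 0, 0, 0, 0, 0, 0, 0, -4, -4]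
def grD_13 : List ℤ := [0, 0, 0, 0, 0, 0, 0, 0, 0, 0, 0, 0, -1, 2, -1, 0, 0, 0, 0, 0, 0, 0, 0, 0, 0, -2, 0, 0, 0, 0, -4, 0, 0, -4, 0, 0, 0]
def grD_14 : List ℤ := [0, 0, 0, 0, 0, 0, 0, 0, 0, 0, 0, 0, 0, -1, 2, -1, 0, 0, 0, 0, 0, 0, 0, 0, 0, 0, -4, 0, 0, 0, 0, 0, 0, 0, -4, 0, 0]
def grD_15 : List ℤ := [0, 0, 0, 0, 0, 0, 0, 0, 0, 0, 0, 0, 0, 0, -1, 2, 0, -1, 0, 0, 0, 0, -1, 0, 0, 0, 0, 0, 0, 0, 0, 0, 0, 0, 0, 0, 0]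
def grD_16 : List ℤ := [0, 0, 0, 0, 0, 0, 0, -1, 0, 0, 0, 0, 0, 0, 0, 0, 2, 0, 0, 0, -1, 0, 0, 0, 0, 0, 0, 0, -4, 0, 0, 0, 0, -4, 0, 0, 0]
def grD_17 : List ℤ := [0, 0, 0, 0, 0, 0, 0, 0, 0, 0, 0, 0, 0, 0, 0, -1, 0, 2, 0, 0, -1, 0, 0, 0, 0, 0, 0, -4, 0, 0, 0, -4, 0, 0, 0, 0, 0]
def grD_18 : List ℤ := [0, 0, 0, 0, 0, 0, 0, 0, 0, 0, 0, 0, 0, 0, 0, 0, 0, 0, 4, -4, 0, -4, -4, -4, -4, -12, -20, -20, -20, -20, -20, -28, -28, -28, -28, -28, -36]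
def grD_19 : List ℤ := [0, 0, 0, 0, 0, 0, 0, 0, 0, 0, 0, 0, 0, 0, 0, 0, 0, 0, -4, 4, -2, 0, 0, -4, -2, -4, -4, -4, -4, -12, -12, -4, -4, -4, -12, -12, -4]
def grD_20 : List ℤ := [0, 0, 0, 0, 0, 0, 0, 0, 0, 0, 0, 0, 0, 0, 0, 0, -1, -1, 0, -2, 2, 0, 0, 0, 0, 0, 0, 0, 0, 0, 0, 0, -4, 0, 0, 0, -4]
def grD_21 : List ℤ := [0, 0, 0, 0, 0, 0, 0, -1, -1, 0, 0, 0, 0, 0, 0, 0, 0, 0, -4, 0, 0, 2, 0, 0, 0, 0, 0, 0, 0, 0, -4, 0, 0, 0, 0, 0, 0]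
def grD_22 : List ℤ := [-1, 0, 0, 0, 0, 0, 0, 0, 0, 0, 0, 0, 0, 0, 0, -1, 0, 0, -4, 0, 0, 0, 2, 0, 0, 0, 0, 0, 0, -4, 0, 0, 0, 0, 0, 0, 0]
def grD_23 : List ℤ := [-2, 0, 0, 0, 0, 0, 0, 0, -2, 0, 0, 0, 0, 0, 0, 0, 0, 0, -4, -4, 0, 0, 0, 4, 0, -4, -12, -4, -4, -4, -4, -12, -4, -12, -4, -4, -12]
def grD_24 : List ℤ := [0, -1, 0, 0, 0, 0, 0, 0, 0, -1, 0, 0, 0, 0, 0, 0, 0, 0, -4, -2, 0, 0, 0, 0, 2, 0, -4, 0, 0, 0, 0, 0, 0, 0, 0, 0, 0]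
def grD_25 : List ℤ := [0, 0, 0, 0, 0, -2, 0, 0, 0, 0, 0, 0, 0, -2, 0, 0, 0, 0, -12, -4, 0, 0, 0, -4, 0, 4, -4, -12, -12, -4, -4, -4, -12, -4, -4, -4, -4]
def grD_26 : List ℤ := [0, 0, 0, 0, 0, 0, -4, 0, 0, 0, 0, 0, 0, 0, -4, 0, 0, 0, -20, -4, 0, 0, 0, -12, -4, -4, 4, -28, -28, -28, -28, -20, -36, -20, -20, -20, -28]
def grD_27 : List ℤ := [0, -4, 0, 0, 0, 0, 0, 0, -4, 0, 0, 0, 0, 0, 0, 0, 0, -4, -20, -4, 0, 0, 0, -4, 0, -12, -28, 4, -28, -28, -28, -20, -20, -20, -20, -36, -28]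
def grD_28 : List ℤ := [-4, 0, 0, 0, 0, 0, 0, 0, 0, -4, 0, 0, 0, 0, 0, 0, -4, 0, -20, -4, 0, 0, 0, -4, 0, -12, -28, -28, 4, -28, -28, -20, -20, -20, -36, -20, -28]
def grD_29 : List ℤ := [0, 0, 0, 0, 0, -4, 0, 0, 0, 0, -4, 0, 0, 0, 0, 0, 0, 0, -20, -12, 0, 0, -4, -4, 0, -4, -28, -28, -28, 4, -28, -20, -20, -36, -20, -20, -28]
def grD_30 : List ℤ := [0, 0, -4, 0, 0, 0, 0, 0, 0, 0, 0, 0, 0, -4, 0, 0, 0, 0, -20, -12, 0, -4, 0, -4, 0, -4, -28, -28, -28, -28, 4, -36, -20, -20, -20, -20, -28]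
def grD_31 : List ℤ := [0, 0, 0, 0, 0, -4, 0, 0, 0, -4, 0, 0, 0, 0, 0, 0, 0, -4, -28, -4, 0, 0, 0, -12, 0, -4, -20, -20, -20, -20, -36, 4, -28, -28, -28, -28, -20]
def grD_32 : List ℤ := [0, 0, -4, 0, 0, 0, 0, 0, 0, 0, -4, 0, 0, 0, 0, 0, 0, 0, -28, -4, -4, 0, 0, -4, 0, -12, -36, -20, -20, -20, -20, -28, 4, -28, -28, -28, -20]
def grD_33 : List ℤ := [0, -4, 0, 0, 0, 0, 0, 0, 0, 0, 0, 0, 0, -4, 0, 0, -4, 0, -28, -4, 0, 0, 0, -12, 0, -4, -20, -20, -20, -36, -20, -28, -28, 4, -28, -28, -20]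
def grD_34 : List ℤ := [0, 0, 0, 0, -4, 0, 0, 0, -4, 0, 0, 0, 0, 0, -4, 0, 0, 0, -28, -12, 0, 0, 0, -4, 0, -4, -20, -20, -36, -20, -20, -28, -28, -28, 4, -28, -20]
def grD_35 : List ℤ := [-4, 0, 0, 0, 0, 0, -4, 0, 0, 0, 0, 0, -4, 0, 0, 0, 0, 0, -28, -12, 0, 0, 0, -4, 0, -4, -20, -36, -20, -20, -20, -28, -28, -28, -28, 4, -20]
def grD_36 : List ℤ := [0, 0, 0, 0, -4, 0, 0, 0, 0, 0, 0, 0, -4, 0, 0, 0, 0, 0, -36, -4, -4, 0, 0, -12, 0, -4, -28, -28, -28, -28, -28, -20, -20, -20, -20, -20, 4]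

/-- The Gram matrix of the roots. -/
def grD : List (List ℤ) :=
  [grD_0, grD_1, grD_2, grD_3, grD_4, grD_5, grD_6, grD_7, grD_8, grD_9, grD_10, grD_11, grD_12, grD_13, grD_14, grD_15, grD_16, grD_17, grD_18, grD_19, grD_20, grD_21, grD_22, grD_23, grD_24, grD_25, grD_26, grD_27, grD_28, grD_29, grD_30, grD_31, grD_32, grD_33, grD_34, grD_35, grD_36]

/-- Generators of the symmetry group. -/
def geD : List ℕ := [3522088603257507954880776935133492820384328672373864175712789602560, 1944123626931159155257049166894071904802274713321237508010733757445]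

/-- The symmetry group, packed permutations. -/
def plD : List ℕ :=
  [3849722795063649559996858352372984551343877954516218053329672740928,
   3522088603257507954880776935133492820384328672373864175712789602560,
   1944123626931159155257049166894071904802274713321237508010733757445,
   3000610725382956074263593087235546522260329675252029942004813948229,
   3084512551374918423780798898567109385481976292057622476679161877272,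
   3848102198240664878938355585380797739144829201198007408743091577416,
   3729650752253711456484351145255705914823075360271553794000210924184,
   3309844220094678415784967315245982217834359354056931074996523803400,
   3640536389794188312646157362421971159396510887184289239398254187924,
   3520464793323461318890539949258370457608961384560644160261621371272,
   1945743018841833053621428864433265469934191833467192291911484105805,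
   3107189259417565077103181363980755567066448241842018090632613794708,
   2794979996950039968021337730064398947190429941531301857482791277576,
   2898538014534523644964064987939587446290357436811329505255772448141,
   3189824453959739180730364381378900387183694835552059254291705893144,
   3003855935405306971788024917023423819576991288969840085887825527437,
   3624338855947500985219149560835027681092218335758005641459215896728,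
   3420115566610590920410556029633192006467857998604829857949491708493,
   3418495371424037221185792616292927729459936958897667053760923058245,
   3745849089379295685367822429568638691638350719318524066240210470228,
   3311459997257858640787048102207959460489231553021612103371623064448,
   2895304050362421557100686326044917892317651818447197857283499114629,
   3212501965278265634913130525077486362550324776843240948190731370900,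
   2796598987224282147955152735909311705482136372835776936658293580864]

/-- The permutation number `s + 1` is `ge[b] ∘ pl[a]` for the entry `(a, b)`. -/
def pdD : List (ℕ × ℕ) :=
  [(0, 0), (0, 1), (1, 1), (2, 0), (2, 1), (3, 0), (3, 1), (4, 1), (5, 0), (5, 1), (6, 1), (7, 0), (7, 1), (8, 1), (9, 1), (11, 1), (12, 1), (14, 0), (14, 1), (15, 1), (16, 0), (16, 1), (17, 1)]

/-- The sets of facets through the representatives. -/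
def mlD : List ℕ :=
  [1048575, 40624095, 2154429919, 41066463, 2154954143, 40951775, 2154888671, 41050079, 2154954079, 38920159, 2152857055, 2883295, 1572575, 2875327, 70492095, 2883199, 1572479, 3866367, 1507071, 7925743, 68742606831, 8040431, 68742721519, 8024047, 68742705135, 5894127, 68740575215, 39034847, 1572319, 2883007, 1572287, 2882943, 1572223, 1768959, 1506815, 74690479, 2882431, 68742786927, 2879423, 68740689903, 34856927, 1571807, 70496191, 1571711, 1768447, 1506303, 8093567, 68742770543, 2879359, 68740673519, 39018463, 1570783, 2881471, 1570751, 2881407, 1570687, 1767423, 1505279, 1568751, 1568735, 1568703, 1568639, 1765375, 1503231, 1564639, 1564607, 2875263, 1564543, 1761279, 1499135, 1556415, 2867071, 1556351, 1753087, 1490943, 1539967, 1736703, 1474559, 1638399, 1376255, 11796191, 7044831,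 6944735, 7921631, 5890015, 8019935, 7043039, 7929311, 5897695, 7994719, 7994783, 41074143, 5894111, 41072607, 7925727, 8024031, 3862495, 3858367, 3399615, 3800703, 3407487, 41139551, 39042527, 55807983, 51630063, 55791599, 55693295, 3866079, 8027615, 57724911, 57726959, 5897199, 5897183, 57823215, 8042479, 55793647, 5896175, 5896159, 3864543, 8026079, 7927775, 53661679, 3865583, 3864559, 34861023, 39022559, 39038943, 8027871, 3800511, 3796927, 3798975, 3862463, 3792767, 3865983, 3865471, 3864447, 3862399, 3858303, 3850111, 7929327, 7928815, 7927791, 24178671, 22261743, 39040991, 57790319, 7994223, 7993199, 3799935, 8027631, 8027119, 8026095, 24276975, 3796863, 22147055, 3403711, 20184511, 3800447, 3407231, 57913263, 3406719, 24358767, 3405695, 7993183, 3399551, 7569119, 57905007, 24344495, 57890735, 22247407,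 57888623, 24344431, 57890671, 24342383, 24246127, 3403647, 24344439, 3798911, 3784575, 3391359, 22245359, 3405759, 18083823, 57888687, 24180719, 22149103, 20117487]

/-- The standard basis vectors as combinations of the roots. -/
def cbD : List (List (ℕ × ℤ)) :=
  [[(16, -1), (0, -2), (1, -3), (2, -4), (3, -6), (4, -5), (5, -4), (6, -3), (7, -2)],
   [(20, 1), (16, 1), (0, 2), (1, 3), (2, 4), (3, 6), (4, 5), (5, 4), (6, 3), (7, 2)],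
   [(0, 1)],
   [(1, 1)],
   [(2, 1)],
   [(3, 1)],
   [(4, 1)],
   [(5, 1)],
   [(6, 1)],
   [(7, 1)],
   [(8, 1)],
   [(9, 1)],
   [(10, 1)],
   [(11, 1)],
   [(12, 1)],
   [(13, 1)],
   [(14, 1)],
   [(15, 1)],
   [(18, 1)]]

/-- Weights. -/
def cwD : List ℤ := [1, 1, 1, 1, 1, 1, 1, 1, 1, 1, 1, 1, 1, 1, 1, 1, 1, 1, 1, 1, 1, 1, 1, 1, 1, 1, 1, 1, 1, 1, 1, 1, 1, 1, 1, 1, 1]

end Pool.Agent.RFV
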