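import Mathlib
import Pool.Agent.Lib.MP_dcc566_gt_E.DtD

/-!
# Certificate check, lattice D, roots and symmetries
-/

set_option autoImplicit false

namespace Pool.Agent.RFV

theorem rootsOK_D : rootsOK gmD roD lfD grD 37 = true := by
  decide +kernel

theorem rowOK_D : rowOK lfD grD 37 37 = true := by
  decide +kernel

theorem combOK_D : combOK roD 37 0 cbD = true := by
  decide +kernel

theorem genOK_D : geD.all (genOK grD 37) = true := by
  decide +kernel

theorem permOK_D : permOK geD plD 37 1 pdD = true := by
  decide +kernel

theorem idOK_D : idOK plD 37 = true := by
  decide +kernel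

end Pool.Agent.RFV
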