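import Mathlib
import Pool.Agent.Lib.MP_dcc566_gt_E.DtC
import Pool.Agent.Lib.MP_dcc566_gt_E.RpC1

/-!
# Certificate check, lattice C, representatives 40 ...
-/

set_option autoImplicit false

namespace Pool.Agent.RFV

theorem ckC1 : repsOK gmC roC lfC 103 6 24 mlC plC 40 rpC1 = true := by
  decide +kernel

end Pool.Agent.RFV
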