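import Mathlib
import Pool.Agent.Lib.MP_dcc566_gt_E.DtD
import Pool.Agent.Lib.MP_dcc566_gt_E.RpD3

/-!
# Certificate check, lattice D, representatives 120 ...
-/

set_option autoImplicit false

namespace Pool.Agent.RFV

theorem ckD3 : repsOK gmD roD lfD 187 24 37 mlD plD 120 rpD3 = true := by
  decide +kernel

end Pool.Agent.RFV
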