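import Mathlib
import Pool.Agent.Lib.MP_dcc566_gt_R.LSd

/-!
# Index bounds for a minimal lattice of rank 19
-/

set_option autoImplicit false

namespace Pool.Agent.RFN

open Module

variable {V : Type} [AddCommGroup V] [Module ℚ V]

private theorem Ea_int {B : Frm V} {L : AddSubgroup V} {m : ℕ} {x y : V} (hx : x ∈ Lk B L m)
    (hy : y ∈ Lk B L m) : IsZ ((m : ℚ) * B x y) := by
  have h1 := hx.1 _ hy.2
  rwa [map_smul, smul_eq_mul] at h1

/-- PROOF.  For `x ∈ Lk B L 2` the number `2 x² = (2x,x)` is an integer.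
`X₀ = {x ∈ Lk B L 2 : 2 x² even}` is a subgroup, because `2 (x+y)² = 2 x² + 2 y² + 2 (2x,y)` and
`(2x,y) ∈ ℤ` for `x, y ∈ Lk B L 2`; it contains `L`, is `Inv` (`inv_of`, `map_Lk`, `IsIso`), so
`hM.mp 2` gives `(L.relIndex X₀)² ≤ 2^19`, so `L.relIndex X₀ ≤ 1000`.  The map
`Lk B L 2 → ZMod 2`, `x ↦ 2 x² mod 2`, is an additive homomorphism with kernel `X₀`, so
`X₀.relIndex (Lk B L 2) ≤ 2` (`AddSubgroup.index_ker`: the index of the kernel is the cardinality
of the range).  `AddSubgroup.relIndex_mul_relIndex`: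
`L.relIndex X₀ * X₀.relIndex (Lk B L 2) = L.relIndex (Lk B L 2)`. -/
theorem index_two19 {B : Frm V} (hB : Nd B) {L : AddSubgroup V} (hM : MinL B L)
    (hV : finrank ℚ V = 19) : L.relIndex (Lk B L 2) < 2 ^ 11 := by
  have hadd : ∀ x ∈ Lk B L 2, ∀ y ∈ Lk B L 2, ∃ n : ℤ,
      2 * B (x + y) (x + y) = 2 * B x x + 2 * B y y + ((2 * n : ℤ) : ℚ) := by
    intro x hx y hy
    obtain ⟨n, hn⟩ := Ea_int hx hy
    refine ⟨n, ?_⟩
    simp only [map_add, LinearMap.add_apply]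
    rw [hB.symm y x]
    push_cast at hn ⊢
    rw [← hn]
    ring
  let X₀ : AddSubgroup V :=
    { carrier := {x | x ∈ Lk B L 2 ∧ Dv 2 (2 * B x x)}
      add_mem' := fun {a b} ha hb => by
        obtain ⟨n, hn⟩ := hadd a ha.1 b hb.1
        refine ⟨(Lk B L 2).add_mem ha.1 hb.1, ?_⟩
        rw [hn]
        exact (ha.2.add hb.2).add (Dv_int.2 ⟨n, rfl⟩)
      zero_mem' := ⟨(Lk B L 2).zero_mem, by
        rw [map_zero, mul_zero]
        exact Dv.zero _⟩
      neg_mem' := fun {a} ha => ⟨(Lk B L 2).neg_mem ha.1, by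
        rw [map_neg, map_neg, LinearMap.neg_apply, neg_neg]
        exact ha.2⟩ }
  have hX : ∀ x, x ∈ X₀ ↔ x ∈ Lk B L 2 ∧ Dv 2 (2 * B x x) := fun _ => Iff.rfl
  have hle : L ≤ X₀ := fun x hx => ⟨le_Lk hB.symm hM.even 2 hx, by
    have h1 := (hM.even x hx).mul_int 2
    push_cast at h1
    exact h1⟩
  have hle2 : X₀ ≤ Lk B L 2 := fun x hx => hx.1
  have h1 : (L.relIndex X₀) ^ 2 ≤ 2 ^ (finrank ℚ V) := by
    refine hM.mp 2 Nat.prime_two X₀ hle (inv_of fun g hg hgL x hx => ⟨map_Lk hg hgL hx.1, ?_⟩)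
      fun x hx => ?_
    · rw [hg]
      exact hx.2
    · push_cast
      exact hx.2
  rw [hV] at h1
  have h2 : L.relIndex X₀ ≤ 1000 := by
    by_contra h3
    push Not at h3
    have h4 : 1001 ^ 2 ≤ (L.relIndex X₀) ^ 2 := Nat.pow_le_pow_left h3 2
    norm_num at h4 h1
    omega
  let φ : ↥(Lk B L 2) →+ ZMod 2 :=
    { toFun := fun x => (((2 * B x.1 x.1).num : ℤ) : ZMod 2)
      map_zero' := by
        change (((2 * B 0 0).num : ℤ) : ZMod 2) = 0
        rw [map_zero, mul_zero]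
        rfl
      map_add' := by
        rintro ⟨x, hx⟩ ⟨y, hy⟩
        change (((2 * B (x + y) (x + y)).num : ℤ) : ZMod 2) =
          (((2 * B x x).num : ℤ) : ZMod 2) + (((2 * B y y).num : ℤ) : ZMod 2)
        obtain ⟨n, hn⟩ := hadd x hx y hy
        obtain ⟨a, ha⟩ := Ea_int hx hx
        obtain ⟨b, hb⟩ := Ea_int hy hy
        push_cast at ha hb
        rw [hn, ha, hb, ← Int.cast_add, ← Int.cast_add, Rat.num_intCast, Rat.num_intCast,
          Rat.num_intCast]
        push_cast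
        have h5 : (2 : ZMod 2) = 0 := by decide
        rw [h5]
        ring }
  have hker : φ.ker = X₀.addSubgroupOf (Lk B L 2) := by
    ext x
    rw [AddMonoidHom.mem_ker, AddSubgroup.mem_addSubgroupOf, hX]
    obtain ⟨a, ha⟩ := Ea_int x.2 x.2
    push_cast at ha
    have h5 : φ x = ((a : ℤ) : ZMod 2) := by
      change (((2 * B x.1 x.1).num : ℤ) : ZMod 2) = _
      rw [ha, Rat.num_intCast]
    rw [h5, ZMod.intCast_zmod_eq_zero_iff_dvd, ha]
    constructor
    · exact fun h6 => ⟨x.2, Dv_int.2 (by exact_mod_cast h6)⟩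
    · exact fun h6 => by exact_mod_cast Dv_int.1 h6.2
  have h3 : X₀.relIndex (Lk B L 2) ≤ 2 := by
    rw [AddSubgroup.relIndex, ← hker, AddSubgroup.index_ker]
    have h5 : Nat.card φ.range ≤ Nat.card (ZMod 2) :=
      Nat.card_le_card_of_injective (Subtype.val : φ.range → ZMod 2) Subtype.val_injective
    rwa [Nat.card_zmod] at h5
  have h4 := AddSubgroup.relIndex_mul_relIndex L X₀ (Lk B L 2) hle hle2
  rw [← h4]
  calc L.relIndex X₀ * X₀.relIndex (Lk B L 2) ≤ 1000 * 2 := Nat.mul_le_mul h2 h3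
    _ < 2 ^ 11 := by norm_num

end Pool.Agent.RFN
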