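import Mathlib
import Pool.Agent.Lib.MP_dcc566_gt_E.Ea
import Pool.Agent.Lib.MP_dcc566_gt_R.LSd
import Pool.Agent.Lib.MP_dcc566_gt_R.LSe1
import Pool.Agent.Lib.MP_dcc566_gt_R.LSe2
import Pool.Agent.Lib.MP_dcc566_gt_R.LSf

/-!
# The rank modulo `p` of a minimal lattice is at least 10, rank 19
-/

set_option autoImplicit false

namespace Pool.Agent.RFN

open Module

variable {V : Type} [AddCommGroup V] [Module ℚ V] [FiniteDimensional ℚ V]

/-- PROOF.  As `rk_ten`, in rank 19. -/
theorem rk_ten19 {B : Frm V} (hB : Nd B) {L : AddSubgroup V} (hM : MinL B L)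
    (hV : finrank ℚ V = 19) {p : ℕ} (hp : p.Prime) : RkGe B L p 10 := by
  obtain ⟨b, hb⟩ := exists_zbasis hB hM.even hM.full
  have hmem : ∀ i, b i ∈ L := by
    intro i
    rw [hb]
    intro j
    rw [b.repr_self, Finsupp.single_apply]
    split_ifs
    · exact ⟨1, by norm_num⟩
    · exact ⟨0, by norm_num⟩
  choose G hG using fun i j => EvL.isZ hB.symm hM.even (hmem i) (hmem j)
  have : Fact p.Prime := ⟨hp⟩
  have hidx := index_rad hB.symm hM.even hb hG hp
  have hle : finrank (ZMod p) (RadM p G) ≤ finrank ℚ V := by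
    have := Submodule.finrank_le (RadM p G)
    rwa [Module.finrank_fin_fun] at this
  refine rk_of_rad hB.symm hM.even hb hG hp ?_
  by_cases h2 : p = 2
  · subst h2
    have h3 := index_two19 hB hM hV
    rw [hidx] at h3
    have h4 : finrank (ZMod 2) (RadM 2 G) < 11 := (Nat.pow_lt_pow_iff_right (by norm_num)).1 h3
    have h5 := radM_parity G
      (fun i j => by
        have h6 := hB.symm (b i) (b j)
        rw [hG, hG] at h6
        exact_mod_cast h6)
      (fun i => by
        obtain ⟨m, hm⟩ := hM.even (b i) (hmem i)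
        rw [hG] at hm
        have h6 : G i i = 2 * m := by exact_mod_cast hm
        exact ⟨m, by omega⟩)
    obtain ⟨k, hk⟩ := h5
    omega
  · have h3 := index_odd hB hM hp h2
    rw [hidx, ← pow_mul] at h3
    have h4 : finrank (ZMod p) (RadM p G) * 2 ≤ finrank ℚ V :=
      (Nat.pow_le_pow_iff_right hp.one_lt).1 h3
    omega

end Pool.Agent.RFN
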