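import Mathlib
import Pool.Agent.Lib.MP_dcc566_gt_E.Eb
import Pool.Agent.Lib.MP_dcc566_gt_R.LSh
import Pool.Agent.Lib.MP_dcc566_gt_R.LKg
import Pool.Agent.Lib.MP_dcc566_gt_R.LSk
import Pool.Agent.Lib.MP_dcc566_gt_R.LSl
import Pool.Agent.Lib.MP_dcc566_gt_R.LSm

/-!
# Structure of minimal lattices of rank 19
-/

set_option autoImplicit false

namespace Pool.Agent.RFN

open Module

variable {V : Type} [AddCommGroup V] [Module ℚ V] [FiniteDimensional ℚ V]

/-- PROOF.  For every prime `p` choose `j p`, `f p` from `fam_at` (for non-primes `j p = 0`). 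
Elements of `Rp B L p ⊔ Rp B Λ p` have products divisible by
`p` with all `l ∈ L` (`L ≤ Λ`); so `rk_sum` with `rk_ten` gives `RkGe B Λ p (10 + 2 * j p)`.
`exists_mul` (`LSb.lean`; `exists_zbasis` for `Λ`): `N > 0` with `N Λ ⊆ L`.  If `p ∤ N` then `Rp B L
p ≤ Rp B Λ p`: `N (y,x) = (y,N x) ∈ p ℤ`.  So
`f p i ∈ Rp B Λ p` for all `i < j p`, and `TS.ind` with `c = Pi.single i 1` gives `p ∣ 1` unless `j
p = 0`.  `S` = the prime divisors of `N` with `1 ≤ j p`.
`L = Cut`: `⊆`: for `x ∈ L`, `i < j p`: `f p i = y + r`, both products with `x` divisible by `p`. 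
`⊇`: `x ∈ Λ` with `p ∣ (f p i, x)` for `p ∈ S`, `i < j p`; then this
holds for all primes `p` (`j p = 0` if `p ∉ S`).  For `y ∈ Rp B L p`: `y = ∑ c_i f p i + r`, `r ∈ Rp
B Λ p`, so `p ∣ (y,x)`.  `s7`: `x ∈ L`. -/
theorem structure_thm19 {B : Frm V} (hB : Nd B) (hV : finrank ℚ V = 19) {L Λ : AddSubgroup V}
    (hM : MinL B L) (hΛ : MaxE B Λ) (hle : L ≤ Λ) :
    ∃ (S : Finset ℕ) (j : ℕ → ℕ) (f : ℕ → ℕ → V),
      (∀ p ∈ S, p.Prime ∧ 1 ≤ j p ∧ TS B Λ p (j p) (f p) ∧ RkGe B Λ p (10 + 2 * j p)) ∧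
      L = Cut B Λ S j f := by
  classical
  have hs := hB.symm
  have hex : ∀ p : ℕ, ∃ (j : ℕ) (f : ℕ → V), (p.Prime → TS B Λ p j f ∧
      (∀ i < j, f i ∈ Rp B L p ⊔ Rp B Λ p) ∧
      ∀ y ∈ Rp B L p, ∃ c : ℕ → ℤ, y - ∑ i ∈ Finset.range j, (c i : ℚ) • f i ∈ Rp B Λ p) := by
    intro p
    by_cases hp : p.Prime
    · obtain ⟨j, f, h⟩ := fam_at hB hM hΛ hle hp
      exact ⟨j, f, fun _ => h⟩
    · exact ⟨0, fun _ => 0, fun h => absurd h hp⟩
  choose j f hjf using hex
  -- products with `L`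
  have hL : ∀ p : ℕ, p.Prime → ∀ i < j p, ∀ l ∈ L, Dv p (B (f p i) l) := by
    intro p hp i hi l hl
    obtain ⟨a, ha, b, hb, hab⟩ := AddSubgroup.mem_sup.1 ((hjf p hp).2.1 i hi)
    rw [← hab, map_add, LinearMap.add_apply]
    exact ((mem_Rp.1 ha).2 l hl).add ((mem_Rp.1 hb).2 l (hle hl))
  obtain ⟨N, hN0, hN⟩ := exists_mul (exists_zbasis hB hΛ.even hΛ.full) hM.full
  -- primes which do not divide `N`
  have hpN : ∀ p : ℕ, p.Prime → ¬ p ∣ N → j p = 0 := by
    intro p hp hdvd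
    by_contra hj0
    have hj1 : 0 < j p := Nat.pos_of_ne_zero hj0
    have hle' : Rp B L p ≤ Rp B Λ p := by
      intro y hy
      refine mem_Rp.2 ⟨hle (mem_Rp.1 hy).1, fun x hx => ?_⟩
      obtain ⟨n, hn⟩ := EvL.isZ hs hΛ.even (hle (mem_Rp.1 hy).1) hx
      obtain ⟨m, hm⟩ := (mem_Rp.1 hy).2 _ (hN x hx)
      rw [map_smul, smul_eq_mul, hn] at hm
      have h1 : (N : ℤ) * n = p * m := by exact_mod_cast hm
      have h2 : (p : ℤ) ∣ (N : ℤ) * n := ⟨m, h1⟩
      rcases Int.Prime.dvd_mul' hp h2 with h3 | h3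
      · exact absurd (by exact_mod_cast h3) hdvd
      · obtain ⟨t, ht⟩ := h3
        exact ⟨t, by rw [hn, ht]; push_cast; ring⟩
    have h1 : f p 0 ∈ Rp B Λ p := by
      have h2 := (hjf p hp).2.1 0 hj1
      rwa [sup_eq_right.2 hle'] at h2
    have h2 := (hjf p hp).1.ind (fun i => if i = 0 then 1 else 0) (fun x hx => ?_) 0 hj1
    · simp only [if_true] at h2
      have h3 : (p : ℤ) = 1 := Int.eq_one_of_dvd_one (by positivity) h2
      exact hp.one_lt.ne' (by exact_mod_cast h3)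
    · have h3 : ∑ i ∈ Finset.range (j p), (((if i = 0 then 1 else 0 : ℤ)) : ℚ) • f p i = f p 0 := by
        rw [Finset.sum_eq_single_of_mem 0 (Finset.mem_range.2 hj1)]
        · simp
        · intro b _ hb
          simp [hb]
      rw [h3]
      exact (mem_Rp.1 h1).2 x hx
  refine ⟨N.primeFactors.filter (fun p => 1 ≤ j p), j, f, ?_, ?_⟩
  · intro p hp
    rw [Finset.mem_filter, Nat.mem_primeFactors] at hp
    obtain ⟨⟨hpp, _, _⟩, hj1⟩ := hp
    exact ⟨hpp, hj1, (hjf p hpp).1, rk_sum hs hΛ.even hle hpp (rk_ten19 hB hM hV hpp) (hjf p hpp).1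
      (hL p hpp)⟩
  · ext x
    constructor
    · intro hx
      refine ⟨hle hx, fun p hp i hi => ?_⟩
      rw [Finset.mem_filter, Nat.mem_primeFactors] at hp
      exact hL p hp.1.1 i hi x hx
    · rintro ⟨hx, hcut⟩
      refine s7 hB hM hΛ.even hle hx fun p hp y hy => ?_
      have hcut' : ∀ i < j p, Dv p (B (f p i) x) := by
        intro i hi
        by_cases hd : p ∣ N
        · refine hcut p ?_ i hi
          rw [Finset.mem_filter, Nat.mem_primeFactors]
          exact ⟨⟨hp, hd, hN0.ne'⟩, by omega⟩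
        · rw [hpN p hp hd] at hi
          exact absurd hi (Nat.not_lt_zero i)
      obtain ⟨c, hc⟩ := (hjf p hp).2.2 y hy
      have h1 := (mem_Rp.1 hc).2 x hx
      have h2 : Dv p (B (∑ i ∈ Finset.range (j p), (c i : ℚ) • f p i) x) := by
        rw [map_sum, LinearMap.sum_apply]
        have h3 : ∀ s : Finset ℕ, (∀ i ∈ s, i < j p) →
            Dv p (∑ i ∈ s, B ((c i : ℚ) • f p i) x) := by
          intro s
          induction s using Finset.induction_on with
          | empty =>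
            intro _
            rw [Finset.sum_empty]
            exact Dv.zero _
          | insert a s ha ih =>
            intro h
            rw [Finset.sum_insert ha]
            refine Dv.add ?_ (ih fun i hi => h i (Finset.mem_insert_of_mem hi))
            rw [map_smul, LinearMap.smul_apply, smul_eq_mul]
            exact (hcut' a (h a (Finset.mem_insert_self _ _))).mul_int _
        exact h3 _ fun i hi => Finset.mem_range.1 hi
      have h3 : B y x = B (y - ∑ i ∈ Finset.range (j p), (c i : ℚ) • f p i) x +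
          B (∑ i ∈ Finset.range (j p), (c i : ℚ) • f p i) x := by
        rw [map_sub, LinearMap.sub_apply, sub_add_cancel]
      rw [h3]
      exact h1.add h2

/-- RK in rank 19. -/
theorem rk_max19 {B : Frm V} {Λ : AddSubgroup V} (hM : MaxE B Λ)
    (hB : Nd B) (hV : finrank ℚ V = 19) {p : ℕ} (hp : p.Prime) (hp2 : p ≠ 2) :
    RkGe B Λ p 17 := by
  have h := rk_max_gen hB hM hp hp2
  rwa [hV] at h

end Pool.Agent.RFN
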