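import Mathlib
import Pool.Agent.Lib.MP_dcc566_gt_R.Scl2
import Pool.Agent.Lib.MP_dcc566_gt_R.FamA
import Pool.Agent.Lib.MP_dcc566_gt_R.Scl3
import Pool.Agent.Lib.MP_dcc566_gt_R.TSex
import Pool.Agent.Lib.MP_dcc566_gt_R.RkN
import Pool.Agent.Lib.MP_dcc566_gt_R.E3F

/-!
# All nonmaximal lattices of rank 19 have a configuration
-/

set_option autoImplicit false

namespace Pool.Agent.RFN

open MP_dcc566_gt (bf E8)

variable {X : Type} [AddCommGroup X] [Module ℚ X]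

/-- The families `y p`. -/
private theorem Ed_ts {BX : Frm X} (hBX : Pd BX) {N : AddSubgroup X} (hN : EvL BX N)
    {S : Finset ℕ} (hS : ∀ p ∈ S, p.Prime) {i : ℕ → ℕ} {q : ℕ}
    (h : ∀ p ∈ S, p ≠ q → RkGe BX N p (2 * i p + 1)) :
    ∃ y : ℕ → ℕ → X, ∀ p ∈ S, p ≠ q → TS BX N p (i p) (y p) := by
  have h1 : ∀ p, ∃ y : ℕ → X, p ∈ S → p ≠ q → TS BX N p (i p) y := by
    intro p
    by_cases hp : p ∈ S ∧ p ≠ q
    · obtain ⟨y, hy⟩ := exists_ts hBX.symm hN (hS p hp.1) (h p hp.1 hp.2)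
      exact ⟨y, fun _ _ => hy⟩
    · exact ⟨fun _ => 0, fun h1 h2 => absurd ⟨h1, h2⟩ hp⟩
  choose y hy using h1
  exact ⟨y, hy⟩

/-- The general member of the families. -/
private theorem Ed_rk {BX : Frm X} {N : AddSubgroup X} {p j : ℕ} (hp : p.Prime) (hj : 1 ≤ j)
    (h : RkGe (PF BX) (PL N) p (10 + 2 * j)) : RkGe BX N p (2 * (j - 1) + 1) :=
  rk_mono (rk_N hp h) (by omega)

/-- A prime `p₀ ≥ 5`.

PROOF.  `i p = j p - 1` except `i p₀ = 1` if `j p₀ = 1`.  For `p ∈ S`, `rk_N` gives `RkGe BX N p (2 * j p)` (write `10 + 2j`), and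
`2 i p + 1 ≤ 2 j p` if `i p = j p - 1`; for `p₀` with `j p₀ = 1`: `rk_N` of `h17` (`17 = 10 + 7`) gives `RkGe BX N p₀ 7`, `3 ≤ 7`.  `rk_mono`, `exists_ts`: families
`y p` (choose for `p ∈ S`; `0` otherwise).  `exists_norm p₀`: `x₀`; `x p k = x₀` if `p = p₀` and `k = 0`, `0` otherwise.  `sclA` with
`t₈ = x₀` (`x₀ ≠ 0`, norm `2p₀ > 0`): `hp`, `hn`: products are 0 or `2p₀`; `ht`: `e5_roots` (`p₀ ∈ S`, `0 < i p₀`). -/
theorem caseA5_19 {BX : Frm X} (hBX : Pd BX) {N : AddSubgroup X} (hN : EvL BX N) {S : Finset ℕ}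
    (hS : ∀ p ∈ S, p.Prime) {j : ℕ → ℕ}
    (hj : ∀ p ∈ S, 1 ≤ j p ∧ RkGe (PF BX) (PL N) p (10 + 2 * j p)) {p₀ : ℕ} (hp₀ : p₀ ∈ S)
    (h5 : 5 ≤ p₀) (h17 : RkGe (PF BX) (PL N) p₀ 17) :
    ∃ i : ℕ → ℕ, Conf (PF BX) (PL N) S i ∧ ∀ p ∈ S, j p = i p ∨ j p = i p + 1 := by
  obtain ⟨x₀, hx₀⟩ := exists_norm p₀
  set i : ℕ → ℕ := fun p => if p = p₀ ∧ j p₀ = 1 then 1 else j p - 1 with hi
  have hi1 : ∀ p, p = p₀ ∧ j p₀ = 1 → i p = 1 := fun p h => if_pos h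
  have hi2 : ∀ p, ¬ (p = p₀ ∧ j p₀ = 1) → i p = j p - 1 := fun p h => if_neg h
  have hip : 0 < i p₀ := by
    by_cases h : j p₀ = 1
    · rw [hi1 p₀ ⟨rfl, h⟩]
      exact Nat.one_pos
    · rw [hi2 p₀ fun h' => h h'.2]
      have := (hj p₀ hp₀).1
      omega
  obtain ⟨y, hy⟩ := Ed_ts (i := i) (q := 0) hBX hN hS fun p hp _ => by
    by_cases h : p = p₀ ∧ j p₀ = 1
    · rw [hi1 p h, h.1]
      exact rk_mono (rk_N (r := 7) (hS p₀ hp₀) h17) (by norm_num)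
    · rw [hi2 p h]
      exact Ed_rk (hS p hp) (hj p hp).1 (hj p hp).2
  have hx0 : x₀ ≠ 0 := by
    rintro rfl
    rw [MP_dcc566_gt.bf_zero_left] at hx₀
    omega
  refine ⟨i, ?_, ?_⟩
  · refine sclA hBX hN hS (x := fun p k => if p = p₀ ∧ k = 0 then x₀ else 0) (y := y) ?_ ?_
      (fun p hp => hy p hp (hS p hp).ne_zero) hx0 ?_
    · intro p hp k hk l hl
      split_ifs with h1 h2
      · rw [hx₀, h1.1]
        exact dvd_mul_left _ _
      · rw [MP_dcc566_gt.bf_zero_right]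
        exact dvd_zero _
      · rw [MP_dcc566_gt.bf_zero_left]
        exact dvd_zero _
      · rw [MP_dcc566_gt.bf_zero_left]
        exact dvd_zero _
    · intro p hp k hk
      split_ifs with h1
      · rw [hx₀, h1.1]
      · rw [MP_dcc566_gt.bf_zero_left]
        exact dvd_zero _
    · intro ρ hρ h
      have h1 := h p₀ hp₀ 0 hip
      rw [if_pos ⟨rfl, rfl⟩] at h1
      exact e5_roots h5 hx₀ hρ h1
  · intro p hp
    by_cases h : p = p₀ ∧ j p₀ = 1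
    · left
      rw [hi1 p h, h.1, h.2]
    · right
      rw [hi2 p h]
      have := (hj p hp).1
      omega

/-- `3 ∈ S`, `j 3 ≥ 3`.

PROOF.  `i p = j p - 1` except `i 3 = 3` if `j 3 = 3` (then `2·3 + 1 = 7 ≤ 7`, from `h17`).  As `caseA5`; `x 3 0 = e30`, `x 3 1 = e31`, `x 3 2 = e32`,
`x p k = 0` otherwise; `t₈ = e33`; `hp`, `hn`: `e3_vals`; `ht`: `e3_roots` (`3 ≤ i 3`). -/
theorem caseA3_19 {BX : Frm X} (hBX : Pd BX) {N : AddSubgroup X} (hN : EvL BX N) {S : Finset ℕ}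
    (hS : ∀ p ∈ S, p.Prime) {j : ℕ → ℕ}
    (hj : ∀ p ∈ S, 1 ≤ j p ∧ RkGe (PF BX) (PL N) p (10 + 2 * j p)) (h3 : 3 ∈ S)
    (h33 : 3 ≤ j 3) (h17 : RkGe (PF BX) (PL N) 3 17) :
    ∃ i : ℕ → ℕ, Conf (PF BX) (PL N) S i ∧ ∀ p ∈ S, j p = i p ∨ j p = i p + 1 := by
  set i : ℕ → ℕ := fun p => if p = 3 ∧ j 3 = 3 then 3 else j p - 1 with hi
  have hi1 : ∀ p, p = 3 ∧ j 3 = 3 → i p = 3 := fun p h => if_pos h
  have hi2 : ∀ p, ¬ (p = 3 ∧ j 3 = 3) → i p = j p - 1 := fun p h => if_neg h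
  have hip : 3 ≤ i 3 := by
    by_cases h : j 3 = 3
    · rw [hi1 3 ⟨rfl, h⟩]
    · rw [hi2 3 fun h' => h h'.2]
      omega
  obtain ⟨y, hy⟩ := Ed_ts (i := i) (q := 0) hBX hN hS fun p hp _ => by
    by_cases h : p = 3 ∧ j 3 = 3
    · rw [hi1 p h, h.1]
      exact rk_mono (rk_N (r := 7) (hS 3 h3) h17) (by norm_num)
    · rw [hi2 p h]
      exact Ed_rk (hS p hp) (hj p hp).1 (hj p hp).2
  obtain ⟨v00, v11, v22, v01, v02, v12, hne⟩ := e3_vals
  have v10 : bf E8 e31 e30 = 0 := by rw [MP_dcc566_gt.E8_comm, v01]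
  have v20 : bf E8 e32 e30 = 3 := by rw [MP_dcc566_gt.E8_comm, v02]
  have v21 : bf E8 e32 e31 = 3 := by rw [MP_dcc566_gt.E8_comm, v12]
  refine ⟨i, ?_, ?_⟩
  · refine sclA hBX hN hS (x := fun p k => if p = 3 then (if k = 0 then e30 else
      if k = 1 then e31 else if k = 2 then e32 else 0) else 0) (y := y) ?_ ?_
      (fun p hp => hy p hp (hS p hp).ne_zero) hne ?_
    · intro p hp k hk l hl
      by_cases h1 : p = 3
      · rw [if_pos h1, if_pos h1, h1]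
        split_ifs <;>
        simp only [v00, v11, v22, v01, v02, v12, v10, v20, v21, MP_dcc566_gt.bf_zero_left,
          MP_dcc566_gt.bf_zero_right] <;>
        decide
      · rw [if_neg h1, if_neg h1, MP_dcc566_gt.bf_zero_left]
        exact dvd_zero _
    · intro p hp k hk
      by_cases h1 : p = 3
      · rw [if_pos h1, h1]
        split_ifs <;>
        simp only [v00, v11, v22, MP_dcc566_gt.bf_zero_left] <;>
        decide
      · rw [if_neg h1, MP_dcc566_gt.bf_zero_left]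
        exact dvd_zero _
    · intro ρ hρ h
      have k0 := h 3 h3 0 (by omega)
      have k1 := h 3 h3 1 (by omega)
      have k2 := h 3 h3 2 (by omega)
      rw [if_pos rfl, if_pos rfl] at k0
      rw [if_pos rfl, if_neg one_ne_zero, if_pos rfl] at k1
      rw [if_pos rfl, if_neg two_ne_zero, if_neg (by norm_num), if_pos rfl] at k2
      exact e3_roots hρ k0 k1 k2
  · intro p hp
    by_cases h : p = 3 ∧ j 3 = 3
    · left
      rw [hi1 p h, h.1, h.2]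
    · right
      rw [hi2 p h]
      have := (hj p hp).1
      omega

open Module

/-- PROOF.  If some `p₀ ∈ S` is `≥ 5`: `caseA5_19`.  Otherwise the elements of `S` are 2 or 3 (primes `< 5`).  If `3 ∈ S`: `caseA3_19` if
`3 ≤ j 3`, `caseB3` otherwise.  If `3 ∉ S`: `S = {2}` (nonempty).  `rk_le`: `10 + 2 j 2 ≤ 19`, `j 2 ≤ 5`, `j 2 ≥ 1`.  `j 2 = 1`: `c1`; `j 2 = 2, 3`: `c2`;
`j 2 = 4, 5`: `c4`. -/
theorem conf_main19 {BX : Frm X} {N : AddSubgroup X} (h : FamOK BX N)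
    [FiniteDimensional ℚ (PV X)] (hd : finrank ℚ (PV X) = 19) {S : Finset ℕ}
    (hS : ∀ p ∈ S, p.Prime) {j : ℕ → ℕ}
    (hj : ∀ p ∈ S, 1 ≤ j p ∧ RkGe (PF BX) (PL N) p (10 + 2 * j p))
    (h17 : ∀ p, p.Prime → p ≠ 2 → RkGe (PF BX) (PL N) p 17) (hne : S.Nonempty) :
    ∃ i : ℕ → ℕ, Conf (PF BX) (PL N) S i ∧ ∀ p ∈ S, j p = i p ∨ j p = i p + 1 := by
  by_cases h5 : ∃ p₀ ∈ S, 5 ≤ p₀
  · obtain ⟨p₀, hp₀, h5⟩ := h5
    exact caseA5_19 h.pd h.even hS hj hp₀ h5 (h17 p₀ (hS p₀ hp₀) (by omega))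
  · push Not at h5
    by_cases h3 : 3 ∈ S
    · by_cases h33 : 3 ≤ j 3
      · exact caseA3_19 h.pd h.even hS hj h3 h33 (h17 3 Nat.prime_three (by norm_num))
      · obtain ⟨y₈, h8N, h8m, h8n, h8⟩ := h.y8
        exact caseB3 h.pd h.even hS hj h3 (by omega) h8N h8m h8n h8
    · have h2 : ∀ p ∈ S, p = 2 := by
        intro p hp
        have h1 := h5 p hp
        have h2 := (hS p hp).two_le
        have h3' : p ≠ 3 := fun h => h3 (h ▸ hp)
        have h4 : p ≠ 4 := fun h => by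
          have := hS p hp
          rw [h] at this
          revert this
          norm_num
        omega
      obtain ⟨p, hp⟩ := hne
      have hp2 := h2 p hp
      rw [hp2] at hp
      have hS2 : S = {2} := by
        ext q
        rw [Finset.mem_singleton]
        exact ⟨h2 q, fun hq => by rw [hq]; exact hp⟩
      obtain ⟨hj1, hj2⟩ := hj 2 hp
      have hj5 : j 2 ≤ 5 := by
        have h1 := rk_le Nat.prime_two hj2
        rw [hd] at h1
        omega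
      have key : ∀ i : ℕ, Conf (PF BX) (PL N) {2} (fun _ => i) → (j 2 = i ∨ j 2 = i + 1) →
          ∃ i : ℕ → ℕ, Conf (PF BX) (PL N) S i ∧ ∀ p ∈ S, j p = i p ∨ j p = i p + 1 := by
        intro i hi hji
        refine ⟨fun _ => i, ?_, ?_⟩
        · rw [hS2]
          exact hi
        · intro q hq
          rw [h2 q hq]
          exact hji
      rcases (by omega : j 2 = 1 ∨ (j 2 = 2 ∨ j 2 = 2 + 1) ∨ (j 2 = 4 ∨ j 2 = 4 + 1)) with
        h1 | h1 | h1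
      · rcases h.c1 with hc | hc
        · exact key 1 hc (Or.inl h1)
        · exact key 0 hc (Or.inr h1)
      · exact key 2 h.c2 h1
      · exact key 4 h.c4 h1

end Pool.Agent.RFN
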