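import Mathlib
import Pool.Agent.Lib.MP_dcc566_gt_R.CoreA
import Pool.Agent.Lib.MP_dcc566_gt_E.Ec
import Pool.Agent.Lib.MP_dcc566_gt_E.Ed

/-!
# The core of the classification in rank 19
-/

set_option autoImplicit false

namespace Pool.Agent.RFN

open Module

/-- A minimal lattice without bad cusps in a space of one of the families is the maximal lattice
of the family. -/
theorem core_gen19 {V : Type} [AddCommGroup V] [Module ℚ V] [FiniteDimensional ℚ V] {B : Frm V}
    (hB : Nd B) (hV : finrank ℚ V = 19) {L : AddSubgroup V} (hM : MinL B L) (hnb : ¬ BadR B L)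
    {X : Type} [AddCommGroup X] [Module ℚ X] {BX : Frm X} {N : AddSubgroup X}
    (hN : FamOK BX N) (hmax : MaxE (PF BX) (PL N)) {φ : V ≃ₗ[ℚ] PV X} (hφ : IsIso B (PF BX) φ) :
    ∃ ψ : V ≃ₗ[ℚ] PV X, IsIso B (PF BX) ψ ∧ MapsL ψ L (PL N) := by
  have hfd : FiniteDimensional ℚ (PV X) := LinearEquiv.finiteDimensional φ
  have hd : finrank ℚ (PV X) = 19 := by rw [← hV]; exact (LinearEquiv.finrank_eq φ).symm
  have hB' : Nd (PF BX) := hB.map hφ
  obtain ⟨Λ, hLΛ, hΛ⟩ := exists_maxE hB.symm hM.even hM.full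
  obtain ⟨S, j, f, hS, hL⟩ := structure_thm19 hB hV hM hΛ hLΛ
  -- the isometry with `Λ ↦ PL N`
  obtain ⟨he, hf, hee, hff, hef⟩ := hyp_pair BX N
  obtain ⟨g, hg, hgm⟩ := thmM hB' hmax he hf hee hff hef (hΛ.tr hφ (maps_mapL φ Λ))
  set ψ : V ≃ₗ[ℚ] PV X := φ.trans g.symm with hψ
  have hψi : IsIso B (PF BX) ψ := by
    intro x y
    rw [hψ, LinearEquiv.trans_apply, LinearEquiv.trans_apply, hg.sym, hφ]
  have hψm : MapsL ψ Λ (PL N) := by
    intro x
    rw [hψ, LinearEquiv.trans_apply, hgm.sym, maps_mapL φ Λ]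
  refine ⟨ψ, hψi, ?_⟩
  have hLψ := maps_Cut hψi hψm S j f
  rw [← hL] at hLψ
  rcases S.eq_empty_or_nonempty with hS0 | hne
  · rw [hS0, Cut_empty] at hLψ
    exact hLψ
  · exfalso
    have h17 : ∀ p, p.Prime → p ≠ 2 → RkGe (PF BX) (PL N) p 17 := fun p hp hp2 =>
      rk_max19 hmax hB' hd hp hp2
    have hRk : ∀ p ∈ S, RkGe (PF BX) (PL N) p (10 + 2 * j p) := fun p hp =>
      (hS p hp).2.2.2.map hψi hψm
    obtain ⟨i, hC, hij⟩ := conf_main19 hN hd (fun p hp => (hS p hp).1)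
      (fun p hp => ⟨(hS p hp).2.1, hRk p hp⟩) h17 hne
    obtain ⟨f', hf', hbad⟩ := conf_ext hB'.symm hmax.even (fun p hp => (hS p hp).1) hC hij
    obtain ⟨h, hh, -, hhc⟩ := trans_cut hB' hmax.even he hf hee hff hef S
      (fun p hp => (hS p hp).1) j f' (fun p i => ψ (f p i)) hf'
      (fun p hp => (hS p hp).2.2.1.tr hψi hψm)
      (fun p hp => rk_mono (hRk p hp) (by have := (hS p hp).2.1; omega))
    -- the lattice cut out by `f'` is even and full
    have hev : EvL (PF BX) (Cut (PF BX) (PL N) S j f') := fun x hx => hmax.even x hx.1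
    have hfull : FullL (Cut (PF BX) (PL N) S j f') := by
      intro v
      obtain ⟨n, hn, hv⟩ := (show FullL L from hM.full) (ψ.symm (h v))
      refine ⟨n, hn, ?_⟩
      rw [← hhc, map_smul]
      have := (hLψ ((n : ℚ) • ψ.symm (h v))).2 hv
      rwa [map_smul, ψ.apply_symm_apply] at this
    have h1 : BadR (PF BX) (Cut (PF BX) (PL N) S j f') := badR_of_badE hev hfull hbad
    have h2 := badR_iso hh hhc h1
    exact hnb (badR_iso hψi.sym hLψ.sym h2)

end Pool.Agent.RFN
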