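import Mathlib
import Pool.Agent.Lib.MP_dcc566_gt_R.CoreB
import Pool.Agent.Lib.MP_dcc566_gt.CaseA

/-!
# The lattices `U ⊕ E₈ ⊕ E₈ ⊕ ⟨2q⟩`
-/

set_option autoImplicit false

namespace Pool.Agent.RFN

open Module
open MP_dcc566_gt (bf LG EvenPD CuspBad Idx mk)

/-- The space of `U ⊕ E₈ ⊕ E₈ ⊕ K`. -/
abbrev KV1 : Type := PV ((Fin 8 → ℚ) × (Fin 1 → ℚ))

/-- The form of `U ⊕ E₈ ⊕ E₈ ⊕ K`. -/
noncomputable abbrev KF1 (K : Matrix (Fin 1) (Fin 1) ℤ) : Frm KV1 := PF (sF F8 (mF K))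

/-- The lattice `U ⊕ E₈ ⊕ E₈ ⊕ K`. -/
abbrev KL1 : AddSubgroup KV1 := PL ((Zk 8).prod (Zk 1))

/-- An integral vector of `LG K` as an element of `KV1`. -/
def toKV1 (x : Idx 1 → ℤ) : KV1 :=
  (((x (Sum.inl 0) : ℚ), (x (Sum.inl 1) : ℚ)), (cz fun i => x (Sum.inr (Sum.inl i)),
    (cz fun i => x (Sum.inr (Sum.inr (Sum.inl i))), cz fun i => x (Sum.inr (Sum.inr (Sum.inr i))))))

theorem toKV1_mk (a b : ℤ) (u₁ u₂ : Fin 8 → ℤ) (z : Fin 1 → ℤ) :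
    toKV1 (mk a b u₁ u₂ z) = (((a : ℚ), (b : ℚ)), (cz u₁, (cz u₂, cz z))) := rfl

theorem KF1_toKV1 (K : Matrix (Fin 1) (Fin 1) ℤ) (x y : Idx 1 → ℤ) :
    KF1 K (toKV1 x) (toKV1 y) = ((bf (LG K) x y : ℤ) : ℚ) := by
  obtain ⟨a, b, u₁, u₂, z, rfl⟩ := MP_dcc566_gt.exists_mk x
  obtain ⟨a', b', u₁', u₂', z', rfl⟩ := MP_dcc566_gt.exists_mk y
  rw [toKV1_mk, toKV1_mk, MP_dcc566_gt.bf_mk]
  simp only [KF1, sF_apply, HF_apply, mF_cz]
  push_cast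
  ring

theorem toKV1_mem (x : Idx 1 → ℤ) : toKV1 x ∈ KL1 :=
  ⟨⟨⟨_, rfl⟩, ⟨_, rfl⟩⟩, ⟨_, rfl⟩, ⟨_, rfl⟩, ⟨_, rfl⟩⟩

theorem exists_toKV1 {v : KV1} (hv : v ∈ KL1) : ∃ x : Idx 1 → ℤ, v = toKV1 x := by
  obtain ⟨⟨a, b⟩, u, w, z⟩ := v
  obtain ⟨⟨⟨a', ha⟩, ⟨b', hb⟩⟩, ⟨u', hu⟩, ⟨w', hw⟩, ⟨z', hz⟩⟩ := hv
  simp only at ha hb hu hw hz
  subst ha hb hu hw hz
  exact ⟨mk a' b' u' w' z', rfl⟩

theorem badE_of_cuspBad1 {K : Matrix (Fin 1) (Fin 1) ℤ} (h : CuspBad (LG K)) : BadE (KF1 K) KL1 := by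
  obtain ⟨e, t, he, hee, hte, htt, hr⟩ := h
  refine ⟨toKV1 e, toKV1 t, ?_, ?_, ?_, ?_, ?_⟩
  · intro h0
    apply he
    have h1 := congrArg (fun v : KV1 => v.1.1) h0
    have h2 := congrArg (fun v : KV1 => v.1.2) h0
    have h3 := congrArg (fun v : KV1 => v.2.1) h0
    have h4 := congrArg (fun v : KV1 => v.2.2.1) h0
    have h5 := congrArg (fun v : KV1 => v.2.2.2) h0
    simp only [toKV1] at h1 h2 h3 h4 h5
    funext i
    rcases i with i | i | i | i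
    · fin_cases i
      · have h1' : ((e (Sum.inl 0) : ℤ) : ℚ) = 0 := h1
        show e (Sum.inl 0) = 0
        exact_mod_cast h1'
      · have h2' : ((e (Sum.inl 1) : ℤ) : ℚ) = 0 := h2
        show e (Sum.inl 1) = 0
        exact_mod_cast h2'
    · have := congrFun h3 i
      simpa [cz] using this
    · have := congrFun h4 i
      simpa [cz] using this
    · have := congrFun h5 i
      simpa [cz] using this
  · rw [KF1_toKV1, hee]; rfl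
  · rw [KF1_toKV1, hte]; rfl
  · rw [KF1_toKV1]; exact_mod_cast htt
  · intro r hrL κ hκ hrr hd hre
    obtain ⟨x, rfl⟩ := exists_toKV1 hrL
    rw [KF1_toKV1] at hrr hre ⊢
    have h1 : bf (LG K) x x = 2 * κ := by exact_mod_cast hrr
    have h2 : bf (LG K) x t = 0 := by
      refine hr x (by rw [h1]; positivity) (fun y => ?_) (by exact_mod_cast hre)
      have := hd (toKV1 y) (toKV1_mem y)
      rw [KF1_toKV1] at this
      rw [h1]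
      exact mul_dvd_mul_left 2 (Dv_int.1 this)
    rw [h2]; rfl

theorem EvenPD_q {q : ℤ} (hq : 1 ≤ q) : EvenPD !![2 * q] where
  symm := by
    ext i j
    fin_cases i
    fin_cases j
    rfl
  even := fun u => by
    refine ⟨q * u 0 * u 0, ?_⟩
    simp [bf, dotProduct, Matrix.mulVec]
    ring
  pos := fun u hu => by
    have h0 : u 0 ≠ 0 := by
      intro h
      apply hu
      funext i
      fin_cases i
      exact h
    have h1 : bf !![2 * q] u u = 2 * q * (u 0) ^ 2 := by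
      simp [bf, dotProduct, Matrix.mulVec]
      ring
    rw [h1]
    have h2 : 0 < (u 0) ^ 2 := by positivity
    have h3 : 0 < 2 * q := by omega
    exact mul_pos h3 h2

/-- `U ⊕ E₈ ⊕ E₈ ⊕ ⟨2q⟩` without bad cusps: `q ≤ 2`. -/
theorem core_K1 {q : ℤ} (hq : 1 ≤ q) (hnb : ¬ BadR (KF1 !![2 * q]) KL1) : q = 1 ∨ q = 2 := by
  by_contra hcon
  have h3 : 3 ≤ q := by omega
  have hK := EvenPD_q hq
  have hE : EvL (KF1 !![2 * q]) KL1 :=
    EvL.prod EvL_HF (EvL.prod EvL_F8 (EvL.prod EvL_F8 (EvL_mF hK.even)))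
  have hF : FullL KL1 := fullL_ZZ.pr (FullL_Zk.pr (FullL_Zk.pr FullL_Zk))
  exact hnb (badR_of_badE hE hF (badE_of_cuspBad1 (MP_dcc566_gt.cuspBad_rank1 h3)))

end Pool.Agent.RFN
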