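import Mathlib
import Pool.Agent.Lib.MP_dcc566_gt_R.Cfg
import Pool.Agent.Lib.MP_dcc566_gt_R.E8Da
import Pool.Agent.Lib.MP_dcc566_gt_R.E8Db
import Pool.Agent.Lib.MP_dcc566_gt_R.E7F
import Pool.Agent.Lib.MP_dcc566_gt_R.FamA
import Pool.Agent.Lib.MP_dcc566_gt_R.Ext

/-!
# Lattices containing `U ⊕ E₈ ⊕ E₇`, complement not representing 2 (rank 19)
-/

set_option autoImplicit false

namespace Pool.Agent.RFN

open MP_dcc566_gt (bf E8 w8)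

variable {Y : Type} [AddCommGroup Y] [Module ℚ Y]

/-- The third family: `N` contains `E₇`, the space `Y` does not represent 2. -/
structure F3M (BY : Frm Y) (N : AddSubgroup ((Fin 7 → ℚ) × Y)) : Prop where
  pd : Pd BY
  even : EvL (sF (mF E7) BY) N
  e7 : ∀ x ∈ Zk 7, (x, (0 : Y)) ∈ N
  no2 : ∀ y, BY y y ≠ 2

theorem F3M_symm {BY : Frm Y} (h : Pd BY) (x y : (Fin 7 → ℚ) × Y) :
    sF (mF E7) BY x y = sF (mF E7) BY y x := sF_symm Pd_F7.symm h.symm x y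

theorem F3M_isZ {BY : Frm Y} {N : AddSubgroup ((Fin 7 → ℚ) × Y)} (h : F3M BY N)
    {x y : (Fin 7 → ℚ) × Y} (hx : x ∈ N) (hy : y ∈ N) : IsZ (sF (mF E7) BY x y) :=
  EvL.isZ (F3M_symm h.pd) h.even hx hy

theorem F3M_dual {BY : Frm Y} {N : AddSubgroup ((Fin 7 → ℚ) × Y)} (h : F3M BY N)
    {z : (Fin 7 → ℚ) × Y} (hz : z ∈ N) : z.1 ∈ Zk 7 ∨ z.1 - om7 ∈ Zk 7 := by
  refine E7_dual fun u => ?_
  have h1 := F3M_isZ h hz (h.e7 (cz u) (cz_mem u))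
  rw [sF_apply, map_zero, add_zero] at h1
  exact h1

/-- the norm is not `1/2` -/
theorem F3M_half {BY : Frm Y} {N : AddSubgroup ((Fin 7 → ℚ) × Y)} (h : F3M BY N) (y : Y) :
    BY y y ≠ 1 / 2 := by
  intro h1
  apply h.no2 ((2 : ℚ) • y)
  simp only [map_smul, LinearMap.smul_apply, smul_eq_mul]
  rw [h1]
  norm_num

theorem F3M_coset {BY : Frm Y} {N : AddSubgroup ((Fin 7 → ℚ) × Y)} (h : F3M BY N)
    {z : (Fin 7 → ℚ) × Y} (hz : z ∈ N) (hz1 : z.1 - om7 ∈ Zk 7) :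
    ∃ n : ℤ, 1 ≤ n ∧ BY z.2 z.2 = 1 / 2 + 2 * n := by
  obtain ⟨m, hm⟩ := h.even z hz
  obtain ⟨n, hn, hn0⟩ := E7_coset_norm hz1
  rw [sF_apply, hn] at hm
  have h1 : BY z.2 z.2 = 1 / 2 + 2 * ((m - n - 1 : ℤ) : ℚ) := by
    push_cast at hm ⊢
    linarith
  refine ⟨m - n - 1, ?_, h1⟩
  have h2 := h.pd.nonneg z.2
  rw [h1] at h2
  have h3 : (-1 : ℚ) < ((m - n - 1 : ℤ) : ℚ) := by linarith
  have h4 : (-1 : ℤ) < m - n - 1 := by exact_mod_cast h3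
  by_contra h5
  have h6 : m - n - 1 = 0 := by omega
  rw [h6] at h1
  apply F3M_half h z.2
  rw [h1]
  norm_num

theorem F3M_zero {BY : Frm Y} {N : AddSubgroup ((Fin 7 → ℚ) × Y)} (h : F3M BY N)
    {y : Y} (hy : ((0 : Fin 7 → ℚ), y) ∈ N) : Dv 2 (BY y y) := by
  have h1 := h.even _ hy
  rw [sF_apply, map_zero, zero_add] at h1
  exact h1

theorem F3M_prod {BY : Frm Y} {N : AddSubgroup ((Fin 7 → ℚ) × Y)} (h : F3M BY N)
    {z : (Fin 7 → ℚ) × Y} (hz : z ∈ N) {y : Y} (hy : ((0 : Fin 7 → ℚ), y) ∈ N) :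
    IsZ (BY z.2 y) := by
  have h1 := F3M_isZ h hz hy
  rw [sF_apply, map_zero, zero_add] at h1
  exact h1

theorem F3M_sq {β : ℤ} (hβ : ¬ (3 : ℤ) ∣ β) : ∃ k : ℤ, β ^ 2 = 1 + 3 * k := by
  have h1 : β % 3 = 1 ∨ β % 3 = 2 := by omega
  rcases h1 with h1 | h1
  · obtain ⟨t, ht⟩ : ∃ t, β = 3 * t + 1 := ⟨β / 3, by omega⟩
    exact ⟨3 * t ^ 2 + 2 * t, by rw [ht]; ring⟩
  · obtain ⟨t, ht⟩ : ∃ t, β = 3 * t + 2 := ⟨β / 3, by omega⟩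
    exact ⟨3 * t ^ 2 + 4 * t + 1, by rw [ht]; ring⟩

/-- Elements of `N`.

PROOF.  For `(x,y) ∈ N` products with `(cz u, 0) ∈ N` are integers, so `E7_dual`.  If `x ∈ Zk 7`: `(0,y) = (x,y) - (x,0) ∈ N`, `(y,y)` is an
even integer, nonnegative, not 2: it is 0 (then `y = 0`) or `≥ 4`.  Otherwise `(x,x) = 3/2 + 2n` (`E7_coset_norm`), so
`(y,y) = even - (x,x) = 1/2 mod 2`, nonnegative; if it were `1/2`, `(2y,2y) = 2`; so `≥ 5/2`. -/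
theorem F3M.cases {BY : Frm Y} {N : AddSubgroup ((Fin 7 → ℚ) × Y)} (h : F3M BY N)
    {z : (Fin 7 → ℚ) × Y} (hz : z ∈ N) :
    (z.1 ∈ Zk 7 ∧ ((0 : Fin 7 → ℚ), z.2) ∈ N ∧ Dv 2 (BY z.2 z.2) ∧
        (z.2 = 0 ∨ 4 ≤ BY z.2 z.2)) ∨
      (z.1 - om7 ∈ Zk 7 ∧ (∃ n : ℤ, BY z.2 z.2 = 1 / 2 + 2 * n) ∧ 5 / 2 ≤ BY z.2 z.2) := by
  rcases F3M_dual h hz with h1 | h1
  · left
    have h2 : ((0 : Fin 7 → ℚ), z.2) ∈ N := by
      have h3 := N.sub_mem hz (h.e7 z.1 h1)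
      have h4 : z - (z.1, (0 : Y)) = ((0 : Fin 7 → ℚ), z.2) := by
        ext1
        · simp
        · simp
      rwa [h4] at h3
    have h3 := F3M_zero h h2
    refine ⟨h1, h2, h3, ?_⟩
    obtain ⟨n, hn⟩ := h3
    have h4 := h.pd.nonneg z.2
    rw [hn] at h4
    have h5 : (0 : ℚ) ≤ (n : ℚ) := by
      push_cast at h4
      linarith
    have h6 : (0 : ℤ) ≤ n := by exact_mod_cast h5
    have h7 : n ≠ 1 := by
      rintro rfl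
      exact h.no2 z.2 (by rw [hn]; norm_num)
    rcases (by omega : n = 0 ∨ 2 ≤ n) with h8 | h8
    · left
      rw [h8] at hn
      exact h.pd.eq_zero (by rw [hn]; norm_num)
    · right
      rw [hn]
      have h9 : (2 : ℚ) ≤ n := by exact_mod_cast h8
      push_cast
      linarith
  · right
    obtain ⟨n, hn1, hn⟩ := F3M_coset h hz h1
    refine ⟨h1, ⟨n, hn⟩, ?_⟩
    rw [hn]
    have h9 : (1 : ℚ) ≤ n := by exact_mod_cast hn1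
    linarith

/-- The `E₇`-part of generalized roots: `κ ≥ 2`.

PROOF.  `(z.1)/κ` has integral products with `Zk 7` (test with `(cz u, 0) ∈ N`), so it is in `Zk 7` or in the coset (`E7_dual`); if it is
not zero its norm is `≥ 3/2` (`E7_even`, `E7_pos`, resp. `E7_coset_norm`), so `(z.1,z.1) ≥ 3/2 κ² > 2κ`. -/
theorem F3M.root_zero {BY : Frm Y} {N : AddSubgroup ((Fin 7 → ℚ) × Y)} (h : F3M BY N) {κ : ℤ}
    (hκ : 2 ≤ κ) {z : (Fin 7 → ℚ) × Y} (hz : z ∈ N)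
    (hd : ∀ z' ∈ N, Dv κ (sF (mF E7) BY z z')) (hn : sF (mF E7) BY z z ≤ 2 * κ) : z.1 = 0 := by
  have hκq : (2 : ℚ) ≤ κ := by exact_mod_cast hκ
  have hκ0 : (κ : ℚ) ≠ 0 := by linarith
  set x' := (κ : ℚ)⁻¹ • z.1 with hx'
  have hzx : z.1 = (κ : ℚ) • x' := by
    rw [hx', smul_smul, mul_inv_cancel₀ hκ0, one_smul]
  have h1 : ∀ u : Fin 7 → ℤ, IsZ (mF E7 x' (cz u)) := by
    intro u
    obtain ⟨n, h2⟩ := hd _ (h.e7 (cz u) (cz_mem u))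
    rw [sF_apply, map_zero, add_zero] at h2
    refine ⟨n, ?_⟩
    rw [hx', map_smul, LinearMap.smul_apply, smul_eq_mul, h2, ← mul_assoc, inv_mul_cancel₀ hκ0,
      one_mul]
  have h2 : mF E7 z.1 z.1 = (κ : ℚ) ^ 2 * mF E7 x' x' := by
    rw [hzx]
    simp only [map_smul, LinearMap.smul_apply, smul_eq_mul]
    ring
  have h3 := h.pd.nonneg z.2
  rw [sF_apply, h2] at hn
  by_contra hne
  have hx0 : x' ≠ 0 := by
    intro h4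
    rw [h4, smul_zero] at hzx
    exact hne hzx
  have h4 : 3 / 2 ≤ mF E7 x' x' := by
    rcases E7_dual h1 with h5 | h5
    · obtain ⟨u, hu⟩ := mem_Zk.1 h5
      have hu0 : u ≠ 0 := by
        rintro rfl
        exact hx0 (by rw [hu, cz_zero])
      have h6 := E7_pos u hu0
      obtain ⟨m, hm⟩ := E7_even u
      have h7 : 2 ≤ bf E7 u u := by omega
      have h8 : (2 : ℚ) ≤ ((bf E7 u u : ℤ) : ℚ) := by exact_mod_cast h7
      rw [hu, mF_cz]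
      linarith
    · obtain ⟨n, hn, hn0⟩ := E7_coset_norm h5
      have h6 : (0 : ℚ) ≤ n := by exact_mod_cast hn0
      rw [hn]
      linarith
  nlinarith

/-- Roots of norm at most 2.

PROOF.  `F3M.cases`.  In the other coset the norm is `≥ 3/2 + 5/2`.  Otherwise `z.1 = cz u`; if `z.1 ≠ 0` then `(z.1,z.1) ≥ 2`, so it is 2 and
`(z.2,z.2) ≤ 0`, `z.2 = 0`. -/
theorem F3M.root_two {BY : Frm Y} {N : AddSubgroup ((Fin 7 → ℚ) × Y)} (h : F3M BY N)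
    {z : (Fin 7 → ℚ) × Y} (hz : z ∈ N) (hn : sF (mF E7) BY z z ≤ 2) (h0 : z.1 ≠ 0) :
    z.2 = 0 ∧ ∃ u : Fin 7 → ℤ, z.1 = cz u ∧ bf E7 u u = 2 := by
  rw [sF_apply] at hn
  have h3 := h.pd.nonneg z.2
  rcases F3M_dual h hz with h1 | h1
  · obtain ⟨u, hu⟩ := mem_Zk.1 h1
    have hu0 : u ≠ 0 := by
      rintro rfl
      exact h0 (by rw [hu, cz_zero])
    have h6 := E7_pos u hu0
    obtain ⟨m, hm⟩ := E7_even u
    have h7 : 2 ≤ bf E7 u u := by omega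
    rw [hu, mF_cz] at hn
    have h8 : ((bf E7 u u : ℤ) : ℚ) ≤ 2 := by linarith
    have h9 : bf E7 u u ≤ 2 := by exact_mod_cast h8
    have h10 : bf E7 u u = 2 := le_antisymm h9 h7
    rw [h10] at hn
    refine ⟨h.pd.eq_zero ?_, u, hu, h10⟩
    push_cast at hn
    linarith
  · exfalso
    obtain ⟨n, hn1, hn2⟩ := F3M_coset h hz h1
    obtain ⟨m, hm, hm0⟩ := E7_coset_norm h1
    have h6 : (0 : ℚ) ≤ m := by exact_mod_cast hm0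
    have h7 : (1 : ℚ) ≤ n := by exact_mod_cast hn1
    rw [hn2, hm] at hn
    linarith

/-- The `E₇`-part of `R = 3z - κβ(g, y)`, `κ ≥ 1`: `R.1 = κ (3x' - β g)` with `x'` in `Zk 7` or in the coset; lower bounds
`κ² · 7/2` for `g = g8`, `κ² · 4` for `g = g4`, `κ² · 2` for `g = g2`.  (`E7_dual` for `z.1/κ`; `E7_g8`, `E7_g4`, `E7_g2`, `E7_coset`,
`E7_coset_g2`.) -/
theorem F3M.lower {BY : Frm Y} {N : AddSubgroup ((Fin 7 → ℚ) × Y)} (h : F3M BY N) {κ β : ℤ}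
    (hκ : 0 < κ) (hβ : ¬ (3 : ℤ) ∣ β) {z : (Fin 7 → ℚ) × Y} (hz : z ∈ N)
    (hd : ∀ z' ∈ N, Dv κ (sF (mF E7) BY z z')) :
    7 / 2 * (κ : ℚ) ^ 2 ≤ mF E7 ((3 : ℚ) • z.1 - ((κ * β : ℤ) : ℚ) • cz g8)
        ((3 : ℚ) • z.1 - ((κ * β : ℤ) : ℚ) • cz g8) ∧
      4 * (κ : ℚ) ^ 2 ≤ mF E7 ((3 : ℚ) • z.1 - ((κ * β : ℤ) : ℚ) • cz g4)
        ((3 : ℚ) • z.1 - ((κ * β : ℤ) : ℚ) • cz g4) ∧
      2 * (κ : ℚ) ^ 2 ≤ mF E7 ((3 : ℚ) • z.1 - ((κ * β : ℤ) : ℚ) • cz g2)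
        ((3 : ℚ) • z.1 - ((κ * β : ℤ) : ℚ) • cz g2) := by
  have hκq : (0 : ℚ) < κ := by exact_mod_cast hκ
  have hκ0 : (κ : ℚ) ≠ 0 := hκq.ne'
  set x' := (κ : ℚ)⁻¹ • z.1 with hx'
  have hzx : z.1 = (κ : ℚ) • x' := by
    rw [hx', smul_smul, mul_inv_cancel₀ hκ0, one_smul]
  have h1 : ∀ u : Fin 7 → ℤ, IsZ (mF E7 x' (cz u)) := by
    intro u
    obtain ⟨n, h2⟩ := hd _ (h.e7 (cz u) (cz_mem u))
    rw [sF_apply, map_zero, add_zero] at h2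
    refine ⟨n, ?_⟩
    rw [hx', map_smul, LinearMap.smul_apply, smul_eq_mul, h2, ← mul_assoc, inv_mul_cancel₀ hκ0,
      one_mul]
  have h2 : ∀ g : Fin 7 → ℤ, mF E7 ((3 : ℚ) • z.1 - ((κ * β : ℤ) : ℚ) • cz g)
      ((3 : ℚ) • z.1 - ((κ * β : ℤ) : ℚ) • cz g) = (κ : ℚ) ^ 2 *
        mF E7 ((3 : ℚ) • x' - (β : ℚ) • cz g) ((3 : ℚ) • x' - (β : ℚ) • cz g) := by
    intro g
    have h3 : (3 : ℚ) • z.1 - ((κ * β : ℤ) : ℚ) • cz g =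
        (κ : ℚ) • ((3 : ℚ) • x' - (β : ℚ) • cz g) := by
      rw [hzx]
      push_cast
      module
    rw [h3]
    generalize (3 : ℚ) • x' - (β : ℚ) • cz g = R
    simp only [map_smul, LinearMap.smul_apply, smul_eq_mul]
    ring
  rw [h2, h2, h2]
  have hk2 : (0 : ℚ) ≤ (κ : ℚ) ^ 2 := by positivity
  have key : ∀ (c v : ℚ), c ≤ v → c * (κ : ℚ) ^ 2 ≤ (κ : ℚ) ^ 2 * v := by
    intro c v hcv
    rw [mul_comm c]
    exact mul_le_mul_of_nonneg_left hcv hk2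
  rcases E7_dual h1 with h5 | h5
  · obtain ⟨u, hu⟩ := mem_Zk.1 h5
    have h6 : ∀ g : Fin 7 → ℤ, mF E7 ((3 : ℚ) • x' - (β : ℚ) • cz g)
        ((3 : ℚ) • x' - (β : ℚ) • cz g) =
        ((bf E7 ((3 : ℤ) • u - β • g) ((3 : ℤ) • u - β • g) : ℤ) : ℚ) := by
      intro g
      rw [← mF_cz, cz_sub, cz_smul, cz_smul, hu]
      push_cast
      rfl
    rw [h6, h6, h6]
    have h8 : (8 : ℚ) ≤ ((bf E7 ((3 : ℤ) • u - β • g8) ((3 : ℤ) • u - β • g8) : ℤ) : ℚ) := by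
      exact_mod_cast E7_g8 hβ u
    have h9 : (4 : ℚ) ≤ ((bf E7 ((3 : ℤ) • u - β • g4) ((3 : ℤ) • u - β • g4) : ℤ) : ℚ) := by
      exact_mod_cast E7_g4 hβ u
    have h10 : (2 : ℚ) ≤ ((bf E7 ((3 : ℤ) • u - β • g2) ((3 : ℤ) • u - β • g2) : ℤ) : ℚ) := by
      exact_mod_cast E7_g2 hβ u
    exact ⟨key _ _ (by linarith), key _ _ (by linarith), key _ _ (by linarith)⟩
  · obtain ⟨⟨n, hn0, hn⟩, h7, -⟩ := E7_coset hβ h5
    have h8 := E7_coset_g2 hβ h5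
    have h9 : (0 : ℚ) ≤ n := by exact_mod_cast hn0
    exact ⟨key _ _ (by rw [hn]; linarith), key _ _ (by linarith), key _ _ (by linarith)⟩

end Pool.Agent.RFN
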