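import Mathlib
import Pool.Agent.Lib.MP_dcc566_gt_E.Ei

/-!
# The third family: the maximal lattice, with a vector of the radical modulo 3
-/

set_option autoImplicit false

namespace Pool.Agent.RFN

open MP_dcc566_gt (bf E8 w8)

variable {Y : Type} [AddCommGroup Y] [Module ℚ Y]

/-- A multiple of the residue class. -/
private theorem Ej_sign {β : ℤ} (hβ : ¬ (3 : ℤ) ∣ β) :
    ∃ σ k : ℤ, (σ = 1 ∨ σ = -1) ∧ β = σ + 3 * k := by
  have h1 : β % 3 = 1 ∨ β % 3 = 2 := by omega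
  rcases h1 with h1 | h1
  · exact ⟨1, β / 3, Or.inl rfl, by omega⟩
  · exact ⟨-1, (β + 1) / 3, Or.inr rfl, by omega⟩

/-- Vectors `3 x - β y` of the norm of `y`. -/
private theorem Ej_close {V : Type} [AddCommGroup V] [Module ℚ V] {B : Frm V} (hB : Pd B)
    {x y : V} {σ k β : ℤ} (hσ : σ = 1 ∨ σ = -1) (hβ : β = σ + 3 * k) {a : ℚ} (ha : 0 ≤ a)
    (hy : B y y = a)
    (hR : B ((3 : ℚ) • x - (β : ℚ) • y) ((3 : ℚ) • x - (β : ℚ) • y) = a)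
    (h0 : B (x - (k : ℚ) • y) (x - (k : ℚ) • y) = 0 ∨
      4 * a < 9 * B (x - (k : ℚ) • y) (x - (k : ℚ) • y)) :
    B ((3 : ℚ) • x - (β : ℚ) • y) y = -(σ * a) := by
  have hcs := hB.cs ((3 : ℚ) • x - (β : ℚ) • y) y
  rw [hR, hy, ← sq] at hcs
  obtain ⟨h1, h2⟩ := abs_le_of_sq_le_sq' hcs ha
  have hsy : B y x = B x y := hB.symm y x
  have hβq : (β : ℚ) = σ + 3 * k := by exact_mod_cast hβ
  have e1 : 9 * B (x - (k : ℚ) • y) (x - (k : ℚ) • y) =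
      2 * σ * B ((3 : ℚ) • x - (β : ℚ) • y) y + 2 * a := by
    simp only [map_sub, map_smul, LinearMap.sub_apply, LinearMap.smul_apply, smul_eq_mul, hsy,
      hy] at hR ⊢
    rw [hβq] at hR ⊢
    rcases hσ with rfl | rfl
    · push_cast at hR ⊢
      linarith
    · push_cast at hR ⊢
      linarith
  rcases hσ with rfl | rfl
  · push_cast at e1 ⊢
    rcases h0 with h0 | h0
    · linarith
    · linarith
  · push_cast at e1 ⊢
    rcases h0 with h0 | h0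
    · linarith
    · linarith

/-- Norms of the vectors of `N` in `Y`. -/
private theorem Ej_zero {BY : Frm Y} {N : AddSubgroup ((Fin 7 → ℚ) × Y)} (h : F3M BY N) {y : Y}
    (hy : ((0 : Fin 7 → ℚ), y) ∈ N) : y = 0 ∨ 4 ≤ BY y y := by
  obtain ⟨n, hn⟩ := F3M_zero h hy
  have h4 := h.pd.nonneg y
  rw [hn] at h4
  have h6 : (0 : ℤ) ≤ n := by
    have : (0 : ℚ) ≤ (n : ℚ) := by
      push_cast at h4
      linarith
    exact_mod_cast this
  have h7 : n ≠ 1 := by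
    rintro rfl
    exact h.no2 y (by rw [hn]; norm_num)
  rcases (by omega : n = 0 ∨ 2 ≤ n) with h8 | h8
  · left
    rw [h8] at hn
    exact h.pd.eq_zero (by rw [hn]; norm_num)
  · right
    rw [hn]
    have h9 : (2 : ℚ) ≤ n := by exact_mod_cast h8
    push_cast
    linarith

/-- PROOF.  `F3M.cases`: `z.1 ∈ Zk 7`: `(0, z.2) ∈ N`.  Otherwise `2 z.1 ∈ Zk 7` (`F3M_om2`), so `(0, 2 z.2) = 2 z - (2 z.1, 0) ∈ N`,
`3 ∣ 2 (y₀, z.2)`, and `(y₀, z.2) = ((0,y₀), z)` is an integer. -/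
theorem F3M.rad {BY : Frm Y} {N : AddSubgroup ((Fin 7 → ℚ) × Y)} (h : F3M BY N) {y₀ : Y}
    (hy : ((0 : Fin 7 → ℚ), y₀) ∈ N)
    (hrad : ∀ t, ((0 : Fin 7 → ℚ), t) ∈ N → Dv 3 (BY y₀ t)) {z : (Fin 7 → ℚ) × Y} (hz : z ∈ N) :
    Dv 3 (BY y₀ z.2) := by
  rcases h.cases hz with ⟨-, h2, -, -⟩ | ⟨h1, -, -⟩
  · exact hrad _ h2
  · obtain ⟨w, hw⟩ := h1
    obtain ⟨w', hw'⟩ := F3M_om2
    have h7 : (2 : ℚ) • z.1 = cz (w' + (2 : ℤ) • w) := by
      rw [cz_add, cz_smul, ← hw', Int.cast_ofNat, ← smul_add]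
      congr 1
      have : z.1 - om7 = cz w := hw
      rw [← this]
      abel
    have h8 : ((0 : Fin 7 → ℚ), (2 : ℚ) • z.2) ∈ N := by
      have h3 := N.sub_mem (N.add_mem hz hz) (h.e7 (cz (w' + (2 : ℤ) • w)) (cz_mem _))
      have h4 : z + z - (cz (w' + (2 : ℤ) • w), (0 : Y)) =
          ((0 : Fin 7 → ℚ), (2 : ℚ) • z.2) := by
        rw [← h7]
        refine Prod.ext ?_ ?_
        · change z.1 + z.1 - (2 : ℚ) • z.1 = 0
          module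
        · change z.2 + z.2 - 0 = (2 : ℚ) • z.2
          module
      rwa [h4] at h3
    obtain ⟨a, ha⟩ := hrad _ h8
    obtain ⟨b, hb⟩ := F3M_prod h hz hy
    rw [h.pd.symm] at hb
    rw [map_smul, smul_eq_mul, hb] at ha
    have h9 : 2 * b = 3 * a := by exact_mod_cast ha
    refine ⟨b - a, ?_⟩
    have h10 : b = 3 * (b - a) := by omega
    rw [hb]
    exact_mod_cast h10

/-- The norm of a vector of the radical. -/
private theorem Ej_six {BY : Frm Y} {N : AddSubgroup ((Fin 7 → ℚ) × Y)} (h : F3M BY N) {y : Y}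
    (hy : ((0 : Fin 7 → ℚ), y) ∈ N)
    (hrad : ∀ t, ((0 : Fin 7 → ℚ), t) ∈ N → Dv 3 (BY y t)) (h18 : ¬ Dv 18 (BY y y)) :
    ∃ c : ℤ, BY y y = 6 * c ∧ ¬ (3 : ℤ) ∣ c := by
  obtain ⟨a, ha⟩ := hrad y hy
  obtain ⟨b, hb⟩ := F3M_zero h hy
  have h1 : 3 * a = 2 * b := by
    have : (3 : ℚ) * a = 2 * b := by
      rw [hb] at ha
      push_cast at ha
      linarith
    exact_mod_cast this
  refine ⟨a / 2, ?_, ?_⟩
  · have h2 : b = 3 * (a / 2) := by omega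
    rw [hb, h2]
    push_cast
    ring
  · rintro ⟨d, hd⟩
    refine h18 ⟨d, ?_⟩
    have h2 : b = 9 * d := by omega
    rw [hb, h2]
    push_cast
    ring

/-- The norm of `R_Y`. -/
private theorem Ej_norm {BY : Frm Y} {N : AddSubgroup ((Fin 7 → ℚ) × Y)} (h : F3M BY N) {y : Y}
    (hy : ((0 : Fin 7 → ℚ), y) ∈ N)
    (hrad : ∀ t, ((0 : Fin 7 → ℚ), t) ∈ N → Dv 3 (BY y t)) {c : ℤ} (hc : BY y y = 6 * c)
    {β : ℤ} (hβ : ¬ (3 : ℤ) ∣ β) {z : (Fin 7 → ℚ) × Y} (hz : z ∈ N) :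
    ∃ M : ℤ, BY ((3 : ℚ) • z.2 - (β : ℚ) • y) ((3 : ℚ) • z.2 - (β : ℚ) • y) =
      9 * BY z.2 z.2 + 6 * c + 18 * M := by
  obtain ⟨a, ha⟩ := h.rad hy hrad hz
  obtain ⟨k, hk⟩ := F3M_sq hβ
  have hkq : (β : ℚ) ^ 2 = 1 + 3 * k := by exact_mod_cast hk
  refine ⟨k * c - β * a, ?_⟩
  simp only [map_sub, map_smul, LinearMap.sub_apply, LinearMap.smul_apply, smul_eq_mul]
  rw [h.pd.symm z.2 y, ha, hc]
  push_cast
  linear_combination (6 * (c : ℚ)) * hkq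

/-- The first hypothesis of the configuration lemma. -/
private theorem Ej_H1 {BY : Frm Y} {N : AddSubgroup ((Fin 7 → ℚ) × Y)} (h : F3M BY N) {y : Y}
    (hy : ((0 : Fin 7 → ℚ), y) ∈ N)
    (hrad : ∀ t, ((0 : Fin 7 → ℚ), t) ∈ N → Dv 3 (BY y t)) {c : ℤ} (hc : BY y y = 6 * c)
    (hc3 : ¬ (3 : ℤ) ∣ c) {κ β : ℤ} {u : Fin 8 → ℤ} {n : (Fin 7 → ℚ) × Y} (hn : n ∈ N)
    (hκ : 0 < κ) (hβ : ¬ (3 : ℤ) ∣ β) (hu : ∀ v, κ ∣ bf E8 u v)
    (hd : ∀ n' ∈ N, Dv κ (sF (mF E7) BY n n'))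
    (htot : ((bf E8 ((3 : ℤ) • u - (κ * β) • w8) ((3 : ℤ) • u - (κ * β) • w8) : ℤ) : ℚ) +
      (mF E7 ((3 : ℚ) • n.1 - ((κ * β : ℤ) : ℚ) • cz g4)
        ((3 : ℚ) • n.1 - ((κ * β : ℤ) : ℚ) • cz g4) +
      BY ((3 : ℚ) • n.2 - ((κ * β : ℤ) : ℚ) • y) ((3 : ℚ) • n.2 - ((κ * β : ℤ) : ℚ) • y)) =
      2 * κ * (3 : ℚ) ^ 2) :
    κ = 1 ∧ (∃ w : Fin 7 → ℤ, n.1 = cz w) ∧
      mF E7 ((3 : ℚ) • n.1 - (β : ℚ) • cz g4) ((3 : ℚ) • n.1 - (β : ℚ) • cz g4) = 4 ∧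
      ((0 : Fin 7 → ℚ), n.2) ∈ N ∧
      BY ((3 : ℚ) • n.2 - (β : ℚ) • y) ((3 : ℚ) • n.2 - (β : ℚ) • y) = 6 := by
  have hE := F3M_E8 hβ hu
  have hE' : (8 : ℚ) * κ ^ 2 ≤ ((bf E8 ((3 : ℤ) • u - (κ * β) • w8)
      ((3 : ℤ) • u - (κ * β) • w8) : ℤ) : ℚ) := by exact_mod_cast hE
  have hL := (h.lower hκ hβ hn hd).2.1
  have hY := h.pd.nonneg ((3 : ℚ) • n.2 - ((κ * β : ℤ) : ℚ) • y)
  have hκ0 : (1 : ℚ) ≤ κ := by exact_mod_cast hκ
  have hκ1 : κ = 1 := by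
    by_contra hne
    have h2' : (2 : ℚ) ≤ κ := by
      have : 2 ≤ κ := by omega
      exact_mod_cast this
    nlinarith
  subst hκ1
  simp only [one_mul, Int.cast_one, mul_one, one_pow] at htot hE' hY hL
  obtain ⟨M, hM⟩ := Ej_norm h hy hrad hc hβ hn
  rcases h.cases hn with ⟨c1, c2, c3, -⟩ | ⟨c1, ⟨j, c2⟩, -⟩
  · obtain ⟨j, hj⟩ := c3
    obtain ⟨w, hw⟩ := c1
    have hge : (6 : ℚ) ≤ BY ((3 : ℚ) • n.2 - (β : ℚ) • y) ((3 : ℚ) • n.2 - (β : ℚ) • y) := by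
      have e1 : BY ((3 : ℚ) • n.2 - (β : ℚ) • y) ((3 : ℚ) • n.2 - (β : ℚ) • y) =
          6 * ((3 * j + c + 3 * M : ℤ) : ℚ) := by
        rw [hM, hj]
        push_cast
        ring
      rw [e1] at hY ⊢
      have h1 : (0 : ℤ) ≤ 3 * j + c + 3 * M := by
        have : (0 : ℚ) ≤ ((3 * j + c + 3 * M : ℤ) : ℚ) := by linarith
        exact_mod_cast this
      have h2 : (1 : ℤ) ≤ 3 * j + c + 3 * M := by omega
      have h3 : (1 : ℚ) ≤ ((3 * j + c + 3 * M : ℤ) : ℚ) := by exact_mod_cast h2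
      linarith
    refine ⟨rfl, ⟨w, hw⟩, ?_, c2, ?_⟩
    · linarith
    · linarith
  · exfalso
    have e1 : BY ((3 : ℚ) • n.2 - (β : ℚ) • y) ((3 : ℚ) • n.2 - (β : ℚ) • y) =
        9 / 2 + 6 * ((3 * j + c + 3 * M : ℤ) : ℚ) := by
      rw [hM, c2]
      push_cast
      ring
    rw [e1] at hY htot
    have h1 : (0 : ℤ) ≤ 3 * j + c + 3 * M := by
      by_contra hneg
      have h2 : 3 * j + c + 3 * M ≤ -1 := by omega
      have h3 : ((3 * j + c + 3 * M : ℤ) : ℚ) ≤ -1 := by exact_mod_cast h2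
      linarith
    have h2 : (1 : ℤ) ≤ 3 * j + c + 3 * M := by omega
    have h3 : (1 : ℚ) ≤ ((3 * j + c + 3 * M : ℤ) : ℚ) := by exact_mod_cast h2
    linarith

/-- The second hypothesis in the first case. -/
private theorem Ej_H2 {BY : Frm Y} {N : AddSubgroup ((Fin 7 → ℚ) × Y)} (h : F3M BY N) {y : Y}
    (hyy : BY y y = 6) {κ : ℤ} {u : Fin 8 → ℤ} {n : (Fin 7 → ℚ) × Y} (hn : n ∈ N)
    (hκ : 0 < κ) (hu : ∀ v, κ ∣ bf E8 u v) (hd : ∀ n' ∈ N, Dv κ (sF (mF E7) BY n n'))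
    (hnorm : ((bf E8 u u : ℤ) : ℚ) + sF (mF E7) BY n n = 2 * κ)
    (hv : Dv (3 * κ) (((bf E8 u w8 : ℤ) : ℚ) + sF (mF E7) BY n (cz g4, y))) :
    ((bf E8 u 0 : ℤ) : ℚ) + sF (mF E7) BY n ((3 : ℚ) • cz g4, (-2 : ℚ) • y) = 0 := by
  rw [MP_dcc566_gt.bf_zero_right, sF_apply]
  simp only [map_smul, smul_eq_mul, Int.cast_zero, zero_add]
  have hnn : (0 : ℚ) ≤ ((bf E8 u u : ℤ) : ℚ) := by exact_mod_cast MP_dcc566_gt.E8_nonneg u
  rcases lt_or_ge 1 κ with h1 | h1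
  · have hz : n.1 = 0 := h.root_zero (κ := κ) (by omega) hn hd (by linarith)
    have hκ2 : (2 : ℚ) ≤ κ := by
      have : 2 ≤ κ := by omega
      exact_mod_cast this
    have hnorm2 : sF (mF E7) BY n n = BY n.2 n.2 := by
      rw [sF_apply, hz]
      simp
    rw [hnorm2] at hnorm
    have hY := h.pd.nonneg n.2
    have hu0 : u = 0 := by
      obtain ⟨u', rfl⟩ := MP_dcc566_gt.E8_unimod hu
      by_contra hne
      have hu' : u' ≠ 0 := by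
        rintro rfl
        exact hne (smul_zero κ)
      have h2 := MP_dcc566_gt.E8_pos u' hu'
      obtain ⟨m, hm⟩ := MP_dcc566_gt.E8_even u'
      have h3 : (2 : ℚ) ≤ ((bf E8 u' u' : ℤ) : ℚ) := by
        have : 2 ≤ bf E8 u' u' := by omega
        exact_mod_cast this
      rw [MP_dcc566_gt.bf_smul_left, MP_dcc566_gt.bf_smul_right] at hnorm
      push_cast at hnorm
      have h4 : (κ : ℚ) * (κ * 2) ≤ κ * (κ * ((bf E8 u' u' : ℤ) : ℚ)) :=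
        mul_le_mul_of_nonneg_left (mul_le_mul_of_nonneg_left h3 (by linarith)) (by linarith)
      nlinarith
    rw [hu0, MP_dcc566_gt.bf_zero_left] at hv hnorm
    rw [sF_apply, hz] at hv
    simp only [map_zero, LinearMap.zero_apply, Int.cast_zero, zero_add] at hv hnorm
    obtain ⟨j, hj⟩ := hv
    have hcs := h.pd.cs n.2 y
    rw [hyy, hnorm, hj] at hcs
    have hj0 : j = 0 := by
      by_contra hne
      have h2 : 1 ≤ j ^ 2 := by
        have : 0 < j ^ 2 := by positivity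
        omega
      have h3 : (1 : ℚ) ≤ (j : ℚ) ^ 2 := by exact_mod_cast h2
      push_cast at hcs
      have h4 : (κ : ℚ) ^ 2 * 1 ≤ κ ^ 2 * (j : ℚ) ^ 2 :=
        mul_le_mul_of_nonneg_left h3 (sq_nonneg _)
      nlinarith
    rw [hz, hj, hj0]
    simp
  · have hκ1 : κ = 1 := by omega
    subst hκ1
    have h2n : sF (mF E7) BY n n ≤ 2 := by
      push_cast at hnorm
      linarith
    by_cases hz : n.1 = 0
    · have hmem : ((0 : Fin 7 → ℚ), n.2) ∈ N := by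
        have : n = ((0 : Fin 7 → ℚ), n.2) := Prod.ext hz rfl
        rwa [this] at hn
      have h3 : BY n.2 n.2 ≤ 2 := by
        rw [sF_apply, hz] at h2n
        simpa using h2n
      rcases Ej_zero h hmem with h4 | h4
      · rw [hz, h4]
        simp
      · linarith
    · obtain ⟨h2, w, hw, hw2⟩ := h.root_two hn h2n hz
      have hn' : n = (cz w, 0) := Prod.ext hw h2
      subst hn'
      have hnn2 : sF (mF E7) BY (cz w, 0) (cz w, 0) = 2 := by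
        rw [sF_apply, mF_cz, hw2]
        simp
      rw [hnn2] at hnorm
      have hu0 : bf E8 u u = 0 := by
        have : ((bf E8 u u : ℤ) : ℚ) = 0 := by
          push_cast at hnorm
          linarith
        exact_mod_cast this
      have hu : u = 0 := by
        by_contra hu
        have := MP_dcc566_gt.E8_pos u hu
        omega
      rw [hu, MP_dcc566_gt.bf_zero_left, sF_apply, mF_cz] at hv
      simp only [map_zero, LinearMap.zero_apply, add_zero, Int.cast_zero, zero_add,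
        mul_one] at hv
      have h5 := (E7_rt hw2).1 (Dv_int.1 hv)
      simp only [map_zero, LinearMap.zero_apply, mul_zero, add_zero]
      rw [mF_cz, h5]
      simp

/-- `v = (w8; (g4, y))`, `m = 3`, `t = (0; (3 g4, -2 y))` or `(0; (g4, 0))`.

PROOF.  Let `Rad` be the set of `y` with `(0,y) ∈ N` and `3 ∣ (y,t)` for all `(0,t) ∈ N`; `6 ∣ (y,y)` for `y ∈ Rad` (even, and
`t = y`).  CASE A: some `y ∈ Rad` has norm 6; use it, and `t = (0; (cz (3 g4), -2 y))`.  CASE B: no such vector: `y = y₀`,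
`t = (0; (cz g4, 0))`.  In both cases `¬ Dv 18 (y,y)`.
`cfg0` with `X = (Fin 7 → ℚ) × Y`, `BX = sF (mF E7) BY`, `m = 3`, `v₈ = w8`, `(cz g4, y) ∈ N` (`F3M_mem`), `N₀ = (12 + (y,y))/6`,
`u₀ = Pi.single 1 1` (`bf w8 u₀ = 1`), `k₀ = 0` (see `badF3A` in `F3C.lean`).
H1.  `F3M_E8`: `R_8² ≥ 8κ²` (`E8_unimod` is used there), `F3M.lower`: `R_7² ≥ 4κ²`; total `18κ`, so `κ = 1`, `R_7² + R_Y² ≤ 10`,
`R_Y = 3 z.2 - β y`.  `(R_Y,R_Y) = 9 (z.2,z.2) - 6β (z.2,y) + β² (y,y)`, `3 ∣ (z.2,y)` (`F3M.rad`), `β² = 1 mod 3` (`F3M_sq`), so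
`(R_Y,R_Y) = 9 (z.2,z.2) + (y,y) mod 18`.
`z.1` in the coset (`F3M.cases`): `(z.2,z.2) = 1/2 + 2n`, so `(R_Y,R_Y) = 9/2 + (y,y) mod 18`, `(y,y) = 6` or `12 mod 18`, so
`(R_Y,R_Y) ≥ 21/2` (it is `≥ 0`): `> 10`, impossible.
`z.1 = cz w ∈ Zk 7`: `R_7² ≥ 4` (`E7_g4`), `(z.2,z.2)` even, so `(R_Y,R_Y) = (y,y) mod 18` is `≥ 6`: so `R_7² = 4`, `R_Y² = 6` (and
`R_8² = 8`).  `R_Y ∈ Rad`, norm 6: impossible in case B.  Case A: let `σ = ±1`, `3 ∣ β - σ`.  `W = R_Y + σ y = 3k'` with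
`k' = z.2 - ((β-σ)/3) y`, `(0,k') ∈ N`, `(k',k')` is 0 or `≥ 4` (`F3M.cases`), so `(W,W) = 9 (k',k')` is 0 or `≥ 36`;
`(W,W) = 12 + 2σ (R_Y,y) ≤ 24` (Cauchy–Schwarz, `Pd.cs`); so `W = 0`, `(R_Y,y) = -6σ`.  `W' = (3w - β g4) + σ g4 = 3w'`, norm
`9 bf w' w'` (0 or `≥ 18`) and `= 8 + 2σ bf (3w - β g4) g4 ≤ 16`: so 0, `bf (3w - β g4) g4 = -4σ`.  `(R,t) = 3 (-4σ) - 2 (-6σ) = 0`.
H2.  `s = (u, z)`, `(s,s) = 2κ`, `(s,t) = 3 (z.1, g4) - 2 (z.2, y)` (case A) or `(z.1, g4)` (case B; this is `F3M_H2` with `E7_rt`).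
`κ ≥ 2`: `z.1 = 0` (`F3M.root_zero`), and `u = 0` (`κ ∣ bf u v` for all `v`; `u = κ u'`, norm `≥ 2κ² > 2κ`), so `3κ ∣ (z.2,y)` and
`(z.2,y)² ≤ 2κ·6 < 9κ²`: `(z.2,y) = 0`.  `κ = 1`: `z.1 ≠ 0`: `F3M.root_two`: `z = (cz w, 0)`, `bf w w = 2`, `u = 0`, `3 ∣ bf w g4`:
`E7_rt`: `bf w g4 = 0`.  `z.1 = 0`: `(z.2,z.2) ≤ 2`, `F3M.cases` (the coset is impossible because `0 - om7 ∉ Zk 7`, or by the norm
`≥ 5/2`): `z.2 = 0`. -/
theorem badF3Z {BY : Frm Y} {N : AddSubgroup ((Fin 7 → ℚ) × Y)} (h : F3M BY N) {y₀ : Y}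
    (hy : ((0 : Fin 7 → ℚ), y₀) ∈ N)
    (hrad : ∀ t, ((0 : Fin 7 → ℚ), t) ∈ N → Dv 3 (BY y₀ t)) (h18 : ¬ Dv 18 (BY y₀ y₀)) :
    BadS (PF (sF (mF E7) BY)) (PL N) := by
  have hk0 : bf E8 w8 (Pi.single 1 1) = 1 + 3 * 0 := by
    rw [MP_dcc566_gt.E8_comm, MP_dcc566_gt.bf_w8]
    simp
  obtain ⟨-, v4, -, -, hg4, -⟩ := E7_vals
  by_cases hA : ∃ y : Y, ((0 : Fin 7 → ℚ), y) ∈ N ∧
      (∀ t, ((0 : Fin 7 → ℚ), t) ∈ N → Dv 3 (BY y t)) ∧ BY y y = 6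
  · obtain ⟨y, hy1, hy2, hy3⟩ := hA
    refine cfg0 (Pd_F7.sF h.pd) h.even (m := 3) (N₀ := 3) (by norm_num) (v₈ := w8)
      (y := (cz g4, y)) (F3M_mem h g4 hy1) ?_ (t₈ := 0)
      (tX := ((3 : ℚ) • cz g4, (-2 : ℚ) • y)) (Or.inr ?_) hk0 ?_ ?_
    · rw [F3M_norm, v4, MP_dcc566_gt.norm_w8, hy3]
      norm_num
    · intro h0
      have h1 : (3 : ℚ) • cz g4 = 0 := congrArg Prod.fst h0
      rcases smul_eq_zero.1 h1 with h2 | h2
      · norm_num at h2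
      · exact hg4 (cz_eq_zero.1 h2)
    · intro κ β u n hn hκ hβ hu hd htot
      rw [Int.cast_ofNat, F3M_split] at htot
      obtain ⟨rfl, ⟨w, hw⟩, h7, hN2, hY⟩ := Ej_H1 h hy1 hy2 (c := 1) (by rw [hy3]; norm_num)
        (by norm_num) hn hκ hβ hu hd htot
      obtain ⟨σ, k, hσ, hβk⟩ := Ej_sign hβ
      have r1 := Ej_close h.pd hσ hβk (a := 6) (by norm_num) hy3 hY (by
        have h3 : ((0 : Fin 7 → ℚ), n.2 - (k : ℚ) • y) ∈ N := by
          have h4 := N.sub_mem hN2 (N.zsmul_mem hy1 k)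
          have h5 : ((0 : Fin 7 → ℚ), n.2) - k • ((0 : Fin 7 → ℚ), y) =
              ((0 : Fin 7 → ℚ), n.2 - (k : ℚ) • y) := by
            refine Prod.ext ?_ ?_
            · change (0 : Fin 7 → ℚ) - k • (0 : Fin 7 → ℚ) = 0
              simp
            · change n.2 - k • y = n.2 - (k : ℚ) • y
              rw [Int.cast_smul_eq_zsmul]
          rwa [h5] at h4
        rcases Ej_zero h h3 with h4 | h4
        · left
          rw [h4]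
          simp
        · right
          linarith)
      have r2 := Ej_close Pd_F7 (x := n.1) (y := cz g4) hσ hβk (a := 4) (by norm_num)
        (by rw [mF_cz, v4]; norm_num) h7 (by
        have h3 : n.1 - (k : ℚ) • cz g4 = cz (w - k • g4) := by
          rw [hw, cz_sub, cz_smul]
        rw [h3, mF_cz]
        by_cases h4 : w - k • g4 = 0
        · left
          rw [h4, MP_dcc566_gt.bf_zero_left]
          norm_num
        · right
          have h5 := E7_pos _ h4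
          obtain ⟨m, hm⟩ := E7_even (w - k • g4)
          have h6 : (2 : ℚ) ≤ ((bf E7 (w - k • g4) (w - k • g4) : ℤ) : ℚ) := by
            have : 2 ≤ bf E7 (w - k • g4) (w - k • g4) := by omega
            exact_mod_cast this
          linarith)
      rw [MP_dcc566_gt.bf_zero_right, Int.cast_zero, zero_add, Int.cast_ofNat, one_mul]
      change mF E7 ((3 : ℚ) • n.1 - (β : ℚ) • cz g4) ((3 : ℚ) • cz g4) +
        BY ((3 : ℚ) • n.2 - (β : ℚ) • y) ((-2 : ℚ) • y) = 0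
      rw [map_smul, map_smul, smul_eq_mul, smul_eq_mul, r1, r2]
      ring
    · intro κ u n hn hκ hu hd hnorm hv
      exact Ej_H2 h hy3 hn hκ hu hd hnorm hv
  · obtain ⟨c, hc, hc3⟩ := Ej_six h hy hrad h18
    refine cfg0 (Pd_F7.sF h.pd) h.even (m := 3) (N₀ := 2 + c) (by norm_num) (v₈ := w8)
      (y := (cz g4, y₀)) (F3M_mem h g4 hy) ?_ (t₈ := 0)
      (tX := (cz g4, 0)) (Or.inr ?_) hk0 ?_ ?_
    · rw [F3M_norm, v4, MP_dcc566_gt.norm_w8, hc]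
      push_cast
      ring
    · intro h0
      exact hg4 (cz_eq_zero.1 (congrArg Prod.fst h0))
    · intro κ β u n hn hκ hβ hu hd htot
      exfalso
      rw [Int.cast_ofNat, F3M_split] at htot
      obtain ⟨-, -, -, hN2, hY⟩ := Ej_H1 h hy hrad hc hc3 hn hκ hβ hu hd htot
      have h3 : ∀ t : Y, ((0 : Fin 7 → ℚ), t) ∈ N →
          Dv 3 (BY ((3 : ℚ) • n.2 - (β : ℚ) • y₀) t) := by
        intro t ht
        rw [map_sub, map_smul, map_smul, LinearMap.sub_apply, LinearMap.smul_apply,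
          LinearMap.smul_apply, smul_eq_mul, smul_eq_mul]
        refine Dv.sub ?_ ((hrad t ht).mul_int β)
        obtain ⟨j, hj⟩ := F3M_prod h hN2 ht
        exact ⟨j, by rw [show BY n.2 t = j from hj]; push_cast; ring⟩
      refine hA ⟨(3 : ℚ) • n.2 - (β : ℚ) • y₀, ?_, h3, hY⟩
      have h4 := N.sub_mem (N.zsmul_mem hN2 3) (N.zsmul_mem hy β)
      have h5 : (3 : ℤ) • ((0 : Fin 7 → ℚ), n.2) - β • ((0 : Fin 7 → ℚ), y₀) =
          ((0 : Fin 7 → ℚ), (3 : ℚ) • n.2 - (β : ℚ) • y₀) := by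
        refine Prod.ext ?_ ?_
        · change (3 : ℤ) • (0 : Fin 7 → ℚ) - β • (0 : Fin 7 → ℚ) = 0
          simp
        · change (3 : ℤ) • n.2 - β • y₀ = (3 : ℚ) • n.2 - (β : ℚ) • y₀
          rw [Int.cast_smul_eq_zsmul, ← Int.cast_smul_eq_zsmul ℚ 3 n.2]
          norm_num
      rwa [h5] at h4
    · intro κ u n hn hκ _ hd hnorm hv
      exact F3M_H2 h w8 (fun w hw h3 => (E7_rt hw).1 h3) κ u n hn hκ hd hnorm hv

end Pool.Agent.RFN
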