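import Mathlib
import Pool.Agent.Lib.MP_dcc566_gt_R.E8Db

/-!
# The norm modulo 4 for `κ = 2`
-/

set_option autoImplicit false

namespace Pool.Agent.RFN

open MP_dcc566_gt (bf E8)

/-- Products in coordinates, written out. -/
private theorem El_bf {u v : Fin 8 → ℤ} (hu : (2 : ℤ) ∣ u 0) (hv : (2 : ℤ) ∣ v 0) :
    bf E8 u v = xs u 0 * xs v 0 + xs u 1 * xs v 1 + xs u 2 * xs v 2 + xs u 3 * xs v 3 +
      (xs u 4 * xs v 4 + xs u 5 * xs v 5 + xs u 6 * xs v 6 + xs u 7 * xs v 7) := by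
  rw [xs_bf hu hv, Fin.sum_univ_eight]
  ring

private theorem El_two {u V : Fin 8 → ℤ} (hu : (2 : ℤ) ∣ u 0) (hV : (2 : ℤ) ∣ V 0) (c : ℤ) :
    (2 : ℤ) ∣ ((3 : ℤ) • u - c • V) 0 := by
  simp only [Pi.sub_apply, Pi.smul_apply, smul_eq_mul]
  exact dvd_sub (hu.mul_left 3) (hV.mul_left c)

/-- The norm of `3 u - c V` in coordinates. -/
private theorem El_nrm {u V : Fin 8 → ℤ} (hu : (2 : ℤ) ∣ u 0) (hV : (2 : ℤ) ∣ V 0) (c : ℤ) :
    bf E8 ((3 : ℤ) • u - c • V) ((3 : ℤ) • u - c • V) =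
      (3 * xs u 0 - c * xs V 0) ^ 2 + (3 * xs u 1 - c * xs V 1) ^ 2 +
      (3 * xs u 2 - c * xs V 2) ^ 2 + (3 * xs u 3 - c * xs V 3) ^ 2 +
      ((3 * xs u 4 - c * xs V 4) ^ 2 + (3 * xs u 5 - c * xs V 5) ^ 2 +
      (3 * xs u 6 - c * xs V 6) ^ 2 + (3 * xs u 7 - c * xs V 7) ^ 2) := by
  rw [El_bf (El_two hu hV c) (El_two hu hV c)]
  simp only [xs_lin hu hV]
  ring

private theorem El_d4 {a b c d : ℤ} (h1 : (2 : ℤ) ∣ a - b) (h2 : (2 : ℤ) ∣ b - c)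
    (h3 : (2 : ℤ) ∣ c - d) : (4 : ℤ) ∣ a ^ 2 + b ^ 2 + c ^ 2 + d ^ 2 := by
  obtain ⟨p, hp⟩ := h1
  obtain ⟨q, hq⟩ := h2
  obtain ⟨r, hr⟩ := h3
  have e3 : c = d + 2 * r := by linarith
  have e2 : b = d + 2 * r + 2 * q := by linarith
  have e1 : a = d + 2 * r + 2 * q + 2 * p := by linarith
  rw [e1, e2, e3]
  exact ⟨d ^ 2 + d * ((r + q + p) + (r + q) + r) + (r + q + p) ^ 2 + (r + q) ^ 2 + r ^ 2,
    by ring⟩

/-- PROOF.  `DD 2 2 u` (and `DH 2 u`): by `dual_par` (`E8D.lean`, `i = 2`) the standard coordinates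
`xs u 0, .., xs u 3` have the same parity, and so have `xs u 4, .., xs u 7`.  `u 0` is even
(`DH_zero`).
`R = 3u - (2β) V44` has the standard coordinates `3 xs u i - 2β xs V44 i` (`xs_lin`), with
`xs V44 = ![2,0,0,0,2,0,0,0]` (`V44_facts`), so they have the same parity in each block; the sum
of four
squares of integers of the same parity is divisible by 4.  `xs_bf`, `Fin.sum_univ_eight`. 
(Compare the
proof of `blk44`, and `E8Db_red`, `E8Db_nrm` there.) -/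
theorem blk44_four {β : ℤ} {u : Fin 8 → ℤ} (hu : DH 2 u) (hd : DD 2 2 u) :
    (4 : ℤ) ∣ bf E8 ((3 : ℤ) • u - (2 * β) • V44) ((3 : ℤ) • u - (2 * β) • V44) := by
  obtain ⟨p0, ⟨s1, s2, s3⟩, ⟨s4, s5, s6⟩, -⟩ := dual_par (Or.inr rfl) hd
  have hV : (2 : ℤ) ∣ V44 0 := by decide
  rw [El_nrm (DH_zero (by norm_num) hu) hV, V44_facts.2.2.1]
  simp only [Matrix.cons_val]
  exact dvd_add (El_d4 (by omega) (by omega) (by omega)) (El_d4 (by omega) (by omega) (by omega))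

end Pool.Agent.RFN
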