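import Mathlib
import Pool.Agent.Lib.MP_dcc566_gt_E.Ei
import Pool.Agent.Lib.MP_dcc566_gt_E.El

/-!
# The third family: two vectors at the prime 2, with a vector of the radical modulo 3
-/

set_option autoImplicit false

namespace Pool.Agent.RFN

open MP_dcc566_gt (bf E8 w8)

variable {Y : Type} [AddCommGroup Y] [Module ℚ Y]

private def Ek_u : Fin 8 → ℤ := ![0, -1, 0, 0, 0, 0, 0, 0]

private theorem Ek_uD : DH 2 Ek_u := by
  intro k hk
  interval_cases k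
  · decide
  · decide

private theorem Ek_uv : bf E8 V44 Ek_u = 1 + 3 * (-1) := by decide

/-- the step (*) -/
private theorem Ek_star {BY : Frm Y} {N : AddSubgroup ((Fin 7 → ℚ) × Y)} (h : F3M BY N) {y₀ : Y}
    {c : ℤ} (hc : BY y₀ y₀ = 6 * c) (h3 : ¬ (3 : ℤ) ∣ c) {z : (Fin 7 → ℚ) × Y} (hz : z ∈ N)
    (hz1 : z.1 ∈ Zk 7) {b : ℤ} (hb : ¬ (3 : ℤ) ∣ b)
    (he : (3 : ℚ) • z.2 - (b : ℚ) • y₀ = 0) : False := by
  have h2 : ((0 : Fin 7 → ℚ), z.2) ∈ N := by
    have h8 := N.sub_mem hz (h.e7 z.1 hz1)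
    have h9 : z - (z.1, (0 : Y)) = ((0 : Fin 7 → ℚ), z.2) := by
      refine Prod.ext ?_ ?_
      · simp
      · simp
    rwa [h9] at h8
  obtain ⟨a, ha⟩ := F3M_zero h h2
  have e : (3 : ℚ) • z.2 = (b : ℚ) • y₀ := sub_eq_zero.1 he
  have e1 : BY ((3 : ℚ) • z.2) ((3 : ℚ) • z.2) = BY ((b : ℚ) • y₀) ((b : ℚ) • y₀) := by rw [e]
  simp only [map_smul, LinearMap.smul_apply, smul_eq_mul] at e1
  rw [hc, ha] at e1
  have e2 : 3 * (3 * (2 * a)) = b * (b * (6 * c)) := by exact_mod_cast e1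
  have e3 : b * (b * c) = 3 * a := by
    have : b * (b * (6 * c)) = 6 * (b * (b * c)) := by ring
    omega
  have e4 : (3 : ℤ) ∣ b * (b * c) := ⟨a, e3⟩
  rcases Int.prime_three.dvd_or_dvd e4 with h5 | h5
  · exact hb h5
  · rcases Int.prime_three.dvd_or_dvd h5 with h6 | h6
    · exact hb h6
    · exact h3 h6

/-- the norm modulo 3 -/
private theorem Ek_mod (a : ℤ) (u : Fin 8 → ℤ) : ∃ k : ℤ,
    bf E8 ((3 : ℤ) • u - a • V44) ((3 : ℤ) • u - a • V44) = 3 * k + 8 * a ^ 2 := by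
  have h1 : bf E8 ((3 : ℤ) • u - a • V44) ((3 : ℤ) • u - a • V44) =
      3 * bf E8 u ((3 : ℤ) • u - a • V44) - a * bf E8 V44 ((3 : ℤ) • u - a • V44) := by
    rw [MP_dcc566_gt.bf_sub_left, MP_dcc566_gt.bf_smul_left, MP_dcc566_gt.bf_smul_left]
  have h2 : bf E8 V44 ((3 : ℤ) • u - a • V44) = 3 * bf E8 V44 u - a * 8 := by
    rw [MP_dcc566_gt.bf_sub_right, MP_dcc566_gt.bf_smul_right, MP_dcc566_gt.bf_smul_right,
      V44_facts.2.1]
  rw [h1, h2]
  exact ⟨bf E8 u ((3 : ℤ) • u - a • V44) - a * bf E8 V44 u, by ring⟩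

/-- `v = (V44; (g4, y₀))`, `m = 3`, `t = (T44; 0)`.

PROOF.  `cfg` with `i = 2`, `X = (Fin 7 → ℚ) × Y`, `BX = sF (mF E7) BY`, `m = 3`, `v₈ = V44` (norm 8), `(cz g4, y₀) ∈ N`
(`F3M_mem`), `(y₀,y₀) = 6c` (even, and divisible by 3), `3 ∤ c` (`h18`), `N₀ = 2 + c`, `t₈ = T44`, `tX = 0`, `u₀`, `k₀` as in
`confF1D1` (`F1D.lean`; `DH 2 u₀`, `bf V44 u₀ = -2`).  `(R,t) = bf R_D T44`, `R_D = 3u - κβ V44`.
(*) If `z ∈ N`, `z.1 ∈ Zk 7` and `3 z.2 = b y₀` with `3 ∤ b`: `9 (z.2,z.2) = b² 6c` and `(z.2,z.2)` is even (`F3M.cases`), so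
`18 ∣ 6 b² c`, `3 ∣ c`: contradiction.
(**) `R_D² = 9 bf u u - 6κβ bf u V44 + 8κ²β²` (`bf u u` even, `E8_even`).
H1.  `F3M.lower`: `R_7² ≥ 4κ²`.  Total `18κ`.
`κ` odd: `blk44`: `8κ² + 4κ² ≤ 18κ`, `κ = 1`; `8 ≤ R_D² ≤ 14`, and `R_D² = 2 mod 6` by (**): 8 (then `blk44_eq`) or 14.  If 14:
`R_7² + R_Y² = 4`, `R_7² ≥ 4`, so `R_Y² = 0`, `R_Y = 0` (`Pd.eq_zero`), `R_7² = 4`; `F3M.cases`: in the coset `R_7² ≥ 11/2`
(`E7_coset`), impossible; otherwise (*) with `b = β`.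
`κ = 2κ₁`: `8κ₁² + 16κ₁² ≤ 36κ₁`, `κ₁ = 1`, `κ = 2`, total 36, `8 ≤ R_D² ≤ 20`, `R_D² = 2 mod 3` by (**) and `4 ∣ R_D²`
(`blk44_four`): 8 (then `blk44_eq` with `κ = 2`) or 20.  If 20: `R_7² ≥ 16`, so `R_Y² = 0`, `R_Y = 3 z.2 - 2β y₀ = 0`.  `z.1 ∈ Zk 7`: the
vector `x' = z.1/2` has integral products with `Zk 7`, so by `E7_dual` `x' ∈ Zk 7` or `x' - om7 ∈ Zk 7`, and `2 om7 ∈ Zk 7` (`F3M_om2`).
(*) with `b = 2β`.
H2.  `s = (u, z)`, `(s,s) = 2κ`, `(s,t) = bf u T44`.  `u = 0`: fine.  `u ≠ 0`: `d_min`: `bf u u ≥ 2κ`, so `bf u u = 2κ`, `z = 0`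
(positivity), `3κ ∣ bf u V44`: `rt44`. -/
theorem confF3Z {BY : Frm Y} {N : AddSubgroup ((Fin 7 → ℚ) × Y)} (h : F3M BY N) {y₀ : Y}
    (hy : ((0 : Fin 7 → ℚ), y₀) ∈ N)
    (hrad : ∀ t, ((0 : Fin 7 → ℚ), t) ∈ N → Dv 3 (BY y₀ t)) (h18 : ¬ Dv 18 (BY y₀ y₀)) :
    Conf (PF (sF (mF E7) BY)) (PL N) {2} (fun _ => 2) := by
  obtain ⟨hV1, hV2, -, hT, -⟩ := V44_facts
  obtain ⟨v8, v4, v2, ht7, hg4, hg2⟩ := E7_vals
  obtain ⟨a, ha⟩ := F3M_zero h hy
  obtain ⟨b, hb⟩ := hrad y₀ hy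
  have hab : 2 * a = 3 * b := by
    rw [ha] at hb
    exact_mod_cast hb
  obtain ⟨c, rfl⟩ : ∃ c, a = 3 * c := ⟨a - b, by omega⟩
  have hc : BY y₀ y₀ = 6 * c := by
    rw [ha]
    push_cast
    ring
  have hc3 : ¬ (3 : ℤ) ∣ c := by
    rintro ⟨d, rfl⟩
    apply h18
    refine ⟨d, ?_⟩
    rw [hc]
    push_cast
    ring
  have hPd : Pd (sF (mF E7) BY) := Pd_F7.sF h.pd
  refine cfg hPd h.even (i := 2) (by norm_num) (m := 3) (N₀ := 2 + c) (by norm_num)
    (v₈ := V44) hV1 (y := (cz g4, y₀)) (F3M_mem h g4 hy) ?_ (t₈ := T44) (tX := 0)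
    (Or.inl hT) (u₀ := Ek_u) Ek_uD (k₀ := -1) Ek_uv ?_ ?_
  · rw [F3M_norm, v4, hV2, hc]
    push_cast
    ring
  · intro κ β u n hn hκ hβ hu hD hd htot
    rw [map_zero, add_zero]
    rw [Int.cast_ofNat, F3M_split] at htot
    obtain ⟨b1, b2⟩ := blk44 hκ hβ hu hD
    have hL := (h.lower hκ hβ hn hd).2.1
    have hY := h.pd.nonneg ((3 : ℚ) • n.2 - ((κ * β : ℤ) : ℚ) • y₀)
    obtain ⟨k, hk⟩ := Ek_mod (κ * β) u
    have hev := MP_dcc566_gt.E8_even ((3 : ℤ) • u - (κ * β) • V44)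
    obtain ⟨e, he⟩ := F3M_sq hβ
    have hκ0 : (1 : ℚ) ≤ κ := by exact_mod_cast hκ
    rcases Int.even_or_odd κ with hκe | ho
    · obtain ⟨κ₁, hκ₁⟩ := hκe
      have hκ₁' : κ = 2 * κ₁ := by omega
      have hE' : (8 : ℚ) * κ₁ ^ 2 ≤ ((bf E8 ((3 : ℤ) • u - (κ * β) • V44)
          ((3 : ℤ) • u - (κ * β) • V44) : ℤ) : ℚ) := by exact_mod_cast b2 κ₁ hκ₁'
      have h5 : 1 ≤ κ₁ := by omega
      have h6 : (κ : ℚ) = 2 * κ₁ := by exact_mod_cast hκ₁'
      have hκ1 : κ₁ = 1 := by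
        by_contra hne
        have h2' : (2 : ℚ) ≤ κ₁ := by
          have : 2 ≤ κ₁ := by omega
          exact_mod_cast this
        rw [h6] at hL htot
        nlinarith
      subst hκ1
      have hκ2 : κ = 2 := by omega
      subst hκ2
      have h4 := blk44_four (β := β) hu hD
      have hbnd : bf E8 ((3 : ℤ) • u - (2 * β) • V44) ((3 : ℤ) • u - (2 * β) • V44) ≤ 20 := by
        have : ((bf E8 ((3 : ℤ) • u - (2 * β) • V44) ((3 : ℤ) • u - (2 * β) • V44) : ℤ) : ℚ) ≤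
            20 := by
          push_cast at htot hL hY ⊢
          linarith
        exact_mod_cast this
      have hlow := b2 1 rfl
      have hmod : bf E8 ((3 : ℤ) • u - (2 * β) • V44) ((3 : ℤ) • u - (2 * β) • V44) =
          3 * (k + 32 * e + 10) + 2 := by
        rw [hk, mul_pow, he]
        ring
      have hcases : bf E8 ((3 : ℤ) • u - (2 * β) • V44) ((3 : ℤ) • u - (2 * β) • V44) = 8 ∨
          bf E8 ((3 : ℤ) • u - (2 * β) • V44) ((3 : ℤ) • u - (2 * β) • V44) = 20 := by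
        generalize bf E8 ((3 : ℤ) • u - (2 * β) • V44) ((3 : ℤ) • u - (2 * β) • V44) = D at *
        omega
      rcases hcases with h8 | h20
      · have := blk44_eq (Or.inr rfl) hβ hu hD h8
        rw [this]
        norm_num
      · exfalso
        rw [h20] at htot
        have hY0 : BY ((3 : ℚ) • n.2 - ((2 * β : ℤ) : ℚ) • y₀)
            ((3 : ℚ) • n.2 - ((2 * β : ℤ) : ℚ) • y₀) = 0 := by
          push_cast at htot hL hY ⊢
          linarith
        have hY1 := h.pd.eq_zero hY0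
        -- `n.1 = 2 x'`
        have hdual : ∀ w : Fin 7 → ℤ, IsZ (mF E7 ((1 / 2 : ℚ) • n.1) (cz w)) := by
          intro w
          obtain ⟨k, hk⟩ := hd _ (h.e7 (cz w) (cz_mem w))
          refine ⟨k, ?_⟩
          rw [sF_apply] at hk
          simp only [map_zero, add_zero] at hk
          simp only [map_smul, LinearMap.smul_apply, smul_eq_mul]
          rw [hk]
          push_cast
          ring
        obtain ⟨x', hx'⟩ : ∃ x', x' = (1 / 2 : ℚ) • n.1 := ⟨_, rfl⟩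
        have hn1 : n.1 = (2 : ℚ) • x' := by
          rw [hx', smul_smul]
          norm_num
        rw [← hx'] at hdual
        have hint : n.1 ∈ Zk 7 := by
          rcases E7_dual hdual with ⟨w, hw⟩ | ⟨w, hw⟩
          · have h7 : n.1 = cz ((2 : ℤ) • w) := by
              rw [cz_smul, hn1, Int.cast_ofNat]
              congr 1
            rw [h7]
            exact cz_mem _
          · obtain ⟨w', hw'⟩ := F3M_om2
            have h7 : n.1 = cz (w' + (2 : ℤ) • w) := by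
              rw [cz_add, cz_smul, ← hw', hn1, Int.cast_ofNat, ← smul_add]
              congr 1
              have : x' - om7 = cz w := hw
              rw [← this]
              abel
            rw [h7]
            exact cz_mem _
        exact Ek_star h hc hc3 hn hint (b := 2 * β) (by omega) hY1
    · have hE' : (8 : ℚ) * κ ^ 2 ≤ ((bf E8 ((3 : ℤ) • u - (κ * β) • V44)
          ((3 : ℤ) • u - (κ * β) • V44) : ℤ) : ℚ) := by exact_mod_cast b1 ho
      have hκ1 : κ = 1 := by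
        by_contra hne
        have h2' : (2 : ℚ) ≤ κ := by
          have : 2 ≤ κ := by omega
          exact_mod_cast this
        nlinarith
      subst hκ1
      have hbnd : bf E8 ((3 : ℤ) • u - (1 * β) • V44) ((3 : ℤ) • u - (1 * β) • V44) ≤ 14 := by
        have : ((bf E8 ((3 : ℤ) • u - (1 * β) • V44) ((3 : ℤ) • u - (1 * β) • V44) : ℤ) : ℚ) ≤
            14 := by
          push_cast at htot hL hY ⊢
          linarith
        exact_mod_cast this
      have hlow := b1 ho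
      have hmod : bf E8 ((3 : ℤ) • u - (1 * β) • V44) ((3 : ℤ) • u - (1 * β) • V44) =
          3 * (k + 8 * e + 2) + 2 := by
        rw [hk, mul_pow, he]
        ring
      have hcases : bf E8 ((3 : ℤ) • u - (1 * β) • V44) ((3 : ℤ) • u - (1 * β) • V44) = 8 ∨
          bf E8 ((3 : ℤ) • u - (1 * β) • V44) ((3 : ℤ) • u - (1 * β) • V44) = 14 := by
        obtain ⟨f, hf⟩ := hev
        generalize bf E8 ((3 : ℤ) • u - (1 * β) • V44) ((3 : ℤ) • u - (1 * β) • V44) = D at *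
        omega
      rcases hcases with h8 | h14
      · have := blk44_eq (Or.inl rfl) hβ hu hD h8
        rw [this]
        norm_num
      · exfalso
        rw [h14] at htot
        have hY0 : BY ((3 : ℚ) • n.2 - ((1 * β : ℤ) : ℚ) • y₀)
            ((3 : ℚ) • n.2 - ((1 * β : ℤ) : ℚ) • y₀) = 0 := by
          push_cast at htot hL hY ⊢
          linarith
        have hY1 := h.pd.eq_zero hY0
        rw [hY0] at htot
        rw [one_mul] at hY1 htot
        rcases h.cases hn with ⟨hint, -⟩ | ⟨hco, -⟩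
        · exact Ek_star h hc hc3 hn hint hβ hY1
        · have := (E7_coset hβ hco).2.1
          push_cast at htot this
          linarith
  · intro κ u n hn hκ hu hD hd hnorm hv
    rw [map_zero, add_zero]
    by_cases h0 : u = 0
    · rw [h0, MP_dcc566_gt.bf_zero_left]
      norm_num
    · have h1 := d_min (Or.inr (Or.inl rfl)) hκ hu hD h0
      have h1' : (2 : ℚ) * κ ≤ ((bf E8 u u : ℤ) : ℚ) := by exact_mod_cast h1
      have h2 := hPd.nonneg n
      have h3 : sF (mF E7) BY n n = 0 := by linarith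
      have h4 : n = 0 := hPd.eq_zero h3
      have h5 : bf E8 u u = 2 * κ := by
        rw [h3, add_zero] at hnorm
        exact_mod_cast hnorm
      rw [h4, map_zero, LinearMap.zero_apply, add_zero] at hv
      have h6 := rt44 hκ hu hD h5 (Dv_int.1 hv)
      exact_mod_cast h6

end Pool.Agent.RFN
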