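import Mathlib
import Pool.Agent.Lib.MP_dcc566_gt_R.Cfg
import Pool.Agent.Lib.MP_dcc566_gt_R.E8Da
import Pool.Agent.Lib.MP_dcc566_gt_R.E8Db
import Pool.Agent.Lib.MP_dcc566_gt.E8C
import Pool.Agent.Lib.MP_dcc566_gt_E.El

/-!
# `E₈ ⊕ ⟨6c⟩`: the bad cusp of the maximal lattice
-/

set_option autoImplicit false

namespace Pool.Agent.RFN

open MP_dcc566_gt (bf E8 w8 w4)

variable {Y : Type} [AddCommGroup Y] [Module ℚ Y]

private theorem Em_val {BY : Frm Y} {g : Y} {c : ℤ} (hg : BY g g = 6 * c) (w v : Fin 8 → ℤ)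
    (s t : ℚ) : sF F8 BY (cz w, s • g) (cz v, t • g) =
      ((bf E8 w v : ℤ) : ℚ) + s * t * (6 * c) := by
  change F8 (cz w) (cz v) + BY (s • g) (t • g) = _
  rw [mF_cz]
  simp only [map_smul, LinearMap.smul_apply, smul_eq_mul, hg]
  ring

private theorem Em_lin (w : Fin 8 → ℤ) (a b : ℤ) (g : Y) :
    (((3 : ℤ) : ℚ) • ((cz w, (a : ℚ) • g) : (Fin 8 → ℚ) × Y) - (b : ℚ) • (cz w4, g)) =
      (cz ((3 : ℤ) • w - b • w4), ((3 * a - b : ℤ) : ℚ) • g) := by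
  refine Prod.ext ?_ ?_
  · change ((3 : ℤ) : ℚ) • cz w - (b : ℚ) • cz w4 = _
    rw [cz_sub, cz_smul, cz_smul]
  · change ((3 : ℤ) : ℚ) • ((a : ℚ) • g) - (b : ℚ) • g = ((3 * a - b : ℤ) : ℚ) • g
    push_cast
    module

private theorem Em_E8 {κ β : ℤ} (hβ : ¬ (3 : ℤ) ∣ β) {u : Fin 8 → ℤ}
    (hu : ∀ v, κ ∣ bf E8 u v) :
    8 * κ ^ 2 ≤ bf E8 ((3 : ℤ) • u - (κ * β) • w8) ((3 : ℤ) • u - (κ * β) • w8) := by
  obtain ⟨u', rfl⟩ := MP_dcc566_gt.E8_unimod hu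
  have h3 : (3 : ℤ) • (κ • u') - (κ * β) • w8 = κ • ((3 : ℤ) • u' - β • w8) := by
    funext j
    simp only [Pi.sub_apply, Pi.smul_apply, smul_eq_mul]
    ring
  rw [h3, MP_dcc566_gt.bf_smul_left, MP_dcc566_gt.bf_smul_right]
  have h4 := MP_dcc566_gt.class8 u' hβ
  nlinarith [sq_nonneg κ]

private theorem Em_E4 {κ β : ℤ} (hβ : ¬ (3 : ℤ) ∣ β) {u : Fin 8 → ℤ}
    (hu : ∀ v, κ ∣ bf E8 u v) :
    4 * κ ^ 2 ≤ bf E8 ((3 : ℤ) • u - (κ * β) • w4) ((3 : ℤ) • u - (κ * β) • w4) := by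
  obtain ⟨u', rfl⟩ := MP_dcc566_gt.E8_unimod hu
  have h3 : (3 : ℤ) • (κ • u') - (κ * β) • w4 = κ • ((3 : ℤ) • u' - β • w4) := by
    funext j
    simp only [Pi.sub_apply, Pi.smul_apply, smul_eq_mul]
    ring
  rw [h3, MP_dcc566_gt.bf_smul_left, MP_dcc566_gt.bf_smul_right]
  have h4 := MP_dcc566_gt.class4 u' hβ
  nlinarith [sq_nonneg κ]

/-- the norm of a nonzero vector whose products are divisible by `κ` -/
private theorem Em_min {κ : ℤ} {u : Fin 8 → ℤ} (hu : ∀ v, κ ∣ bf E8 u v) (h0 : u ≠ 0) :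
    2 * κ ^ 2 ≤ bf E8 u u := by
  obtain ⟨u', rfl⟩ := MP_dcc566_gt.E8_unimod hu
  have h1 : u' ≠ 0 := by
    rintro rfl
    exact h0 (smul_zero κ)
  have h2 := MP_dcc566_gt.E8_pos u' h1
  obtain ⟨r, hr⟩ := MP_dcc566_gt.E8_even u'
  rw [MP_dcc566_gt.bf_smul_left, MP_dcc566_gt.bf_smul_right, hr]
  have h3 : 1 ≤ r := by omega
  nlinarith [sq_nonneg κ]

/-- `v = (w8; (w4, g))`, `m = 3`, `t = (0; (3 w4, -2 g))`.

PROOF.  `cfg0` with `X = (Fin 8 → ℚ) × Y`, `BX = sF F8 BY`, `N = (Zk 8).prod K`, `m = 3`, `v₈ = w8`,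
`y := (cz w4, g)`, `N₀ = 2 + c` (`8 + 4 + 6c = 6 N₀`), `u₀ = Pi.single 1 1` (`bf_w8`: product 1),
`t₈ = 0`, `tX = (cz ((3:ℤ) • w4), (-2 : ℚ) • g)` (`≠ 0`).  An element of `N` is `n = (cz w, a g)`, `a : ℤ`
(`hcyc`).  `κ ∣ (n, n')` for all `n' ∈ N` gives `κ ∣ bf w v` for all `v`, so `w = κ w'` (`E8_unimod`).
H1.  `R_8 = 3u - κβ w8 = κ (3u' - β w8)`, norm `≥ 8κ²` (`class8`); `R_8' = κ (3w' - β w4)`, norm `≥ 4κ²`
(`class4`); `R_K = (3a - κβ) g`, norm `6c (3a - κβ)²`.  The total is `18κ`, so `12κ² ≤ 18κ`, `κ = 1`.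
`3a - β ≠ 0` (`3 ∤ β`), so `R_K² ≥ 6c ≥ 6`: all inequalities are equalities: `R_8'² = 4`, `c = 1`,
`3a - β = ±1`, precisely `3a - β = -σ` where `σ = ±1`, `3 ∣ β - σ`; and `class4_eq` (or: `R_8' + σ w4 = 3w''`
has norm `≤ 16 < 18`, so it is 0) gives `R_8' = -σ w4`, product with `w4` equal to `-4σ`.  So
`(R,t) = 3 (-4σ) - 2 (-σ) 6 = 0`.
H2.  `s = (u, (cz w, a g))`, `(s,s) = 2κ`.  `u = κ u'`, `w = κ w'`; if `u ≠ 0` then `bf u u ≥ 2κ²`, so
`κ = 1`, `w = 0`, `a g = 0` and `(s,t) = 0`.  If `u = 0`, `w ≠ 0`: `κ = 1`, `bf w w = 2`, `a g = 0`,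
`3 ∣ bf w w4`: `root_w4` (`|bf w w4| ≤ 2`) gives `bf w w4 = 0`.  If `u = 0`, `w = 0`: `6c a² = 2κ`,
`a ≠ 0`, `κ = 3 c a²`, and `3κ ∣ (a g, g) = 6 c a`, so `9 c a² ∣ 6 c a`, impossible for `a ≠ 0`
(`3 a ∣ 2`). -/
theorem badF1Z {BY : Frm Y} (hBY : Pd BY) {K : AddSubgroup Y} (hK : EvL BY K) {g : Y} {c : ℤ}
    (hc : 1 ≤ c) (hg : BY g g = 6 * c) (hgK : g ∈ K) (hcyc : ∀ k ∈ K, ∃ a : ℤ, k = (a : ℚ) • g) :
    BadS (PF (sF F8 BY)) (PL ((Zk 8).prod K)) := by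
  have hk0 : bf E8 w8 (Pi.single 1 1) = 1 + 3 * 0 := by
    rw [MP_dcc566_gt.E8_comm, MP_dcc566_gt.bf_w8]
    simp
  have hcq : (1 : ℚ) ≤ c := by exact_mod_cast hc
  have hg0 : g ≠ 0 := by
    rintro rfl
    rw [map_zero] at hg
    linarith
  have hy : ((cz w4, g) : (Fin 8 → ℚ) × Y) = (cz w4, (1 : ℚ) • g) := by rw [one_smul]
  refine cfg0 (Pd_F8.sF hBY) (EvL_F8.prod hK) (m := 3) (N₀ := 2 + c) (by norm_num) (v₈ := w8)
    (y := (cz w4, g)) ⟨cz_mem w4, hgK⟩ ?_ (t₈ := 0) (tX := (cz ((3 : ℤ) • w4), (-2 : ℚ) • g))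
    (Or.inr ?_) hk0 ?_ ?_
  · rw [hy, Em_val hg, MP_dcc566_gt.norm_w8, MP_dcc566_gt.norm_w4]
    push_cast
    ring
  · intro h0
    have h1 : (-2 : ℚ) • g = 0 := congrArg Prod.snd h0
    rcases smul_eq_zero.1 h1 with h2 | h2
    · norm_num at h2
    · exact hg0 h2
  · rintro κ β u ⟨n1, n2⟩ ⟨⟨w, hw⟩, hk⟩ hκ hβ hu hd htot
    have hn1 : n1 = cz w := hw
    obtain ⟨a, ha⟩ := hcyc n2 hk
    subst hn1 ha
    have hwd : ∀ v, κ ∣ bf E8 w v := by
      intro v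
      have h1 := hd (cz v, (0 : ℚ) • g) ⟨cz_mem v, by
        rw [zero_smul]
        exact K.zero_mem⟩
      rw [Em_val hg, mul_zero, zero_mul, add_zero] at h1
      exact Dv_int.1 h1
    rw [Em_lin, Em_val hg] at htot
    rw [MP_dcc566_gt.bf_zero_right, Em_lin, Em_val hg, MP_dcc566_gt.bf_smul_right]
    have h8 := Em_E8 hβ hu
    have h4 := Em_E4 hβ hwd
    obtain ⟨r, hr⟩ : ∃ r : ℤ, r = 3 * a - κ * β := ⟨_, rfl⟩
    have hZ : bf E8 ((3 : ℤ) • u - (κ * β) • w8) ((3 : ℤ) • u - (κ * β) • w8) +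
        (bf E8 ((3 : ℤ) • w - (κ * β) • w4) ((3 : ℤ) • w - (κ * β) • w4) +
          r * r * (6 * c)) = 2 * κ * 3 ^ 2 := by
      rw [← hr] at htot
      exact_mod_cast htot
    have hrr : 0 ≤ r * r * (6 * c) := mul_nonneg (mul_self_nonneg r) (by omega)
    have hκ1 : κ = 1 := by
      by_contra hne
      have h2 : 2 ≤ κ := by omega
      nlinarith
    subst hκ1
    rw [one_mul] at h8 h4 hZ hr
    simp only [one_mul]
    have hr0 : r ≠ 0 := by
      intro h0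
      apply hβ
      exact ⟨a, by omega⟩
    have hr1 : 1 ≤ r * r := by
      rcases lt_or_gt_of_ne hr0 with h | h
      · nlinarith
      · nlinarith
    have hrc : r * r * (6 * c) ≤ 6 := by linarith
    have hc1 : c = 1 := by
      by_contra hne
      have h2 : 2 ≤ c := by omega
      nlinarith
    subst hc1
    have hr2 : r * r = 1 := by linarith
    have h44 : bf E8 ((3 : ℤ) • w - β • w4) ((3 : ℤ) • w - β • w4) = 4 := by
      rw [hr2] at hZ
      linarith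
    have hrv : r = 1 ∨ r = -1 := by
      have h5 : (r - 1) * (r + 1) = 0 := by linarith
      rcases mul_eq_zero.1 h5 with h6 | h6
      · left
        linarith
      · right
        linarith
    obtain ⟨c1, c2⟩ := MP_dcc566_gt.class4_eq w h44
    rw [← hr]
    rcases hrv with h | h
    · rw [c2 ⟨a, by omega⟩, MP_dcc566_gt.norm_w4, h]
      norm_num
    · rw [c1 ⟨a, by omega⟩, h]
      have h6 : bf E8 (-w4) w4 = -4 := by decide
      rw [h6]
      norm_num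
  · rintro κ u ⟨n1, n2⟩ ⟨⟨w, hw⟩, hk⟩ hκ hu hd hnorm hv
    have hn1 : n1 = cz w := hw
    obtain ⟨a, ha⟩ := hcyc n2 hk
    subst hn1 ha
    have hwd : ∀ v, κ ∣ bf E8 w v := by
      intro v
      have h1 := hd (cz v, (0 : ℚ) • g) ⟨cz_mem v, by
        rw [zero_smul]
        exact K.zero_mem⟩
      rw [Em_val hg, mul_zero, zero_mul, add_zero] at h1
      exact Dv_int.1 h1
    rw [Em_val hg] at hnorm
    rw [hy, Em_val hg] at hv
    rw [MP_dcc566_gt.bf_zero_right, Em_val hg, MP_dcc566_gt.bf_smul_right]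
    have hN : bf E8 u u + (bf E8 w w + a * a * (6 * c)) = 2 * κ := by exact_mod_cast hnorm
    have hV : 3 * κ ∣ bf E8 u w8 + (bf E8 w w4 + a * (6 * c)) := by
      refine Dv_int.1 ?_
      push_cast at hv ⊢
      rw [mul_one] at hv
      exact hv
    have huu := MP_dcc566_gt.E8_nonneg u
    have hww := MP_dcc566_gt.E8_nonneg w
    have haa : 0 ≤ a * a * (6 * c) := mul_nonneg (mul_self_nonneg a) (by omega)
    have hsm : ∀ x : Fin 8 → ℤ, (∀ v, κ ∣ bf E8 x v) → x ≠ 0 → bf E8 x x ≤ 2 * κ → κ = 1 := by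
      intro x hx hx0 hx2
      have h1 := Em_min hx hx0
      by_contra hne
      have h2 : 2 ≤ κ := by omega
      nlinarith
    have ha0 : a * a * (6 * c) = 0 → a = 0 := by
      intro h
      rcases mul_eq_zero.1 h with h1 | h1
      · exact mul_self_eq_zero.1 h1
      · omega
    by_cases hu0 : u = 0
    · by_cases hw0 : w = 0
      · exfalso
        subst hu0 hw0
        simp only [MP_dcc566_gt.bf_zero_left, zero_add] at hN hV
        have hκa : κ = 3 * c * (a * a) := by linarith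
        have hane : a ≠ 0 := by
          rintro rfl
          rw [hκa] at hκ
          simp at hκ
        obtain ⟨r, hr⟩ := hV
        rw [hκa] at hr
        have h5 : (3 * c * a) * (3 * (a * r)) = (3 * c * a) * 2 := by linarith
        have h6 : 3 * (a * r) = 2 :=
          mul_left_cancel₀ (mul_ne_zero (by omega) hane) h5
        omega
      · have hκ1 := hsm w hwd hw0 (by linarith)
        have h1 := Em_min hwd hw0
        subst hκ1 hu0
        rw [MP_dcc566_gt.bf_zero_left, zero_add] at hN hV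
        have h2 : bf E8 w w = 2 := by linarith
        have h3 : a = 0 := ha0 (by linarith)
        subst h3
        rw [zero_mul, add_zero, mul_one] at hV
        rw [MP_dcc566_gt.root_w4 h2 hV]
        norm_num
    · have hκ1 := hsm u hu hu0 (by linarith)
      have h1 := Em_min hu hu0
      subst hκ1
      have h2 : bf E8 w w = 0 := by linarith
      have h3 : a = 0 := ha0 (by linarith)
      have h4 : w = 0 := by
        by_contra hne
        have := MP_dcc566_gt.E8_pos w hne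
        omega
      subst h3 h4
      rw [MP_dcc566_gt.bf_zero_left]
      norm_num

end Pool.Agent.RFN
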