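import Mathlib
import Pool.Agent.Lib.MP_dcc566_gt_R.Cfg
import Pool.Agent.Lib.MP_dcc566_gt_R.E8Da
import Pool.Agent.Lib.MP_dcc566_gt_R.E8Db
import Pool.Agent.Lib.MP_dcc566_gt.E8C
import Pool.Agent.Lib.MP_dcc566_gt_E.El

/-!
# `E₈ ⊕ ⟨6c⟩`: two vectors at the prime 2
-/

set_option autoImplicit false

namespace Pool.Agent.RFN

open MP_dcc566_gt (bf E8 w8 w4)

variable {Y : Type} [AddCommGroup Y] [Module ℚ Y]

private def En_u : Fin 8 → ℤ := ![0, -1, 0, 0, 0, 0, 0, 0]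

private theorem En_uD : DH 2 En_u := by
  intro k hk
  interval_cases k
  · decide
  · decide

private theorem En_uv : bf E8 V44 En_u = 1 + 3 * (-1) := by decide

/-- The common part of the two configurations. -/
private theorem En_core {BY : Frm Y} (hBY : Pd BY) {K : AddSubgroup Y} (hK : EvL BY K) {y : Y}
    (hy : y ∈ K) {w : Fin 8 → ℤ} {N₀ : ℤ}
    (hN : ((bf E8 w w : ℤ) : ℚ) + BY y y = 6 * N₀ - 8)
    (H : ∀ (κ β : ℤ) (u w' : Fin 8 → ℤ) (k : Y), k ∈ K → 0 < κ → ¬ (3 : ℤ) ∣ β → DH 2 u →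
      DD 2 κ u →
      ((bf E8 ((3 : ℤ) • u - (κ * β) • V44) ((3 : ℤ) • u - (κ * β) • V44) : ℤ) : ℚ) +
        (κ : ℚ) ^ 2 * ((bf E8 ((3 : ℤ) • w' - β • w) ((3 : ℤ) • w' - β • w) : ℤ) : ℚ) +
        (9 * BY k k - 6 * (κ * β) * BY k y + (κ * β) ^ 2 * BY y y) = 18 * κ →
      0 ≤ 9 * BY k k - 6 * (κ * β) * BY k y + (κ * β) ^ 2 * BY y y →
      bf E8 ((3 : ℤ) • u - (κ * β) • V44) T44 = 0) :
    Conf (PF (sF F8 BY)) (PL ((Zk 8).prod K)) {2} (fun _ => 2) := by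
  obtain ⟨hV1, hV2, -, hT, -⟩ := V44_facts
  have hPd : Pd (sF F8 BY) := Pd_F8.sF hBY
  refine cfg (X := (Fin 8 → ℚ) × Y) (BX := sF F8 BY) hPd (N := (Zk 8).prod K)
    (EvL_F8.prod hK) (i := 2) (by norm_num) (m := 3) (N₀ := N₀) (by norm_num) (v₈ := V44) hV1
    (y := (cz w, y)) ⟨cz_mem w, hy⟩ ?_ (t₈ := T44) (tX := 0) (Or.inl hT) (u₀ := En_u) En_uD
    (k₀ := -1) En_uv ?_ ?_
  · rw [hV2, sF_apply]
    simp only
    rw [mF_cz]
    push_cast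
    linarith
  · rintro κ β u ⟨x, k⟩ ⟨⟨w₁, hw₁⟩, hk⟩ hκ hβ hu hd hdn hnorm
    simp only at hk hw₁
    have hx : x = cz w₁ := hw₁
    subst hx
    rw [map_zero, add_zero]
    have hw : ∃ w', w₁ = κ • w' := by
      apply MP_dcc566_gt.E8_unimod
      intro v
      have h1 := hdn (cz v, 0) ⟨cz_mem v, K.zero_mem⟩
      rw [sF_apply] at h1
      simp only [map_zero, add_zero] at h1
      rw [mF_cz] at h1
      exact Dv_int.1 h1
    obtain ⟨w', rfl⟩ := hw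
    have hpair : ((3 : ℤ) : ℚ) • ((cz (κ • w'), k) : (Fin 8 → ℚ) × Y) -
        ((κ * β : ℤ) : ℚ) • ((cz w, y) : (Fin 8 → ℚ) × Y) =
        ((κ : ℚ) • cz ((3 : ℤ) • w' - β • w), (3 : ℚ) • k - ((κ : ℚ) * β) • y) := by
      refine Prod.ext ?_ ?_
      · simp only [Prod.fst_sub, Prod.smul_fst]
        funext j
        simp only [cz, Pi.sub_apply, Pi.smul_apply, smul_eq_mul]
        push_cast
        ring
      · simp only [Prod.snd_sub, Prod.smul_snd]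
        push_cast
        rfl
    rw [hpair, sF_apply] at hnorm
    simp only at hnorm
    have e1 : F8 ((κ : ℚ) • cz ((3 : ℤ) • w' - β • w)) ((κ : ℚ) • cz ((3 : ℤ) • w' - β • w)) =
        (κ : ℚ) ^ 2 * ((bf E8 ((3 : ℤ) • w' - β • w) ((3 : ℤ) • w' - β • w) : ℤ) : ℚ) := by
      rw [map_smul, map_smul, LinearMap.smul_apply, mF_cz, smul_eq_mul, smul_eq_mul]
      ring
    have e2 : BY ((3 : ℚ) • k - ((κ : ℚ) * β) • y) ((3 : ℚ) • k - ((κ : ℚ) * β) • y) =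
        9 * BY k k - 6 * (κ * β) * BY k y + (κ * β) ^ 2 * BY y y := by
      rw [norm_sub_lin hBY.symm]
      ring
    rw [e1, e2] at hnorm
    have h0 := H κ β u w' k hk hκ hβ hu hd (by push_cast at hnorm ⊢; linarith)
      (by rw [← e2]; exact hBY.nonneg _)
    exact_mod_cast h0
  · rintro κ u n hn hκ hu hd hdn hnorm hdv
    rw [map_zero, add_zero]
    by_cases h0 : u = 0
    · rw [h0, MP_dcc566_gt.bf_zero_left]
      norm_num
    · have h1 := d_min (Or.inr (Or.inl rfl)) hκ hu hd h0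
      have h1' : (2 : ℚ) * κ ≤ ((bf E8 u u : ℤ) : ℚ) := by exact_mod_cast h1
      have h2 := hPd.nonneg n
      have h3 : sF F8 BY n n = 0 := by linarith
      have h4 : n = 0 := hPd.eq_zero h3
      have h5 : bf E8 u u = 2 * κ := by
        rw [h3, add_zero] at hnorm
        exact_mod_cast hnorm
      rw [h4, map_zero, LinearMap.zero_apply, add_zero] at hdv
      have h6 := rt44 hκ hu hd h5 (Dv_int.1 hdv)
      exact_mod_cast h6

private theorem En_sq {β : ℤ} (hβ : ¬ (3 : ℤ) ∣ β) : ∃ c : ℤ, β ^ 2 = 3 * c + 1 := by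
  rcases (by omega : β % 3 = 1 ∨ β % 3 = 2) with h | h
  · refine ⟨3 * (β / 3) ^ 2 + 2 * (β / 3), ?_⟩
    have : β = 3 * (β / 3) + 1 := by omega
    rw [this]
    have e : (3 * (β / 3) + 1) / 3 = β / 3 := by omega
    rw [e]
    ring
  · refine ⟨3 * (β / 3) ^ 2 + 4 * (β / 3) + 1, ?_⟩
    have : β = 3 * (β / 3) + 2 := by omega
    rw [this]
    have e : (3 * (β / 3) + 2) / 3 = β / 3 := by omega
    rw [e]
    ring

/-- `v = (V44; (w4, g))`, `m = 3`, `t = (T44; 0)`.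

PROOF.  `cfg` with `i = 2`, `X = (Fin 8 → ℚ) × Y`, `BX = sF F8 BY`, `N = (Zk 8).prod K`, `m = 3`, `v₈ = V44`
(norm 8, `V44_facts`), `y := (cz w4, g)`, `N₀ = 2 + c` (`8 + 4 + 6c = 6 N₀`), `t₈ = T44`, `tX = 0`, `u₀` and `k₀`
as in `confF1D1` (`F1D.lean`; `DH 2 u₀`, `bf V44 u₀ = -2`).  `n = (cz w, a g)`, `a : ℤ`; `w = κ w'` as in `badF1Z`.
`(R,t) = bf R_D T44`.
H1.  `R_D = 3u - κβ V44`, `R_8 = κ (3w' - β w4)`, norm `≥ 4κ²` (`class4`), `R_K = (3a - κβ) g`; total `18κ`.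
`κ` odd: `blk44`: `R_D² ≥ 8κ²`, `12κ² ≤ 18κ`, `κ = 1`, `3a - β ≠ 0`, `R_K² ≥ 6`, so `R_D² ≤ 8`, `R_D² = 8`, `blk44_eq`.
`κ = 2κ₁`: `8κ₁² + 16κ₁² ≤ 36κ₁`, `κ₁ = 1`, `κ = 2`: `3a - 2β ≠ 0`, `R_K² = 6c (3a - 2β)² ≥ 6`, so
`8 ≤ R_D² ≤ 36 - 16 - 6 = 14`.  `R_D² = 9 bf u u - 12β bf u V44 + 32β²` is `2 mod 3` (`bf_sub_left` etc.; `3 ∤ β`), and
divisible by 4 (`blk44_four`); so `R_D² = 8`, `blk44_eq` (`κ = 2`).
H2.  `s = (u, (cz w, a g))`, `(s,s) = 2κ`; `(s,t) = bf u T44`.  If `u = 0` fine.  Otherwise `d_min`: `bf u u ≥ 2κ`, so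
`bf u u = 2κ`, `w = 0`, `a g = 0` (positivity), and `3κ ∣ bf u V44`: `rt44`. -/
theorem confF1D3 {BY : Frm Y} (hBY : Pd BY) {K : AddSubgroup Y} (hK : EvL BY K) {g : Y} {c : ℤ}
    (hc : 1 ≤ c) (hg : BY g g = 6 * c) (hgK : g ∈ K) (hcyc : ∀ k ∈ K, ∃ a : ℤ, k = (a : ℚ) • g) :
    Conf (PF (sF F8 BY)) (PL ((Zk 8).prod K)) {2} (fun _ => 2) := by
  have hexp : ∀ (β : ℤ) (u : Fin 8 → ℤ),
      bf E8 ((3 : ℤ) • u - (2 * β) • V44) ((3 : ℤ) • u - (2 * β) • V44) =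
        9 * bf E8 u u - 6 * β * bf E8 u V44 - 6 * β * bf E8 V44 u + 4 * β ^ 2 * 8 := by
    intro β u
    rw [MP_dcc566_gt.bf_sub_left, MP_dcc566_gt.bf_sub_right, MP_dcc566_gt.bf_sub_right,
      MP_dcc566_gt.bf_smul_left, MP_dcc566_gt.bf_smul_left, MP_dcc566_gt.bf_smul_left,
      MP_dcc566_gt.bf_smul_left, MP_dcc566_gt.bf_smul_right, MP_dcc566_gt.bf_smul_right,
      MP_dcc566_gt.bf_smul_right, MP_dcc566_gt.bf_smul_right, V44_facts.2.1]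
    ring
  refine En_core hBY hK hgK (w := w4) (N₀ := 2 + c) ?_ ?_
  · rw [MP_dcc566_gt.norm_w4, hg]
    push_cast
    ring
  · intro κ β u w' k hk hκ hβ hu hd h1 h2
    obtain ⟨a, rfl⟩ := hcyc k hk
    obtain ⟨e, he⟩ := En_sq hβ
    have hE := MP_dcc566_gt.class4 w' hβ
    obtain ⟨hD1, hD2⟩ := blk44 hκ hβ hu hd
    obtain ⟨D, hD⟩ : ∃ D, D = bf E8 ((3 : ℤ) • u - (κ * β) • V44)
      ((3 : ℤ) • u - (κ * β) • V44) := ⟨_, rfl⟩
    obtain ⟨W, hW⟩ : ∃ W, W = bf E8 ((3 : ℤ) • w' - β • w4) ((3 : ℤ) • w' - β • w4) := ⟨_, rfl⟩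
    rw [← hD] at h1 hD1 hD2
    rw [← hW] at h1 hE
    rw [map_smul, map_smul, LinearMap.smul_apply, hg, smul_eq_mul, smul_eq_mul] at h1
    have h1' : D + κ ^ 2 * W + 6 * c * (3 * a - κ * β) ^ 2 = 18 * κ := by
      have h3 : (D : ℚ) + (κ : ℚ) ^ 2 * (W : ℚ) + 6 * c * (3 * a - κ * β) ^ 2 = 18 * κ := by
        rw [← h1]
        ring
      exact_mod_cast h3
    have hsq : ∀ x : ℤ, x ≠ 0 → 6 ≤ 6 * c * x ^ 2 := by
      intro x hx
      have h3 : 1 ≤ x ^ 2 := by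
        have := sq_pos_of_pos (abs_pos.2 hx)
        rw [sq_abs] at this
        omega
      nlinarith
    have hsq0 : 0 ≤ 6 * c * (3 * a - κ * β) ^ 2 := by
      have := sq_nonneg (3 * a - κ * β)
      positivity
    rcases Int.even_or_odd κ with hev | hodd
    · obtain ⟨κ₁, hκ₁⟩ := hev
      have hκ2 : κ = 2 * κ₁ := by omega
      have h3 := hD2 κ₁ hκ2
      have h4 : 1 ≤ κ₁ := by omega
      have h5 : κ₁ = 1 := by
        by_contra hne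
        have h6 : 2 ≤ κ₁ := by omega
        have h7 : κ ^ 2 * 4 ≤ κ ^ 2 * W := mul_le_mul_of_nonneg_left hE (sq_nonneg κ)
        rw [hκ2] at h1' h7 hsq0
        nlinarith
      rw [h5, mul_one] at hκ2
      subst hκ2
      refine blk44_eq (Or.inr rfl) hβ hu hd ?_
      have h6 := hsq (3 * a - 2 * β) (by omega)
      have h7 := blk44_four (β := β) hu hd
      rw [← hD] at h7 ⊢
      have h8 : D = 3 * (3 * bf E8 u u - 2 * (β * bf E8 u V44) - 2 * (β * bf E8 V44 u) +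
          32 * e + 10) + 2 := by
        rw [hD, hexp β u, he]
        ring
      rw [h5] at h3
      omega
    · have h3 := hD1 hodd
      have hκ1 : κ = 1 := by
        by_contra hne
        have h4 : 2 ≤ κ := by omega
        have h7 : κ ^ 2 * 4 ≤ κ ^ 2 * W := mul_le_mul_of_nonneg_left hE (sq_nonneg κ)
        nlinarith
      subst hκ1
      refine blk44_eq (Or.inl rfl) hβ hu hd ?_
      rw [← hD]
      have h6 := hsq (3 * a - 1 * β) (by omega)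
      omega

end Pool.Agent.RFN
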