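import Mathlib
import Pool.Agent.Lib.MP_dcc566_gt_R.Cfg
import Pool.Agent.Lib.MP_dcc566_gt_R.E8Da
import Pool.Agent.Lib.MP_dcc566_gt_R.E8Db
import Pool.Agent.Lib.MP_dcc566_gt_R.E6F
import Pool.Agent.Lib.MP_dcc566_gt_R.LFi
import Pool.Agent.Lib.MP_dcc566_gt_R.F2

/-!
# Lattices containing `U ⊕ E₈ ⊕ E₆`, complement not representing 6
-/

set_option autoImplicit false

namespace Pool.Agent.RFN

open MP_dcc566_gt (bf E8)

variable {Y : Type} [AddCommGroup Y] [Module ℚ Y]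

/-- The second family (rank 19): `N` contains `E₆`, the space `Y` does not represent 6. -/
structure F2N (BT : Frm Y) (N : AddSubgroup ((Fin 6 → ℚ) × Y)) : Prop where
  pd : Pd BT
  even : EvL (sF (mF E6) BT) N
  e6 : ∀ x ∈ Zk 6, (x, (0 : Y)) ∈ N
  no6 : ∀ y, BT y y ≠ 6

/-- Norms of the dual lattice of `E₆` outside `E₆`.

PROOF.  `Du6.gen`: `x = (k/3) om6 + cz u`; `Du6_mem`: `3 ∤ k`, so `k² = 1 + 3j`; `Du6_norm`: the norm is
`4k²/3 + 2n = 4/3 + 2 (2j + n)`; it is `≥ 0` (`Pd_F6.nonneg`), so `2j + n ≥ 0`. -/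
theorem Du6_low {x : Fin 6 → ℚ} (h : Du6 x) (hx : x ∉ Zk 6) :
    ∃ n : ℤ, 0 ≤ n ∧ mF E6 x x = 4 / 3 + 2 * n := by
  obtain ⟨k, u, rfl⟩ := h.gen
  rw [Du6_mem] at hx
  obtain ⟨n, hn⟩ := Du6_norm k u
  obtain ⟨j, hj⟩ : ∃ j : ℤ, k ^ 2 = 1 + 3 * j := by
    rcases (by lia : k % 3 = 1 ∨ k % 3 = 2) with h4 | h4
    · obtain ⟨c, hc⟩ : ∃ c, k = 3 * c + 1 := ⟨k / 3, by lia⟩
      exact ⟨3 * c ^ 2 + 2 * c, by rw [hc]; ring⟩
    · obtain ⟨c, hc⟩ : ∃ c, k = 3 * c + 2 := ⟨k / 3, by lia⟩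
      exact ⟨3 * c ^ 2 + 4 * c + 1, by rw [hc]; ring⟩
  have hj' : (k : ℚ) ^ 2 = 1 + 3 * j := by exact_mod_cast hj
  have hN : mF E6 (((k : ℚ) / 3) • cz om6 + cz u) (((k : ℚ) / 3) • cz om6 + cz u) =
      4 / 3 + 2 * ((2 * j + n : ℤ) : ℚ) := by
    rw [hn, hj']
    push_cast
    ring
  refine ⟨2 * j + n, ?_, hN⟩
  have h0 := Pd_F6.nonneg (((k : ℚ) / 3) • cz om6 + cz u)
  rw [hN] at h0
  by_contra hneg
  rw [not_le] at hneg
  have h1 : ((2 * j + n : ℤ) : ℚ) ≤ ((-1 : ℤ) : ℚ) := by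
    exact_mod_cast (by lia : 2 * j + n ≤ -1)
  push_cast at h0 h1
  linarith

private theorem Eo_two_le {u : Fin 6 → ℤ} (h : u ≠ 0) : 2 ≤ bf E6 u u := by
  have h1 := E6_pos u h
  obtain ⟨k, hk⟩ := E6_even u
  lia

/-- PROOF.  `Zk 6`: `x = cz u`, `u ≠ 0`, `E6_pos`, `E6_even`: norm `≥ 2`.  Otherwise `Du6_low`. -/
theorem Du6_ge {x : Fin 6 → ℚ} (h : Du6 x) (h0 : x ≠ 0) : 4 / 3 ≤ mF E6 x x := by
  by_cases hx : x ∈ Zk 6
  · obtain ⟨u, rfl⟩ := mem_Zk.1 hx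
    have hu : u ≠ 0 := by
      rintro rfl
      exact h0 cz_zero
    have h1 := Eo_two_le hu
    rw [mF_cz]
    have h2 : ((2 : ℤ) : ℚ) ≤ ((bf E6 u u : ℤ) : ℚ) := by exact_mod_cast h1
    push_cast at h2
    linarith
  · obtain ⟨n, hn, hN⟩ := Du6_low h hx
    rw [hN]
    have h2 : (0 : ℚ) ≤ (n : ℚ) := by exact_mod_cast hn
    linarith

/-- PROOF.  The products of `z` with `(y, 0) ∈ N` are integers (`EvL.isZ`). -/
theorem F2N.dual {BT : Frm Y} {N : AddSubgroup ((Fin 6 → ℚ) × Y)} (h : F2N BT N)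
    {z : (Fin 6 → ℚ) × Y} (hz : z ∈ N) : Du6 z.1 := by
  intro y hy
  have h1 := EvL.isZ (sF_symm (mF_symm E6_symm) h.pd.symm) h.even hz (h.e6 y hy)
  rw [sF_apply] at h1
  simpa using h1

/-- Elements of `N`.

PROOF.  If `z.1 ∈ Zk 6`: `(0, z.2) = z - (z.1, 0) ∈ N`, even norm.  Otherwise `Du6_low`: `(z.1,z.1) = 4/3 + 2n`, the norm
of `z` is even, so `(z.2,z.2) = 2/3 + 2m`, and `≥ 0`, so `m ≥ 0`; `m = 0` would give `BT (3 z.2) (3 z.2) = 6`, against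
`no6`; so `m ≥ 1`. -/
theorem F2N.cases {BT : Frm Y} {N : AddSubgroup ((Fin 6 → ℚ) × Y)} (h : F2N BT N)
    {z : (Fin 6 → ℚ) × Y} (hz : z ∈ N) :
    (z.1 ∈ Zk 6 ∧ ((0 : Fin 6 → ℚ), z.2) ∈ N ∧ Dv 2 (BT z.2 z.2)) ∨
      (z.1 ∉ Zk 6 ∧ 8 / 3 ≤ BT z.2 z.2) := by
  have hev := h.even z hz
  rw [sF_apply] at hev
  by_cases hx : z.1 ∈ Zk 6
  · left
    refine ⟨hx, ?_, ?_⟩
    · have h1 := N.sub_mem hz (h.e6 z.1 hx)
      have h2 : z - (z.1, (0 : Y)) = ((0 : Fin 6 → ℚ), z.2) := by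
        refine Prod.ext ?_ ?_
        · exact sub_self _
        · exact sub_zero _
      rwa [h2] at h1
    · have h1 := EvL_F6 z.1 hx
      have h2 := hev.sub h1
      have h3 : mF E6 z.1 z.1 + BT z.2 z.2 - mF E6 z.1 z.1 = BT z.2 z.2 := by ring
      rwa [h3] at h2
  · right
    refine ⟨hx, ?_⟩
    obtain ⟨n, hn, hN⟩ := Du6_low (h.dual hz) hx
    obtain ⟨m, hm⟩ := hev
    rw [hN] at hm
    have h1 : BT z.2 z.2 = 2 / 3 + 2 * ((m - n - 1 : ℤ) : ℚ) := by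
      push_cast at hm ⊢
      linarith
    have h2 := h.pd.nonneg z.2
    rw [h1] at h2
    have h3 : 1 ≤ m - n - 1 := by
      by_contra hlt
      rcases (by lia : m - n - 1 = 0 ∨ m - n - 1 ≤ -1) with h4 | h4
      · rw [h4] at h1
        refine h.no6 ((3 : ℚ) • z.2) ?_
        simp only [map_smul, LinearMap.smul_apply, smul_eq_mul]
        rw [h1]
        norm_num
      · have h5 : ((m - n - 1 : ℤ) : ℚ) ≤ ((-1 : ℤ) : ℚ) := by exact_mod_cast h4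
        rw [Int.cast_neg, Int.cast_one] at h5
        linarith
    have h5 : ((1 : ℤ) : ℚ) ≤ ((m - n - 1 : ℤ) : ℚ) := by exact_mod_cast h3
    rw [h1]
    rw [Int.cast_one] at h5
    linarith

/-- The `E₆`-part of `z` divided by `κ`: if `κ` divides all products of `z` with `N` then `z.1 = κ x'` with `x'` in the
dual lattice of `E₆`. -/
theorem F2N.div {BT : Frm Y} {N : AddSubgroup ((Fin 6 → ℚ) × Y)} (h : F2N BT N) {κ : ℤ}
    (hκ : 0 < κ) {z : (Fin 6 → ℚ) × Y} (hd : ∀ z' ∈ N, Dv κ (sF (mF E6) BT z z')) :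
    ∃ x' : Fin 6 → ℚ, z.1 = (κ : ℚ) • x' ∧ Du6 x' := by
  have hκ' : (κ : ℚ) ≠ 0 := by exact_mod_cast hκ.ne'
  refine ⟨(κ : ℚ)⁻¹ • z.1, ?_, ?_⟩
  · rw [smul_smul, mul_inv_cancel₀ hκ', one_smul]
  · intro y hy
    obtain ⟨n, hn⟩ := hd (y, 0) (h.e6 y hy)
    rw [sF_apply] at hn
    refine ⟨n, ?_⟩
    simp only [map_smul, LinearMap.smul_apply, smul_eq_mul]
    have h1 : mF E6 z.1 y = κ * n := by simpa using hn
    rw [h1, inv_mul_cancel_left₀ hκ']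

/-- The `E₆`-part of generalized roots: `κ ≥ 2`.

PROOF.  `F2N.div`: `z.1 = κ x'`; if `x' ≠ 0` then `Du6_ge`: norm `≥ 4/3 κ² > 2κ`. -/
theorem F2N.root_zero {BT : Frm Y} {N : AddSubgroup ((Fin 6 → ℚ) × Y)} (h : F2N BT N) {κ : ℤ}
    (hκ : 2 ≤ κ) {z : (Fin 6 → ℚ) × Y}
    (hd : ∀ z' ∈ N, Dv κ (sF (mF E6) BT z z')) (hn : sF (mF E6) BT z z ≤ 2 * κ) : z.1 = 0 := by
  obtain ⟨x', hx', hd'⟩ := h.div (by lia) hd
  by_contra hne
  have hx0 : x' ≠ 0 := by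
    rintro rfl
    rw [smul_zero] at hx'
    exact hne hx'
  have h1 := Du6_ge hd' hx0
  have h2 := h.pd.nonneg z.2
  rw [sF_apply, hx'] at hn
  simp only [map_smul, LinearMap.smul_apply, smul_eq_mul] at hn
  have h3 : (2 : ℚ) ≤ κ := by exact_mod_cast hκ
  nlinarith [mul_le_mul_of_nonneg_left h1 (mul_nonneg (by linarith : (0 : ℚ) ≤ κ)
    (by linarith : (0 : ℚ) ≤ κ))]

/-- Roots of norm at most 2.

PROOF.  `F2N.cases`.  If `z.1 ∉ Zk 6` the norm is `≥ 4/3 + 8/3 = 4`.  Otherwise `z.1 = cz w`, `w ≠ 0`, `bf w w ≥ 2` (`E6_pos`,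
`E6_even`), so `bf w w = 2` and `(z.2,z.2) ≤ 0`, `z.2 = 0`. -/
theorem F2N.root_two {BT : Frm Y} {N : AddSubgroup ((Fin 6 → ℚ) × Y)} (h : F2N BT N)
    {z : (Fin 6 → ℚ) × Y} (hz : z ∈ N) (hn : sF (mF E6) BT z z ≤ 2) (h0 : z.1 ≠ 0) :
    z.2 = 0 ∧ ∃ w : Fin 6 → ℤ, z.1 = cz w ∧ bf E6 w w = 2 := by
  rw [sF_apply] at hn
  rcases h.cases hz with ⟨hx, -, -⟩ | ⟨hx, h8⟩
  · obtain ⟨w, hw⟩ := mem_Zk.1 hx
    have hw0 : w ≠ 0 := by
      rintro rfl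
      exact h0 (hw.trans cz_zero)
    have h1 := Eo_two_le hw0
    rw [hw, mF_cz] at hn
    have h2 := h.pd.nonneg z.2
    have h3 : ((2 : ℤ) : ℚ) ≤ ((bf E6 w w : ℤ) : ℚ) := by exact_mod_cast h1
    rw [Int.cast_ofNat] at h3
    refine ⟨h.pd.eq_zero (by linarith), w, hw, ?_⟩
    have h4 : ((bf E6 w w : ℤ) : ℚ) = ((2 : ℤ) : ℚ) := by
      rw [Int.cast_ofNat]
      linarith
    exact_mod_cast h4
  · exfalso
    have h1 := Du6_ge (h.dual hz) h0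
    linarith

/-- The vectors `3x' - β y6`, `x'` in the dual lattice of `E₆`.

PROOF.  `x' = cz w`: `E6_y6` (with `σ = ±1`, `3 ∣ β - σ`): the norm is `bf E6 (3w - β y6) (3w - β y6) ≥ 8`.
`x' ∉ Zk 6`: `3 x' ∈ Zk 6` (`Du6.three`), so `3x' - β y6` is in `Zk 6`, not 0 (otherwise `x' = (β/3) y6`, whose product
with `rh6` is `-β/3` (`bf E6 y6 rh6 = -1`), not an integer); even norm `> 0`, so `≥ 2`. -/
theorem Du6_y6 {x' : Fin 6 → ℚ} (h : Du6 x') {β : ℤ} (hβ : ¬ (3 : ℤ) ∣ β) :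
    (x' ∈ Zk 6 → 8 ≤ mF E6 ((3 : ℚ) • x' - (β : ℚ) • cz y6) ((3 : ℚ) • x' - (β : ℚ) • cz y6)) ∧
      2 ≤ mF E6 ((3 : ℚ) • x' - (β : ℚ) • cz y6) ((3 : ℚ) • x' - (β : ℚ) • cz y6) := by
  have hA : ∀ w : Fin 6 → ℤ, (3 : ℚ) • cz w - (β : ℚ) • cz y6 = cz ((3 : ℤ) • w - β • y6) := by
    intro w
    rw [cz_sub, cz_smul, cz_smul]
    norm_num
  have hB : x' ∈ Zk 6 →
      8 ≤ mF E6 ((3 : ℚ) • x' - (β : ℚ) • cz y6) ((3 : ℚ) • x' - (β : ℚ) • cz y6) := by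
    intro hx
    obtain ⟨w, rfl⟩ := mem_Zk.1 hx
    rw [hA, mF_cz]
    obtain ⟨σ, hσ, hβσ⟩ : ∃ σ : ℤ, (σ = 1 ∨ σ = -1) ∧ (3 : ℤ) ∣ β - σ := by
      rcases (by lia : β % 3 = 1 ∨ β % 3 = 2) with h4 | h4
      · exact ⟨1, Or.inl rfl, by lia⟩
      · exact ⟨-1, Or.inr rfl, by lia⟩
    have h1 := (E6_y6 hσ hβσ w).1
    exact_mod_cast h1
  refine ⟨hB, ?_⟩
  by_cases hx : x' ∈ Zk 6
  · have := hB hx
    linarith
  · obtain ⟨v, hv⟩ := mem_Zk.1 h.three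
    have h1 : (3 : ℚ) • x' - (β : ℚ) • cz y6 = cz (v - β • y6) := by
      rw [hv, cz_sub, cz_smul]
    rw [h1, mF_cz]
    have hne : v - β • y6 ≠ 0 := by
      intro h0
      rw [h0, cz_zero, sub_eq_zero] at h1
      obtain ⟨n, hn⟩ := h (cz rh6) (cz_mem _)
      have h2 : mF E6 ((3 : ℚ) • x') (cz rh6) = 3 * n := by
        rw [map_smul, LinearMap.smul_apply, hn]
        rfl
      rw [h1, map_smul, LinearMap.smul_apply, mF_cz] at h2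
      have h3 : bf E6 y6 rh6 = -1 := by decide
      rw [h3, smul_eq_mul] at h2
      have h4 : ((β * (-1) : ℤ) : ℚ) = ((3 * n : ℤ) : ℚ) := by
        push_cast
        push_cast at h2
        exact h2
      have h5 : β * (-1) = 3 * n := by exact_mod_cast h4
      lia
    have h2 := Eo_two_le hne
    exact_mod_cast h2

/-- The vectors `2x' - β ep6`, `x'` in the dual lattice of `E₆`.

PROOF.  `x' = cz w`: `E6_ep_ge`.  In general it is in the dual lattice (a subgroup: `Du6` is stable under integral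
combinations), and not 0 (otherwise `x' = (β/2) ep6`, whose product with `Pi.single 0 1` is `β/2` (`bf E6 ep6 u = u 0 + u 5`),
not an integer): `Du6_ge`. -/
theorem Du6_ep {x' : Fin 6 → ℚ} (h : Du6 x') {β : ℤ} (hβ : ¬ (2 : ℤ) ∣ β) :
    (x' ∈ Zk 6 → 4 ≤ mF E6 ((2 : ℚ) • x' - (β : ℚ) • cz ep6) ((2 : ℚ) • x' - (β : ℚ) • cz ep6)) ∧
      4 / 3 ≤ mF E6 ((2 : ℚ) • x' - (β : ℚ) • cz ep6) ((2 : ℚ) • x' - (β : ℚ) • cz ep6) := by
  have hA : ∀ w : Fin 6 → ℤ, (2 : ℚ) • cz w - (β : ℚ) • cz ep6 = cz ((2 : ℤ) • w - β • ep6) := by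
    intro w
    rw [cz_sub, cz_smul, cz_smul]
    norm_num
  refine ⟨?_, ?_⟩
  · intro hx
    obtain ⟨w, rfl⟩ := mem_Zk.1 hx
    rw [hA, mF_cz]
    have h1 := E6_ep_ge hβ w
    exact_mod_cast h1
  · refine Du6_ge ?_ ?_
    · intro y hy
      obtain ⟨n, hn⟩ := h y hy
      obtain ⟨v, rfl⟩ := mem_Zk.1 hy
      refine ⟨2 * n - β * bf E6 ep6 v, ?_⟩
      rw [map_sub, map_smul, map_smul, LinearMap.sub_apply, LinearMap.smul_apply,
        LinearMap.smul_apply, hn, mF_cz, smul_eq_mul, smul_eq_mul]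
      push_cast
      ring
    · intro h0
      rw [sub_eq_zero] at h0
      obtain ⟨n, hn⟩ := h (cz (Pi.single 0 1)) (cz_mem _)
      have h2 : mF E6 ((2 : ℚ) • x') (cz (Pi.single 0 1)) = 2 * n := by
        rw [map_smul, LinearMap.smul_apply, hn]
        rfl
      have h3 : bf E6 ep6 (Pi.single 0 1) = 1 := by
        rw [(E6_om _).2.1]
        decide
      rw [h0, map_smul, LinearMap.smul_apply, mF_cz, h3, smul_eq_mul] at h2
      have h4 : ((β : ℤ) : ℚ) = ((2 * n : ℤ) : ℚ) := by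
        push_cast
        push_cast at h2
        linarith
      have h5 : β = 2 * n := by exact_mod_cast h4
      exact hβ ⟨n, h5⟩

end Pool.Agent.RFN
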