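import Mathlib
import Pool.Agent.Lib.MP_dcc566_gt_E.Eo

/-!
# The second family: the maximal lattice
-/

set_option autoImplicit false

namespace Pool.Agent.RFN

open MP_dcc566_gt (bf E8 w4)

variable {Y : Type} [AddCommGroup Y] [Module ℚ Y]

private theorem Ep_val {BT : Frm Y} (a b : Fin 6 → ℚ) (k l : Y) :
    sF (mF E6) BT (a, k) (b, l) = mF E6 a b + BT k l := sF_apply _ _ _ _

private theorem Ep_lin (c : ℤ) (v : Fin 6 → ℚ) (x : Fin 6 → ℚ) (k : Y) :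
    ((2 : ℤ) : ℚ) • ((x, k) : (Fin 6 → ℚ) × Y) - (c : ℚ) • ((v, 0) : (Fin 6 → ℚ) × Y) =
      ((2 : ℚ) • x - (c : ℚ) • v, (2 : ℚ) • k) := by
  refine Prod.ext ?_ ?_
  · rw [Int.cast_ofNat]
    rfl
  · change ((2 : ℤ) : ℚ) • k - (c : ℚ) • (0 : Y) = (2 : ℚ) • k
    rw [smul_zero, sub_zero, Int.cast_ofNat]

private theorem Ep_comb (κ β : ℤ) (w y : Fin 8 → ℤ) :
    (2 : ℤ) • (κ • w) - (κ * β) • y = κ • ((2 : ℤ) • w - β • y) := by
  funext j
  simp only [Pi.sub_apply, Pi.smul_apply, smul_eq_mul]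
  ring

private theorem Ep_comb6 (κ β : ℤ) (x y : Fin 6 → ℚ) :
    (2 : ℚ) • ((κ : ℚ) • x) - ((κ * β : ℤ) : ℚ) • y = (κ : ℚ) • ((2 : ℚ) • x - (β : ℚ) • y) := by
  funext j
  simp only [Pi.sub_apply, Pi.smul_apply, smul_eq_mul]
  push_cast
  ring

private theorem Ep_scale8 (κ : ℤ) (w : Fin 8 → ℤ) : bf E8 (κ • w) (κ • w) = κ ^ 2 * bf E8 w w := by
  rw [MP_dcc566_gt.bf_smul_left, MP_dcc566_gt.bf_smul_right]
  ring

private theorem Ep_scale {V : Type} [AddCommGroup V] [Module ℚ V] (B : Frm V) (c : ℚ) (x : V) :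
    B (c • x) (c • x) = c ^ 2 * B x x := by
  rw [map_smul, map_smul, LinearMap.smul_apply, smul_eq_mul, smul_eq_mul]
  ring

/-- `v = (w4; (ep6, 0))`, `m = 2`, `t = (0; (t6, 0))`.

PROOF.  As `badF2A` (`F2.lean`), where `N = (Zk 6).prod T`.  `cfg0` with `X = (Fin 6 → ℚ) × Y`, `BX = sF (mF E6) BT`, `m = 2`,
`N₀ = 2`, `v₈ = w4`, `y := (cz ep6, 0)`, `u₀ = Pi.single 0 1` (`bf_w4`), `k₀ = 0`, `t₈ = 0`, `tX = (cz t6, 0)`.
H1.  `β` odd.  `u = κ u'` (`E8_unimod`), `R_8 = κ (2u' - β w4)`, norm `≥ 4κ²` (`class4_two`).  `F2N.div`: `n.1 = κ x'`,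
`R_6 = κ (2x' - β ep6)`, norm `≥ 4/3 κ²` (`Du6_ep`).  Total `8κ`: `(4 + 4/3) κ² ≤ 8κ`, so `κ = 1` (`κ` integer, `κ < 2`).
`R_6² + R_T² ≤ 4`, `R_T = 2 n.2 - β 0`.  `F2N.cases`: `n.1 ∉ Zk 6`: `R_T² = 4 (n.2,n.2) ≥ 32/3`, impossible.  `n.1 = cz w`:
`bf (2w - β ep6) (2w - β ep6) ≥ 4` (`E6_ep_ge`) and `≤ 4`: `E6_ep_eq`: the product with `t6` is 0.
H2.  `(s,t) = (n.1, t6)`.  `κ ≥ 2`: `F2N.root_zero`.  `κ = 1`: if `n.1 = 0` fine; otherwise `F2N.root_two`: `n = (cz w, 0)`,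
`bf w w = 2`, so `bf u u = 0`, `u = 0`, `2 ∣ bf w ep6`: `E6_ep`. -/
theorem badF2N {BT : Frm Y} {N : AddSubgroup ((Fin 6 → ℚ) × Y)} (h : F2N BT N) :
    BadS (PF (sF (mF E6) BT)) (PL N) := by
  refine cfg0 (Pd_F6.sF h.pd) h.even (m := 2) (N₀ := 2) (by norm_num) (v₈ := w4)
    (y := (cz ep6, 0)) (h.e6 _ (cz_mem ep6)) ?_ (t₈ := 0) (tX := (cz t6, 0)) (Or.inr ?_)
    (u₀ := Pi.single 0 1) (k₀ := 0) ?_ ?_ ?_
  · rw [Ep_val, map_zero, add_zero, mF_cz, MP_dcc566_gt.norm_w4, E6_vals.2.2.1]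
    norm_num
  · exact fun h1 => E6_vals.2.2.2.2.2.2.2.2.1 (cz_eq_zero.1 (congrArg Prod.fst h1))
  · rw [MP_dcc566_gt.E8_comm, MP_dcc566_gt.bf_w4]
    simp
  · rintro κ β u ⟨x, k⟩ hn hκ hβ hu hd hnorm
    obtain ⟨u', rfl⟩ := MP_dcc566_gt.E8_unimod hu
    obtain ⟨x', hx, hx'⟩ := h.div hκ hd
    change x = (κ : ℚ) • x' at hx
    rw [MP_dcc566_gt.bf_zero_right, Int.cast_zero, zero_add, Ep_lin, Ep_val, map_zero, add_zero]
    rw [Ep_lin, Ep_val, Ep_comb, Ep_scale8, Ep_scale BT] at hnorm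
    have h1 : (4 : ℚ) ≤ ((bf E8 ((2 : ℤ) • u' - β • w4) ((2 : ℤ) • u' - β • w4) : ℤ) : ℚ) := by
      exact_mod_cast MP_dcc566_gt.class4_two u' hβ
    have h2 := (Du6_ep hx' hβ).2
    have h3 := h.pd.nonneg k
    have h4 : mF E6 ((2 : ℚ) • x - ((κ * β : ℤ) : ℚ) • cz ep6)
        ((2 : ℚ) • x - ((κ * β : ℤ) : ℚ) • cz ep6) = (κ : ℚ) ^ 2 *
        mF E6 ((2 : ℚ) • x' - (β : ℚ) • cz ep6) ((2 : ℚ) • x' - (β : ℚ) • cz ep6) := by
      rw [hx, Ep_comb6, Ep_scale]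
    rw [h4] at hnorm
    push_cast at hnorm
    have h5 : (0 : ℚ) < κ := by exact_mod_cast hκ
    have h6 : κ = 1 := by
      by_contra h7
      have h8 : 2 ≤ κ := by omega
      have h9 : (2 : ℚ) ≤ κ := by exact_mod_cast h8
      have h10 : (κ : ℚ) ^ 2 * (4 + 4 / 3) ≤ 8 * κ := by
        have e1 : (κ : ℚ) ^ 2 * 4 ≤ (κ : ℚ) ^ 2 *
            ((bf E8 ((2 : ℤ) • u' - β • w4) ((2 : ℤ) • u' - β • w4) : ℤ) : ℚ) :=
          mul_le_mul_of_nonneg_left h1 (sq_nonneg _)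
        have e2 := mul_le_mul_of_nonneg_left h2 (sq_nonneg (κ : ℚ))
        linarith
      nlinarith
    subst h6
    rw [Int.cast_one, one_smul] at hx
    subst hx
    rw [Int.cast_one, one_pow, one_mul, one_mul] at hnorm
    rw [one_mul]
    rcases h.cases hn with ⟨h7, _, _⟩ | ⟨_, h8⟩
    · obtain ⟨w, hw⟩ := h7
      change x = cz w at hw
      subst hw
      have e3 : (2 : ℚ) • cz w - (β : ℚ) • cz ep6 = cz ((2 : ℤ) • w - β • ep6) := by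
        rw [cz_sub, cz_smul, cz_smul, Int.cast_ofNat]
      rw [e3, mF_cz] at hnorm h2
      rw [e3, mF_cz]
      have h9 := E6_ep_ge hβ w
      have h10 : (4 : ℚ) ≤ ((bf E6 ((2 : ℤ) • w - β • ep6) ((2 : ℤ) • w - β • ep6) : ℤ) : ℚ) := by
        exact_mod_cast h9
      have h11 : ((bf E6 ((2 : ℤ) • w - β • ep6) ((2 : ℤ) • w - β • ep6) : ℤ) : ℚ) = 4 := by
        linarith
      have h12 : bf E6 ((2 : ℤ) • w - β • ep6) ((2 : ℤ) • w - β • ep6) = 4 := by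
        exact_mod_cast h11
      rw [E6_ep_eq hβ h12, Int.cast_zero]
    · exfalso
      change 8 / 3 ≤ BT k k at h8
      linarith
  · rintro κ u ⟨x, k⟩ hn hκ hu hd hnorm hdv
    rw [MP_dcc566_gt.bf_zero_right, Int.cast_zero, zero_add, Ep_val, map_zero, add_zero]
    have h1 : (0 : ℚ) ≤ ((bf E8 u u : ℤ) : ℚ) := by
      exact_mod_cast MP_dcc566_gt.E8_nonneg u
    rcases (show κ = 1 ∨ 2 ≤ κ by omega) with rfl | h2
    · by_cases h0 : x = 0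
      · rw [h0, map_zero, LinearMap.zero_apply]
      · have h3 : sF (mF E6) BT ((x, k) : (Fin 6 → ℚ) × Y) (x, k) ≤ 2 := by
          rw [Int.cast_one] at hnorm
          linarith
        obtain ⟨h4, w, h5, h6⟩ := h.root_two hn h3 h0
        change k = 0 at h4
        change x = cz w at h5
        subst h4 h5
        rw [Ep_val, map_zero, add_zero, mF_cz, h6] at hnorm
        have h7 : ((bf E8 u u : ℤ) : ℚ) = 0 := by
          push_cast at hnorm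
          linarith
        have h8 : u = 0 := by
          by_contra h9
          have h10 := MP_dcc566_gt.E8_pos u h9
          have h11 : bf E8 u u = 0 := by exact_mod_cast h7
          omega
        rw [h8, MP_dcc566_gt.bf_zero_left, Int.cast_zero, zero_add, Ep_val, map_zero, add_zero,
          mF_cz, mul_one] at hdv
        rw [mF_cz, E6_ep h6 (Dv_int.1 hdv), Int.cast_zero]
    · have h3 : sF (mF E6) BT ((x, k) : (Fin 6 → ℚ) × Y) (x, k) ≤ 2 * κ := by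
        linarith
      have h4 := h.root_zero h2 hd h3
      change x = 0 at h4
      rw [h4, map_zero, LinearMap.zero_apply]

end Pool.Agent.RFN
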