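import Mathlib
import Pool.Agent.Lib.MP_dcc566_gt_E.Eo

/-!
# The second family: two vectors at the prime 2
-/

set_option autoImplicit false

namespace Pool.Agent.RFN

open MP_dcc566_gt (bf E8)

variable {Y : Type} [AddCommGroup Y] [Module ℚ Y]

private theorem Eq_val {BT : Frm Y} (x : Fin 6 → ℚ) (k : Y) (v : Fin 6 → ℚ) :
    sF (mF E6) BT (x, k) (v, (0 : Y)) = mF E6 x v := by
  rw [sF_apply]
  change mF E6 x v + BT k 0 = mF E6 x v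
  rw [map_zero, add_zero]

private theorem Eq_lin (κ β : ℤ) (x' : Fin 6 → ℚ) (k : Y) :
    ((3 : ℤ) : ℚ) • (((κ : ℚ) • x', k) : (Fin 6 → ℚ) × Y) -
        ((κ * β : ℤ) : ℚ) • ((cz y6, 0) : (Fin 6 → ℚ) × Y) =
      ((κ : ℚ) • ((3 : ℚ) • x' - (β : ℚ) • cz y6), (3 : ℚ) • k) := by
  refine Prod.ext ?_ ?_
  · change ((3 : ℤ) : ℚ) • ((κ : ℚ) • x') - ((κ * β : ℤ) : ℚ) • cz y6 =
      (κ : ℚ) • ((3 : ℚ) • x' - (β : ℚ) • cz y6)
    rw [smul_sub, smul_smul, smul_smul, smul_smul]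
    push_cast
    rw [mul_comm (3 : ℚ)]
  · change ((3 : ℤ) : ℚ) • k - ((κ * β : ℤ) : ℚ) • (0 : Y) = (3 : ℚ) • k
    rw [smul_zero, sub_zero]
    push_cast
    rfl

private theorem Eq_norm {BT : Frm Y} (κ β : ℤ) (x' : Fin 6 → ℚ) (k : Y) :
    sF (mF E6) BT ((κ : ℚ) • ((3 : ℚ) • x' - (β : ℚ) • cz y6), (3 : ℚ) • k)
        ((κ : ℚ) • ((3 : ℚ) • x' - (β : ℚ) • cz y6), (3 : ℚ) • k) =
      (κ : ℚ) ^ 2 * mF E6 ((3 : ℚ) • x' - (β : ℚ) • cz y6) ((3 : ℚ) • x' - (β : ℚ) • cz y6) +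
        9 * BT k k := by
  rw [sF_apply]
  simp only [map_smul, LinearMap.smul_apply, smul_eq_mul]
  ring

private theorem Eq_sig {β : ℤ} (hβ : ¬ (3 : ℤ) ∣ β) :
    ∃ σ : ℤ, (σ = 1 ∨ σ = -1) ∧ (3 : ℤ) ∣ β - σ := by
  by_cases h : (3 : ℤ) ∣ β - 1
  · exact ⟨1, Or.inl rfl, h⟩
  · exact ⟨-1, Or.inr rfl, by omega⟩

private theorem Eq_cz (β : ℤ) (w : Fin 6 → ℤ) :
    (3 : ℚ) • cz w - (β : ℚ) • cz y6 = cz ((3 : ℤ) • w - β • y6) := by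
  rw [cz_sub, cz_smul, cz_smul]
  norm_num

/-- The first condition. -/
private theorem Eq_H1 {BT : Frm Y} {N : AddSubgroup ((Fin 6 → ℚ) × Y)} (h : F2N BT N) {κ β : ℤ}
    {u : Fin 8 → ℤ} {x : Fin 6 → ℚ} {k : Y} (hn : (x, k) ∈ N) (hκ : 0 < κ) (hβ : ¬ (3 : ℤ) ∣ β)
    (hu : DH 2 u) (hd : DD 2 κ u) (hdn : ∀ n' ∈ N, Dv κ (sF (mF E6) BT (x, k) n'))
    (hnorm : ((bf E8 ((3 : ℤ) • u - (κ * β) • V46) ((3 : ℤ) • u - (κ * β) • V46) : ℤ) : ℚ) +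
      sF (mF E6) BT (((3 : ℤ) : ℚ) • ((x, k) : (Fin 6 → ℚ) × Y) -
        ((κ * β : ℤ) : ℚ) • ((cz y6, 0) : (Fin 6 → ℚ) × Y))
        (((3 : ℤ) : ℚ) • ((x, k) : (Fin 6 → ℚ) × Y) -
          ((κ * β : ℤ) : ℚ) • ((cz y6, 0) : (Fin 6 → ℚ) × Y)) = 2 * κ * ((3 : ℤ) : ℚ) ^ 2) :
    ((bf E8 ((3 : ℤ) • u - (κ * β) • V46) (hh 0) : ℤ) : ℚ) +
      sF (mF E6) BT (((3 : ℤ) : ℚ) • ((x, k) : (Fin 6 → ℚ) × Y) -
        ((κ * β : ℤ) : ℚ) • ((cz y6, 0) : (Fin 6 → ℚ) × Y)) (cz ((4 : ℤ) • rh6), 0) = 0 := by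
  obtain ⟨x', hx', hDu⟩ := h.div hκ hdn
  have hx1 : x = (κ : ℚ) • x' := hx'
  have hT := h.pd.nonneg k
  obtain ⟨hQ1, hQ2⟩ := Du6_y6 hDu hβ
  have hcas := h.cases hn
  have hlin : ((3 : ℤ) : ℚ) • ((x, k) : (Fin 6 → ℚ) × Y) -
      ((κ * β : ℤ) : ℚ) • ((cz y6, 0) : (Fin 6 → ℚ) × Y) =
      ((κ : ℚ) • ((3 : ℚ) • x' - (β : ℚ) • cz y6), (3 : ℚ) • k) := by
    rw [hx1]
    exact Eq_lin κ β x' k
  rw [hlin] at hnorm ⊢
  rw [Eq_norm] at hnorm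
  rw [Eq_val]
  generalize hQ : mF E6 ((3 : ℚ) • x' - (β : ℚ) • cz y6) ((3 : ℚ) • x' - (β : ℚ) • cz y6) = Q
    at hnorm hQ1 hQ2
  obtain ⟨hodd, heven⟩ := blk46 hκ hβ hu hd
  generalize hA : bf E8 ((3 : ℤ) • u - (κ * β) • V46) ((3 : ℤ) • u - (κ * β) • V46) = A
    at hnorm hodd heven
  have hκ1 : (1 : ℚ) ≤ κ := by exact_mod_cast hκ
  rcases Int.even_or_odd κ with ⟨κ₁, h1⟩ | ho
  · exfalso
    have h2 := heven κ₁ (by omega)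
    have hk1 : 0 < κ₁ := by omega
    have h2' : (16 : ℚ) * (κ₁ : ℚ) ^ 2 ≤ A := by exact_mod_cast h2
    have h3 : (κ : ℚ) = 2 * κ₁ := by rw [h1]; push_cast; ring
    rw [h3] at hnorm
    push_cast at hnorm
    have h4 : (2 * (κ₁ : ℚ)) ^ 2 * 2 ≤ (2 * (κ₁ : ℚ)) ^ 2 * Q :=
      mul_le_mul_of_nonneg_left hQ2 (sq_nonneg _)
    have h5 : κ₁ = 1 := by
      have h6 : (24 : ℚ) * (κ₁ : ℚ) ^ 2 ≤ 36 * κ₁ := by nlinarith
      have h7 : 24 * κ₁ ^ 2 ≤ 36 * κ₁ := by exact_mod_cast h6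
      nlinarith
    rw [h5] at h3 hnorm h2'
    push_cast at hnorm h2'
    have h8 : (κ : ℚ) = 2 := by rw [h3]; norm_num
    by_cases hmem : x' ∈ Zk 6
    · have := hQ1 hmem
      linarith
    · have h9 : x ∉ Zk 6 := by
        intro h10
        apply hmem
        have h11 : x' = (3 : ℚ) • x' - x := by
          rw [hx1, h8]
          module
        rw [h11]
        exact (Zk 6).sub_mem hDu.three h10
      rcases hcas with h10 | h10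
      · exact h9 h10.1
      · have h11 : 8 / 3 ≤ BT k k := h10.2
        linarith
  · have h2 := hodd ho
    have h2' : (10 : ℚ) * (κ : ℚ) ^ 2 ≤ A := by exact_mod_cast h2
    push_cast at hnorm
    have h4 : (κ : ℚ) ^ 2 * 2 ≤ (κ : ℚ) ^ 2 * Q := mul_le_mul_of_nonneg_left hQ2 (sq_nonneg _)
    have h5 : κ = 1 := by
      have h6 : (12 : ℚ) * (κ : ℚ) ^ 2 ≤ 18 * κ := by nlinarith
      have h7 : 12 * κ ^ 2 ≤ 18 * κ := by exact_mod_cast h6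
      nlinarith
    subst h5
    rw [Int.cast_one, one_smul] at hx1
    subst hx1
    push_cast at hnorm h2'
    rw [one_mul] at hA ⊢
    rw [Int.cast_one, one_smul]
    rcases hcas with h10 | h10
    · obtain ⟨w, hw⟩ := mem_Zk.1 h10.1
      have hw' : x = cz w := hw
      subst hw'
      have h11 := hQ1 h10.1
      obtain ⟨σ, hσ, hs⟩ := Eq_sig hβ
      have h12 : A = 10 := by
        have h13 : (A : ℚ) ≤ 10 := by linarith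
        have h14 : A ≤ 10 := by exact_mod_cast h13
        linarith
      have h15 : Q = 8 := by
        rw [h12] at hnorm
        push_cast at hnorm
        linarith
      rw [Eq_cz, mF_cz, h15] at hQ
      have h16 : bf E6 ((3 : ℤ) • w - β • y6) ((3 : ℤ) • w - β • y6) = 8 := by
        exact_mod_cast hQ
      rw [h12] at hA
      rw [Eq_cz, mF_cz, blk46_eq hσ hs hu hA, MP_dcc566_gt.bf_smul_right,
        (E6_y6 hσ hs w).2 h16]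
      push_cast
      ring
    · exfalso
      have h11 : 8 / 3 ≤ BT k k := h10.2
      linarith

/-- The second condition. -/
private theorem Eq_H2 {BT : Frm Y} {N : AddSubgroup ((Fin 6 → ℚ) × Y)} (h : F2N BT N) {κ : ℤ}
    {u : Fin 8 → ℤ} {x : Fin 6 → ℚ} {k : Y} (hn : (x, k) ∈ N) (hκ : 0 < κ)
    (hu : DH 2 u) (hd : DD 2 κ u) (hdn : ∀ n' ∈ N, Dv κ (sF (mF E6) BT (x, k) n'))
    (hnorm : ((bf E8 u u : ℤ) : ℚ) + sF (mF E6) BT (x, k) (x, k) = 2 * κ)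
    (hdv : Dv (3 * κ) (((bf E8 u V46 : ℤ) : ℚ) + sF (mF E6) BT (x, k) (cz y6, 0))) :
    ((bf E8 u (hh 0) : ℤ) : ℚ) + sF (mF E6) BT (x, k) (cz ((4 : ℤ) • rh6), 0) = 0 := by
  rw [Eq_val] at hdv ⊢
  by_cases h0 : u = 0
  · subst h0
    rw [MP_dcc566_gt.bf_zero_left, Int.cast_zero, zero_add] at hnorm hdv ⊢
    rcases (show κ = 1 ∨ 2 ≤ κ by omega) with rfl | h2
    · by_cases hx : x = 0
      · rw [hx, map_zero, LinearMap.zero_apply]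
      · obtain ⟨hk, w, hw, hw2⟩ := h.root_two hn (by rw [hnorm]; norm_num) hx
        have hw' : x = cz w := hw
        rw [hw', mF_cz] at hdv ⊢
        rw [mul_one] at hdv
        rw [MP_dcc566_gt.bf_smul_right, E6_rh hw2 (Dv_int.1 hdv), mul_zero, Int.cast_zero]
    · have h3 := h.root_zero h2 hdn (le_of_eq hnorm)
      have h4 : x = 0 := h3
      rw [h4, map_zero, LinearMap.zero_apply]
  · have h1 := d_min (Or.inr (Or.inl rfl)) hκ hu hd h0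
    have h1' : (2 : ℚ) * κ ≤ ((bf E8 u u : ℤ) : ℚ) := by exact_mod_cast h1
    have hPd := Pd_F6.sF h.pd
    have h2 := hPd.nonneg (x, k)
    have h3 : sF (mF E6) BT (x, k) (x, k) = 0 := by linarith
    have h4 := hPd.eq_zero h3
    have hx : x = 0 := congrArg Prod.fst h4
    rw [h3, add_zero] at hnorm
    rw [hx, map_zero, LinearMap.zero_apply, add_zero] at hdv
    rw [hx, map_zero, LinearMap.zero_apply, add_zero]
    have h5 : bf E8 u u = 2 * κ := by exact_mod_cast hnorm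
    rw [rt46 hκ hu hd h5 (Dv_int.1 hdv), Int.cast_zero]

/-- `v = (V46; (y6, 0))`, `m = 3`, `t = (hh 0; (4 rh6, 0))`.

PROOF.  As `confF2D` (`F2.lean`), where `N = (Zk 6).prod T`: same `u₀`, `k₀`, `N₀ = 3`.
H1.  `blk46`; `F2N.div`: `n.1 = κ x'`, `R_6 = κ (3x' - β y6)`, `R_T = 3 n.2`, `R_T² = 9 (n.2,n.2)`.
`Du6_y6`.
`κ` odd: `10κ² ≤ 18κ`, `κ = 1`, `R_6² + R_T² ≤ 8`.  `n.1 ∉ Zk 6`: `R_T² ≥ 24` (`F2N.cases`),
impossible.  `n.1 = cz w`: `R_6² ≥ 8`, so `bf R_D R_D = 10`, `R_6² = 8`, and as in `confF2D`: with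
`σ = ±1`, `3 ∣ β - σ`, `bf R_D (hh 0) = -4σ` (`blk46_eq`), `bf R_6 rh6 = σ` (`E6_y6`), so
`(R,t) = -4σ + 4σ = 0`.
`κ = 2κ₁`: `16κ₁² + 2 (2κ₁)² ≤ 36κ₁`, so `κ₁ = 1`, `κ = 2`, total 36, `R_D² ≥ 16`.  `x' ∈ Zk 6`:
`R_6² ≥ 4·8 = 32`: impossible.
`x' ∉ Zk 6`: then `2x' ∉ Zk 6` (`3x' ∈ Zk 6` by `Du6.three`, and `x' = 3x' - 2x'`), so
`(n.2,n.2) ≥ 8/3`, `R_T² ≥ 24`, `R_6² ≥ 8`, `16 + 8 + 24 > 36`: impossible.
H2.  `(s,t) = bf u (hh 0) + 4 (n.1, rh6)`.  If `u ≠ 0`: `d_min`: `bf u u ≥ 2κ`, so `bf u u = 2κ` and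
`n.1 = 0`, `n.2 = 0` (positivity), `3κ ∣ bf u V46`: `rt46`.  If `u = 0`: `κ ≥ 2`: `n.1 = 0`
(`F2N.root_zero`); `κ = 1`, `n.1 ≠ 0`: `F2N.root_two`: `n = (cz w, 0)`, `bf w w = 2`,
`3 ∣ bf w y6`: `E6_rh`. -/
theorem confF2N2 {BT : Frm Y} {N : AddSubgroup ((Fin 6 → ℚ) × Y)} (h : F2N BT N) :
    Conf (PF (sF (mF E6) BT)) (PL N) {2} (fun _ => 2) := by
  refine cfg (Pd_F6.sF h.pd) h.even (i := 2) (by norm_num) (m := 3) (N₀ := 3) (by norm_num)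
    (v₈ := V46) V46_facts.1 (y := (cz y6, 0)) (h.e6 _ (cz_mem y6)) ?_ (t₈ := hh 0)
    (tX := (cz ((4 : ℤ) • rh6), 0)) (Or.inl ?_) (u₀ := ![2, 3, 4, 6, 5, 4, 2, 1]) ?_
    (k₀ := 0) ?_ ?_ ?_
  · rw [Eq_val, mF_cz, V46_facts.2.1, E6_vals.2.1]
    norm_num
  · intro h
    have h1 : (hh 0) 1 = 0 := by rw [h]; rfl
    exact absurd h1 (by decide)
  · intro k hk
    interval_cases k
    · decide
    · decide
  · decide
  · rintro κ β u ⟨x, k⟩ hn hκ hβ hu hd hdn hnorm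
    exact Eq_H1 h hn hκ hβ hu hd hdn hnorm
  · rintro κ u ⟨x, k⟩ hn hκ hu hd hdn hnorm hdv
    exact Eq_H2 h hn hκ hu hd hdn hnorm hdv

end Pool.Agent.RFN
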