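import Mathlib
import Pool.Agent.Lib.MP_dcc566_gt_E.Eo

/-!
# The second family: four vectors at the prime 2
-/

set_option autoImplicit false

namespace Pool.Agent.RFN

open MP_dcc566_gt (bf E8)

variable {Y : Type} [AddCommGroup Y] [Module ℚ Y]

private theorem Er_val {BT : Frm Y} (u v : Fin 6 → ℤ) (k l : Y) :
    sF (mF E6) BT (cz u, k) (cz v, l) = ((bf E6 u v : ℤ) : ℚ) + BT k l := by
  rw [sF_apply]
  exact congrArg (· + BT k l) (mF_cz _ u v)

private theorem Er_zero {BT : Frm Y} (k : Y) (y : Fin 6 → ℚ) :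
    sF (mF E6) BT (0, k) (y, 0) = 0 := by
  rw [sF_apply]
  simp

/-- The norm of `3 n - κ β (y6, 0)` when `n.1 = κ x'`. -/
private theorem Er_norm {BT : Frm Y} (κ β : ℤ) (x' : Fin 6 → ℚ) (k : Y) :
    sF (mF E6) BT
      (((3 : ℤ) : ℚ) • (((κ : ℚ) • x', k) : (Fin 6 → ℚ) × Y) -
        ((κ * β : ℤ) : ℚ) • ((cz y6, 0) : (Fin 6 → ℚ) × Y))
      (((3 : ℤ) : ℚ) • (((κ : ℚ) • x', k) : (Fin 6 → ℚ) × Y) -
        ((κ * β : ℤ) : ℚ) • ((cz y6, 0) : (Fin 6 → ℚ) × Y)) =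
      (κ : ℚ) ^ 2 * mF E6 ((3 : ℚ) • x' - (β : ℚ) • cz y6) ((3 : ℚ) • x' - (β : ℚ) • cz y6) +
        9 * BT k k := by
  have h1 : ((3 : ℤ) : ℚ) • (((κ : ℚ) • x', k) : (Fin 6 → ℚ) × Y) -
      ((κ * β : ℤ) : ℚ) • ((cz y6, 0) : (Fin 6 → ℚ) × Y) =
      ((κ : ℚ) • ((3 : ℚ) • x' - (β : ℚ) • cz y6), (3 : ℚ) • k) := by
    refine Prod.ext ?_ ?_
    · change ((3 : ℤ) : ℚ) • ((κ : ℚ) • x') - ((κ * β : ℤ) : ℚ) • cz y6 =
        (κ : ℚ) • ((3 : ℚ) • x' - (β : ℚ) • cz y6)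
      push_cast
      module
    · change ((3 : ℤ) : ℚ) • k - ((κ * β : ℤ) : ℚ) • (0 : Y) = (3 : ℚ) • k
      rw [smul_zero, sub_zero]
      norm_num
  rw [h1, sF_apply]
  simp only [map_smul, LinearMap.smul_apply, smul_eq_mul]
  ring

/-- `v = (V16; (y6, 0))`, `m = 3`, `t = (0; (rh6, 0))`.

PROOF.  As `confF2E` (`F2.lean`), where `N = (Zk 6).prod T`: same `u₀`, `k₀`, `N₀ = 4`.
H1.  `blk16`; `F2N.div`: `n.1 = κ x'`, `R_6 = κ (3x' - β y6)`, `R_T = 3 n.2`, `R_T² = 9 (n.2,n.2)`.  `Du6_y6`.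
`κ` odd: `16κ² + 2κ² ≤ 18κ`, `κ = 1`, `R_6² + R_T² ≤ 2`.  `n.1 ∉ Zk 6`: `R_T² ≥ 24`.  `n.1 ∈ Zk 6`: `R_6² ≥ 8`.  Impossible.
`κ = 2κ₁`: `16κ₁² + 2 (2κ₁)² ≤ 36κ₁`, so `κ₁ = 1`, `κ = 2`, total 36: as in `confF2N2`: `16 + 32 > 36` or `16 + 8 + 24 > 36`.
H2.  `(s,t) = (n.1, rh6)`.  `κ ≥ 2`: `n.1 = 0` (`F2N.root_zero`).  `κ = 1`, `n.1 ≠ 0`: `F2N.root_two`: `n = (cz w, 0)`,
`bf w w = 2`, so `bf u u = 0`, `u = 0`, `3 ∣ bf w y6`: `E6_rh`. -/
theorem confF2N4 {BT : Frm Y} {N : AddSubgroup ((Fin 6 → ℚ) × Y)} (h : F2N BT N) :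
    Conf (PF (sF (mF E6) BT)) (PL N) {2} (fun _ => 4) := by
  refine cfg (Pd_F6.sF h.pd) h.even (i := 4) (by norm_num) (m := 3) (N₀ := 4) (by norm_num)
    (v₈ := V16) V16_facts.1 (y := (cz y6, 0)) (h.e6 _ (cz_mem _)) ?_ (t₈ := 0)
    (tX := (cz rh6, 0)) (Or.inr ?_) (u₀ := -hh 0) ?_ (k₀ := -1) ?_ ?_ ?_
  · rw [Er_val, V16_facts.2.1, E6_vals.2.1, map_zero]
    norm_num
  · intro h1
    exact E6_vals.2.2.2.2.2.2.2.2.2 (cz_eq_zero.1 (congrArg Prod.fst h1))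
  · intro k hk
    interval_cases k
    · decide
    · decide
    · decide
    · decide
  · decide
  · rintro κ β u ⟨x, k⟩ hn hκ hβ hu hd hdn hnm
    exfalso
    obtain ⟨hodd, heven⟩ := blk16 hκ hβ hu hd
    obtain ⟨x', hx, hx'⟩ := h.div hκ hdn
    have hx1 : x = (κ : ℚ) • x' := hx
    subst hx1
    rw [Er_norm] at hnm
    obtain ⟨hA8, hA2⟩ := Du6_y6 hx' hβ
    have hB := h.pd.nonneg k
    have hcase := h.cases hn
    set A := mF E6 ((3 : ℚ) • x' - (β : ℚ) • cz y6) ((3 : ℚ) • x' - (β : ℚ) • cz y6) with hA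
    have hκq : (0 : ℚ) < (κ : ℚ) := by exact_mod_cast hκ
    rcases Int.even_or_odd κ with ⟨κ₁, h1⟩ | ho
    · have h2 := heven κ₁ (by omega)
      have h2q : (16 : ℚ) * (κ₁ : ℚ) ^ 2 ≤
          ((bf E8 ((3 : ℤ) • u - (κ * β) • V16) ((3 : ℤ) • u - (κ * β) • V16) : ℤ) : ℚ) := by
        exact_mod_cast h2
      have hk1 : 0 < κ₁ := by omega
      have hk1q : (0 : ℚ) < (κ₁ : ℚ) := by exact_mod_cast hk1
      have hκ1q : (κ : ℚ) = 2 * (κ₁ : ℚ) := by
        rw [h1]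
        push_cast
        ring
      have h3 : κ₁ < 2 := by
        by_contra h4
        have h5 : (2 : ℚ) ≤ (κ₁ : ℚ) := by exact_mod_cast (not_lt.1 h4)
        rw [hκ1q] at hnm
        push_cast at hnm
        nlinarith [mul_le_mul_of_nonneg_left hA2 (sq_nonneg (κ₁ : ℚ)),
          mul_le_mul_of_nonneg_left h5 hk1q.le]
      obtain rfl : κ₁ = 1 := by omega
      obtain rfl : κ = 2 := by omega
      push_cast at hnm h2q hcase
      have hmem : x' ∈ Zk 6 := by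
        rcases hcase with ⟨h4, -, -⟩ | ⟨-, h4⟩
        · have h5 := (Zk 6).sub_mem hx'.three h4
          have h6 : (3 : ℚ) • x' - (2 : ℚ) • x' = x' := by module
          rwa [h6] at h5
        · exfalso
          linarith
      have h4 := hA8 hmem
      linarith
    · have h2 := hodd ho
      have h2q : (16 : ℚ) * (κ : ℚ) ^ 2 ≤
          ((bf E8 ((3 : ℤ) • u - (κ * β) • V16) ((3 : ℤ) • u - (κ * β) • V16) : ℤ) : ℚ) := by
        exact_mod_cast h2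
      have h3 : κ < 2 := by
        by_contra h4
        have h5 : (2 : ℚ) ≤ (κ : ℚ) := by exact_mod_cast (not_lt.1 h4)
        push_cast at hnm
        nlinarith [mul_le_mul_of_nonneg_left hA2 (sq_nonneg (κ : ℚ)),
          mul_le_mul_of_nonneg_left h5 hκq.le]
      obtain rfl : κ = 1 := by omega
      push_cast at hnm h2q hcase
      rcases hcase with ⟨h4, -, -⟩ | ⟨-, h4⟩
      · rw [one_smul] at h4
        have h5 := hA8 h4
        linarith
      · linarith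
  · rintro κ u ⟨x, k⟩ hn hκ hu hd hdn hnm hdv
    rw [MP_dcc566_gt.bf_zero_right, Int.cast_zero, zero_add]
    have h8 : (0 : ℚ) ≤ ((bf E8 u u : ℤ) : ℚ) := by exact_mod_cast MP_dcc566_gt.E8_nonneg u
    by_cases hx : x = 0
    · rw [hx]
      exact Er_zero k _
    · rcases (show κ = 1 ∨ 2 ≤ κ by omega) with rfl | h2
      · obtain ⟨hk, w, hw, hww⟩ := h.root_two hn (by push_cast at hnm; linarith) hx
        have hk' : k = 0 := hk
        have hw' : x = cz w := hw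
        subst hk'
        subst hw'
        rw [Er_val, hww, map_zero, add_zero] at hnm
        have h3 : u = 0 := by
          by_contra h0
          have h4 := MP_dcc566_gt.E8_pos u h0
          have h5 : bf E8 u u + 2 = 2 := by exact_mod_cast hnm
          omega
        rw [h3, MP_dcc566_gt.bf_zero_left, Int.cast_zero, zero_add, Er_val, map_zero, add_zero,
          mul_one, Dv_int] at hdv
        rw [Er_val, E6_rh hww hdv, map_zero, Int.cast_zero, add_zero]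
      · exact absurd (h.root_zero h2 hdn (by linarith)) hx

end Pool.Agent.RFN
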