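import Mathlib
import Pool.Agent.Lib.MP_dcc566_gt_R.FamA
import Pool.Agent.Lib.MP_dcc566_gt_R.Ext
import Pool.Agent.Lib.MP_dcc566_gt_E.Ep
import Pool.Agent.Lib.MP_dcc566_gt_E.Eq
import Pool.Agent.Lib.MP_dcc566_gt_E.Er

/-!
# The second family
-/

set_option autoImplicit false

namespace Pool.Agent.RFN

open MP_dcc566_gt (bf E8)

variable {Y : Type} [AddCommGroup Y] [Module ℚ Y]

/-- A vector of `E₆` of norm 6. -/
def a6 : Fin 6 → ℤ := ![2, 0, 1, 1, 0, 0]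

theorem a6_facts : bf E6 a6 a6 = 6 ∧ bf E6 a6 (Pi.single 1 1) = -1 ∧
    bf E6 rh6 rh6 = 2 ∧ bf E6 ep6 ep6 = 4 ∧ bf E6 ep6 (Pi.single 0 1) = 1 := by
  decide

private theorem Es_val {BT : Frm Y} (u v : Fin 6 → ℤ) (k l : Y) :
    sF (mF E6) BT (cz u, k) (cz v, l) = ((bf E6 u v : ℤ) : ℚ) + BT k l := by
  rw [sF_apply]
  exact congrArg (· + BT k l) (mF_cz _ u v)

private theorem Es_rh : bf E6 rh6 rh6 = 2 := a6_facts.2.2.1

/-- the vector of `E₆` -/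
private theorem Es_a (k : ℤ) : ∃ a e : Fin 6 → ℤ, (6 : ℤ) ∣ bf E6 a a + 2 * k - 2 ∧
    ¬ (3 : ℤ) ∣ bf E6 a e := by
  obtain ⟨h1, h2, h3, h4, h5⟩ := a6_facts
  have hk : k % 3 = 0 ∨ k % 3 = 1 ∨ k % 3 = 2 := by omega
  rcases hk with hk | hk | hk
  · refine ⟨rh6, rh6, ?_, ?_⟩
    · rw [h3]
      omega
    · rw [h3]
      decide
  · refine ⟨a6, Pi.single 1 1, ?_, ?_⟩
    · rw [h1]
      omega
    · rw [h2]
      decide
  · refine ⟨ep6, Pi.single 0 1, ?_, ?_⟩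
    · rw [h4]
      omega
    · rw [h5]
      decide

/-- The vector at the prime 3.

PROOF.  `(0,b), (0,n) ∈ N`, `3 ∤ (b,n)`.  `(b,b)` is even: it is `0`, `2` or `4` modulo 6.  Take `a = rh6`, `a6`, `ep6`
respectively (norms 2, 6, 4) and `e` with `3 ∤ bf E6 a e`: `e = rh6` (product 2), `Pi.single 1 1` (product -1),
`Pi.single 0 1` (product 1).  `y₈ = (cz a, b) = (cz a, 0) + (0, b) ∈ N`, norm `= 2 mod 6`; `(0,n)`: product `(b,n)`.
Let `u ∈ N`, `3 ∤ c`, `3 ∣ (u - c y₈, n')` for all `n' ∈ N`, and suppose the norm of `u` is 2.  If `u.1 ≠ 0`: `F2N.root_two`: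
`u.2 = 0`; `n' = (0, n)`: `3 ∣ -c (b,n)`, contradiction.  If `u.1 = 0`: `n' = (cz e, 0)`: `3 ∣ -c bf E6 a e`, contradiction. -/
theorem F2N_y8 {BT : Frm Y} {N : AddSubgroup ((Fin 6 → ℚ) × Y)} (h : F2N BT N)
    (hex : ∃ b n, ((0 : Fin 6 → ℚ), b) ∈ N ∧ ((0 : Fin 6 → ℚ), n) ∈ N ∧ ¬ Dv 3 (BT b n)) :
    ∃ y₈ ∈ N, Dv 6 (sF (mF E6) BT y₈ y₈ - 2) ∧ (∃ n ∈ N, ¬ Dv 3 (sF (mF E6) BT y₈ n)) ∧
      ∀ u ∈ N, ∀ c : ℤ, ¬ (3 : ℤ) ∣ c → (∀ n ∈ N, Dv 3 (sF (mF E6) BT (u - (c : ℚ) • y₈) n)) →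
        sF (mF E6) BT u u ≠ 2 := by
  obtain ⟨b, n, hb, hn, hbn⟩ := hex
  obtain ⟨k, hk⟩ := h.even _ hb
  have hk' : BT b b = 2 * k := by
    rw [sF_apply] at hk
    simp only [map_zero, zero_add] at hk
    rw [hk]
    norm_num
  obtain ⟨a, e, h6, hae⟩ := Es_a k
  have hpd : Pd (sF (mF E6) BT) := Pd_F6.sF h.pd
  obtain ⟨j, hj⟩ : IsZ (BT b n) := by
    have h1 := h.even.isZ hpd.symm hb hn
    rw [sF_apply] at h1
    simp only [map_zero, zero_add] at h1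
    exact h1
  have hj3 : ¬ (3 : ℤ) ∣ j := by
    intro hd
    apply hbn
    rw [hj]
    exact Dv_int.2 hd
  refine ⟨(cz a, b), ?_, ?_, ⟨((0 : Fin 6 → ℚ), n), hn, ?_⟩, ?_⟩
  · have h1 : ((cz a, b) : (Fin 6 → ℚ) × Y) = (cz a, 0) + (0, b) := by simp
    rw [h1]
    exact N.add_mem (h.e6 _ (cz_mem _)) hb
  · rw [Es_val, hk']
    have h1 : ((bf E6 a a : ℤ) : ℚ) + 2 * (k : ℚ) - 2 = ((bf E6 a a + 2 * k - 2 : ℤ) : ℚ) := by
      push_cast
      ring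
    rw [h1]
    exact Dv_int.2 h6
  · rw [sF_apply]
    simp only [map_zero, zero_add]
    exact hbn
  · rintro ⟨x, y⟩ hu c hc hd heq
    by_cases hx : x = 0
    · subst hx
      have h1 := hd (cz e, 0) (h.e6 _ (cz_mem _))
      have e1 : (((0 : Fin 6 → ℚ), y) : (Fin 6 → ℚ) × Y) - (c : ℚ) • ((cz a, b) :
          (Fin 6 → ℚ) × Y) = (cz (-(c • a)), y - (c : ℚ) • b) := by
        refine Prod.ext ?_ rfl
        funext i
        simp [cz]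
      rw [e1, Es_val, map_zero, add_zero] at h1
      have h2 : (3 : ℤ) ∣ bf E6 (-(c • a)) e := Dv_int.1 h1
      rw [MP_dcc566_gt.bf_neg_left, MP_dcc566_gt.bf_smul_left, dvd_neg] at h2
      rcases Int.prime_three.dvd_or_dvd h2 with h3 | h3
      · exact hc h3
      · exact hae h3
    · obtain ⟨hy, -⟩ := h.root_two hu (le_of_eq heq) hx
      have hy' : y = 0 := hy
      subst hy'
      have h1 := hd ((0 : Fin 6 → ℚ), n) hn
      rw [sF_apply] at h1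
      simp only [Prod.smul_mk, Prod.mk_sub_mk, map_zero, zero_add, zero_sub, map_neg, map_smul,
        LinearMap.neg_apply, LinearMap.smul_apply, smul_eq_mul] at h1
      rw [hj] at h1
      have h2 : (3 : ℤ) ∣ -(c * j) := by
        apply Dv_int.1
        push_cast
        exact h1
      rw [dvd_neg] at h2
      rcases Int.prime_three.dvd_or_dvd h2 with h3 | h3
      · exact hc h3
      · exact hj3 h3

theorem fam2N {BT : Frm Y} {N : AddSubgroup ((Fin 6 → ℚ) × Y)} (h : F2N BT N)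
    (hex : ∃ b n, ((0 : Fin 6 → ℚ), b) ∈ N ∧ ((0 : Fin 6 → ℚ), n) ∈ N ∧ ¬ Dv 3 (BT b n)) :
    FamOK (sF (mF E6) BT) N :=
  ⟨Pd_F6.sF h.pd, h.even, Or.inr (conf_zero (badF2N h) {2}), confF2N2 h, confF2N4 h, F2N_y8 h hex⟩

end Pool.Agent.RFN
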