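import Mathlib
import Pool.Agent.Lib.MP_dcc566_gt_R.FamB
import Pool.Agent.Lib.MP_dcc566_gt_E.Ef
import Pool.Agent.Lib.MP_dcc566_gt_E.Ei
import Pool.Agent.Lib.MP_dcc566_gt_E.Ej
import Pool.Agent.Lib.MP_dcc566_gt_E.Ek
import Pool.Agent.Lib.MP_dcc566_gt_E.Em
import Pool.Agent.Lib.MP_dcc566_gt_E.En

/-!
# The first and the third family
-/

set_option autoImplicit false

namespace Pool.Agent.RFN

open MP_dcc566_gt (bf E8 EvenPD)

variable {Y : Type} [AddCommGroup Y] [Module ℚ Y]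

/-- The vector at the prime 3 for `E₈ ⊕ K`. -/
theorem fam1_y8 {BY : Frm Y} (hBY : Pd BY) {K : AddSubgroup Y} :
    ∃ y₈ ∈ (Zk 8).prod K, Dv 6 (sF F8 BY y₈ y₈ - 2) ∧
      (∃ n ∈ (Zk 8).prod K, ¬ Dv 3 (sF F8 BY y₈ n)) ∧
      ∀ u ∈ (Zk 8).prod K, ∀ c : ℤ, ¬ (3 : ℤ) ∣ c →
        (∀ n ∈ (Zk 8).prod K, Dv 3 (sF F8 BY (u - (c : ℚ) • y₈) n)) → sF F8 BY u u ≠ 2 := by
  refine ⟨(cz MP_dcc566_gt.w8, 0), ⟨cz_mem _, K.zero_mem⟩, ?_, ?_, ?_⟩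
  · rw [sF_apply, mF_cz, MP_dcc566_gt.norm_w8]
    exact ⟨1, by simp; norm_num⟩
  · refine ⟨(cz (Pi.single 1 1), 0), ⟨cz_mem _, K.zero_mem⟩, ?_⟩
    rw [sF_apply, mF_cz, MP_dcc566_gt.E8_comm, MP_dcc566_gt.bf_w8]
    simp only [map_zero, add_zero, Pi.single_eq_same]
    rw [Dv_int]
    decide
  · rintro ⟨x, b⟩ ⟨hx, hb⟩ c hc h heq
    obtain ⟨v, rfl⟩ : ∃ v, x = cz v := hx
    obtain ⟨a', ha'⟩ := MP_dcc566_gt.E8_unimod (k := 3) (u := v - c • MP_dcc566_gt.w8)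
      (fun w => by
        have h1 := h (cz w, 0) ⟨cz_mem w, K.zero_mem⟩
        rw [sF_apply] at h1
        simp only [Prod.smul_mk, Prod.mk_sub_mk, map_zero, add_zero] at h1
        rw [← cz_smul, ← cz_sub, mF_cz] at h1
        exact Dv_int.1 h1)
    have hv : v = (3 : ℤ) • a' - (-c) • MP_dcc566_gt.w8 := by
      rw [← ha', neg_smul]
      abel
    have hc' : ¬ (3 : ℤ) ∣ -c := by
      rwa [dvd_neg]
    have h8 := MP_dcc566_gt.class8 a' hc'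
    rw [← hv] at h8
    have h9 := hBY.nonneg b
    rw [sF_apply] at heq
    simp only at heq
    rw [mF_cz] at heq
    have h10 : ((bf E8 v v : ℤ) : ℚ) ≤ 2 := by linarith
    have h11 : bf E8 v v ≤ 2 := by exact_mod_cast h10
    omega

theorem fam1_19 {q : ℤ} (hq : 1 ≤ q) :
    FamOK (sF F8 (mF !![2 * q])) ((Zk 8).prod (Zk 1)) := by
  have hK : EvenPD !![2 * q] := EvenPD_q hq
  have hpd : Pd (mF !![2 * q]) := Pd_mF hK.symm hK.pos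
  have hev : EvL (mF !![2 * q]) (Zk 1) := EvL_mF hK.even
  have hn : ∀ v : Fin 1 → ℤ, bf !![2 * q] v v = 2 * q * v 0 ^ 2 := by
    intro v
    simp [bf, dotProduct, Matrix.mulVec]
    ring
  by_cases h3 : (3 : ℤ) ∣ q
  · obtain ⟨c, rfl⟩ := h3
    have hc : 1 ≤ c := by omega
    have hg : mF !![2 * (3 * c)] (cz ![1]) (cz ![1]) = 6 * c := by
      rw [mF_cz, hn]
      push_cast
      simp
      ring
    have hcyc : ∀ k ∈ Zk 1, ∃ a : ℤ, k = (a : ℚ) • (cz ![1] : Fin 1 → ℚ) := by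
      rintro k ⟨v, rfl⟩
      refine ⟨v 0, ?_⟩
      funext i
      fin_cases i
      simp [cz]
    exact ⟨Pd_F8.sF hpd, EvL_F8.prod hev,
      Or.inr (conf_zero (badF1Z hpd hev hc hg (cz_mem _) hcyc) {2}),
      confF1D3 hpd hev hc hg (cz_mem _) hcyc, confF1E hpd hev, fam1_y8 hpd⟩
  · refine fam1 hpd hev ⟨cz ![1], cz_mem _, ?_⟩
    rw [mF_cz, hn, Dv_int]
    intro h
    apply h3
    simp at h
    omega

/-- Copied from `fam3`. -/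
theorem fam3_y8 {BY : Frm Y} {N : AddSubgroup ((Fin 7 → ℚ) × Y)} (h : F3M BY N) :
    ∃ y₈ ∈ N, Dv 6 (sF (mF E7) BY y₈ y₈ - 2) ∧ (∃ n ∈ N, ¬ Dv 3 (sF (mF E7) BY y₈ n)) ∧
      ∀ u ∈ N, ∀ c : ℤ, ¬ (3 : ℤ) ∣ c → (∀ n ∈ N, Dv 3 (sF (mF E7) BY (u - (c : ℚ) • y₈) n)) →
        sF (mF E7) BY u u ≠ 2 := by
  obtain ⟨v8, -, -, -, -, -⟩ := E7_vals
  refine ⟨(cz g8, 0), h.e7 (cz g8) (cz_mem g8), ?_,
    ⟨(cz (Pi.single 1 1), 0), h.e7 _ (cz_mem _), ?_⟩, ?_⟩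
  · rw [sF_apply]
    simp only [map_zero, add_zero]
    rw [mF_cz, v8]
    exact ⟨1, by norm_num⟩
  · rw [sF_apply]
    simp only [map_zero, add_zero]
    rw [mF_symm E7_symm, (E7_prod _).1]
    have e : (cz (Pi.single 1 1) : Fin 7 → ℚ) 1 + (cz (Pi.single 1 1) : Fin 7 → ℚ) 6 =
        ((1 : ℤ) : ℚ) := by
      simp [cz]
    rw [e, Dv_int]
    decide
  · intro u hu c hc hd heq
    have hb := h.pd.nonneg u.2
    rw [sF_apply] at heq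
    have hc' : ¬ (3 : ℤ) ∣ -c := by
      rwa [dvd_neg]
    obtain ⟨x', hx'⟩ : ∃ x' : Fin 7 → ℚ, x' = (1 / 3 : ℚ) • (u.1 - (c : ℚ) • cz g8) := ⟨_, rfl⟩
    have hux : u.1 = (3 : ℚ) • x' - ((-c : ℤ) : ℚ) • cz g8 := by
      rw [hx', smul_smul]
      push_cast
      module
    have hint : ∀ v : Fin 7 → ℤ, IsZ (mF E7 x' (cz v)) := by
      intro v
      obtain ⟨k, hk⟩ := hd (cz v, 0) (h.e7 _ (cz_mem v))
      rw [sF_apply, map_zero, add_zero] at hk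
      refine ⟨k, ?_⟩
      have hk' : mF E7 (u.1 - (c : ℚ) • cz g8) (cz v) = 3 * k := by
        push_cast at hk
        exact hk
      rw [hx', map_smul, LinearMap.smul_apply, hk', smul_eq_mul]
      ring
    rcases E7_dual hint with hw | hw
    · obtain ⟨w, hw⟩ := mem_Zk.1 hw
      have h8 := E7_g8 hc' w
      have e1 : mF E7 u.1 u.1 =
          ((bf E7 ((3 : ℤ) • w - (-c) • g8) ((3 : ℤ) • w - (-c) • g8) : ℤ) : ℚ) := by
        rw [← mF_cz, cz_sub, cz_smul, cz_smul, hux, hw]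
        norm_num
      have h9 : (8 : ℚ) ≤ mF E7 u.1 u.1 := by
        rw [e1]
        exact_mod_cast h8
      linarith
    · obtain ⟨⟨n, hn0, hn⟩, -, -⟩ := E7_coset hc' hw
      rw [← hux] at hn
      have hn1 : (0 : ℚ) ≤ n := by exact_mod_cast hn0
      linarith

/-- The third family, with the bad vector. -/
theorem fam3M {BY : Frm Y} {N : AddSubgroup ((Fin 7 → ℚ) × Y)} (h : F3M BY N)
    (hd : (∃ y, ((0 : Fin 7 → ℚ), y) ∈ N ∧ Dv 6 (BY y y - 2)) ∨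
      ∃ y₀, ((0 : Fin 7 → ℚ), y₀) ∈ N ∧ (∀ t, ((0 : Fin 7 → ℚ), t) ∈ N → Dv 3 (BY y₀ t)) ∧
        ¬ Dv 18 (BY y₀ y₀)) :
    FamOK (sF (mF E7) BY) N ∧ BadS (PF (sF (mF E7) BY)) (PL N) := by
  rcases hd with hex | ⟨y₀, hy, hrad, h18⟩
  · have h3 : F3N BY N := ⟨h.pd, h.even, h.e7, h.no2, hex⟩
    exact ⟨fam3 h3, badF3A h3⟩
  · have hb := badF3Z h hy hrad h18
    exact ⟨⟨Pd_F7.sF h.pd, h.even, Or.inr (conf_zero hb {2}), confF3Z h hy hrad h18,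
      confF3M4 h, fam3_y8 h⟩, hb⟩

end Pool.Agent.RFN
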