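import Mathlib
import Pool.Agent.Lib.MP_dcc566_gt_E.Ej
import Pool.Agent.Lib.MP_dcc566_gt_R.LFg
import Pool.Agent.Lib.MP_dcc566_gt_R.LKg

/-!
# Vectors of the complements with prescribed behaviour modulo 3
-/

set_option autoImplicit false

namespace Pool.Agent.RFN

open Module
open MP_dcc566_gt (bf EvenPD)

/-- PROOF.  `rk_max_gen` for `p = 3` (`finrank = 3`): `RkGe BT T 3 1`: `u 0 ∈ T`.  If all products `BT (u 0) n`, `n ∈ T`, were divisible
by 3, the property of `u` with `c = 1` would give `3 ∣ 1`. -/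
theorem f2_hex {BT : Frm (Fin 3 → ℚ)} (h : Pd BT) {T : AddSubgroup (Fin 3 → ℚ)} (hT : MaxE BT T) :
    ∃ b ∈ T, ∃ n ∈ T, ¬ Dv 3 (BT b n) := by
  have h1 := rk_max_gen h.nd hT Nat.prime_three (by norm_num)
  have h2 : finrank ℚ (Fin 3 → ℚ) - 2 = 1 := by
    rw [finrank_fin_fun]
  rw [h2] at h1
  obtain ⟨u, hu, hi⟩ := h1
  by_contra hcon
  push Not at hcon
  have h3 := hi (fun _ => 1) (fun x hx => by
    rw [Finset.sum_range_one, Int.cast_one, one_smul]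
    exact_mod_cast hcon _ (hu 0 (by norm_num)) x hx) 0 (by norm_num)
  norm_num at h3

/-- A basis of a lattice of rank 2 (only its behaviour modulo 3), as `basis3` in `LFo.lean`: also every element is an integral
combination. -/
theorem basis2 {B : Frm (Fin 2 → ℚ)} (hB : Pd B) {T : AddSubgroup (Fin 2 → ℚ)} (hE : EvL B T)
    (hF : FullL T) : ∃ v w : Fin 2 → ℚ, v ∈ T ∧ w ∈ T ∧
      (∀ x ∈ T, ∃ a b : ℤ, x = (a : ℚ) • v + (b : ℚ) • w) ∧
      ∀ a b : ℤ, (∃ x ∈ T, (a : ℚ) • v + (b : ℚ) • w = (3 : ℚ) • x) → (3 : ℤ) ∣ a ∧ (3 : ℤ) ∣ b := by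
  obtain ⟨M, ψ, -, -, hm⟩ := exists_Zform hB hE hF
  have hval : ∀ a b : ℤ, ψ ((a : ℚ) • ψ.symm (cz (Pi.single 0 1)) +
      (b : ℚ) • ψ.symm (cz (Pi.single 1 1))) = cz ![a, b] := by
    intro a b
    rw [map_add, map_smul, map_smul, LinearEquiv.apply_symm_apply, LinearEquiv.apply_symm_apply]
    funext i
    fin_cases i <;> simp [cz]
  refine ⟨ψ.symm (cz (Pi.single 0 1)), ψ.symm (cz (Pi.single 1 1)), ?_, ?_, ?_, ?_⟩
  · refine (hm _).1 ?_
    rw [LinearEquiv.apply_symm_apply]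
    exact cz_mem _
  · refine (hm _).1 ?_
    rw [LinearEquiv.apply_symm_apply]
    exact cz_mem _
  · intro x hx
    obtain ⟨z, hz⟩ := (hm x).2 hx
    refine ⟨z 0, z 1, ψ.injective ?_⟩
    rw [hval, hz]
    funext i
    fin_cases i <;> simp [cz]
  · rintro a b ⟨x, hx, e⟩
    obtain ⟨z, hz⟩ := (hm x).2 hx
    have e1 := congrArg ψ e
    rw [hval, map_smul, hz] at e1
    have e2 := congrFun e1 0
    have e3 := congrFun e1 1
    simp [cz] at e2 e3
    exact ⟨⟨z 0, by exact_mod_cast e2⟩, ⟨z 1, by exact_mod_cast e3⟩⟩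

private theorem Eu_three {k : ℤ} {q : ℚ} (hq : q = k) (h : Dv 6 (2 * q)) : Dv 3 q := by
  obtain ⟨m, hm⟩ := h
  rw [hq] at hm
  have h1 : 2 * k = 6 * m := by exact_mod_cast hm
  refine ⟨m, ?_⟩
  rw [hq]
  have h2 : k = 3 * m := by omega
  rw [h2]
  push_cast
  ring

/-- An even lattice of rank 2 has a vector of norm 2 modulo 6 or a vector of the radical modulo 3 which is not in `3 T`.

PROOF.  Suppose no `y ∈ T` has norm `2 mod 6`: all norms are `0` or `4` modulo 6 (`EvL`).  `basis2`: `v, w`.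
All norms divisible by 6: then `2 (x,y) = |x+y|² - |x|² - |y|²` is divisible by 6, `(x,y)` by 3; `y₀ = v`; `v = 3x` would give (`a = 1`,
`b = 0`) `3 ∣ 1`.
Otherwise let `b ∈ T` have norm `4 mod 6`.  For `z ∈ T` put `z' = z - (z,b) b` (`(z,b)` is an integer, `EvL.isZ`).  `(z',b) = (z,b)
(1 - (b,b))` is divisible by 3.  `|z'+b|² = |z'|² + 2 (z',b) + |b|² = |z'|² + 4 mod 6` is not `2 mod 6`, so `|z'|² ≠ 4`, so
`6 ∣ |z'|²`.  For `z, x ∈ T`: `z' + x' = (z+x)'`, so `6 ∣ |z'+x'|²`, so `3 ∣ (z',x')`; `(z',x) = (z',x') + (x,b) (z',b)` is divisible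
by 3.  So `z'` is in the radical.  If `v' = 3p` and `w' = 3q` with `p, q ∈ T`: `v = c₁ b + 3p`, `w = c₂ b + 3q` (`c₁ = (v,b)`,
`c₂ = (w,b)`), so `c₂ v - c₁ w = 3 (c₂ p - c₁ q)`, so `3 ∣ c₂`, `3 ∣ c₁`, so `v = 3 (c₁/3 b + p)`, contradiction.  So `y₀ = v'` or
`w'`. -/
theorem rad_dich {B : Frm (Fin 2 → ℚ)} (hB : Pd B) {T : AddSubgroup (Fin 2 → ℚ)} (hE : EvL B T)
    (hF : FullL T) : (∃ y ∈ T, Dv 6 (B y y - 2)) ∨
      ∃ y₀ ∈ T, (∀ t ∈ T, Dv 3 (B y₀ t)) ∧ ∀ x ∈ T, y₀ ≠ (3 : ℚ) • x := by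
  by_cases hno : ∃ y ∈ T, Dv 6 (B y y - 2)
  · exact Or.inl hno
  right
  have hno' : ∀ y ∈ T, ∀ m : ℤ, B y y = 2 * m → m % 3 ≠ 1 := by
    intro y hy m hm h1
    refine hno ⟨y, hy, (m - 1) / 3, ?_⟩
    have h2 : m - 1 = 3 * ((m - 1) / 3) := by omega
    have h3 : (m : ℚ) - 1 = 3 * (((m - 1) / 3 : ℤ) : ℚ) := by exact_mod_cast h2
    rw [hm]
    push_cast
    linarith
  have hZ : ∀ {x y}, x ∈ T → y ∈ T → IsZ (B x y) := fun hx hy => EvL.isZ hB.symm hE hx hy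
  obtain ⟨v, w, hv, hw, -, hi⟩ := basis2 hB hE hF
  by_cases hall : ∀ y ∈ T, Dv 6 (B y y)
  · refine ⟨v, hv, fun t ht => ?_, fun x hx e => ?_⟩
    · obtain ⟨k, hk⟩ := hZ hv ht
      refine Eu_three hk ?_
      have e1 : 2 * B v t = B (v + t) (v + t) - B v v - B t t := by
        simp only [map_add, LinearMap.add_apply]
        rw [hB.symm t v]
        ring
      rw [e1]
      exact ((hall _ (T.add_mem hv ht)).sub (hall _ hv)).sub (hall _ ht)
    · have h1 := (hi 1 0 ⟨x, hx, by simpa using e⟩).1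
      norm_num at h1
  push Not at hall
  obtain ⟨b, hb, hb6⟩ := hall
  obtain ⟨n, hn⟩ := hE b hb
  have hn3 : n % 3 = 2 := by
    have h1 := hno' b hb n (by rw [hn]; norm_num)
    have h2 : n % 3 ≠ 0 := by
      intro h3
      apply hb6
      refine ⟨n / 3, ?_⟩
      have h4 : n = 3 * (n / 3) := by omega
      have h5 : (n : ℚ) = 3 * ((n / 3 : ℤ) : ℚ) := by exact_mod_cast h4
      rw [hn]
      push_cast
      linarith
    omega
  have hn' : B b b = 2 * (n : ℚ) := by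
    rw [hn]
    norm_num
  -- the projection
  have hPT : ∀ z ∈ T, z - B z b • b ∈ T := by
    intro z hz
    obtain ⟨k, hk⟩ := hZ hz hb
    rw [hk, Int.cast_smul_eq_zsmul]
    exact T.sub_mem hz (T.zsmul_mem hb k)
  have hPb : ∀ z ∈ T, Dv 3 (B (z - B z b • b) b) := by
    intro z hz
    obtain ⟨k, hk⟩ := hZ hz hb
    refine ⟨k * ((1 - 2 * n) / 3), ?_⟩
    have h1 : 1 - 2 * n = 3 * ((1 - 2 * n) / 3) := by omega
    have h2 : (1 : ℚ) - 2 * n = 3 * (((1 - 2 * n) / 3 : ℤ) : ℚ) := by exact_mod_cast h1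
    simp only [map_sub, map_smul, LinearMap.sub_apply, LinearMap.smul_apply, smul_eq_mul]
    rw [hk, hn']
    push_cast
    have h3 : (k : ℚ) - k * (2 * n) = k * (1 - 2 * n) := by ring
    rw [h3, h2]
    ring
  have hPP : ∀ z ∈ T, Dv 6 (B (z - B z b • b) (z - B z b • b)) := by
    intro z hz
    have hz' := hPT z hz
    obtain ⟨s, hs⟩ := hPb z hz
    obtain ⟨z', hz'e⟩ : ∃ z', z' = z - B z b • b := ⟨_, rfl⟩
    rw [← hz'e] at hz' hs ⊢
    obtain ⟨m, hm⟩ := hE z' hz'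
    have hm2 : B z' z' = 2 * (m : ℚ) := by
      rw [hm]
      norm_num
    have h1 := hno' z' hz' m hm2
    have h2 := hno' (z' + b) (T.add_mem hz' hb) (m + 3 * s + n) (by
      simp only [map_add, LinearMap.add_apply]
      rw [hB.symm b z', hs, hm2, hn']
      push_cast
      ring)
    refine ⟨m / 3, ?_⟩
    have h4 : m = 3 * (m / 3) := by omega
    have h5 : (m : ℚ) = 3 * ((m / 3 : ℤ) : ℚ) := by exact_mod_cast h4
    rw [hm2]
    push_cast
    linarith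
  have hrad : ∀ z ∈ T, ∀ x ∈ T, Dv 3 (B (z - B z b • b) x) := by
    intro z hz x hx
    obtain ⟨k, hk⟩ := hZ (hPT z hz) (hPT x hx)
    have h1 : Dv 3 (B (z - B z b • b) (x - B x b • b)) := by
      refine Eu_three hk ?_
      have e0 : (z + x) - B (z + x) b • b = (z - B z b • b) + (x - B x b • b) := by
        rw [map_add, LinearMap.add_apply, add_smul]
        abel
      have h2 := hPP (z + x) (T.add_mem hz hx)
      rw [e0] at h2
      have e1 : 2 * B (z - B z b • b) (x - B x b • b) =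
          B ((z - B z b • b) + (x - B x b • b)) ((z - B z b • b) + (x - B x b • b)) -
          B (z - B z b • b) (z - B z b • b) - B (x - B x b • b) (x - B x b • b) := by
        generalize z - B z b • b = z'
        generalize x - B x b • b = x'
        simp only [map_add, LinearMap.add_apply]
        rw [hB.symm x' z']
        ring
      rw [e1]
      exact (h2.sub (hPP z hz)).sub (hPP x hx)
    obtain ⟨j, hj⟩ := hZ hx hb
    have e2 : B (z - B z b • b) x = B (z - B z b • b) (x - B x b • b) +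
        (j : ℚ) * B (z - B z b • b) b := by
      rw [← hj]
      generalize z - B z b • b = z'
      rw [map_sub, map_smul, smul_eq_mul]
      ring
    rw [e2]
    exact h1.add ((hPb z hz).mul_int j)
  obtain ⟨c₁, hc₁⟩ := hZ hv hb
  obtain ⟨c₂, hc₂⟩ := hZ hw hb
  by_cases h1 : ∀ x ∈ T, v - B v b • b ≠ (3 : ℚ) • x
  · exact ⟨_, hPT v hv, hrad v hv, h1⟩
  by_cases h2 : ∀ x ∈ T, w - B w b • b ≠ (3 : ℚ) • x
  · exact ⟨_, hPT w hw, hrad w hw, h2⟩
  exfalso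
  push Not at h1 h2
  obtain ⟨p, hp, hpe⟩ := h1
  obtain ⟨q, hq, hqe⟩ := h2
  rw [hc₁, sub_eq_iff_eq_add] at hpe
  rw [hc₂, sub_eq_iff_eq_add] at hqe
  have h3 := hi c₂ (-c₁) ⟨(c₂ : ℚ) • p - (c₁ : ℚ) • q, by
    rw [Int.cast_smul_eq_zsmul, Int.cast_smul_eq_zsmul]
    exact T.sub_mem (T.zsmul_mem hp _) (T.zsmul_mem hq _), by
    rw [hpe, hqe, smul_add, smul_add, smul_sub]
    push_cast
    simp only [smul_smul, neg_smul, neg_mul]
    rw [mul_comm (c₂ : ℚ) 3, mul_comm (c₁ : ℚ) 3, mul_comm (c₂ : ℚ) (c₁ : ℚ)]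
    abel⟩
  obtain ⟨d, hd⟩ : (3 : ℤ) ∣ c₁ := (dvd_neg (a := (3 : ℤ))).1 h3.2
  have h4 := (hi 1 0 ⟨(d : ℚ) • b + p, by
    rw [Int.cast_smul_eq_zsmul]
    exact T.add_mem (T.zsmul_mem hb _) hp, by
    rw [Int.cast_one, one_smul, Int.cast_zero, zero_smul, add_zero, hpe, hd, smul_add, smul_smul]
    push_cast
    rw [add_comm]⟩).1
  norm_num at h4

/-- PROOF.  `T = {y | (0,y) ∈ N}` (`N.comap (AddMonoidHom.inr ..)`) is even for `BY` and full (`N` is full: `n (0,v) ∈ N`).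
`rad_dich`.  In the second case suppose `Dv 18 (BY y₀ y₀)`: `y = (0, (1/3) y₀)` has integral products with `N` (`F3M.rad`) and even
norm `(y₀,y₀)/9`, so `y ∈ N` (`hmax.max`), `(1/3) y₀ ∈ T`, `y₀ = 3 ((1/3) y₀)`: contradiction. -/
theorem f3_dich {BY : Frm (Fin 2 → ℚ)} {N : AddSubgroup ((Fin 7 → ℚ) × (Fin 2 → ℚ))}
    (h : F3M BY N) (hmax : MaxE (sF (mF E7) BY) N) :
    (∃ y, ((0 : Fin 7 → ℚ), y) ∈ N ∧ Dv 6 (BY y y - 2)) ∨
      ∃ y₀, ((0 : Fin 7 → ℚ), y₀) ∈ N ∧ (∀ t, ((0 : Fin 7 → ℚ), t) ∈ N → Dv 3 (BY y₀ t)) ∧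
        ¬ Dv 18 (BY y₀ y₀) := by
  let T : AddSubgroup (Fin 2 → ℚ) := N.comap (AddMonoidHom.inr (Fin 7 → ℚ) (Fin 2 → ℚ))
  have hTm : ∀ y, y ∈ T ↔ ((0 : Fin 7 → ℚ), y) ∈ N := fun y => Iff.rfl
  have hTE : EvL BY T := by
    intro y hy
    have h1 := h.even _ ((hTm y).1 hy)
    rw [sF_apply] at h1
    simpa using h1
  have hTF : FullL T := by
    intro y
    obtain ⟨n, hn, h1⟩ := hmax.full ((0 : Fin 7 → ℚ), y)
    refine ⟨n, hn, ?_⟩
    rw [hTm]
    have h2 : (n : ℚ) • ((0 : Fin 7 → ℚ), y) = ((0 : Fin 7 → ℚ), (n : ℚ) • y) := by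
      ext <;> simp
    rwa [h2] at h1
  rcases rad_dich h.pd hTE hTF with ⟨y, hy, h6⟩ | ⟨y₀, hy₀, hr, hx⟩
  · exact Or.inl ⟨y, (hTm y).1 hy, h6⟩
  · right
    refine ⟨y₀, (hTm y₀).1 hy₀, fun t ht => hr t ((hTm t).2 ht), ?_⟩
    rintro ⟨m, hm⟩
    have hr' : ∀ t, ((0 : Fin 7 → ℚ), t) ∈ N → Dv 3 (BY y₀ t) := fun t ht => hr t ((hTm t).2 ht)
    have h1 : (((0 : Fin 7 → ℚ)), (1 / 3 : ℚ) • y₀) ∈ N := by
      refine hmax.max _ (fun z hz => ?_) ?_
      · obtain ⟨k, hk⟩ := F3M.rad h ((hTm y₀).1 hy₀) hr' hz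
        refine ⟨k, ?_⟩
        rw [sF_apply]
        simp only [map_zero, LinearMap.zero_apply, zero_add, map_smul, LinearMap.smul_apply,
          smul_eq_mul]
        rw [hk]
        push_cast
        ring
      · refine ⟨m, ?_⟩
        rw [sF_apply]
        simp only [map_zero, zero_add, map_smul, LinearMap.smul_apply, smul_eq_mul]
        rw [hm]
        push_cast
        ring
    refine hx _ ((hTm _).2 h1) ?_
    rw [smul_smul]
    norm_num

end Pool.Agent.RFN
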