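import Mathlib
import Pool.Agent.Lib.MP_dcc566_gt_R.LFp

/-!
# Splitting off `U`, `E₈`, `E₇`, `E₆` in dimension 19
-/

set_option autoImplicit false

namespace Pool.Agent.RFN

open Module
open MP_dcc566_gt (bf)

variable {V : Type} [AddCommGroup V] [Module ℚ V]

theorem split_PF19 [FiniteDimensional ℚ V] {B : Frm V} (hB : Hyp B) (hV : finrank ℚ V = 19) {e : V}
    (he : e ≠ 0) (hee : B e e = 0) : ∃ B9 : Frm (Fin 9 → ℚ), Pd B9 ∧ Isom B (PF B9) := by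
  obtain ⟨BW, hW, h1⟩ := hyp_split hB (n := 17) (by rw [hV]) he hee
  obtain ⟨B9, h9, h2⟩ := split_Rz hW (k := 8) (m := 9) (by norm_num)
    (by rw [finrank_fin_fun]) Pd_F8 Rz_E8
  exact ⟨B9, h9, h1.trans ((Isom.refl HF).prod h2)⟩

theorem split9_E6 {B9 : Frm (Fin 9 → ℚ)} (h : Pd B9) :
    ∃ B3 : Frm (Fin 3 → ℚ), Pd B3 ∧ Isom B9 (sF (mF E6) B3) :=
  split_Rz h (k := 6) (m := 3) (by norm_num) (by rw [finrank_fin_fun]) Pd_F6 Rz_E6

/-- Values for the orthogonal family: `E₆` has the orthogonal vectors `r 0, .., r 3` of norm 2 and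
`ep6` (norm 4), `t6` (norm 12). -/
def r6 : Fin 4 → Fin 6 → ℤ :=
  ![![0, 1, 0, 0, 0, 0], ![0, 0, 1, 0, 0, 0], ![0, 0, 0, 0, 1, 0], ![0, 1, 1, 2, 1, 0]]

theorem r6_orth : (∀ i j, bf E6 (r6 i) (r6 j) = if i = j then 2 else 0) ∧
    (∀ i, bf E6 (r6 i) ep6 = 0) ∧ (∀ i, bf E6 (r6 i) t6 = 0) ∧ bf E6 ep6 t6 = 0 ∧
    bf E6 ep6 ep6 = 4 ∧ bf E6 t6 t6 = 12 := by
  decide +kernel

/-- an orthogonal basis of `E₆`, the norms, and the coordinates of seven orthogonal vectors of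
norm 2 of `E₆ ⊕ ⟨6⟩` -/
private def Ev_v : Fin 6 → Fin 6 → ℤ := ![r6 0, r6 1, r6 2, r6 3, ep6, t6]

private def Ev_n : Fin 6 → ℤ := ![2, 2, 2, 2, 4, 12]

private def Ev_c : Fin 7 → Fin 6 → ℚ :=
  ![![1, 0, 0, 0, 0, 0], ![0, 1, 0, 0, 0, 0], ![0, 0, 1, 0, 0, 0], ![0, 0, 0, 1, 0, 0],
    ![0, 0, 0, 0, 0, 1 / 3], ![0, 0, 0, 0, 1 / 2, 1 / 6], ![0, 0, 0, 0, 1 / 2, -1 / 6]]

private def Ev_d : Fin 7 → ℚ := ![0, 0, 0, 0, 1 / 3, -1 / 3, 1 / 3]

private theorem Ev_gram : ∀ k l, bf E6 (Ev_v k) (Ev_v l) = if k = l then Ev_n k else 0 := by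
  decide +kernel

private theorem Ev_coord : ∀ i j, ∑ k, Ev_c i k * Ev_c j k * (Ev_n k : ℚ) +
    Ev_d i * Ev_d j * 6 = if i = j then 2 else 0 := by
  decide +kernel

private theorem Ev_form (x z : Fin 6 → ℚ) :
    mF E6 (∑ k, x k • cz (Ev_v k)) (∑ l, z l • cz (Ev_v l)) =
      ∑ k, x k * z k * (Ev_n k : ℚ) := by
  rw [map_sum]
  refine Finset.sum_congr rfl fun l _ => ?_
  rw [map_smul, smul_eq_mul, map_sum, LinearMap.sum_apply, Finset.mul_sum,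
    Finset.sum_eq_single l]
  · rw [map_smul, LinearMap.smul_apply, mF_cz, Ev_gram, if_pos rfl, smul_eq_mul]
    ring
  · intro k _ hk
    rw [map_smul, LinearMap.smul_apply, mF_cz, Ev_gram, if_neg hk, Int.cast_zero, smul_zero,
      mul_zero]
  · intro h
    exact absurd (Finset.mem_univ _) h

private theorem Ev_prod {B3 : Frm (Fin 3 → ℚ)} {y : Fin 3 → ℚ} (hy : B3 y y = 6) (i j : Fin 7) :
    sF (mF E6) B3 (∑ k, Ev_c i k • cz (Ev_v k), Ev_d i • y)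
      (∑ k, Ev_c j k • cz (Ev_v k), Ev_d j • y) = if i = j then 2 else 0 := by
  rw [← Ev_coord i j, sF_apply]
  simp only
  rw [Ev_form, map_smul, map_smul, LinearMap.smul_apply, hy, smul_eq_mul, smul_eq_mul]
  ring

/-- `E₆ ⊕ ⟨6⟩` is rationally `E₇`.

PROOF.  `split_C (Pd_F6.sF h) (k := 7) (m := 2) .. Pd_F7 Rz_E7` (`finrank_prod`, `6 + 3 = 7 + 2`)
with the seven orthogonal vectors of norm 2 of `(Fin 6 → ℚ) × (Fin 3 → ℚ)`: `(cz (r6 i), 0)`, `i :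
Fin 4`, and `((1/3) t6, (1/3) y)`, `((1/2) ep6 + (1/6) t6, -(1/3) y)`, `((1/2) ep6 - (1/6) t6,
(1/3) y)` (norms `12/9 + 6/9 = 2`, `4/4 + 12/36 + 6/9 = 2`; products `12/18 - 6/9 = 0`, `1 - 1/3 -
2/3 = 0`).  (`r6_orth`, `mF_cz`, `sF_apply`; define the family by `![..]` or by cases on `Fin 7`
and check the 49 products with `fin_cases`.) -/
theorem split_E7' {B3 : Frm (Fin 3 → ℚ)} (h : Pd B3) {y : Fin 3 → ℚ} (hy : B3 y y = 6) :
    ∃ B2 : Frm (Fin 2 → ℚ), Pd B2 ∧ Isom (sF (mF E6) B3) (sF (mF E7) B2) := by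
  refine split_C (Pd_F6.sF h) (k := 7) (m := 2)
    (by rw [finrank_prod, finrank_fin_fun, finrank_fin_fun]) Pd_F7 Rz_E7
    (w := fun i => (∑ k, Ev_c i k • cz (Ev_v k), Ev_d i • y)) (fun i => ?_) (fun i j hij => ?_)
  · rw [Ev_prod hy, if_pos rfl]
    norm_num
  · rw [Ev_prod hy, if_neg hij]

/-- As `split_E8` (`LFp.lean`). -/
theorem split_E8' {B2 : Frm (Fin 2 → ℚ)} (h : Pd B2) {y : Fin 2 → ℚ} (hy : B2 y y = 2) :
    ∃ B1 : Frm (Fin 1 → ℚ), Pd B1 ∧ Isom (sF (mF E7) B2) (sF F8 B1) := by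
  have hr : ∀ i j : Fin 7, mF E7 (cz (r7 i)) (cz (r7 j)) = if i = j then 2 else 0 := by
    intro i j
    rw [mF_cz, r7_orth]
    split_ifs <;> norm_num
  have e1 : (Fin.lastCases (motive := fun _ => (Fin 7 → ℚ) × (Fin 2 → ℚ)) (0, y)
      (fun i : Fin 7 => (cz (r7 i), 0)) (Fin.last 7) : (Fin 7 → ℚ) × (Fin 2 → ℚ)) = (0, y) :=
    Fin.lastCases_last
  have e2 : ∀ i : Fin 7, (Fin.lastCases (motive := fun _ => (Fin 7 → ℚ) × (Fin 2 → ℚ)) (0, y)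
      (fun i : Fin 7 => (cz (r7 i), 0)) i.castSucc : (Fin 7 → ℚ) × (Fin 2 → ℚ)) =
      (cz (r7 i), 0) := fun i => Fin.lastCases_castSucc i
  have e3 : ∀ (a a' : Fin 7 → ℚ) (b b' : Fin 2 → ℚ),
      sF (mF E7) B2 (a, b) (a', b') = mF E7 a a' + B2 b b' := fun _ _ _ _ => rfl
  refine split_C (Pd_F7.sF h) (k := 8) (m := 1)
    (by rw [finrank_prod, finrank_fin_fun, finrank_fin_fun]) Pd_F8 Rz_E8
    (w := fun i => Fin.lastCases (motive := fun _ => (Fin 7 → ℚ) × (Fin 2 → ℚ)) (0, y)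
      (fun i : Fin 7 => (cz (r7 i), 0)) i) (fun i => ?_) (fun i j hij => ?_)
  · refine Fin.lastCases (motive := fun i => sF (mF E7) B2
      (Fin.lastCases (motive := fun _ => (Fin 7 → ℚ) × (Fin 2 → ℚ)) (0, y)
        (fun i : Fin 7 => (cz (r7 i), 0)) i)
      (Fin.lastCases (motive := fun _ => (Fin 7 → ℚ) × (Fin 2 → ℚ)) (0, y)
        (fun i : Fin 7 => (cz (r7 i), 0)) i) = ((2 : ℤ) : ℚ)) ?_ ?_ i
    · rw [e1, e3, map_zero, hy]
      norm_num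
    · intro i
      rw [e2, e3, hr, if_pos rfl, map_zero]
      norm_num
  · revert hij
    refine Fin.lastCases (motive := fun i => i ≠ j → sF (mF E7) B2
      (Fin.lastCases (motive := fun _ => (Fin 7 → ℚ) × (Fin 2 → ℚ)) (0, y)
        (fun i : Fin 7 => (cz (r7 i), 0)) i)
      (Fin.lastCases (motive := fun _ => (Fin 7 → ℚ) × (Fin 2 → ℚ)) (0, y)
        (fun i : Fin 7 => (cz (r7 i), 0)) j) = 0) ?_ ?_ i
    · refine Fin.lastCases (motive := fun j => Fin.last 7 ≠ j → sF (mF E7) B2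
        (Fin.lastCases (motive := fun _ => (Fin 7 → ℚ) × (Fin 2 → ℚ)) (0, y)
          (fun i : Fin 7 => (cz (r7 i), 0)) (Fin.last 7))
        (Fin.lastCases (motive := fun _ => (Fin 7 → ℚ) × (Fin 2 → ℚ)) (0, y)
          (fun i : Fin 7 => (cz (r7 i), 0)) j) = 0) ?_ ?_ j
      · intro h1
        exact absurd rfl h1
      · intro j _
        rw [e1, e2, e3, map_zero, LinearMap.zero_apply, map_zero, add_zero]
    · intro i
      refine Fin.lastCases (motive := fun j => i.castSucc ≠ j → sF (mF E7) B2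
        (Fin.lastCases (motive := fun _ => (Fin 7 → ℚ) × (Fin 2 → ℚ)) (0, y)
          (fun i : Fin 7 => (cz (r7 i), 0)) i.castSucc)
        (Fin.lastCases (motive := fun _ => (Fin 7 → ℚ) × (Fin 2 → ℚ)) (0, y)
          (fun i : Fin 7 => (cz (r7 i), 0)) j) = 0) ?_ ?_ j
      · intro _
        rw [e1, e2, e3, map_zero, map_zero, LinearMap.zero_apply, add_zero]
      · intro j h1
        rw [e2, e2, e3, hr, if_neg fun h2 => h1 (by rw [h2]), map_zero, add_zero]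

end Pool.Agent.RFN
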