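import Mathlib
import Pool.Agent.Lib.MP_dcc566_gt_R.LFf
import Pool.Agent.Lib.MP_dcc566_gt_E.Eo
import Pool.Agent.Lib.MP_dcc566_gt_E.Eu
import Pool.Agent.Lib.MP_dcc566_gt_E.Ev

/-!
# The three families of maximal lattices (rank 19)
-/

set_option autoImplicit false

namespace Pool.Agent.RFN

open Module
open MP_dcc566_gt (bf EvenPD)

variable {V : Type} [AddCommGroup V] [Module ℚ V]

/-- The family `U ⊕ E₈ ⊕ E₈ ⊕ ⟨2q⟩`. -/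
def G1 (B : Frm V) : Prop := ∃ q : ℤ, 1 ≤ q ∧
  MaxE (PF (sF F8 (mF !![2 * q]))) (PL ((Zk 8).prod (Zk 1))) ∧
  ∃ φ : V ≃ₗ[ℚ] PV ((Fin 8 → ℚ) × (Fin 1 → ℚ)), IsIso B (PF (sF F8 (mF !![2 * q]))) φ

/-- The family `U ⊕ E₈ ⊕ N`, `N ⊇ E₆`. -/
def G2 (B : Frm V) : Prop := ∃ (BT : Frm (Fin 3 → ℚ))
  (N : AddSubgroup ((Fin 6 → ℚ) × (Fin 3 → ℚ))), F2N BT N ∧
  MaxE (PF (sF (mF E6) BT)) (PL N) ∧
  (∃ b n, ((0 : Fin 6 → ℚ), b) ∈ N ∧ ((0 : Fin 6 → ℚ), n) ∈ N ∧ ¬ Dv 3 (BT b n)) ∧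
  ∃ φ : V ≃ₗ[ℚ] PV ((Fin 6 → ℚ) × (Fin 3 → ℚ)), IsIso B (PF (sF (mF E6) BT)) φ

/-- The family `U ⊕ E₈ ⊕ N`, `N ⊇ E₇`. -/
def G3 (B : Frm V) : Prop := ∃ (BY : Frm (Fin 2 → ℚ))
  (N : AddSubgroup ((Fin 7 → ℚ) × (Fin 2 → ℚ))), F3M BY N ∧
  MaxE (PF (sF (mF E7) BY)) (PL N) ∧
  ((∃ y, ((0 : Fin 7 → ℚ), y) ∈ N ∧ Dv 6 (BY y y - 2)) ∨
    ∃ y₀, ((0 : Fin 7 → ℚ), y₀) ∈ N ∧ (∀ t, ((0 : Fin 7 → ℚ), t) ∈ N → Dv 3 (BY y₀ t)) ∧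
      ¬ Dv 18 (BY y₀ y₀)) ∧
  ∃ φ : V ≃ₗ[ℚ] PV ((Fin 7 → ℚ) × (Fin 2 → ℚ)), IsIso B (PF (sF (mF E7) BY)) φ

private theorem Ew_mem {V : Type} [AddCommGroup V] [Module ℚ V] {L : AddSubgroup V} {x : V}
    (hx : x ∈ L) (n : ℕ) : (n : ℚ) • x ∈ L := by
  rw [Nat.cast_smul_eq_nsmul]
  exact L.nsmul_mem hx n

private theorem Ew_full {k : ℕ} {Y : Type} [AddCommGroup Y] [Module ℚ Y] {T : AddSubgroup Y}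
    (hT : FullL T) : FullL ((Zk k).prod T) := by
  rintro ⟨a, b⟩
  obtain ⟨m, hm, ha⟩ := FullL_Zk a
  obtain ⟨n, hn, hb⟩ := hT b
  refine ⟨n * m, Nat.mul_pos hn hm, ?_, ?_⟩
  · change ((n * m : ℕ) : ℚ) • a ∈ Zk k
    rw [Nat.cast_mul, mul_smul]
    exact Ew_mem ha n
  · change ((n * m : ℕ) : ℚ) • b ∈ T
    rw [Nat.cast_mul, mul_comm, mul_smul]
    exact Ew_mem hb m

theorem g1_case {B1 : Frm (Fin 1 → ℚ)} (h1 : Pd B1) :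
    ∃ q : ℤ, 1 ≤ q ∧ MaxE (PF (sF F8 (mF !![2 * q]))) (PL ((Zk 8).prod (Zk 1))) ∧
      Isom B1 (mF !![2 * q]) := by
  obtain ⟨Λ, hΛ⟩ := exists_max h1.symm
  obtain ⟨K, ψ, hK, hψ, hm⟩ := exists_Zform h1 hΛ.even hΛ.full
  have h3 : MaxE (mF K) (Zk 1) := MaxE.iso hψ hm hΛ
  have hbf : bf K ![1] ![1] = K 0 0 := by
    simp [bf, dotProduct, Matrix.mulVec]
  obtain ⟨q, hq⟩ := hK.even ![1]
  have hpos := hK.pos ![1] (by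
    intro h
    have h0 := congrFun h 0
    simp at h0)
  rw [hbf] at hq hpos
  have hK' : K = !![2 * q] := by
    ext i j
    fin_cases i
    fin_cases j
    simp only [Matrix.of_apply]
    change K 0 0 = 2 * q
    rw [hq]
    ring
  subst hK'
  exact ⟨q, by omega, maxE_PL.2 ((maxE_prod Uni_F8).2 h3), ⟨ψ, hψ⟩⟩

theorem g3_case {B2 : Frm (Fin 2 → ℚ)} (h2 : Pd B2) (hno : ∀ y, B2 y y ≠ 2) :
    ∃ N : AddSubgroup ((Fin 7 → ℚ) × (Fin 2 → ℚ)), F3M B2 N ∧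
      MaxE (PF (sF (mF E7) B2)) (PL N) ∧
      ((∃ y, ((0 : Fin 7 → ℚ), y) ∈ N ∧ Dv 6 (B2 y y - 2)) ∨
        ∃ y₀, ((0 : Fin 7 → ℚ), y₀) ∈ N ∧ (∀ t, ((0 : Fin 7 → ℚ), t) ∈ N → Dv 3 (B2 y₀ t)) ∧
          ¬ Dv 18 (B2 y₀ y₀)) := by
  obtain ⟨T, hT⟩ := exists_max h2.symm
  obtain ⟨N, hle, hN⟩ := exists_maxE (sF_symm (mF_symm E7_symm) h2.symm)
    (EvL_F7.prod hT.even) (Ew_full hT.full)
  have hF : F3M B2 N := ⟨h2, hN.even, fun x hx =>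
    hle (AddSubgroup.mem_prod.2 ⟨hx, T.zero_mem⟩), hno⟩
  exact ⟨N, hF, maxE_PL.2 hN, f3_dich hF hN⟩

theorem g2_case {B3 : Frm (Fin 3 → ℚ)} (h3 : Pd B3) (hno : ∀ y, B3 y y ≠ 6) :
    ∃ N : AddSubgroup ((Fin 6 → ℚ) × (Fin 3 → ℚ)), F2N B3 N ∧
      MaxE (PF (sF (mF E6) B3)) (PL N) ∧
      ∃ b n, ((0 : Fin 6 → ℚ), b) ∈ N ∧ ((0 : Fin 6 → ℚ), n) ∈ N ∧ ¬ Dv 3 (B3 b n) := by
  obtain ⟨T, hT⟩ := exists_max h3.symm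
  obtain ⟨N, hle, hN⟩ := exists_maxE (sF_symm (mF_symm E6_symm) h3.symm)
    (EvL_F6.prod hT.even) (Ew_full hT.full)
  have hF : F2N B3 N := ⟨h3, hN.even, fun x hx =>
    hle (AddSubgroup.mem_prod.2 ⟨hx, T.zero_mem⟩), hno⟩
  obtain ⟨b, hb, n, hn, hbn⟩ := f2_hex h3 hT
  exact ⟨N, hF, maxE_PL.2 hN, b, n, hle (AddSubgroup.mem_prod.2 ⟨(Zk 6).zero_mem, hb⟩),
    hle (AddSubgroup.mem_prod.2 ⟨(Zk 6).zero_mem, hn⟩), hbn⟩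

/-- FAM. -/
theorem families19 {B : Frm V} (hB : Hyp B) (hV : finrank ℚ V = 19)
    (he : ∃ e : V, e ≠ 0 ∧ B e e = 0) : G1 B ∨ G2 B ∨ G3 B := by
  have hfd : FiniteDimensional ℚ V := finite_of_finrank_pos (by rw [hV]; norm_num)
  obtain ⟨e, he0, hee⟩ := he
  obtain ⟨B9, h9, i9⟩ := split_PF19 hB hV he0 hee
  obtain ⟨B3, h3, i3⟩ := split9_E6 h9
  by_cases h6 : ∃ y, B3 y y = 6
  · obtain ⟨y, hy⟩ := h6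
    obtain ⟨B2, h2, i2⟩ := split_E7' h3 hy
    by_cases hy2 : ∃ y, B2 y y = 2
    · left
      obtain ⟨y2, hy2⟩ := hy2
      obtain ⟨B1, h1, i1⟩ := split_E8' h2 hy2
      obtain ⟨q, hq, hM, hi⟩ := g1_case h1
      obtain ⟨φ, hφ⟩ := i9.trans ((i3.trans (i2.trans (i1.trans ((Isom.refl F8).prod hi)))).pf)
      exact ⟨q, hq, hM, φ, hφ⟩
    · right
      right
      push Not at hy2
      obtain ⟨N, hF, hM, hd⟩ := g3_case h2 hy2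
      obtain ⟨φ, hφ⟩ := i9.trans ((i3.trans i2).pf)
      exact ⟨B2, N, hF, hM, hd, φ, hφ⟩
  · right
    left
    push Not at h6
    obtain ⟨N, hF, hM, hd⟩ := g2_case h3 h6
    obtain ⟨φ, hφ⟩ := i9.trans i3.pf
    exact ⟨B3, N, hF, hM, hd, φ, hφ⟩

end Pool.Agent.RFN
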