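import Mathlib
import Pool.Agent.Lib.MP_dcc566_gt_E.Ee
import Pool.Agent.Lib.MP_dcc566_gt_E.Ef
import Pool.Agent.Lib.MP_dcc566_gt_E.Es
import Pool.Agent.Lib.MP_dcc566_gt_E.Et
import Pool.Agent.Lib.MP_dcc566_gt_E.Ew

/-!
# The classification (rank 19)
-/

set_option autoImplicit false

namespace Pool.Agent.RFN

open Matrix Module
open MP_dcc566_gt (rv EvenPD)

/-- A bad cusp of the maximal lattice of a family. -/
theorem core_bad19 {V : Type} [AddCommGroup V] [Module ℚ V] [FiniteDimensional ℚ V] {B : Frm V}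
    (hB : Nd B) (hV : finrank ℚ V = 19) {L : AddSubgroup V} (hM : MinL B L) (hnb : ¬ BadR B L)
    {X : Type} [AddCommGroup X] [Module ℚ X] {BX : Frm X} {N : AddSubgroup X}
    (hN : FamOK BX N) (hmax : MaxE (PF BX) (PL N)) {φ : V ≃ₗ[ℚ] PV X} (hφ : IsIso B (PF BX) φ)
    (hbad : BadS (PF BX) (PL N)) : False := by
  obtain ⟨ψ, hψ, hψm⟩ := core_gen19 hB hV hM hnb hN hmax hφ
  exact hnb (badR_iso hψ.sym hψm.sym (badR_of_badE hmax.even hmax.full (badE_of_badS hbad)))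

/-- The classification of minimal lattices without bad cusps in hyperbolic spaces of dimension 19. -/
theorem rfl18_core {V : Type} [AddCommGroup V] [Module ℚ V] [FiniteDimensional ℚ V] {B : Frm V}
    (hH : Hyp B) (hV : finrank ℚ V = 19) (hiso : ∃ e : V, e ≠ 0 ∧ B e e = 0)
    {L : AddSubgroup V} (hM : MinL B L) (hnb : ¬ BadR B L) :
    ∃ K : Matrix (Fin 1) (Fin 1) ℤ, (K = !![2] ∨ K = !![4]) ∧
      ∃ φ : V ≃ₗ[ℚ] KV1, IsIso B (KF1 K) φ ∧ MapsL φ L KL1 := by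
  have hB := hH.nd
  rcases families19 hH hV hiso with h | h | h
  · obtain ⟨q, hq, hmax, φ, hφ⟩ := h
    obtain ⟨ψ, hψ, hψm⟩ := core_gen19 hB hV hM hnb (fam1_19 hq) hmax hφ
    have hnb' : ¬ BadR (KF1 !![2 * q]) KL1 := fun hb => hnb (badR_iso hψ.sym hψm.sym hb)
    refine ⟨!![2 * q], ?_, ψ, hψ, hψm⟩
    rcases core_K1 hq hnb' with h1 | h1
    · left
      rw [h1]
      rfl
    · right
      rw [h1]
      rfl
  · exfalso
    obtain ⟨BT, N, hF, hmax, hex, φ, hφ⟩ := h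
    exact core_bad19 hB hV hM hnb (fam2N hF hex) hmax hφ (badF2N hF)
  · exfalso
    obtain ⟨BY, N, hF, hmax, hd, φ, hφ⟩ := h
    obtain ⟨h1, h2⟩ := fam3M hF hd
    exact core_bad19 hB hV hM hnb h1 hmax hφ h2

end Pool.Agent.RFN
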