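import Mathlib
import Pool.Agent.Lib.MP_dcc566_gt_R.GeoD
import Pool.Agent.Lib.MP_dcc566_gt_E.Ex
import Pool.Agent.Lib.MP_dcc566_gt_E.Eg

/-!
# The classification of maximal non-uniform arithmetic reflection groups of hyperbolic 18-space
-/

set_option autoImplicit false

namespace Pool.Agent.RFN

open Matrix Module
open Pool.Agent.RFL (J toR Model OR IsMaxRefl cj W)
open MP_dcc566_gt (rv EvenPD)

theorem forward18 {Γ : Subgroup (GL (Fin (18 + 1)) ℝ)} (h : IsMaxRefl Γ) :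
    ∃ K : Matrix (Fin 1) (Fin 1) ℤ, (K = !![2] ∨ K = !![4]) ∧
      ∃ C : GL (Fin (18 + 1)) ℝ, C.valᵀ * J 18 * C.val = toR (UEE1 K) ∧ cj C Γ = W (UEE1 K) := by
  obtain ⟨G, C, hM, -, -, hR, -⟩ :=
    Pool.Agent.RFL.exists_strongly_squarefree (by norm_num : 2 ≤ 18) h
  have hsym := Pool.Agent.RFL.isSymm_of_model hM.1
  have hdet := Pool.Agent.RFL.det_ne_zero_of_model hM.1
  obtain ⟨L, c, hc, hMin, hInv⟩ := reduction G hsym hdet
  have hH : Hyp (c • mF G) := hyp_of_model hM.1 hM.2.1 hc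
  have hiso : ∃ e : Fin 19 → ℚ, e ≠ 0 ∧ (c • mF G) e e = 0 := by
    obtain ⟨e, he, hee⟩ := hM.2.1
    refine ⟨cz e, fun h0 => he (cz_eq_zero.1 h0), ?_⟩
    have h1 : MP_dcc566_gt.bf G e e = 0 := hee
    rw [LinearMap.smul_apply, LinearMap.smul_apply, mF_cz, h1]
    simp
  have hnb : ¬ BadR (c • mF G) L := by
    intro hb
    obtain ⟨q, hq⟩ := lor_of_model hM.1 hM.2.1
    exact MP_dcc566_gt.not_reflective_of_cuspBad hq (cuspBad_of_badR hsym hc hInv hb) hR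
  obtain ⟨K, hK, φ, hφ, hφm⟩ := rfl18_core hH (by simp) hiso hMin hnb
  obtain ⟨t, ht, htG⟩ := kv_basis1 K
  obtain ⟨C₁, hM₁⟩ := model_of_basis h.1.1 hM hc hInv (t.map φ.symm)
    (fun x => by
      rw [← hφm, ht]
      refine forall_congr' fun i => ?_
      rw [Basis.map_repr]
      rfl)
    (fun i j => by
      rw [Basis.map_apply, Basis.map_apply]
      have h1 := hφ (φ.symm (t i)) (φ.symm (t j))
      rw [φ.apply_symm_apply, φ.apply_symm_apply, htG] at h1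
      rw [h1]
      rfl)
  exact ⟨K, hK, C₁, hM₁.1, (Pool.Agent.RFL.eq_W_of_max h hM₁).1⟩

end Pool.Agent.RFN
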