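import Mathlib
import Pool.Agent.Lib.MP_dcc566_gt_P1.Defs
import Pool.Agent.Lib.MP_dcc566_gt_E.Eg
import Pool.Agent.Lib.MP_dcc566_gt.E8F

/-!
# The lattices `U ⊕ E₈ ⊕ E₈ ⊕ K`, `K = ⟨2⟩, ⟨4⟩`: generation by roots
-/

set_option autoImplicit false

namespace Pool.Agent.RFN

open Matrix
open MP_dcc566_gt (bf rv mk LG Idx E8)

/-- `e + f`. -/
def e01 : Fin 19 → ℤ := (mk 1 1 0 0 0 : Idx 1 → ℤ) ∘ idx19.symm

/-- PROOF.  Reindexing the sums (`bf`, `Matrix.reindex_apply`, `Matrix.submatrix`, `Equiv.sum_comp`; `MP_dcc566_gt.bf_eq_sum`). -/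
theorem bf_UEE1 {R : Type} [CommRing R] (A : Matrix (Idx 1) (Idx 1) R) (x y : Idx 1 → R) :
    bf (Matrix.reindex idx19 idx19 A) (x ∘ idx19.symm) (y ∘ idx19.symm) = bf A x y := by
  rw [MP_dcc566_gt.bf_eq_sum, MP_dcc566_gt.bf_eq_sum]
  simp only [Matrix.reindex_apply, Matrix.submatrix_apply, Function.comp_apply]
  rw [Equiv.sum_comp idx19.symm fun i => ∑ j, x i * A i (idx19.symm j) * y (idx19.symm j)]
  refine Finset.sum_congr rfl fun i _ => ?_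
  exact Equiv.sum_comp idx19.symm fun j => x i * A i j * y j

theorem K1_vals {K : Matrix (Fin 1) (Fin 1) ℤ} (hK : K = !![2] ∨ K = !![4]) :
    K.IsSymm ∧ (K 0 0 = 2 ∨ K 0 0 = 4) ∧ ∀ z, ∃ k : ℤ, bf K z z = 2 * k := by
  rcases hK with rfl | rfl
  · refine ⟨by decide, Or.inl rfl, fun z => ⟨z 0 ^ 2, ?_⟩⟩
    rw [MP_dcc566_gt.bf_eq_sum]
    simp
    ring
  · refine ⟨by decide, Or.inr rfl, fun z => ⟨2 * z 0 ^ 2, ?_⟩⟩
    rw [MP_dcc566_gt.bf_eq_sum]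
    simp
    ring

/-- PROOF.  `LG_symm` and reindexing. -/
theorem UEE1_symm {K : Matrix (Fin 1) (Fin 1) ℤ} (hK : K.IsSymm) : (UEE1 K).IsSymm := by
  unfold UEE1
  rw [Matrix.reindex_apply]
  exact (MP_dcc566_gt.LG_symm hK).submatrix _

/-- PROOF.  `u = x ∘ idx19.symm`, `exists_mk`, `bf_mk`, `MP_dcc566_gt.E8_even`. -/
theorem UEE1_even {K : Matrix (Fin 1) (Fin 1) ℤ} (hK : ∀ z, ∃ k : ℤ, bf K z z = 2 * k)
    (u : Fin 19 → ℤ) : ∃ k : ℤ, bf (UEE1 K) u u = 2 * k := by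
  obtain ⟨a, b, u₁, u₂, z, hx⟩ := MP_dcc566_gt.exists_mk (u ∘ idx19)
  have hu : u = mk a b u₁ u₂ z ∘ idx19.symm := by
    rw [← hx]
    funext i
    simp
  obtain ⟨k1, h1⟩ := MP_dcc566_gt.E8_even u₁
  obtain ⟨k2, h2⟩ := MP_dcc566_gt.E8_even u₂
  obtain ⟨k3, h3⟩ := hK z
  refine ⟨a * b + k1 + k2 + k3, ?_⟩
  rw [hu]
  unfold UEE1
  rw [bf_UEE1, MP_dcc566_gt.bf_mk, h1, h2, h3]
  ring

/-- PROOF.  `bf_UEE1`, `bf_mk`. -/
theorem e01_norm (K : Matrix (Fin 1) (Fin 1) ℤ) : bf (UEE1 K) e01 e01 = 2 := by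
  unfold UEE1 e01
  rw [bf_UEE1, MP_dcc566_gt.bf_mk]
  simp only [MP_dcc566_gt.bf_zero_left]
  norm_num

private theorem Fxa_comb (u : Fin 8 → ℤ) :
    (mk 0 0 u 0 0 : Idx 1 → ℤ) ∘ idx19.symm =
      ∑ i, u i • ((mk 0 0 (Pi.single i 1) 0 0 : Idx 1 → ℤ) ∘ idx19.symm) := by
  funext j
  simp only [Function.comp_apply, Finset.sum_apply, Pi.smul_apply, smul_eq_mul]
  rcases idx19.symm j with i | i | i | i
  · fin_cases i <;> simp [mk]
  · simp [mk, Pi.single_apply]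
  · simp [mk]
  · simp [mk]

private theorem Fxa_comb2 (u : Fin 8 → ℤ) :
    (mk 0 0 0 u 0 : Idx 1 → ℤ) ∘ idx19.symm =
      ∑ i, u i • ((mk 0 0 0 (Pi.single i 1) 0 : Idx 1 → ℤ) ∘ idx19.symm) := by
  funext j
  simp only [Function.comp_apply, Finset.sum_apply, Pi.smul_apply, smul_eq_mul]
  rcases idx19.symm j with i | i | i | i
  · fin_cases i <;> simp [mk]
  · simp [mk]
  · simp [mk, Pi.single_apply]
  · simp [mk]

/-- The lattice is generated by `e + f` and the vectors `r` of norm 2 with `(r, e + f) = 1`. -/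
theorem UEE1_gen {K : Matrix (Fin 1) (Fin 1) ℤ} (hK : K 0 0 = 2 ∨ K 0 0 = 4)
    (X : AddSubgroup (Fin 19 → ℤ)) (h0 : e01 ∈ X)
    (h : ∀ r, bf (UEE1 K) r r = 2 → bf (UEE1 K) r e01 = 1 → r ∈ X) (x : Fin 19 → ℤ) : x ∈ X := by
  have hr : ∀ (a b : ℤ) (u₁ u₂ : Fin 8 → ℤ) (z : Fin 1 → ℤ), a + b = 1 →
      2 * (a * b) + bf E8 u₁ u₁ + bf E8 u₂ u₂ + bf K z z = 2 →
      (mk a b u₁ u₂ z : Idx 1 → ℤ) ∘ idx19.symm ∈ X := by
    intro a b u₁ u₂ z hab hn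
    refine h _ ?_ ?_
    · unfold UEE1
      rw [bf_UEE1, MP_dcc566_gt.bf_mk]
      linarith
    · unfold UEE1 e01
      rw [bf_UEE1, MP_dcc566_gt.bf_mk]
      simp only [MP_dcc566_gt.bf_zero_right]
      linarith
  have hsub : ∀ x y : Idx 1 → ℤ, x ∘ idx19.symm ∈ X → y ∘ idx19.symm ∈ X →
      (x - y) ∘ idx19.symm ∈ X := fun x y hx hy => X.sub_mem hx hy
  have hadd : ∀ x y : Idx 1 → ℤ, x ∘ idx19.symm ∈ X → y ∘ idx19.symm ∈ X →
      (x + y) ∘ idx19.symm ∈ X := fun x y hx hy => X.add_mem hx hy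
  have hs : ∀ (c : ℤ) (y : Idx 1 → ℤ), y ∘ idx19.symm ∈ X → (c • y) ∘ idx19.symm ∈ X :=
    fun c y hy => X.zsmul_mem hy c
  have hz : bf K ![1] ![1] = K 0 0 := by
    simp [bf, dotProduct, Matrix.mulVec]
  have h8 : ∀ i : Fin 8, bf E8 (Pi.single i 1) (Pi.single i 1) = 2 := by decide
  have h8' : bf E8 (Pi.single 0 1 + Pi.single 2 1) (Pi.single 0 1 + Pi.single 2 1) = 2 := by
    decide
  have hE : (mk 1 0 0 0 0 : Idx 1 → ℤ) ∘ idx19.symm ∈ X := by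
    have e1 := hr 1 0 (Pi.single 0 1) 0 0 (by norm_num)
      (by simp only [MP_dcc566_gt.bf_zero_left, h8]; norm_num)
    have e2 := hr 1 0 (Pi.single 2 1) 0 0 (by norm_num)
      (by simp only [MP_dcc566_gt.bf_zero_left, h8]; norm_num)
    have e3 := hr 1 0 (Pi.single 0 1 + Pi.single 2 1) 0 0 (by norm_num)
      (by simp only [MP_dcc566_gt.bf_zero_left, h8']; norm_num)
    have e4 := hsub _ _ (hadd _ _ e1 e2) e3
    rw [MP_dcc566_gt.mk_add, MP_dcc566_gt.mk_sub] at e4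
    simpa using e4
  have hF : (mk 0 1 0 0 0 : Idx 1 → ℤ) ∘ idx19.symm ∈ X := by
    have e4 := hsub _ _ h0 hE
    rw [MP_dcc566_gt.mk_sub] at e4
    simpa using e4
  have g1 : ∀ u : Fin 8 → ℤ, (mk 0 0 u 0 0 : Idx 1 → ℤ) ∘ idx19.symm ∈ X := by
    intro u
    rw [Fxa_comb]
    refine X.sum_mem fun i _ => X.zsmul_mem ?_ _
    have e1 := hr 1 0 (Pi.single i 1) 0 0 (by norm_num)
      (by simp only [MP_dcc566_gt.bf_zero_left, h8]; norm_num)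
    have e4 := hsub _ _ e1 hE
    rw [MP_dcc566_gt.mk_sub] at e4
    simpa using e4
  have g2 : ∀ u : Fin 8 → ℤ, (mk 0 0 0 u 0 : Idx 1 → ℤ) ∘ idx19.symm ∈ X := by
    intro u
    rw [Fxa_comb2]
    refine X.sum_mem fun i _ => X.zsmul_mem ?_ _
    have e1 := hr 1 0 0 (Pi.single i 1) 0 (by norm_num)
      (by simp only [MP_dcc566_gt.bf_zero_left, h8]; norm_num)
    have e4 := hsub _ _ e1 hE
    rw [MP_dcc566_gt.mk_sub] at e4
    simpa using e4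
  have ga : (mk 0 0 0 0 ![1] : Idx 1 → ℤ) ∘ idx19.symm ∈ X := by
    rcases hK with hK | hK
    · have e1 := hr 1 0 0 0 ![1] (by norm_num)
        (by simp only [MP_dcc566_gt.bf_zero_left, hz, hK]; norm_num)
      have e4 := hsub _ _ e1 hE
      rw [MP_dcc566_gt.mk_sub] at e4
      simpa using e4
    · have e1 := hr 2 (-1) (Pi.single 0 1) 0 ![1] (by norm_num)
        (by simp only [MP_dcc566_gt.bf_zero_left, h8, hz, hK]; norm_num)
      have e4 := hsub _ _ e1 (hadd _ _ (hadd _ _ (hs 2 _ hE) (hs (-1) _ hF))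
        (g1 (Pi.single 0 1)))
      rw [MP_dcc566_gt.smul_mk, MP_dcc566_gt.smul_mk, MP_dcc566_gt.mk_add,
        MP_dcc566_gt.mk_add, MP_dcc566_gt.mk_sub] at e4
      simpa using e4
  have g3 : ∀ u : Fin 1 → ℤ, (mk 0 0 0 0 u : Idx 1 → ℤ) ∘ idx19.symm ∈ X := by
    intro u
    have e4 := hs (u 0) _ ga
    rw [MP_dcc566_gt.smul_mk] at e4
    have hu : u 0 • (![1] : Fin 1 → ℤ) = u := by
      funext i
      fin_cases i
      simp
    rw [hu] at e4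
    simpa using e4
  obtain ⟨a, b, u₁, u₂, z, hx⟩ := MP_dcc566_gt.exists_mk (x ∘ idx19)
  have hu : x = mk a b u₁ u₂ z ∘ idx19.symm := by
    rw [← hx]
    funext i
    simp
  have e := hadd _ _ (hadd _ _ (hadd _ _ (hadd _ _ (hs a _ hE) (hs b _ hF)) (g1 u₁)) (g2 u₂))
    (g3 z)
  rw [MP_dcc566_gt.smul_mk, MP_dcc566_gt.smul_mk, MP_dcc566_gt.mk_add, MP_dcc566_gt.mk_add,
    MP_dcc566_gt.mk_add, MP_dcc566_gt.mk_add] at e
  rw [hu]
  simpa using e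

end Pool.Agent.RFN
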