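import Mathlib
import Pool.Agent.Lib.MP_dcc566_gt_R.MXe
import Pool.Agent.Lib.MP_dcc566_gt_E.Fxa

/-!
# The lattices `U ⊕ E₈ ⊕ E₈ ⊕ K`: the dual lattice
-/

set_option autoImplicit false

namespace Pool.Agent.RFN

open Matrix
open Pool.Agent.RFL (toR bl)
open MP_dcc566_gt (bf rv mk LG Idx E8)

/-- PROOF.  `Matrix.fromBlocks_map`, `MP_dcc566_gt.bf_fromBlocks` three times. -/
theorem bfR_mk1 (K : Matrix (Fin 1) (Fin 1) ℤ) (a b a' b' : ℝ) (u₁ u₂ u₁' u₂' : Fin 8 → ℝ)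
    (z z' : Fin 1 → ℝ) :
    bf ((LG K).map (Int.cast : ℤ → ℝ)) (mk a b u₁ u₂ z) (mk a' b' u₁' u₂' z') =
      a * b' + b * a' + bf (E8.map (Int.cast : ℤ → ℝ)) u₁ u₁' +
        bf (E8.map (Int.cast : ℤ → ℝ)) u₂ u₂' + bf (K.map (Int.cast : ℤ → ℝ)) z z' := by
  have h1 : bf (MP_dcc566_gt.UG.map (Int.cast : ℤ → ℝ)) ![a, b] ![a', b'] =
      a * b' + b * a' := by
    simp [bf, MP_dcc566_gt.UG, dotProduct, mulVec, Fin.sum_univ_two]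
  unfold LG mk
  rw [Matrix.fromBlocks_map, Matrix.fromBlocks_map, Matrix.fromBlocks_map]
  simp only [Matrix.map_zero _ Int.cast_zero]
  rw [MP_dcc566_gt.bf_fromBlocks, MP_dcc566_gt.bf_fromBlocks, MP_dcc566_gt.bf_fromBlocks, h1]
  ring

private theorem Fxb_mulVec (A : Matrix (Fin 8) (Fin 8) ℤ) (w : Fin 8 → ℤ) :
    (A.map (Int.cast : ℤ → ℝ)) *ᵥ (rv w) = rv (A *ᵥ w) := by
  funext j
  simp [mulVec, dotProduct, rv]

private theorem Fxb_rv_bf (u v : Fin 8 → ℤ) :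
    bf (E8.map (Int.cast : ℤ → ℝ)) (rv u) (rv v) = ((bf E8 u v : ℤ) : ℝ) := by
  unfold bf
  rw [Fxb_mulVec]
  simp only [dotProduct, rv]
  push_cast
  rfl

/-- Vectors of the dual lattice of `⟨2⟩`, `⟨4⟩` of even norm are integral. -/
theorem K1_dual {K : Matrix (Fin 1) (Fin 1) ℤ} (hK : K = !![2] ∨ K = !![4])
    {z : Fin 1 → ℝ}
    (h : ∀ v : Fin 1 → ℤ, ∃ k : ℤ, bf (K.map (Int.cast : ℤ → ℝ)) z (rv v) = k)
    (hn : ∃ k : ℤ, bf (K.map (Int.cast : ℤ → ℝ)) z z = 2 * k) : ∃ w : Fin 1 → ℤ, z = rv w := by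
  obtain ⟨p, hp⟩ := h ![1]
  obtain ⟨k, hk⟩ := hn
  rcases hK with rfl | rfl
  · simp [bf, dotProduct, mulVec, rv] at hp hk
    have e1 : (p : ℝ) ^ 2 = 4 * k := by
      rw [← hp]
      linear_combination 2 * hk
    have e2 : p ^ 2 = 4 * k := by exact_mod_cast e1
    have e3 : (2 : ℤ) ∣ p := Int.prime_two.dvd_of_dvd_pow (n := 2) ⟨2 * k, by rw [e2]; ring⟩
    obtain ⟨a, ha⟩ := e3
    refine ⟨![a], funext fun i => ?_⟩
    fin_cases i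
    show z 0 = ((a : ℤ) : ℝ)
    rw [ha] at hp
    push_cast at hp
    linarith
  · simp [bf, dotProduct, mulVec, rv] at hp hk
    have e1 : (p : ℝ) ^ 2 = 8 * k := by
      rw [← hp]
      linear_combination 4 * hk
    have e2 : p ^ 2 = 8 * k := by exact_mod_cast e1
    have e3 : (2 : ℤ) ∣ p := Int.prime_two.dvd_of_dvd_pow (n := 2) ⟨4 * k, by rw [e2]; ring⟩
    obtain ⟨c, hc⟩ := e3
    have e4 : c ^ 2 = 2 * k := by
      rw [hc] at e2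
      linarith
    have e5 : (2 : ℤ) ∣ c := Int.prime_two.dvd_of_dvd_pow (n := 2) ⟨k, e4⟩
    obtain ⟨a, ha⟩ := e5
    refine ⟨![a], funext fun i => ?_⟩
    fin_cases i
    show z 0 = ((a : ℤ) : ℝ)
    rw [hc, ha] at hp
    push_cast at hp
    linarith

private theorem Fxb_rv_mk (a b : ℤ) (u₁ u₂ : Fin 8 → ℤ) (z : Fin 1 → ℤ) :
    rv ((mk a b u₁ u₂ z : Idx 1 → ℤ) ∘ idx19.symm) =
      (mk (a : ℝ) (b : ℝ) (rv u₁) (rv u₂) (rv z) : Idx 1 → ℝ) ∘ idx19.symm := by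
  have h : ∀ j : Idx 1, ((mk a b u₁ u₂ z j : ℤ) : ℝ) =
      mk (a : ℝ) (b : ℝ) (rv u₁) (rv u₂) (rv z) j := by
    intro j
    rcases j with j | j | j | j
    · fin_cases j <;> rfl
    · rfl
    · rfl
    · rfl
  funext i
  exact h (idx19.symm i)

/-- PROOF.  `x = y ∘ idx19.symm` with `y = x ∘ idx19 = mk a b u₁ u₂ z` (`exists_mk`);
`bl (toR (UEE1 K))` is `bf` of the reindexed matrix
(`bf_UEE1`, `bfR_mk1`; `toR (UEE1 K) = Matrix.reindex idx19 idx19 ((LG K).map cast)` by `rfl`/`ext`).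
Products with `mk 1 0 0 0 0`,
`mk 0 1 0 0 0`: `b`, `a` are integers; with `mk 0 0 v 0 0`, `mk 0 0 0 v 0`: `E8R_dual`; with
`mk 0 0 0 0 v`: the hypothesis of `K1_dual`; the norm of
`x` is `2 a b + (u₁,u₁) + (u₂,u₂) + (z,z)`, the first three terms are even integers (`E8_even`), so
`K1_dual` applies. -/
theorem UEE1_dual {K : Matrix (Fin 1) (Fin 1) ℤ} (hK : K = !![2] ∨ K = !![4])
    (x : Fin 19 → ℝ) (h : ∀ v : Fin 19 → ℤ, ∃ k : ℤ, bl (toR (UEE1 K)) x (rv v) = k)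
    (hn : ∃ k : ℤ, bl (toR (UEE1 K)) x x = 2 * k) : ∃ u : Fin 19 → ℤ, x = rv u := by
  obtain ⟨a, b, u₁, u₂, z, hy⟩ := MP_dcc566_gt.exists_mk (x ∘ idx19)
  have hx : x = (mk a b u₁ u₂ z : Idx 1 → ℝ) ∘ idx19.symm := by
    rw [← hy]
    funext i
    show x i = x (idx19 (idx19.symm i))
    rw [Equiv.apply_symm_apply]
  have hbl : ∀ (a b a' b' : ℝ) (u₁ u₂ u₁' u₂' : Fin 8 → ℝ) (z z' : Fin 1 → ℝ),
      bl (toR (UEE1 K)) ((mk a b u₁ u₂ z : Idx 1 → ℝ) ∘ idx19.symm)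
        ((mk a' b' u₁' u₂' z' : Idx 1 → ℝ) ∘ idx19.symm) =
      a * b' + b * a' + bf (E8.map (Int.cast : ℤ → ℝ)) u₁ u₁' +
        bf (E8.map (Int.cast : ℤ → ℝ)) u₂ u₂' + bf (K.map (Int.cast : ℤ → ℝ)) z z' := by
    intro a b a' b' u₁ u₂ u₁' u₂' z z'
    rw [← bfR_mk1]
    exact bf_UEE1 ((LG K).map (Int.cast : ℤ → ℝ)) _ _
  have key : ∀ (c d : ℤ) (v₁ v₂ : Fin 8 → ℤ) (w : Fin 1 → ℤ), ∃ k : ℤ,
      a * d + b * c + bf (E8.map (Int.cast : ℤ → ℝ)) u₁ (rv v₁) +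
        bf (E8.map (Int.cast : ℤ → ℝ)) u₂ (rv v₂) +
          bf (K.map (Int.cast : ℤ → ℝ)) z (rv w) = k := by
    intro c d v₁ v₂ w
    obtain ⟨k, hk⟩ := h ((mk c d v₁ v₂ w : Idx 1 → ℤ) ∘ idx19.symm)
    rw [Fxb_rv_mk, hx, hbl] at hk
    exact ⟨k, hk⟩
  have hr8 : (rv (0 : Fin 8 → ℤ)) = 0 := MP_dcc566_gt.rv_zero
  have hr2 : (rv (0 : Fin 1 → ℤ)) = 0 := MP_dcc566_gt.rv_zero
  obtain ⟨B, hB⟩ := key 1 0 0 0 0
  obtain ⟨A, hA⟩ := key 0 1 0 0 0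
  rw [hr8, hr2, MP_dcc566_gt.bf_zero_right, MP_dcc566_gt.bf_zero_right,
    MP_dcc566_gt.bf_zero_right] at hA hB
  push_cast at hA hB
  have hA' : a = A := by linarith
  have hB' : b = B := by linarith
  obtain ⟨w₁, hw₁⟩ := E8R_dual (u := u₁) (by
    intro v
    obtain ⟨k, hk⟩ := key 0 0 v 0 0
    rw [hr8, hr2, MP_dcc566_gt.bf_zero_right, MP_dcc566_gt.bf_zero_right] at hk
    push_cast at hk
    exact ⟨k, by linarith⟩)
  obtain ⟨w₂, hw₂⟩ := E8R_dual (u := u₂) (by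
    intro v
    obtain ⟨k, hk⟩ := key 0 0 0 v 0
    rw [hr8, hr2, MP_dcc566_gt.bf_zero_right, MP_dcc566_gt.bf_zero_right] at hk
    push_cast at hk
    exact ⟨k, by linarith⟩)
  obtain ⟨w₃, hw₃⟩ := K1_dual hK (z := z) (by
    intro v
    obtain ⟨k, hk⟩ := key 0 0 0 0 v
    rw [hr8, MP_dcc566_gt.bf_zero_right, MP_dcc566_gt.bf_zero_right] at hk
    push_cast at hk
    exact ⟨k, by linarith⟩) (by
    obtain ⟨k, hk⟩ := hn
    rw [hx, hbl, hw₁, hw₂, Fxb_rv_bf, Fxb_rv_bf, hA', hB'] at hk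
    obtain ⟨m₁, hm₁⟩ := MP_dcc566_gt.E8_even w₁
    obtain ⟨m₂, hm₂⟩ := MP_dcc566_gt.E8_even w₂
    rw [hm₁, hm₂] at hk
    refine ⟨k - A * B - m₁ - m₂, ?_⟩
    push_cast at hk ⊢
    linarith)
  refine ⟨(mk A B w₁ w₂ w₃ : Idx 1 → ℤ) ∘ idx19.symm, ?_⟩
  rw [Fxb_rv_mk, hx, hA', hB', hw₁, hw₂, hw₃]

end Pool.Agent.RFN
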