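import Mathlib
import Pool.Agent.Lib.MP_dcc566_gt_E.Hv0

/-!
# Soundness of the list functions
-/

set_option autoImplicit false

namespace Pool.Agent.RFV

open Pool.Agent.RFN

theorem memL_iff (l : List ℕ) (i : ℕ) : memL l i = true ↔ i ∈ l := by
  induction l with
  | nil => simp [memL]
  | cons a l ih =>
    rw [memL, Bool.or_eq_true, ih, List.mem_cons, Nat.beq_eq]
    exact or_congr_left eq_comm

theorem nodupL_iff (l : List ℕ) : nodupL l = true ↔ l.Nodup := by
  induction l with
  | nil => simp [nodupL]
  | cons a l ih =>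
    have h : (!(memL l a)) = true ↔ a ∉ l := by
      rw [Bool.not_eq_true', ← Bool.not_eq_true, memL_iff]
    rw [nodupL, Bool.and_eq_true, ih, List.nodup_cons, h]

/-- PROOF.  Induction on the list. -/
theorem chkC_sound {g : ℕ → ℕ → Bool} : ∀ (C : List ℕ) (a : ℕ), chkC g C a = true →
    ∀ i ∈ C, ∃ b, g i b = true := by
  intro C
  induction C with
  | nil =>
    intro a _ i hi
    exact absurd hi List.not_mem_nil
  | cons c C ih =>
    intro a h i hi
    rw [chkC, Bool.and_eq_true] at h
    rcases List.mem_cons.1 hi with rfl | hi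
    · exact ⟨a, h.1⟩
    · exact ih (a + 1) h.2 i hi

/-- PROOF.  Induction on `Cs`; the step: `s = i :: s'`, `i ∈ C`, `chkC_sound` gives `chkT f Cs (i :: t) off' = true`, the induction hypothesis gives
`f (s'.reverse ++ (i :: t)) _`, and `(i :: s').reverse ++ t = s'.reverse ++ i :: t`. -/
theorem chkT_sound {f : List ℕ → ℕ → Bool} : ∀ (Cs : List (List ℕ)) (t : List ℕ) (off : ℕ),
    chkT f Cs t off = true → ∀ s : List ℕ, List.Forall₂ (fun i C => i ∈ C) s Cs →
      ∃ off', f (s.reverse ++ t) off' = true := by
  intro Cs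
  induction Cs with
  | nil =>
    intro t off h s hs
    rw [List.forall₂_nil_right_iff] at hs
    subst hs
    exact ⟨off, h⟩
  | cons C Cs ih =>
    intro t off h s hs
    obtain ⟨i, s', hi, hs', rfl⟩ := List.forall₂_cons_right_iff.1 hs
    rw [chkT] at h
    obtain ⟨b, hb⟩ := chkC_sound C 0 h i hi
    obtain ⟨off', h'⟩ := ih (i :: t) _ hb s' hs'
    refine ⟨off', ?_⟩
    rw [List.reverse_cons, List.append_assoc]
    exact h'

/-- PROOF.  Induction on `ps`. -/
theorem zeroPat_sound (I : List ℕ) : ∀ (ps : List ℤ) (i : ℕ), zeroPat I ps i = true →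
    ∀ j < ps.length, 0 ≤ ps.getD j 0 ∧ (ps.getD j 0 = 0 ↔ i + j ∈ I) := by
  intro ps
  induction ps with
  | nil =>
    intro i _ j hj
    exact absurd hj (Nat.not_lt_zero j)
  | cons p ps ih =>
    intro i h j hj
    rw [zeroPat, Bool.and_eq_true, Bool.and_eq_true, decide_eq_true_eq, beq_iff_eq] at h
    obtain ⟨⟨h1, h2⟩, h3⟩ := h
    cases j with
    | zero =>
      rw [List.getD_cons_zero, Nat.add_zero, ← memL_iff, ← h2, decide_eq_true_eq]
      exact ⟨h1, Iff.rfl⟩
    | succ j =>
      have h4 := ih (i + 1) h3 j (by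
        rw [List.length_cons] at hj
        omega)
      have h5 : i + (j + 1) = i + 1 + j := by omega
      rw [List.getD_cons_succ, h5]
      exact h4

/-- PROOF.  Induction on `M`. -/
theorem maskPat_sound (m : ℕ) (I : List ℕ) : ∀ (M i : ℕ), maskPat m I M i = true →
    ∀ j < M, (tb m (i + j) = true ↔ i + j ∈ I) := by
  intro M
  induction M with
  | zero =>
    intro i _ j hj
    exact absurd hj (Nat.not_lt_zero j)
  | succ M ih =>
    intro i h j hj
    rw [maskPat, Bool.and_eq_true, beq_iff_eq] at h
    cases j with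
    | zero => rw [Nat.add_zero, ← memL_iff, h.1]
    | succ j =>
      have h5 : i + (j + 1) = i + 1 + j := by omega
      rw [h5]
      exact ih (i + 1) h.2 j (by omega)

theorem repsOK_append (gm roots lf : List (List ℤ)) (K P M : ℕ) (ml pl : List ℕ) :
    ∀ (k : ℕ) (l l' : List VRep), repsOK gm roots lf K P M ml pl k l = true →
      repsOK gm roots lf K P M ml pl (k + l.length) l' = true →
        repsOK gm roots lf K P M ml pl k (l ++ l') = true := by
  intro k l
  induction l generalizing k with
  | nil =>
    intro l' _ h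
    exact h
  | cons r rs ih =>
    intro l' h h'
    rw [repsOK, Bool.and_eq_true] at h
    rw [List.cons_append, repsOK, Bool.and_eq_true]
    refine ⟨h.1, ih (k + 1) l' h.2 ?_⟩
    have h5 : k + (r :: rs).length = k + 1 + rs.length := by
      rw [List.length_cons]
      omega
    rw [h5] at h'
    exact h'

theorem repsOK_get (gm roots lf : List (List ℤ)) (K P M : ℕ) (ml pl : List ℕ) :
    ∀ (k : ℕ) (l : List VRep), repsOK gm roots lf K P M ml pl k l = true →
      ∀ j < l.length, repOK gm roots lf K P M ml pl (k + j) (l.getD j ⟨[], [], 0⟩) = true := by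
  intro k l
  induction l generalizing k with
  | nil =>
    intro _ j hj
    exact absurd hj (Nat.not_lt_zero j)
  | cons r rs ih =>
    intro h j hj
    rw [repsOK, Bool.and_eq_true] at h
    cases j with
    | zero =>
      rw [List.getD_cons_zero, Nat.add_zero]
      exact h.1
    | succ j =>
      have h5 : k + (j + 1) = k + 1 + j := by omega
      rw [List.getD_cons_succ, h5]
      refine ih (k + 1) h.2 j ?_
      rw [List.length_cons] at hj
      omega

end Pool.Agent.RFV
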