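import Mathlib
import Pool.Agent.Lib.MP_dcc566_gt_E.Hv5
import Pool.Agent.Lib.MP_dcc566_gt_E.Hv6
import Pool.Agent.Lib.MP_dcc566_gt_R.FvD

/-!
# Finite index from a certificate
-/

set_option autoImplicit false

namespace Pool.Agent.RFV

open Pool.Agent.RFN

open Pool.Agent.RFL (W OZ)
open MP_dcc566_gt (bf rv Lor)

variable {gm roots lf gr : List (List ℤ)} {M K P : ℕ} {ml pl : List ℕ} {reps : List VRep}

theorem bf_sum_left {n M : ℕ} (G : Matrix (Fin n) (Fin n) ℤ) (e : Fin M → Fin n → ℤ)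
    (c : Fin M → ℤ) (y : Fin n → ℤ) : bf G (∑ j, c j • e j) y = ∑ j, c j * bf G (e j) y := by
  have h : ∀ s : Finset (Fin M), bf G (∑ j ∈ s, c j • e j) y = ∑ j ∈ s, c j * bf G (e j) y := by
    intro s
    induction s using Finset.cons_induction with
    | empty => simp [MP_dcc566_gt.bf_zero_left]
    | cons a s ha ih =>
      rw [Finset.sum_cons, Finset.sum_cons, MP_dcc566_gt.bf_add_left, ih,
        MP_dcc566_gt.bf_smul_left]
  exact h _

theorem finite_index_of_cert (h : rootsOK gm roots lf gr M = true)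
    (hr : repsOK gm roots lf K P M ml pl 0 reps = true) (hK : reps.length = K) (hK0 : 0 < K)
    {gens : List ℕ} (hg : gens.all (genOK gr M) = true) {pd : List (ℕ × ℕ)}
    (hp : permOK gens pl M 1 pd = true) (hi : idOK pl M = true) (hP : pd.length + 1 = P)
    (hrow : rowOK lf gr M M = true) {cb : List (List (ℕ × ℤ))}
    (hc : combOK roots M 0 cb = true) (hlen : cb.length = 19) {cw : List ℤ}
    (hcw : cw.length = M) (hcp : cw.all (fun a => decide (0 < a)) = true)
    (hsum : gr.all (fun l => decide (dotL l cw < 0)) = true) (hs : (GM gm).IsSymm)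
    (hL : ∀ q : Fin 19 → ℤ, bf (GM gm) q q < 0 → Lor (GM gm) (rv q)) (hM : 0 < M) :
    (W (GM gm)).relIndex (OZ (GM gm)) ≠ 0 := by
  have hpos : ∀ j : Fin M, 0 < cw.getD (j : ℕ) 0 := by
    intro j
    rw [List.all_eq_true] at hcp
    have hj : (j : ℕ) < cw.length := by
      rw [hcw]
      exact j.2
    refine of_decide_eq_true (hcp _ ?_)
    rw [List.getD_eq_getElem _ _ hj]
    exact List.getElem_mem hj
  have hq := q_pos h hs hcw hsum
  have hne : bf (GM gm) (-∑ j : Fin M, cw.getD (j : ℕ) 0 • eL roots M j)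
      (-∑ j : Fin M, cw.getD (j : ℕ) 0 • eL roots M j) < 0 := by
    rw [MP_dcc566_gt.bf_neg_left, bf_sum_left, neg_lt_zero]
    have : Nonempty (Fin M) := ⟨⟨0, hM⟩⟩
    exact Finset.sum_pos (fun i _ => mul_pos (hpos i) (hq i)) Finset.univ_nonempty
  have hLor := hL _ hne
  obtain ⟨hRt, hobt⟩ := rows_ok h hs hrow
  have hGP : ∀ s < P, (∀ i < M, pa (pl.getD s 0) i < M) ∧
      GP (GM gm) (eL roots M) (tS M (pl.getD s 0)) := by
    intro s hs'
    exact perm_GP h hs hg hp hi s (by omega)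
  have hbase := rep_base h hs hr hK
  have hChb : Chb (GM gm) (eL roots M) (rL reps K) :=
    ⟨hs, hLor.det, fun i => (hRt i).1, hobt, span_ok h hc hlen, fun k => (hbase k).1,
      fun k i => (hbase k).2.2.1 i, fun k => (hbase k).2.1⟩
  exact index_of_rays hChb hK0 (loc_of_ok h hs hr hK hGP) hLor hRt hq
    (c := fun j => cw.getD (j : ℕ) 0) hpos rfl

end Pool.Agent.RFV
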