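import Mathlib
import Pool.Agent.Lib.MP_dcc566_gt_E.Eg
import Pool.Agent.Lib.MP_dcc566_gt_E.DtC
import Pool.Agent.Lib.MP_dcc566_gt_E.DtD
import Pool.Agent.Lib.MP_dcc566_gt_E.Hv1
import Pool.Agent.Lib.MP_dcc566_gt.LorLG

/-!
# The Gram matrices of the certificates
-/

set_option autoImplicit false

namespace Pool.Agent.RFV

open Pool.Agent.RFN

open MP_dcc566_gt (bf rv Lor LG rB EvenPD)

theorem GM_C : GM gmC = UEE1 !![2] := by
  have h : ∀ i j, GM gmC i j = UEE1 !![2] i j := by decide +kernel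
  exact Matrix.ext h

theorem GM_D : GM gmD = UEE1 !![4] := by
  have h : ∀ i j, GM gmD i j = UEE1 !![4] i j := by decide +kernel
  exact Matrix.ext h

private theorem Hv7_rB (K : Matrix (Fin 1) (Fin 1) ℤ) (x y : Fin 19 → ℝ) :
    rB (UEE1 K) x y = rB (LG K) (x ∘ idx19) (y ∘ idx19) := by
  rw [MP_dcc566_gt.rB_apply, MP_dcc566_gt.rB_apply, ← Equiv.sum_comp idx19]
  refine Finset.sum_congr rfl fun a _ => ?_
  rw [← Equiv.sum_comp idx19]
  refine Finset.sum_congr rfl fun b _ => ?_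
  have h : UEE1 K (idx19 a) (idx19 b) = LG K a b := by
    unfold UEE1
    rw [Matrix.reindex_apply, Matrix.submatrix_apply, Equiv.symm_apply_apply,
      Equiv.symm_apply_apply]
  rw [h]
  rfl

/-- PROOF.  `lor_LG` (`LorLG.lean`; `real_pos_two`) gives `Lor (LG K) (rv (mk 1 (-1) 0 0 0))`.  `UEE
K = reindex idx19 idx19 (LG K)`, so `bf (UEE1 K) x y = bf (LG K) (x ∘ idx19)
(y ∘ idx19)` and the same for `rB` (sums over the equivalence), `(UEE1 K).det = (LG K).det`
(`Matrix.det_reindex_self`), symmetry; so `Lor (UEE1 K) (rv q₀)` with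
`q₀ = mk .. ∘ idx19.symm`.  For `q` of negative norm: `ALor.change` (`LorA.lean`) with `x = rv q`
(`rB_rv`) gives `Lor (UEE1 K) (rv q)`. -/
theorem lor_UEE1 {K : Matrix (Fin 1) (Fin 1) ℤ} (hK : EvenPD K) {q : Fin 19 → ℤ}
    (hq : bf (UEE1 K) q q < 0) : Lor (UEE1 K) (rv q) := by
  have h1 := MP_dcc566_gt.lor_LG hK.symm (MP_dcc566_gt.real_pos_one hK.pos)
  have hsymm : (UEE1 K).IsSymm := by
    have h2 := h1.symm.submatrix idx19.symm
    exact h2
  have hdet : (UEE1 K).det ≠ 0 := by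
    unfold UEE1
    rw [Matrix.det_reindex_self]
    exact h1.det
  set p : Fin 19 → ℝ := rv (MP_dcc566_gt.mk 1 (-1) 0 0 0) ∘ idx19.symm with hp
  have hpp : p ∘ idx19 = rv (MP_dcc566_gt.mk 1 (-1) 0 0 0) := by
    rw [hp]
    funext a
    simp
  have hL : Lor (UEE1 K) p := by
    refine ⟨hsymm, hdet, ?_, ?_⟩
    · rw [Hv7_rB, hpp]
      exact h1.neg
    · intro v hv hv0
      rw [Hv7_rB, hpp] at hv
      rw [Hv7_rB]
      refine h1.pos _ hv fun h => hv0 ?_
      funext i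
      have h3 := congrFun h (idx19.symm i)
      simpa using h3
  have hneg : rB (UEE1 K) (rv q) (rv q) < 0 := by
    rw [MP_dcc566_gt.rB_rv]
    exact_mod_cast hq
  have hA := (MP_dcc566_gt.Lor.alor hL).change hneg
  exact ⟨hsymm, hdet, hA.neg, hA.pos⟩

end Pool.Agent.RFV
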