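import Mathlib
import Pool.Agent.Lib.MP_dcc566_gt_E.Ef
import Pool.Agent.Lib.MP_dcc566_gt_E.Hv
import Pool.Agent.Lib.MP_dcc566_gt_E.Hv7
import Pool.Agent.Lib.MP_dcc566_gt_E.CgC
import Pool.Agent.Lib.MP_dcc566_gt_E.CgD
import Pool.Agent.Lib.MP_dcc566_gt_E.CkC0
import Pool.Agent.Lib.MP_dcc566_gt_E.CkC1
import Pool.Agent.Lib.MP_dcc566_gt_E.CkC2
import Pool.Agent.Lib.MP_dcc566_gt_E.CkD0
import Pool.Agent.Lib.MP_dcc566_gt_E.CkD1
import Pool.Agent.Lib.MP_dcc566_gt_E.CkD2
import Pool.Agent.Lib.MP_dcc566_gt_E.CkD3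
import Pool.Agent.Lib.MP_dcc566_gt_E.CkD4

/-!
# Reflectivity of the two lattices
-/

set_option autoImplicit false

namespace Pool.Agent.RFV

open Pool.Agent.RFN
open Pool.Agent.RFL (W OZ)
open MP_dcc566_gt (bf rv Lor)

theorem repsOK_app {gm roots lf : List (List ℤ)} {K P M : ℕ} {ml pl : List ℕ} {k k' : ℕ}
    {l l' : List VRep} (h : repsOK gm roots lf K P M ml pl k l = true) (hk : k + l.length = k')
    (h' : repsOK gm roots lf K P M ml pl k' l' = true) :
    repsOK gm roots lf K P M ml pl k (l ++ l') = true := by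
  subst hk
  exact repsOK_append _ _ _ _ _ _ _ _ _ _ _ h h'

theorem repsOK_C : repsOK gmC roC lfC 103 6 24 mlC plC 0 (rpC0 ++ (rpC1 ++ rpC2)) = true :=
  repsOK_app ckC0 (by decide +kernel) (repsOK_app ckC1 (by decide +kernel) ckC2)

theorem repsOK_D : repsOK gmD roD lfD 187 24 37 mlD plD 0
    (rpD0 ++ (rpD1 ++ (rpD2 ++ (rpD3 ++ rpD4)))) = true :=
  repsOK_app ckD0 (by decide +kernel) (repsOK_app ckD1 (by decide +kernel)
    (repsOK_app ckD2 (by decide +kernel) (repsOK_app ckD3 (by decide +kernel) ckD4)))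

theorem q0_neg {gm : List (List ℤ)} (h : gm.length = 19) (h' : ∀ l ∈ gm, l.length = 19)
    (h1 : dotL (1 :: -1 :: List.replicate 17 0)
      (gm.map (fun l => dotL l (1 :: -1 :: List.replicate 17 0))) < 0) :
    bf (GM gm) (fv (1 :: -1 :: List.replicate 17 0)) (fv (1 :: -1 :: List.replicate 17 0)) < 0 := by
  rw [bf_fv h h' (by simp) (by simp)]
  exact h1

/-- `U ⊕ E₈ ⊕ E₈ ⊕ ⟨2⟩` is reflective. -/
theorem refl_C : (W (UEE1 !![2])).relIndex (OZ (UEE1 !![2])) ≠ 0 := by
  have hK : MP_dcc566_gt.EvenPD !![2] := EvenPD_q (q := 1) le_rfl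
  have hq := q0_neg (gm := gmC) (by decide +kernel) (by decide +kernel) (by decide +kernel)
  have hs : (GM gmC).IsSymm := by
    rw [GM_C] at hq ⊢
    exact (lor_UEE1 hK hq).symm
  rw [← GM_C]
  exact finite_index_of_cert rootsOK_C repsOK_C (by decide +kernel) (by norm_num) genOK_C permOK_C
    idOK_C (by decide +kernel) rowOK_C combOK_C (by decide +kernel) (cw := cwC)
    (by decide +kernel) (by decide +kernel) (by decide +kernel) hs
    (fun q hq => by
      rw [GM_C] at hq ⊢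
      exact lor_UEE1 hK hq) (by norm_num)

/-- `U ⊕ E₈ ⊕ E₈ ⊕ ⟨4⟩` is reflective. -/
theorem refl_D : (W (UEE1 !![4])).relIndex (OZ (UEE1 !![4])) ≠ 0 := by
  have hK : MP_dcc566_gt.EvenPD !![4] := EvenPD_q (q := 2) (by norm_num)
  have hq := q0_neg (gm := gmD) (by decide +kernel) (by decide +kernel) (by decide +kernel)
  have hs : (GM gmD).IsSymm := by
    rw [GM_D] at hq ⊢
    exact (lor_UEE1 hK hq).symm
  rw [← GM_D]
  exact finite_index_of_cert rootsOK_D repsOK_D (by decide +kernel) (by norm_num) genOK_D permOK_D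
    idOK_D (by decide +kernel) rowOK_D combOK_D (by decide +kernel) (cw := cwD)
    (by decide +kernel) (by decide +kernel) (by decide +kernel) hs
    (fun q hq => by
      rw [GM_D] at hq ⊢
      exact lor_UEE1 hK hq) (by norm_num)

end Pool.Agent.RFV
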