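import Mathlib
import Pool.Agent.Lib.MP_dcc566_gt_P1.Defs
import Pool.Agent.Lib.MP_dcc566_gt.Defs

/-!
# The trace of the product of two reflections
-/

set_option autoImplicit false

namespace Pool.Agent.RFN

open Matrix
open Pool.Agent.RFL (toR bl IsRefl OR GLZ OZ W cj)
open MP_dcc566_gt (bf rv)

private theorem Na_mulVec {n : ℕ} (v y x : Fin n → ℝ) :
    vecMulVec v y *ᵥ x = (y ⬝ᵥ x) • v := by
  ext i
  simp only [mulVec, dotProduct, vecMulVec_apply, Pi.smul_apply, smul_eq_mul, Finset.sum_mul]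
  refine Finset.sum_congr rfl fun j _ => ?_
  ring

/-- PROOF.  `g.val = 1 - (2 / bl B v v) • vecMulVec v (v ᵥ* B)` (`Matrix.ext_of_mulVec_single` or `mulVec` on all `x`:
`bl B v x = (v ᵥ* B) ⬝ᵥ x`, `Matrix.dotProduct_mulVec`; compare `FvB1_mulVec` in `MP_dcc566_gt_R/FvB1.lean`), the same for `h`, `w`.
Expand the product: `trace (vecMulVec v y) = v ⬝ᵥ y` (`Matrix.trace_vecMulVec`), so `trace (vecMulVec v (v ᵥ* B)) = bl B v v`, and
`vecMulVec v y * vecMulVec w z = (y ⬝ᵥ w) • vecMulVec v z`, trace `(v ᵥ* B ⬝ᵥ w) (v ⬝ᵥ w ᵥ* B) = bl B v w * bl B w v`, and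
`bl B w v = bl B v w` (`hB`).  `trace 1 = n`. -/
theorem trace_refl {n : ℕ} {B : Matrix (Fin n) (Fin n) ℝ} (hB : Bᵀ = B) {g h : GL (Fin n) ℝ}
    {v w : Fin n → ℝ} (hg : IsRefl B g v) (hh : IsRefl B h w) :
    (g.val * h.val).trace = n - 4 + 4 * (bl B v w) ^ 2 / (bl B v v * bl B w w) := by
  have hs : ∀ x y : Fin n → ℝ, bl B x y = bl B y x := by
    intro x y
    rw [bl, bl, dotProduct_mulVec, dotProduct_comm]
    congr 1
    conv_rhs => rw [← hB]
    rw [mulVec_transpose]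
  have key : ∀ (g : GL (Fin n) ℝ) (v : Fin n → ℝ), IsRefl B g v →
      g.val = 1 - (2 / bl B v v) • vecMulVec v (v ᵥ* B) := by
    intro g v hg
    apply Matrix.ext_of_mulVec_single
    intro i
    rw [hg.2, sub_mulVec, one_mulVec, smul_mulVec, Na_mulVec, ← dotProduct_mulVec, smul_smul]
    congr 2
    rw [bl]
    ring
  have hv := hg.1.ne'
  have hw := hh.1.ne'
  have hVW : vecMulVec v (v ᵥ* B) * vecMulVec w (w ᵥ* B) =
      bl B v w • vecMulVec v (w ᵥ* B) := by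
    ext i j
    rw [Matrix.mul_apply, Matrix.smul_apply, vecMulVec_apply, bl, dotProduct_mulVec, dotProduct,
      smul_eq_mul, Finset.sum_mul]
    refine Finset.sum_congr rfl fun k _ => ?_
    rw [vecMulVec_apply, vecMulVec_apply]
    ring
  have htr : ∀ x y : Fin n → ℝ, (vecMulVec x (y ᵥ* B)).trace = bl B y x := by
    intro x y
    rw [trace_vecMulVec, dotProduct_comm, ← dotProduct_mulVec, bl]
  rw [key g v hg, key h w hh, Matrix.sub_mul, Matrix.mul_sub, Matrix.mul_sub, Matrix.one_mul,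
    Matrix.one_mul, Matrix.mul_one, Matrix.smul_mul, Matrix.mul_smul, hVW]
  simp only [trace_sub, trace_smul, trace_one, htr, Fintype.card_fin, smul_eq_mul]
  rw [hs w v]
  field_simp
  ring

/-- Conjugation of reflections.

PROOF.  `h = E * g * E⁻¹`, `Eᵀ B' E = B` gives `bl B x y = bl B' (E x) (E y)`.  `h *ᵥ x = E (g (E⁻¹ x)) = E (E⁻¹ x - (2 bl B v (E⁻¹ x) /
bl B v v) v) = x - (2 bl B' (E v) x / bl B' (E v) (E v)) (E v)`.  (Compare `IsRefl` lemmas in `MP_dcc566_gt_P1/*.lean`, e.g. `IsReflGroup.cj`,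
`bl_congr`.) -/
theorem refl_conj {n : ℕ} {B B' : Matrix (Fin n) (Fin n) ℝ} {E g : GL (Fin n) ℝ}
    (hE : E.valᵀ * B' * E.val = B) {v : Fin n → ℝ} (hg : IsRefl B g v) :
    IsRefl B' (E * g * E⁻¹) (E.val *ᵥ v) := by
  have hEE : ∀ x : Fin n → ℝ, E.val *ᵥ (E⁻¹.val *ᵥ x) = x := by
    intro x
    rw [mulVec_mulVec, ← Units.val_mul, mul_inv_cancel, Units.val_one, one_mulVec]
  have hb : ∀ x y : Fin n → ℝ, bl B' (E.val *ᵥ x) (E.val *ᵥ y) = bl B x y := by
    intro x y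
    rw [← hE, bl, bl, dotProduct_mulVec x, Matrix.mul_assoc, ← vecMul_vecMul, vecMul_transpose,
      ← dotProduct_mulVec, ← mulVec_mulVec]
  refine ⟨by rw [hb]; exact hg.1, fun x => ?_⟩
  have h1 : bl B' (E.val *ᵥ v) x = bl B v (E⁻¹.val *ᵥ x) := by
    rw [← hb, hEE]
  rw [Units.val_mul, Units.val_mul, ← mulVec_mulVec, ← mulVec_mulVec, hg.2, mulVec_sub, mulVec_smul,
    hEE, hb, h1]

end Pool.Agent.RFN
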