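import Mathlib
import Pool.Agent.Lib.MP_dcc566_gt_R.MXb
import Pool.Agent.Lib.MP_dcc566_gt_E.Fxa

/-!
# Reflections of the lattice `U ⊕ E₈ ⊕ E₈ ⊕ ⟨2⟩`
-/

set_option autoImplicit false

namespace Pool.Agent.RFN

open Matrix
open Pool.Agent.RFL (toR bl IsRefl OR GLZ OZ W cj)
open MP_dcc566_gt (bf rv mk LG Idx E8)

/-- An integral reflection is the reflection in a primitive integral root.

PROOF.  `M = LatE (1 : GL (Fin n) ℝ)` is the set of all integral vectors `rv u`.  `x - g x = (2 bl B v x / bl B v v) • v` is integral for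
integral `x` (`LatE_mem` with `E = 1`); `exists_lat_pair (E := 1)` gives an integral `x` with `bl B v x ≠ 0`, so a nonzero multiple of `v` is
in `M`; `v ≠ 0`; `line_cyclic`: `c > 0` with `s • v ∈ M ↔ ∃ k : ℤ, s = k * c`.  `c • v = rv e`.  `s • rv e = (s c) • v`, so (3) `s` is an
integer if `s • rv e` is integral.  (2): `(2 bl B v x / bl B v v) = k c` for integral `x`, so with `rv e = c v`: `bl B (rv e) x = c bl B v x`,
`bl B (rv e) (rv e) = c² bl B v v`, `2 bl B (rv e) x = k bl B (rv e) (rv e)`; `bl_toR`. -/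
theorem refl_int {n : ℕ} {G : Matrix (Fin n) (Fin n) ℤ} {g : GL (Fin n) ℝ} {v : Fin n → ℝ}
    (hg : IsRefl (toR G) g v) (hZ : g ∈ GLZ n) : ∃ (e : Fin n → ℤ) (c : ℝ), 0 < c ∧
      c • v = rv e ∧ (∀ x, bf G e e ∣ 2 * bf G e x) ∧
      ∀ s : ℝ, (∃ u : Fin n → ℤ, s • rv e = rv u) → ∃ k : ℤ, s = k := by
  have hbl : ∀ x y : Fin n → ℤ, bl (toR G) (rv x) (rv y) = ((bf G x y : ℤ) : ℝ) := by
    intro x y
    simp only [bl, toR, bf, rv, dotProduct, mulVec, Matrix.map_apply]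
    push_cast
    rfl
  have hsm : ∀ (c : ℝ) (x y : Fin n → ℝ), bl (toR G) (c • x) y = c * bl (toR G) x y :=
    fun c x y => MP_dcc566_gt.bf_smul_left (toR G) c x y
  have hsm' : ∀ (c : ℝ) (x y : Fin n → ℝ), bl (toR G) x (c • y) = c * bl (toR G) x y :=
    fun c x y => MP_dcc566_gt.bf_smul_right (toR G) c x y
  have hmem : ∀ x : Fin n → ℝ, x ∈ LatE (1 : GL (Fin n) ℝ) ↔ ∃ u : Fin n → ℤ, x = rv u := by
    intro x
    change (∃ u : Fin n → ℤ, (1 : GL (Fin n) ℝ).val *ᵥ x = rv u) ↔ _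
    rw [Units.val_one, one_mulVec]
  have hsub : ∀ x ∈ LatE (1 : GL (Fin n) ℝ),
      (2 * bl (toR G) v x / bl (toR G) v v) • v ∈ LatE (1 : GL (Fin n) ℝ) := by
    intro x hx
    have h1 : g.val *ᵥ x ∈ LatE (1 : GL (Fin n) ℝ) :=
      LatE_mem (E := 1) (by rw [one_mul, inv_one, mul_one]; exact hZ) hx
    have h2 := (LatE (1 : GL (Fin n) ℝ)).sub_mem hx h1
    rw [hg.2 x, sub_sub_cancel] at h2
    exact h2
  obtain ⟨x₀, hx₀, hx₁⟩ := exists_lat_pair (1 : GL (Fin n) ℝ) (B := toR G) hg.1.ne'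
  have hv : v ≠ 0 := by
    rintro rfl
    have h1 := hg.1
    unfold bl at h1
    rw [zero_dotProduct] at h1
    exact lt_irrefl _ h1
  obtain ⟨c, hc, hs⟩ := line_cyclic (1 : GL (Fin n) ℝ) hv
    (t := 2 * bl (toR G) v x₀ / bl (toR G) v v)
    (div_ne_zero (mul_ne_zero two_ne_zero hx₁) hg.1.ne') (hsub x₀ hx₀)
  obtain ⟨e, he⟩ := (hmem (c • v)).1 ((hs c).2 ⟨1, by rw [Int.cast_one, one_mul]⟩)
  refine ⟨e, c, hc, he, ?_, ?_⟩
  · intro x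
    obtain ⟨k, hk⟩ := (hs _).1 (hsub (rv x) ((hmem _).2 ⟨x, rfl⟩))
    have h1 : ((bf G e x : ℤ) : ℝ) = c * bl (toR G) v (rv x) := by
      rw [← hbl, ← he, hsm]
    have h2 : ((bf G e e : ℤ) : ℝ) = c * (c * bl (toR G) v v) := by
      rw [← hbl, ← he, hsm, hsm']
    rw [div_eq_iff hg.1.ne'] at hk
    refine ⟨k, ?_⟩
    have h3 : 2 * ((bf G e x : ℤ) : ℝ) = ((bf G e e : ℤ) : ℝ) * k := by
      rw [h1, h2]
      linear_combination c * hk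
    exact_mod_cast h3
  · rintro s ⟨u, hu⟩
    rw [← he, smul_smul] at hu
    obtain ⟨k, hk⟩ := (hs _).1 ((hmem _).2 ⟨u, hu⟩)
    exact ⟨k, mul_right_cancel₀ hc.ne' hk⟩

/-- Primitive roots of `U ⊕ E₈ ⊕ E₈ ⊕ ⟨2⟩` have norm 2.

PROOF.  `e = x ∘ idx19.symm`, `x = mk a b u₁ u₂ z` (`exists_mk`), `G = UEE1 !![2]`; `bf_UEE1`, `bf_mk`: `bf G e e = 2ab + (u₁,u₁) + (u₂,u₂) + 2 (z 0)²`
is even (`UEE1_even`, `K1_vals`), `= 2κ`, `κ > 0`.  `h2` for `mk 1 0 0 0 0`, `mk 0 1 0 0 0`: `κ ∣ b`, `κ ∣ a`; for `mk 0 0 w 0 0`, `mk 0 0 0 w 0`: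
`κ ∣ bf E8 u₁ w`, `κ ∣ bf E8 u₂ w` for all `w`, so `u₁ = κ • u₁'`, `u₂ = κ • u₂'` (`MP_dcc566_gt.E8_unimod`); for `mk 0 0 0 0 ![1]`: `κ ∣ 2 z 0`.
So `(2/κ) • rv e` is integral, so (`hp`) `2/κ` is an integer: `κ = 1` or `κ = 2`.  If `κ = 2`: `4 = 2ab + 4 (u₁',u₁') + 4 (u₂',u₂') + 2 (z 0)²` with
`a, b` even and `(u',u')` even (`E8_even`), so `2 (z 0)² = 4 mod 8`, `(z 0)² = 2 mod 4`: impossible. -/
theorem root_two_C {e : Fin 19 → ℤ} (h0 : 0 < bf (UEE1 !![2]) e e)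
    (h2 : ∀ x, bf (UEE1 !![2]) e e ∣ 2 * bf (UEE1 !![2]) e x)
    (hp : ∀ s : ℝ, (∃ u : Fin 19 → ℤ, s • rv e = rv u) → ∃ k : ℤ, s = k) :
    bf (UEE1 !![2]) e e = 2 := by
  obtain ⟨a, b, u₁, u₂, z, hx⟩ := MP_dcc566_gt.exists_mk (e ∘ idx19)
  have hu : e = mk a b u₁ u₂ z ∘ idx19.symm := by
    rw [← hx]
    funext i
    simp
  have hform : ∀ (a' b' : ℤ) (w₁ w₂ : Fin 8 → ℤ) (z' : Fin 1 → ℤ),
      bf (UEE1 !![2]) e ((mk a' b' w₁ w₂ z' : Idx 1 → ℤ) ∘ idx19.symm) =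
        a * b' + b * a' + bf E8 u₁ w₁ + bf E8 u₂ w₂ + 2 * z 0 * z' 0 := by
    intro a' b' w₁ w₂ z'
    rw [hu]
    unfold UEE1
    rw [bf_UEE1, MP_dcc566_gt.bf_mk]
    have h1 : bf (!![2] : Matrix (Fin 1) (Fin 1) ℤ) z z' = 2 * z 0 * z' 0 := by
      rw [MP_dcc566_gt.bf_eq_sum, Fin.sum_univ_one, Fin.sum_univ_one]
      change z 0 * 2 * z' 0 = 2 * z 0 * z' 0
      ring
    rw [h1]
  have hee : bf (UEE1 !![2]) e e = 2 * (a * b) + bf E8 u₁ u₁ + bf E8 u₂ u₂ + 2 * z 0 * z 0 := by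
    have h1 := hform a b u₁ u₂ z
    rw [← hu] at h1
    rw [h1]
    ring
  obtain ⟨κ, hκ⟩ := UEE1_even (K1_vals (Or.inl rfl)).2.2 e
  rw [hκ] at h0 h2 ⊢
  have hκ0 : 0 < κ := by linarith
  have hd : ∀ x, κ ∣ bf (UEE1 !![2]) e x := fun x =>
    (mul_dvd_mul_iff_left (two_ne_zero : (2 : ℤ) ≠ 0)).1 (h2 x)
  obtain ⟨b', hb'⟩ : κ ∣ b := by
    have h1 := hd ((mk 1 0 0 0 0 : Idx 1 → ℤ) ∘ idx19.symm)
    rw [hform] at h1
    simpa [MP_dcc566_gt.bf_zero_right] using h1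
  obtain ⟨a', ha'⟩ : κ ∣ a := by
    have h1 := hd ((mk 0 1 0 0 0 : Idx 1 → ℤ) ∘ idx19.symm)
    rw [hform] at h1
    simpa [MP_dcc566_gt.bf_zero_right] using h1
  obtain ⟨v₁, hv₁⟩ : ∃ u', u₁ = κ • u' := by
    refine MP_dcc566_gt.E8_unimod fun w => ?_
    have h1 := hd ((mk 0 0 w 0 0 : Idx 1 → ℤ) ∘ idx19.symm)
    rw [hform] at h1
    simpa [MP_dcc566_gt.bf_zero_right] using h1
  obtain ⟨v₂, hv₂⟩ : ∃ u', u₂ = κ • u' := by
    refine MP_dcc566_gt.E8_unimod fun w => ?_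
    have h1 := hd ((mk 0 0 0 w 0 : Idx 1 → ℤ) ∘ idx19.symm)
    rw [hform] at h1
    simpa [MP_dcc566_gt.bf_zero_right] using h1
  obtain ⟨z', hz'⟩ : κ ∣ 2 * z 0 := by
    have h1 := hd ((mk 0 0 0 0 ![1] : Idx 1 → ℤ) ∘ idx19.symm)
    rw [hform] at h1
    simpa [MP_dcc566_gt.bf_zero_right] using h1
  have hκR : (κ : ℝ) ≠ 0 := by exact_mod_cast hκ0.ne'
  obtain ⟨w, hw⟩ : ∃ w : Fin 19 → ℤ, (2 : ℤ) • e = κ • w := by
    refine ⟨mk (2 * a') (2 * b') ((2 : ℤ) • v₁) ((2 : ℤ) • v₂) (fun _ => z') ∘ idx19.symm, ?_⟩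
    have h1 : (2 : ℤ) • (mk a b u₁ u₂ z : Idx 1 → ℤ) =
        κ • mk (2 * a') (2 * b') ((2 : ℤ) • v₁) ((2 : ℤ) • v₂) (fun _ => z') := by
      rw [MP_dcc566_gt.smul_mk, MP_dcc566_gt.smul_mk, ha', hb', hv₁, hv₂]
      congr 1
      · ring
      · ring
      · rw [smul_smul, smul_smul, mul_comm]
      · rw [smul_smul, smul_smul, mul_comm]
      · funext i
        fin_cases i
        exact hz'
    rw [hu]
    funext i
    exact congrFun h1 (idx19.symm i)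
  obtain ⟨k, hk⟩ := hp (2 / κ) ⟨w, by
    have h1 := congrArg rv hw
    rw [MP_dcc566_gt.rv_smul, MP_dcc566_gt.rv_smul] at h1
    have h3 : (κ : ℝ)⁻¹ • (((2 : ℤ) : ℝ) • (rv e : Fin 19 → ℝ)) =
        (κ : ℝ)⁻¹ • ((κ : ℝ) • (rv w : Fin 19 → ℝ)) := by rw [h1]
    rw [smul_smul, smul_smul, inv_mul_cancel₀ hκR, one_smul] at h3
    rw [← h3]
    congr 1
    push_cast
    ring⟩
  rw [div_eq_iff hκR] at hk
  have hk' : (2 : ℤ) = k * κ := by exact_mod_cast hk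
  have hκ2 : κ ≤ 2 := Int.le_of_dvd (by norm_num) ⟨k, by rw [hk', mul_comm]⟩
  have hκ12 : κ = 1 ∨ κ = 2 := by omega
  rcases hκ12 with h1 | h1
  · rw [h1, mul_one]
  · exfalso
    rw [hκ, h1] at hee
    rw [h1] at ha' hb' hv₁ hv₂
    obtain ⟨k1, hk1⟩ := MP_dcc566_gt.E8_even v₁
    obtain ⟨k2, hk2⟩ := MP_dcc566_gt.E8_even v₂
    rw [ha', hb', hv₁, hv₂, MP_dcc566_gt.bf_smul_left, MP_dcc566_gt.bf_smul_right,
      MP_dcc566_gt.bf_smul_left, MP_dcc566_gt.bf_smul_right, hk1, hk2] at hee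
    have h4 : z 0 * z 0 = 2 - 4 * (a' * b') - 4 * k1 - 4 * k2 := by linarith
    rcases Int.even_or_odd' (z 0) with ⟨m, hm | hm⟩
    · rw [hm] at h4
      have h5 : 4 * (m * m) = 2 - 4 * (a' * b') - 4 * k1 - 4 * k2 := by linarith
      omega
    · rw [hm] at h4
      have h5 : 4 * (m * m) + 4 * m + 1 = 2 - 4 * (a' * b') - 4 * k1 - 4 * k2 := by linarith
      omega

end Pool.Agent.RFN
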