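import Mathlib
import Pool.Agent.Lib.MP_dcc566_gt_E.Na
import Pool.Agent.Lib.MP_dcc566_gt_E.Nb
import Pool.Agent.Lib.MP_dcc566_gt_R.FvB1

/-!
# The two groups are not conjugate (n = 18)
-/

set_option autoImplicit false

namespace Pool.Agent.RFN

open Matrix
open Pool.Agent.RFL (J toR bl IsRefl OR GLZ OZ W cj)
open MP_dcc566_gt (bf rv mk LG Idx E8)

private theorem Nc_bl {n : ℕ} {G : Matrix (Fin n) (Fin n) ℤ} (x y : Fin n → ℤ) :
    bl (toR G) (rv x) (rv y) = ((bf G x y : ℤ) : ℝ) := Pool.Agent.RFL.bl_toR G x y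

private theorem Nc_smul_left {n : ℕ} {B : Matrix (Fin n) (Fin n) ℝ} (c : ℝ) (x y : Fin n → ℝ) :
    bl B (c • x) y = c * bl B x y := MP_dcc566_gt.bf_smul_left B c x y

private theorem Nc_smul_right {n : ℕ} {B : Matrix (Fin n) (Fin n) ℝ} (c : ℝ) (x y : Fin n → ℝ) :
    bl B x (c • y) = c * bl B x y := MP_dcc566_gt.bf_smul_right B c x y

private theorem Nc_mulVec {n : ℕ} (v y x : Fin n → ℝ) :
    vecMulVec v y *ᵥ x = (y ⬝ᵥ x) • v := by
  ext i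
  simp only [mulVec, dotProduct, vecMulVec_apply, Pi.smul_apply, smul_eq_mul, Finset.sum_mul]
  refine Finset.sum_congr rfl fun j _ => ?_
  ring

private theorem Nc_single {n : ℕ} (j : Fin n) :
    (rv (Pi.single j 1) : Fin n → ℝ) = Pi.single j 1 := by
  funext i
  by_cases h : i = j
  · subst h
    simp [rv]
  · simp [rv, h]

/-- a root gives a reflection in `W G` -/
private theorem Nc_refl {n : ℕ} {G : Matrix (Fin n) (Fin n) ℤ} (hG : G.IsSymm) {e : Fin n → ℤ}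
    (he : Rt G e) : ∃ g ∈ W G, IsRefl (toR G) g (rv e) := by
  obtain ⟨g, hg, hgx⟩ := exists_refl_mem hG he
  have hpos : (0 : ℝ) < ((bf G e e : ℤ) : ℝ) := by exact_mod_cast he.1
  have hval : g.val = 1 - (2 / bl (toR G) (rv e) (rv e)) •
      vecMulVec (rv e) ((rv e) ᵥ* toR G) := by
    apply Matrix.ext_of_mulVec_single
    intro i
    obtain ⟨c, hc, hx⟩ := hgx (Pi.single i 1)
    rw [Nc_single] at hx
    rw [hx, sub_mulVec, one_mulVec, smul_mulVec, Nc_mulVec, ← dotProduct_mulVec, ← Nc_single i,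
      smul_smul]
    have h1 : (rv e) ⬝ᵥ (toR G *ᵥ rv (Pi.single i 1)) = ((bf G e (Pi.single i 1) : ℤ) : ℝ) :=
      Nc_bl e (Pi.single i 1)
    rw [h1, Nc_bl]
    have h2 : ((c : ℤ) : ℝ) = 2 / ((bf G e e : ℤ) : ℝ) * ((bf G e (Pi.single i 1) : ℤ) : ℝ) := by
      have h3 : ((c : ℤ) : ℝ) * ((bf G e e : ℤ) : ℝ) = 2 * ((bf G e (Pi.single i 1) : ℤ) : ℝ) := by
        exact_mod_cast hc
      field_simp
      linarith
    rw [← h2]
    funext j
    simp only [rv, Pi.sub_apply, Pi.smul_apply, smul_eq_mul]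
    push_cast
    ring
  refine ⟨g, hg, by rw [Nc_bl]; exact hpos, fun x => ?_⟩
  rw [hval, sub_mulVec, one_mulVec, smul_mulVec, Nc_mulVec, ← dotProduct_mulVec, smul_smul]
  congr 2
  rw [bl, bl]
  ring

private theorem Nc_W_le {n : ℕ} (G : Matrix (Fin n) (Fin n) ℤ) : W G ≤ OZ G :=
  (Subgroup.closure_le _).2 fun _ hg => hg.1

/-- the data of a reflection of the lattice `U ⊕ E₈ ⊕ E₈ ⊕ ⟨2⟩` -/
private theorem Nc_root {g : GL (Fin 19) ℝ} {v : Fin 19 → ℝ}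
    (hg : IsRefl (toR (UEE1 !![2])) g v) (hgZ : g ∈ GLZ 19) :
    ∃ (e : Fin 19 → ℤ) (c : ℝ), 0 < c ∧ c • v = rv e ∧ bf (UEE1 !![2]) e e = 2 := by
  obtain ⟨e, c, hc, hce, h2, hp⟩ := refl_int hg hgZ
  refine ⟨e, c, hc, hce, root_two_C ?_ h2 hp⟩
  have h1 : ((bf (UEE1 !![2]) e e : ℤ) : ℝ) = c * (c * bl (toR (UEE1 !![2])) v v) := by
    rw [← Nc_bl, ← hce, Nc_smul_left, Nc_smul_right]
  have h3 : (0 : ℝ) < ((bf (UEE1 !![2]) e e : ℤ) : ℝ) := by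
    rw [h1]
    exact mul_pos hc (mul_pos hc hg.1)
  exact_mod_cast h3

/-- Two reflections of `U ⊕ E₈ ⊕ E₈ ⊕ ⟨2⟩`: the trace of the product is `15 + a²`, `a` integral.

PROOF.  `refl_int` gives integral `e = c v`, `f = c' w`; `root_two_C`: both have norm 2
(`0 < bf e e` because `bl (rv e) (rv e) = c² bl v v > 0`,
`bl_toR`).  `trace_refl` (`n = 19`): `15 + 4 (bl v w)² / (bl v v * bl w w)`, and
`bl (rv e) (rv f) = c c' bl v w = a`, `2 = c² bl v v`,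
`2 = c'² bl w w`, so the quotient is `4 a² / 4`. -/
theorem trace_C {g h : GL (Fin 19) ℝ} {v w : Fin 19 → ℝ} (hg : IsRefl (toR (UEE1 !![2])) g v)
    (hh : IsRefl (toR (UEE1 !![2])) h w) (hgZ : g ∈ GLZ 19) (hhZ : h ∈ GLZ 19) :
    ∃ a : ℤ, (g.val * h.val).trace = 15 + a ^ 2 := by
  obtain ⟨e, c, hc, hce, hee⟩ := Nc_root hg hgZ
  obtain ⟨f, c', hc', hcf, hff⟩ := Nc_root hh hhZ
  have hB : (toR (UEE1 !![2]))ᵀ = toR (UEE1 !![2]) :=
    (UEE1_symm (K1_vals (Or.inl rfl)).1).map _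
  refine ⟨bf (UEE1 !![2]) e f, ?_⟩
  have h1 : c * (c * bl (toR (UEE1 !![2])) v v) = 2 := by
    rw [← Nc_smul_right, ← Nc_smul_left, hce, Nc_bl, hee]
    norm_num
  have h2 : c' * (c' * bl (toR (UEE1 !![2])) w w) = 2 := by
    rw [← Nc_smul_right, ← Nc_smul_left, hcf, Nc_bl, hff]
    norm_num
  have h3 : c * (c' * bl (toR (UEE1 !![2])) v w) = ((bf (UEE1 !![2]) e f : ℤ) : ℝ) := by
    rw [← Nc_smul_right, ← Nc_smul_left, hce, hcf, Nc_bl]
  rw [trace_refl hB hg hh, ← h3]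
  have hv := hg.1.ne'
  have hw := hh.1.ne'
  have h4 : (bl (toR (UEE1 !![2])) v v * bl (toR (UEE1 !![2])) w w) * (c * c') ^ 2 = 4 := by
    linear_combination (c' * (c' * bl (toR (UEE1 !![2])) w w)) * h1 + 2 * h2
  have h5 : 4 * bl (toR (UEE1 !![2])) v w ^ 2 /
      (bl (toR (UEE1 !![2])) v v * bl (toR (UEE1 !![2])) w w) =
      (c * (c' * bl (toR (UEE1 !![2])) v w)) ^ 2 := by
    rw [div_eq_iff (mul_ne_zero hv hw)]
    linear_combination -(bl (toR (UEE1 !![2])) v w) ^ 2 * h4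
  rw [h5]
  norm_num

/-- Two reflections of `U ⊕ E₈ ⊕ E₈ ⊕ ⟨4⟩` with trace of the product 17.

PROOF.  `e = mk 2 0 0 0 ![1] ∘ idx19.symm` (norm 4, all products even), `f = e01` (norm 2),
`bf e f = 2`.  `exists_refl_mem` (`FvB1.lean`) for
`Rt G e`, `Rt G f` gives `g, h ∈ W G` with the values on integral vectors, so on all real vectors
(both sides are linear: columns), i.e.
`IsRefl (toR G) g (rv e)` (or use the proof of `exists_refl_mem`, where this is shown; or define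
the reflections by `W` directly: `Subgroup.subset_closure`).
`trace_refl`: `19 - 4 + 4 * 2² / (4 * 2) = 17`. -/
theorem exists_trace_D : ∃ (g h : GL (Fin 19) ℝ) (v w : Fin 19 → ℝ),
    g ∈ W (UEE1 !![4]) ∧ h ∈ W (UEE1 !![4]) ∧ IsRefl (toR (UEE1 !![4])) g v ∧
      IsRefl (toR (UEE1 !![4])) h w ∧ (g.val * h.val).trace = 17 := by
  have hsym : (UEE1 !![4]).IsSymm := UEE1_symm (K1_vals (Or.inr rfl)).1
  have hB : (toR (UEE1 !![4]))ᵀ = toR (UEE1 !![4]) := hsym.map _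
  have hK : ∀ y z : Fin 1 → ℤ, bf !![4] y z = 4 * (y 0 * z 0) := by
    intro y z
    rw [MP_dcc566_gt.bf_eq_sum]
    simp
    ring
  have hval : ∀ (a b a' b' : ℤ) (u₁ u₂ u₁' u₂' : Fin 8 → ℤ) (z z' : Fin 1 → ℤ),
      bf (UEE1 !![4]) ((mk a b u₁ u₂ z : Idx 1 → ℤ) ∘ idx19.symm)
        ((mk a' b' u₁' u₂' z' : Idx 1 → ℤ) ∘ idx19.symm) =
      a * b' + b * a' + bf E8 u₁ u₁' + bf E8 u₂ u₂' + 4 * (z 0 * z' 0) := by
    intro a b a' b' u₁ u₂ u₁' u₂' z z'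
    unfold UEE1
    rw [bf_UEE1, MP_dcc566_gt.bf_mk, hK]
  obtain ⟨e, he⟩ : ∃ e : Fin 19 → ℤ, e = (mk 2 0 0 0 ![1] : Idx 1 → ℤ) ∘ idx19.symm := ⟨_, rfl⟩
  have hee : bf (UEE1 !![4]) e e = 4 := by
    rw [he, hval]
    simp only [MP_dcc566_gt.bf_zero_left]
    simp
  have hef : bf (UEE1 !![4]) e e01 = 2 := by
    rw [he, e01, hval]
    simp only [MP_dcc566_gt.bf_zero_left]
    simp
  have hRe : Rt (UEE1 !![4]) e := by
    refine ⟨by rw [hee]; norm_num, fun x => ?_⟩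
    obtain ⟨a, b, u₁, u₂, z, hx⟩ := MP_dcc566_gt.exists_mk (x ∘ idx19)
    have hu : x = mk a b u₁ u₂ z ∘ idx19.symm := by
      rw [← hx]
      funext i
      simp
    rw [hee, hu, he, hval]
    simp only [MP_dcc566_gt.bf_zero_left]
    refine ⟨b + 2 * z 0, ?_⟩
    simp
    ring
  have hRf : Rt (UEE1 !![4]) e01 := by
    refine ⟨by rw [e01_norm]; norm_num, fun x => ?_⟩
    rw [e01_norm]
    exact Dvd.intro _ rfl
  obtain ⟨g, hg, hgr⟩ := Nc_refl hsym hRe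
  obtain ⟨h, hh, hhr⟩ := Nc_refl hsym hRf
  refine ⟨g, h, rv e, rv e01, hg, hh, hgr, hhr, ?_⟩
  rw [trace_refl hB hgr hhr, Nc_bl, Nc_bl, Nc_bl, hee, hef, e01_norm]
  norm_num

/-- PROOF.  `E = C⁻¹ * C'`: `C' = C * E`, so `Eᵀ (toR G₂) E = toR G₄` (`G₂ = UEE1 !![2]`,
`G₄ = UEE1 !![4]`; as in `not_both`, `MP_dcc566_gt_R/GeoN2.lean`).
Take `g, h` from `exists_trace_D`, `g' = E g E⁻¹`, `h' = E h E⁻¹`: reflections for `toR G₂`
(`refl_conj`), in `cj C Γ = W G₂ ≤ GLZ` (`C' g C'⁻¹ ∈ Γ`,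
`mem_cj`), trace of `g' h'` = trace of `E (g h) E⁻¹` = 17 (`Matrix.trace_mul_cycle`).  `trace_C`:
`15 + a² = 17`, `a² = 2`: impossible. -/
theorem not_both1 {Γ : Subgroup (GL (Fin (18 + 1)) ℝ)} {C C' : GL (Fin (18 + 1)) ℝ}
    (h : C.valᵀ * J 18 * C.val = toR (UEE1 !![2])) (hΓ : cj C Γ = W (UEE1 !![2]))
    (h' : C'.valᵀ * J 18 * C'.val = toR (UEE1 !![4]))
    (hΓ' : cj C' Γ = W (UEE1 !![4])) : False := by
  obtain ⟨E, hE⟩ : ∃ E : GL (Fin 19) ℝ, E = C⁻¹ * C' := ⟨_, rfl⟩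
  have hCE : C * E = C' := by rw [hE, mul_inv_cancel_left]
  have hform : E.valᵀ * toR (UEE1 !![2]) * E.val = toR (UEE1 !![4]) := by
    rw [← h', ← h, ← hCE, Units.val_mul, transpose_mul]
    simp only [Matrix.mul_assoc]
  have hconj : ∀ g ∈ W (UEE1 !![4]), E * g * E⁻¹ ∈ GLZ 19 := by
    intro g hg
    rw [← hΓ'] at hg
    have h1 := Pool.Agent.RFL.mem_cj.1 hg
    have h2 : E * g * E⁻¹ ∈ cj C Γ := by
      refine Pool.Agent.RFL.mem_cj.2 ?_
      have e1 : C * (E * g * E⁻¹) * C⁻¹ = C' * g * C'⁻¹ := by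
        rw [← hCE]
        simp only [_root_.mul_inv_rev, mul_assoc]
      rw [e1]
      exact h1
    rw [hΓ] at h2
    exact (Nc_W_le _ h2).2
  obtain ⟨g, k, v, w, hg, hk, hgr, hkr, htr⟩ := exists_trace_D
  obtain ⟨a, ha⟩ := trace_C (refl_conj hform hgr) (refl_conj hform hkr) (hconj g hg) (hconj k hk)
  have h1 : (E * g * E⁻¹).val * (E * k * E⁻¹).val = E.val * ((g.val * k.val) * E⁻¹.val) := by
    rw [← Units.val_mul, ← Units.val_mul, ← Units.val_mul, ← Units.val_mul]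
    congr 1
    group
  rw [h1, trace_mul_comm, Matrix.mul_assoc, ← Units.val_mul E⁻¹ E, inv_mul_cancel, Units.val_one,
    Matrix.mul_one, htr] at ha
  have h2 : (a : ℝ) ^ 2 = 2 := by linarith
  have h3 : a ^ 2 = 2 := by exact_mod_cast h2
  have h4 : a.natAbs ^ 2 = 2 := by
    have := congrArg Int.natAbs h3
    rwa [Int.natAbs_pow] at this
  have h5 : a.natAbs ≤ 1 ∨ 2 ≤ a.natAbs := by omega
  rcases h5 with h5 | h5
  · interval_cases a.natAbs <;> omega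
  · nlinarith

end Pool.Agent.RFN
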