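import Mathlib
import Pool.Agent.Lib.MP_dcc566_gt_R.GeoX
import Pool.Agent.Lib.MP_dcc566_gt_E.Ey
import Pool.Agent.Lib.MP_dcc566_gt_E.Fxc
import Pool.Agent.Lib.MP_dcc566_gt_E.HvF
import Pool.Agent.Lib.MP_dcc566_gt_E.Nc

/-!
# The list of the maximal non-uniform arithmetic reflection groups of hyperbolic 18-space
-/

set_option autoImplicit false

namespace Pool.Agent.RFN

open Matrix
open Pool.Agent.RFL (J toR W OZ OR cj IsMaxRefl)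
open MP_dcc566_gt (rv bf)

private theorem Ez_cancel {n : ℕ} (B : Matrix (Fin n) (Fin n) ℝ) (C : GL (Fin n) ℝ) :
    C⁻¹.valᵀ * (C.valᵀ * B * C.val) * C⁻¹.val = B := by
  have h1 : C.val * C⁻¹.val = 1 := by rw [← Units.val_mul, mul_inv_cancel, Units.val_one]
  have h2 : C⁻¹.valᵀ * C.valᵀ = 1 := by rw [← transpose_mul, h1, transpose_one]
  calc C⁻¹.valᵀ * (C.valᵀ * B * C.val) * C⁻¹.val
      = (C⁻¹.valᵀ * C.valᵀ) * B * (C.val * C⁻¹.val) := by simp only [Matrix.mul_assoc]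
    _ = B := by rw [h1, h2, Matrix.one_mul, Matrix.mul_one]

theorem refl_K1 {K : Matrix (Fin 1) (Fin 1) ℤ} (hK : K = !![2] ∨ K = !![4]) :
    (W (UEE1 K)).relIndex (OZ (UEE1 K)) ≠ 0 := by
  rcases hK with rfl | rfl
  · exact Pool.Agent.RFV.refl_C
  · exact Pool.Agent.RFV.refl_D

/-- A group is a maximal non-uniform arithmetic reflection group of hyperbolic 18-space if and only
if it is conjugate to the reflection group of one of the two lattices. -/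
theorem isMax_iff18 {Γ : Subgroup (GL (Fin (18 + 1)) ℝ)} :
    IsMaxRefl (m := 18) Γ ↔ ∃ K : Matrix (Fin 1) (Fin 1) ℤ,
      (K = !![2] ∨ K = !![4]) ∧
      ∃ C : GL (Fin (18 + 1)) ℝ, C.valᵀ * J 18 * C.val = toR (UEE1 K) ∧ cj C Γ = W (UEE1 K) := by
  constructor
  · exact forward18
  · rintro ⟨K, hK, C, h, hΓ⟩
    exact isMax_of_model1 hK h hΓ (refl_K1 hK)

/-- A negative vector of `UEE1 K`. -/
theorem exists_neg_UEE1 (K : Matrix (Fin 1) (Fin 1) ℤ) :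
    ∃ q : Fin 19 → ℤ, bf (UEE1 K) q q < 0 := by
  refine ⟨(MP_dcc566_gt.mk 1 (-1) 0 0 0 : MP_dcc566_gt.Idx 1 → ℤ) ∘ idx19.symm, ?_⟩
  unfold UEE1
  rw [bf_UEE1, MP_dcc566_gt.bf_mk]
  simp [MP_dcc566_gt.bf_zero_right]

theorem evenPD_K1 {K : Matrix (Fin 1) (Fin 1) ℤ} (hK : K = !![2] ∨ K = !![4]) :
    MP_dcc566_gt.EvenPD K := by
  rcases hK with rfl | rfl
  · exact EvenPD_q (q := 1) le_rfl
  · exact EvenPD_q (q := 2) (by norm_num)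

theorem exists_C1 {K : Matrix (Fin 1) (Fin 1) ℤ} (hK : K = !![2] ∨ K = !![4]) :
    ∃ C : GL (Fin (18 + 1)) ℝ, C.valᵀ * J 18 * C.val = toR (UEE1 K) := by
  obtain ⟨q, hq⟩ := exists_neg_UEE1 K
  exact exists_C_of_lor (Pool.Agent.RFV.lor_UEE1 (evenPD_K1 hK) hq)

theorem conj_of_models18 {G : Matrix (Fin (18 + 1)) (Fin (18 + 1)) ℤ}
    {Γ Γ' : Subgroup (GL (Fin (18 + 1)) ℝ)} {C C' : GL (Fin (18 + 1)) ℝ}
    (h : C.valᵀ * J 18 * C.val = toR G) (hΓ : cj C Γ = W G)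
    (h' : C'.valᵀ * J 18 * C'.val = toR G) (hΓ' : cj C' Γ' = W G) :
    ∃ g ∈ OR (J 18), cj g Γ = Γ' := by
  refine ⟨C * C'⁻¹, ?_, ?_⟩
  · rw [Pool.Agent.RFL.mem_OR, Units.val_mul, Matrix.transpose_mul]
    calc C'⁻¹.valᵀ * C.valᵀ * J 18 * (C.val * C'⁻¹.val)
        = C'⁻¹.valᵀ * (C.valᵀ * J 18 * C.val) * C'⁻¹.val := by simp only [Matrix.mul_assoc]
      _ = C'⁻¹.valᵀ * (C'.valᵀ * J 18 * C'.val) * C'⁻¹.val := by rw [h, h']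
      _ = J 18 := Ez_cancel (J 18) C'
  · rw [Pool.Agent.RFL.cj_cj, hΓ, ← hΓ', ← Pool.Agent.RFL.cj_cj, mul_inv_cancel,
      Pool.Agent.RFL.cj_one]

/-- The complete list. -/
theorem classification18 :
    ∃ Γ₁ Γ₂ : Subgroup (GL (Fin (18 + 1)) ℝ),
      IsMaxRefl (m := 18) Γ₁ ∧ IsMaxRefl (m := 18) Γ₂ ∧ (¬ ∃ g ∈ OR (J 18), cj g Γ₁ = Γ₂) ∧
      (∀ Γ : Subgroup (GL (Fin (18 + 1)) ℝ), IsMaxRefl (m := 18) Γ →
        ∃ g ∈ OR (J 18), cj g Γ = Γ₁ ∨ cj g Γ = Γ₂) ∧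
      (∃ C : GL (Fin (18 + 1)) ℝ, C.valᵀ * J 18 * C.val = toR (UEE1 !![2]) ∧
        cj C Γ₁ = W (UEE1 !![2])) ∧
      (∃ C : GL (Fin (18 + 1)) ℝ, C.valᵀ * J 18 * C.val = toR (UEE1 !![4]) ∧
        cj C Γ₂ = W (UEE1 !![4])) := by
  obtain ⟨C₁, h₁⟩ := exists_C1 (K := !![2]) (Or.inl rfl)
  obtain ⟨C₂, h₂⟩ := exists_C1 (K := !![4]) (Or.inr rfl)
  have e₁ : cj C₁ (cj C₁⁻¹ (W (UEE1 !![2]))) = W (UEE1 !![2]) := by
    rw [← Pool.Agent.RFL.cj_cj, inv_mul_cancel, Pool.Agent.RFL.cj_one]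
  have e₂ : cj C₂ (cj C₂⁻¹ (W (UEE1 !![4]))) = W (UEE1 !![4]) := by
    rw [← Pool.Agent.RFL.cj_cj, inv_mul_cancel, Pool.Agent.RFL.cj_one]
  refine ⟨cj C₁⁻¹ (W (UEE1 !![2])), cj C₂⁻¹ (W (UEE1 !![4])),
    isMax_iff18.2 ⟨_, Or.inl rfl, C₁, h₁, e₁⟩, isMax_iff18.2 ⟨_, Or.inr rfl, C₂, h₂, e₂⟩, ?_, ?_,
    ⟨C₁, h₁, e₁⟩, ⟨C₂, h₂, e₂⟩⟩
  · rintro ⟨g, hg, hgΓ⟩
    refine not_both1 h₁ e₁ (C' := g * C₂) ?_ ?_
    · rw [Units.val_mul, Matrix.transpose_mul]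
      calc C₂.valᵀ * g.valᵀ * J 18 * (g.val * C₂.val)
          = C₂.valᵀ * (g.valᵀ * J 18 * g.val) * C₂.val := by simp only [Matrix.mul_assoc]
        _ = toR (UEE1 !![4]) := by
          rw [Pool.Agent.RFL.mem_OR.1 hg, h₂]
    · rw [Pool.Agent.RFL.cj_cj, hgΓ, e₂]
  · intro Γ hΓ
    obtain ⟨K, hK, C, h, hC⟩ := isMax_iff18.1 hΓ
    rcases hK with rfl | rfl
    · obtain ⟨g, hg, h3⟩ := conj_of_models18 h hC h₁ e₁
      exact ⟨g, hg, Or.inl h3⟩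
    · obtain ⟨g, hg, h3⟩ := conj_of_models18 h hC h₂ e₂
      exact ⟨g, hg, Or.inr h3⟩

end Pool.Agent.RFN
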